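import Pool.Agent.W401.SSS.Stm

/-!
# SSS-STRICT: strict definiteness of the logarithmic energy
-/

set_option autoImplicit false

open MeasureTheory Polynomial

namespace Pool.Agent.W401.SSS

namespace STRICTaux

open Set Filter Topology

/-- cosine transform of an exponential -/
theorem cosT {a : ℝ} (ha : 0 < a) (v : ℝ) :
    ∫ u in Ioi (0 : ℝ), Real.exp (-(a * u)) * Real.cos (u * v) = a / (a ^ 2 + v ^ 2) := by
  have hc : ((-(a : ℂ) + v * Complex.I)).re < 0 := by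
    simp [ha]
  have h := integral_exp_mul_complex_Ioi hc 0
  have h2 : ∀ u : ℝ, Real.exp (-(a * u)) * Real.cos (u * v) =
      RCLike.re (Complex.exp ((-(a : ℂ) + v * Complex.I) * u)) := by
    intro u
    rw [RCLike.re_to_complex, Complex.exp_re]
    have e1 : ((-(a : ℂ) + v * Complex.I) * u).re = -(a * u) := by simp
    have e2 : ((-(a : ℂ) + v * Complex.I) * u).im = u * v := by simp [mul_comm]
    rw [e1, e2]
  simp_rw [h2]
  rw [integral_re (integrableOn_exp_mul_complex_Ioi hc 0), h, RCLike.re_to_complex]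
  have hne : (-(a : ℂ) + v * Complex.I) ≠ 0 := by
    intro h0
    rw [h0] at hc
    simp at hc
  have hpos : 0 < a ^ 2 + v ^ 2 := by positivity
  have h3 : -Complex.exp ((-(a : ℂ) + v * Complex.I) * ((0 : ℝ) : ℂ)) / (-(a : ℂ) + v * Complex.I) =
      ((a / (a ^ 2 + v ^ 2) : ℝ) : ℂ) + ((v / (a ^ 2 + v ^ 2) : ℝ) : ℂ) * Complex.I := by
    rw [div_eq_iff hne, Complex.ofReal_zero, mul_zero, Complex.exp_zero]
    have h4 : ((a ^ 2 + v ^ 2 : ℝ) : ℂ) ≠ 0 := by exact_mod_cast hpos.ne'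
    push_cast at h4 ⊢
    field_simp
    ring_nf
    rw [Complex.I_sq]
    ring
  rw [h3, Complex.add_re, Complex.ofReal_re, Complex.re_ofReal_mul, Complex.I_re, mul_zero, add_zero]

theorem cf_re (μ : Measure ℝ) [IsProbabilityMeasure μ] (u : ℝ) :
    (charFun μ u).re = ∫ x, Real.cos (u * x) ∂μ := by
  have hi : Integrable (fun x : ℝ => Complex.exp (u * x * Complex.I)) μ := by
    refine Integrable.of_bound (by fun_prop) 1 (ae_of_all _ fun x => ?_)
    rw [← Complex.ofReal_mul, Complex.norm_exp_ofReal_mul_I]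
  rw [charFun_apply_real, ← RCLike.re_to_complex, ← integral_re hi]
  refine integral_congr_ae (ae_of_all _ fun x => ?_)
  simp only [RCLike.re_to_complex]
  rw [← Complex.ofReal_mul, Complex.exp_ofReal_mul_I_re]

theorem cf_im (μ : Measure ℝ) [IsProbabilityMeasure μ] (u : ℝ) :
    (charFun μ u).im = ∫ x, Real.sin (u * x) ∂μ := by
  have hi : Integrable (fun x : ℝ => Complex.exp (u * x * Complex.I)) μ := by
    refine Integrable.of_bound (by fun_prop) 1 (ae_of_all _ fun x => ?_)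
    rw [← Complex.ofReal_mul, Complex.norm_exp_ofReal_mul_I]
  rw [charFun_apply_real, ← RCLike.im_to_complex, ← integral_im hi]
  refine integral_congr_ae (ae_of_all _ fun x => ?_)
  simp only [RCLike.im_to_complex]
  rw [← Complex.ofReal_mul, Complex.exp_ofReal_mul_I_im]

theorem prod_cos (μ₁ μ₂ : Measure ℝ) [IsProbabilityMeasure μ₁] [IsProbabilityMeasure μ₂] (u : ℝ) :
    ∫ p : ℝ × ℝ, Real.cos (u * (p.1 - p.2)) ∂(μ₁.prod μ₂) =
      (charFun μ₁ u).re * (charFun μ₂ u).re + (charFun μ₁ u).im * (charFun μ₂ u).im := by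
  have h : ∀ p : ℝ × ℝ, Real.cos (u * (p.1 - p.2)) =
      Real.cos (u * p.1) * Real.cos (u * p.2) + Real.sin (u * p.1) * Real.sin (u * p.2) := by
    intro p
    rw [mul_sub, Real.cos_sub]
  simp_rw [h]
  rw [integral_add, integral_prod_mul (fun x => Real.cos (u * x)) (fun x => Real.cos (u * x)),
    integral_prod_mul (fun x => Real.sin (u * x)) (fun x => Real.sin (u * x)), cf_re, cf_re, cf_im, cf_im]
  · refine Integrable.of_bound (by fun_prop) 1 (ae_of_all _ fun p => ?_)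
    rw [norm_mul]
    exact mul_le_one₀ (Real.abs_cos_le_one _) (norm_nonneg _) (Real.abs_cos_le_one _)
  · refine Integrable.of_bound (by fun_prop) 1 (ae_of_all _ fun p => ?_)
    rw [norm_mul]
    exact mul_le_one₀ (Real.abs_sin_le_one _) (norm_nonneg _) (Real.abs_sin_le_one _)

theorem int_exp {a : ℝ} (ha : 0 < a) :
    Integrable (fun u : ℝ => Real.exp (-(a * u))) (volume.restrict (Ioi 0)) := by
  have h := integrableOn_exp_mul_Ioi (a := -a) (by linarith) 0
  have h2 : IntegrableOn (fun u : ℝ => Real.exp (-(a * u))) (Ioi 0) := by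
    simpa [neg_mul] using h
  exact h2

theorem lap (μ₁ μ₂ : Measure ℝ) [IsProbabilityMeasure μ₁] [IsProbabilityMeasure μ₂] {a : ℝ}
    (ha : 0 < a) :
    ∫ p : ℝ × ℝ, a / (a ^ 2 + (p.1 - p.2) ^ 2) ∂(μ₁.prod μ₂) =
      ∫ u in Ioi (0 : ℝ), Real.exp (-(a * u)) *
        ((charFun μ₁ u).re * (charFun μ₂ u).re + (charFun μ₁ u).im * (charFun μ₂ u).im) := by
  simp_rw [← cosT ha]
  rw [integral_integral_swap]
  · refine integral_congr_ae (ae_of_all _ fun u => ?_)
    simp only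
    rw [integral_const_mul, prod_cos]
  · have h1 : Integrable (fun z : (ℝ × ℝ) × ℝ => Real.exp (-(a * z.2)))
        ((μ₁.prod μ₂).prod (volume.restrict (Ioi 0))) := (int_exp ha).comp_snd _
    refine h1.mono' ?_ (ae_of_all _ fun z => ?_)
    · simp only [Function.uncurry_def]
      fun_prop
    · simp only [Function.uncurry_def]
      rw [norm_mul, Real.norm_eq_abs, Real.norm_eq_abs, abs_of_pos (Real.exp_pos _)]
      exact mul_le_of_le_one_right (Real.exp_pos _).le (Real.abs_cos_le_one _)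

theorem int_cc (μ₁ μ₂ : Measure ℝ) [IsProbabilityMeasure μ₁] [IsProbabilityMeasure μ₂] {a : ℝ}
    (ha : 0 < a) :
    Integrable (fun u : ℝ => Real.exp (-(a * u)) *
        ((charFun μ₁ u).re * (charFun μ₂ u).re + (charFun μ₁ u).im * (charFun μ₂ u).im))
      (volume.restrict (Ioi 0)) := by
  have hc1 : Continuous (charFun μ₁) := continuous_charFun
  have hc2 : Continuous (charFun μ₂) := continuous_charFun
  refine ((int_exp ha).mul_const 2).mono' ?_ (ae_of_all _ fun u => ?_)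
  · have : Continuous (fun u : ℝ => Real.exp (-(a * u)) *
        ((charFun μ₁ u).re * (charFun μ₂ u).re + (charFun μ₁ u).im * (charFun μ₂ u).im)) := by
      fun_prop
    exact this.aestronglyMeasurable
  · rw [norm_mul, Real.norm_eq_abs, abs_of_pos (Real.exp_pos _)]
    refine mul_le_mul_of_nonneg_left ?_ (Real.exp_pos _).le
    have e1 := norm_charFun_le_one (μ := μ₁) u
    have e2 := norm_charFun_le_one (μ := μ₂) u
    have r1 := (Complex.abs_re_le_norm (charFun μ₁ u)).trans e1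
    have r2 := (Complex.abs_re_le_norm (charFun μ₂ u)).trans e2
    have r3 := (Complex.abs_im_le_norm (charFun μ₁ u)).trans e1
    have r4 := (Complex.abs_im_le_norm (charFun μ₂ u)).trans e2
    refine (norm_add_le _ _).trans ?_
    rw [norm_mul, norm_mul, Real.norm_eq_abs, Real.norm_eq_abs, Real.norm_eq_abs, Real.norm_eq_abs]
    have := mul_le_one₀ r1 (abs_nonneg _) r2
    have := mul_le_one₀ r3 (abs_nonneg _) r4
    linarith

/-- the combination for the kernel `a / (a² + (x-y)²)` -/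
noncomputable def G (μ ν : Measure ℝ) (a : ℝ) : ℝ :=
  ∫ p : ℝ × ℝ, a / (a ^ 2 + (p.1 - p.2) ^ 2) ∂(μ.prod μ) +
    ∫ p : ℝ × ℝ, a / (a ^ 2 + (p.1 - p.2) ^ 2) ∂(ν.prod ν) -
    2 * ∫ p : ℝ × ℝ, a / (a ^ 2 + (p.1 - p.2) ^ 2) ∂(μ.prod ν)

noncomputable def S (μ ν : Measure ℝ) (u : ℝ) : ℝ :=
  ((charFun μ u).re - (charFun ν u).re) ^ 2 + ((charFun μ u).im - (charFun ν u).im) ^ 2

theorem G_eq (μ ν : Measure ℝ) [IsProbabilityMeasure μ] [IsProbabilityMeasure ν] {a : ℝ}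
    (ha : 0 < a) : G μ ν a = ∫ u in Ioi (0 : ℝ), Real.exp (-(a * u)) * S μ ν u := by
  have h1 := int_cc μ μ ha
  have h2 := int_cc ν ν ha
  have h3 := int_cc μ ν ha
  have h12 : Integrable (fun u : ℝ => Real.exp (-(a * u)) *
        ((charFun μ u).re * (charFun μ u).re + (charFun μ u).im * (charFun μ u).im) +
        Real.exp (-(a * u)) *
        ((charFun ν u).re * (charFun ν u).re + (charFun ν u).im * (charFun ν u).im))
      (volume.restrict (Ioi 0)) := h1.add h2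
  rw [G, lap μ μ ha, lap ν ν ha, lap μ ν ha, ← integral_const_mul, ← integral_add h1 h2,
    ← integral_sub h12 (h3.const_mul 2)]
  refine integral_congr_ae (ae_of_all _ fun u => ?_)
  simp only
  unfold S
  ring

theorem int_S (μ ν : Measure ℝ) [IsProbabilityMeasure μ] [IsProbabilityMeasure ν] {a : ℝ}
    (ha : 0 < a) : Integrable (fun u => Real.exp (-(a * u)) * S μ ν u) (volume.restrict (Ioi 0)) := by
  have h1 := int_cc μ μ ha
  have h2 := int_cc ν ν ha
  have h3 := int_cc μ ν ha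
  refine ((h1.add h2).sub (h3.const_mul 2)).congr (ae_of_all _ fun u => ?_)
  simp only [Pi.add_apply, Pi.sub_apply]
  unfold S
  ring

theorem S_nonneg (μ ν : Measure ℝ) (u : ℝ) : 0 ≤ S μ ν u := by
  unfold S
  positivity

theorem G_nonneg (μ ν : Measure ℝ) [IsProbabilityMeasure μ] [IsProbabilityMeasure ν] {a : ℝ}
    (ha : 0 < a) : 0 ≤ G μ ν a := by
  rw [G_eq μ ν ha]
  exact integral_nonneg fun u => mul_nonneg (Real.exp_pos _).le (S_nonneg μ ν u)

theorem eq_of_G (μ ν : Measure ℝ) [IsProbabilityMeasure μ] [IsProbabilityMeasure ν]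
    (h : G μ ν 1 = 0) : μ = ν := by
  have hc1 : Continuous (charFun μ) := continuous_charFun
  have hc2 : Continuous (charFun ν) := continuous_charFun
  rw [G_eq μ ν one_pos, integral_eq_zero_iff_of_nonneg
    (fun u => mul_nonneg (Real.exp_pos _).le (S_nonneg μ ν u)) (int_S μ ν one_pos)] at h
  have hcont : Continuous fun u => Real.exp (-(1 * u)) * S μ ν u := by
    unfold S
    fun_prop
  have h2 := Measure.eqOn_open_of_ae_eq h isOpen_Ioi hcont.continuousOn continuous_const.continuousOn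
  have h3 : ∀ u : ℝ, 0 < u → charFun μ u = charFun ν u := by
    intro u hu
    have h4 := h2 (mem_Ioi.2 hu)
    simp only [Pi.zero_apply] at h4
    have h5 : S μ ν u = 0 := by
      rcases mul_eq_zero.1 h4 with h6 | h6
      · exact absurd h6 (Real.exp_pos _).ne'
      · exact h6
    unfold S at h5
    apply Complex.ext
    · nlinarith [sq_nonneg ((charFun μ u).re - (charFun ν u).re),
        sq_nonneg ((charFun μ u).im - (charFun ν u).im)]
    · nlinarith [sq_nonneg ((charFun μ u).re - (charFun ν u).re),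
        sq_nonneg ((charFun μ u).im - (charFun ν u).im)]
  apply Measure.ext_of_charFun
  funext u
  rcases lt_trichotomy u 0 with hu | hu | hu
  · have h4 := h3 (-u) (by linarith)
    rw [charFun_neg, charFun_neg] at h4
    exact (starRingEnd ℂ).injective h4
  · rw [hu, charFun_zero, charFun_zero]
    simp
  · exact h3 u hu

/-! ### the regularised logarithm -/

/-- `∫ log((x-y)² + ρ)` -/
noncomputable def J (P : Measure (ℝ × ℝ)) (ρ : ℝ) : ℝ := ∫ p : ℝ × ℝ, Real.log ((p.1 - p.2) ^ 2 + ρ) ∂P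

/-- carried by the square -/
def Sq (B : ℝ) (P : Measure (ℝ × ℝ)) : Prop :=
  IsProbabilityMeasure P ∧ ∀ᵐ p ∂P, (p.1 - p.2) ^ 2 ≤ B ^ 2

theorem sq_prod {B : ℝ} {μ ν : Measure ℝ} (hμ : On B μ) (hν : On B ν) : Sq B (μ.prod ν) := by
  have := hμ.1
  have := hν.1
  refine ⟨inferInstance, ?_⟩
  have h1 : ∀ᵐ x ∂μ, x ∈ Icc 0 B := by
    rw [ae_iff]
    exact hμ.2
  have h2 : ∀ᵐ x ∂ν, x ∈ Icc 0 B := by
    rw [ae_iff]
    exact hν.2
  have h3 : ∀ᵐ p ∂(μ.prod ν), p.1 ∈ Icc 0 B := Measure.quasiMeasurePreserving_fst.ae h1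
  have h4 : ∀ᵐ p ∂(μ.prod ν), p.2 ∈ Icc 0 B := Measure.quasiMeasurePreserving_snd.ae h2
  filter_upwards [h3, h4] with p h5 h6
  rw [mem_Icc] at h5 h6
  exact sq_le_sq' (by linarith) (by linarith)

theorem log_bd {q ρ : ℝ} (hq : 0 ≤ q) (hρ : 0 < ρ) :
    Real.log ρ ≤ Real.log (q + ρ) ∧ Real.log (q + ρ) ≤ Real.log ρ + q / ρ := by
  constructor
  · exact Real.log_le_log hρ (by linarith)
  · have h1 : q + ρ = ρ * (q / ρ + 1) := by
      field_simp
    rw [h1, Real.log_mul hρ.ne' (by positivity)]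
    have h2 := Real.log_le_sub_one_of_pos (x := q / ρ + 1) (by positivity)
    linarith

theorem J_int {B : ℝ} {P : Measure (ℝ × ℝ)} (hP : Sq B P) {ρ : ℝ} (hρ : 0 < ρ) :
    Integrable (fun p : ℝ × ℝ => Real.log ((p.1 - p.2) ^ 2 + ρ)) P := by
  have := hP.1
  refine Integrable.of_bound (Measurable.aestronglyMeasurable (by fun_prop))
    (|Real.log ρ| + B ^ 2 / ρ) ?_
  filter_upwards [hP.2] with p hp
  have h1 := log_bd (sq_nonneg (p.1 - p.2)) hρ
  have h2 : (p.1 - p.2) ^ 2 / ρ ≤ B ^ 2 / ρ := div_le_div_of_nonneg_right hp hρ.le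
  have h3 : 0 ≤ B ^ 2 / ρ := by positivity
  rw [Real.norm_eq_abs, abs_le]
  constructor
  · have := neg_abs_le (Real.log ρ)
    linarith [h1.1]
  · have := le_abs_self (Real.log ρ)
    linarith [h1.2]

theorem J_bd {B : ℝ} {P : Measure (ℝ × ℝ)} (hP : Sq B P) {ρ : ℝ} (hρ : 0 < ρ) :
    Real.log ρ ≤ J P ρ ∧ J P ρ ≤ Real.log ρ + B ^ 2 / ρ := by
  have := hP.1
  have hint := J_int hP hρ
  constructor
  · have h1 : ∫ _ : ℝ × ℝ, Real.log ρ ∂P ≤ J P ρ :=
      integral_mono (integrable_const _) hint fun p => (log_bd (sq_nonneg _) hρ).1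
    rwa [integral_const, probReal_univ, one_smul] at h1
  · have h1 : J P ρ ≤ ∫ _ : ℝ × ℝ, Real.log ρ + B ^ 2 / ρ ∂P := by
      refine integral_mono_ae hint (integrable_const _) ?_
      filter_upwards [hP.2] with p hp
      have h2 : (p.1 - p.2) ^ 2 / ρ ≤ B ^ 2 / ρ := div_le_div_of_nonneg_right hp hρ.le
      linarith [(log_bd (sq_nonneg (p.1 - p.2)) hρ).2]
    rwa [integral_const, probReal_univ, one_smul] at h1

theorem J_deriv {B : ℝ} {P : Measure (ℝ × ℝ)} (hP : Sq B P) {ρ : ℝ} (hρ : 0 < ρ) :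
    HasDerivAt (J P) (∫ p : ℝ × ℝ, 1 / ((p.1 - p.2) ^ 2 + ρ) ∂P) ρ := by
  have := hP.1
  have hs : Ioi (ρ / 2) ∈ 𝓝 ρ := Ioi_mem_nhds (by linarith)
  have h := hasDerivAt_integral_of_dominated_loc_of_deriv_le (μ := P) (s := Ioi (ρ / 2)) (x₀ := ρ)
    (F := fun ρ (p : ℝ × ℝ) => Real.log ((p.1 - p.2) ^ 2 + ρ))
    (F' := fun ρ (p : ℝ × ℝ) => 1 / ((p.1 - p.2) ^ 2 + ρ)) (bound := fun _ => 1 / (ρ / 2)) hs
    (Eventually.of_forall fun x => Measurable.aestronglyMeasurable (by fun_prop)) (J_int hP hρ)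
    (Measurable.aestronglyMeasurable (by fun_prop)) ?_ (integrable_const _) ?_
  · exact h.2
  · refine ae_of_all _ fun p x hx => ?_
    rw [mem_Ioi] at hx
    have h1 : 0 < (p.1 - p.2) ^ 2 + x := by nlinarith [sq_nonneg (p.1 - p.2)]
    rw [Real.norm_eq_abs, abs_of_pos (by positivity)]
    exact one_div_le_one_div_of_le (by linarith) (by nlinarith [sq_nonneg (p.1 - p.2)])
  · refine ae_of_all _ fun p x hx => ?_
    rw [mem_Ioi] at hx
    have h1 : 0 < (p.1 - p.2) ^ 2 + x := by nlinarith [sq_nonneg (p.1 - p.2)]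
    have h2 : HasDerivAt (fun x : ℝ => (p.1 - p.2) ^ 2 + x) 1 x := (hasDerivAt_id x).const_add _
    exact h2.log h1.ne'

/-- limit at `0` -/
theorem J_lim {B : ℝ} {P : Measure (ℝ × ℝ)} (hP : Sq B P) (hd : P {p : ℝ × ℝ | p.1 = p.2} = 0)
    (hi : Integrable (fun p : ℝ × ℝ => Real.log |p.1 - p.2|) P) :
    Tendsto (fun n : ℕ => J P (1 / ((n : ℝ) + 1))) atTop
      (𝓝 (2 * ∫ p : ℝ × ℝ, Real.log |p.1 - p.2| ∂P)) := by
  have := hP.1
  have hd' : ∀ᵐ p ∂P, p.1 ≠ p.2 := by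
    rw [ae_iff]
    simpa using hd
  have hl : ∀ p : ℝ × ℝ, 2 * Real.log |p.1 - p.2| = Real.log ((p.1 - p.2) ^ 2) := by
    intro p
    rw [← sq_abs, Real.log_pow]
    norm_num
  rw [← integral_const_mul]
  refine tendsto_integral_of_dominated_convergence (fun p => abs (2 * Real.log |p.1 - p.2|) + B ^ 2)
    (fun n => Measurable.aestronglyMeasurable (by fun_prop)) ((hi.const_mul 2).abs.add (integrable_const _)) ?_ ?_
  · intro n
    filter_upwards [hP.2, hd'] with p hp hne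
    have hn : 0 < 1 / ((n : ℝ) + 1) := by positivity
    have hn1 : 1 / ((n : ℝ) + 1) ≤ 1 := by
      rw [div_le_one (by positivity)]
      have : (0 : ℝ) ≤ n := Nat.cast_nonneg n
      linarith
    have hq : 0 < (p.1 - p.2) ^ 2 := by
      have : p.1 - p.2 ≠ 0 := sub_ne_zero.2 hne
      positivity
    rw [Real.norm_eq_abs, hl p, abs_le]
    constructor
    · have h1 := Real.log_le_log hq (by linarith : (p.1 - p.2) ^ 2 ≤ (p.1 - p.2) ^ 2 + 1 / ((n : ℝ) + 1))
      have h2 := neg_abs_le (Real.log ((p.1 - p.2) ^ 2))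
      nlinarith [sq_nonneg B]
    · have h1 := Real.log_le_log (by linarith : 0 < (p.1 - p.2) ^ 2 + 1 / ((n : ℝ) + 1))
        (by linarith : (p.1 - p.2) ^ 2 + 1 / ((n : ℝ) + 1) ≤ (p.1 - p.2) ^ 2 + 1)
      have h2 := Real.log_le_sub_one_of_pos (x := (p.1 - p.2) ^ 2 + 1) (by linarith)
      have h3 := abs_nonneg (Real.log ((p.1 - p.2) ^ 2))
      linarith
  · filter_upwards [hd'] with p hne
    have hq : (p.1 - p.2) ^ 2 ≠ 0 := pow_ne_zero 2 (sub_ne_zero.2 hne)
    rw [hl p]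
    have h1 : Tendsto (fun n : ℕ => (p.1 - p.2) ^ 2 + 1 / ((n : ℝ) + 1)) atTop
        (𝓝 ((p.1 - p.2) ^ 2 + 0)) := tendsto_const_nhds.add tendsto_one_div_add_atTop_nhds_zero_nat
    rw [add_zero] at h1
    exact (Real.continuousAt_log hq).tendsto.comp h1

/-- the combination of the regularised logarithms -/
noncomputable def Φ (μ ν : Measure ℝ) (ρ : ℝ) : ℝ :=
  J (μ.prod μ) ρ + J (ν.prod ν) ρ - 2 * J (μ.prod ν) ρ

theorem Φ_deriv {B : ℝ} {μ ν : Measure ℝ} (hμ : On B μ) (hν : On B ν) {ρ : ℝ} (hρ : 0 < ρ) :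
    HasDerivAt (Φ μ ν) (G μ ν (Real.sqrt ρ) / Real.sqrt ρ) ρ := by
  have h := ((J_deriv (sq_prod hμ hμ) hρ).add (J_deriv (sq_prod hν hν) hρ)).sub
    ((J_deriv (sq_prod hμ hν) hρ).const_mul 2)
  have hs : 0 < Real.sqrt ρ := Real.sqrt_pos.2 hρ
  have e : ∀ P : Measure (ℝ × ℝ), ∫ p : ℝ × ℝ, 1 / ((p.1 - p.2) ^ 2 + ρ) ∂P =
      (∫ p : ℝ × ℝ, Real.sqrt ρ / (Real.sqrt ρ ^ 2 + (p.1 - p.2) ^ 2) ∂P) / Real.sqrt ρ := by
    intro P
    rw [← integral_div]
    refine integral_congr_ae (ae_of_all _ fun p => ?_)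
    simp only
    rw [Real.sq_sqrt hρ.le, div_div, mul_comm, ← div_div, div_self hs.ne', add_comm]
  refine HasDerivAt.congr_deriv (f := Φ μ ν) h ?_
  rw [e, e, e, G]
  ring

theorem Φ_mono {B : ℝ} {μ ν : Measure ℝ} (hμ : On B μ) (hν : On B ν) :
    MonotoneOn (Φ μ ν) (Ioi 0) := by
  have := hμ.1
  have := hν.1
  refine monotoneOn_of_deriv_nonneg (convex_Ioi 0) ?_ ?_ ?_
  · intro ρ hρ
    exact (Φ_deriv hμ hν hρ).continuousAt.continuousWithinAt
  · intro ρ hρ
    rw [interior_Ioi] at hρ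
    exact (Φ_deriv hμ hν hρ).differentiableAt.differentiableWithinAt
  · intro ρ hρ
    rw [interior_Ioi] at hρ
    rw [(Φ_deriv hμ hν hρ).deriv]
    exact div_nonneg (G_nonneg μ ν (Real.sqrt_pos.2 hρ)) (Real.sqrt_nonneg _)

theorem Φ_le {B : ℝ} {μ ν : Measure ℝ} (hμ : On B μ) (hν : On B ν) {ρ : ℝ} (hρ : 0 < ρ) :
    Φ μ ν ρ ≤ 0 := by
  have h1 : ∀ r : ℝ, ρ ≤ r → Φ μ ν ρ ≤ 2 * B ^ 2 / r := by
    intro r hr
    have hr0 : 0 < r := by linarith
    have h2 := Φ_mono hμ hν (mem_Ioi.2 hρ) (mem_Ioi.2 hr0) hr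
    have h3 := (J_bd (sq_prod hμ hμ) hr0).2
    have h4 := (J_bd (sq_prod hν hν) hr0).2
    have h5 := (J_bd (sq_prod hμ hν) hr0).1
    have h6 : Φ μ ν r = J (μ.prod μ) r + J (ν.prod ν) r - 2 * J (μ.prod ν) r := rfl
    have h7 : 2 * B ^ 2 / r = B ^ 2 / r + B ^ 2 / r := by ring
    linarith
  have h2 : Tendsto (fun r : ℝ => 2 * B ^ 2 / r) atTop (𝓝 0) := tendsto_const_nhds.div_atTop tendsto_id
  exact ge_of_tendsto h2 ((eventually_ge_atTop ρ).mono h1)

end STRICTaux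

open STRICTaux in
theorem pSTRICT : STRICT := by
  intro B μ ν hμ hν hEμ hEν hd hi h0
  have := hμ.1
  have := hν.1
  have hlim : Filter.Tendsto (fun n : ℕ => Φ μ ν (1 / ((n : ℝ) + 1))) Filter.atTop (nhds 0) := by
    have h1 := ((J_lim (sq_prod hμ hμ) hEμ.1 hEμ.2).add (J_lim (sq_prod hν hν) hEν.1 hEν.2)).sub
      ((J_lim (sq_prod hμ hν) hd hi).const_mul 2)
    have h2 : 2 * ∫ p : ℝ × ℝ, Real.log |p.1 - p.2| ∂(μ.prod μ) +
        2 * ∫ p : ℝ × ℝ, Real.log |p.1 - p.2| ∂(ν.prod ν) -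
        2 * (2 * ∫ p : ℝ × ℝ, Real.log |p.1 - p.2| ∂(μ.prod ν)) = 0 := by
      unfold En at h0
      linarith
    rw [h2] at h1
    exact h1
  have hge : ∀ ρ : ℝ, 0 < ρ → 0 ≤ Φ μ ν ρ := by
    intro ρ hρ
    refine le_of_tendsto hlim ?_
    have h1 : ∀ᶠ n : ℕ in Filter.atTop, 1 / ((n : ℝ) + 1) < ρ :=
      tendsto_one_div_add_atTop_nhds_zero_nat.eventually (eventually_lt_nhds hρ)
    filter_upwards [h1] with n hn
    exact Φ_mono hμ hν (Set.mem_Ioi.2 (by positivity)) (Set.mem_Ioi.2 hρ) hn.le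
  have hz : ∀ ρ : ℝ, 0 < ρ → Φ μ ν ρ = 0 := fun ρ hρ => le_antisymm (Φ_le hμ hν hρ) (hge ρ hρ)
  have hder := Φ_deriv hμ hν one_pos
  have hder0 : HasDerivAt (Φ μ ν) 0 1 := by
    refine (hasDerivAt_const (1 : ℝ) (0 : ℝ)).congr_of_eventuallyEq ?_
    filter_upwards [Ioi_mem_nhds (zero_lt_one (α := ℝ))] with ρ hρ
    exact hz ρ hρ
  have hG := hder.unique hder0
  rw [Real.sqrt_one, div_one] at hG
  exact eq_of_G μ ν hG

end Pool.Agent.W401.SSS
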