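import Pool.Agent.W401.SSS.Stm

set_option autoImplicit false

namespace Pool.Agent.W401.SSS

namespace ANDRFaux

open Matrix Equiv

/-- The determinant of the moment matrix as a sum over functions. -/
theorem det_moment (T : Finset ℝ) (q : ℕ) (w : ℝ → ℝ) :
    Matrix.det (Matrix.of fun i j : Fin q => ∑ τ ∈ T, w τ * τ ^ ((i : ℕ) + (j : ℕ))) =
      ∑ f ∈ Fintype.piFinset (fun _ : Fin q => T),
        (∏ i, w (f i)) * (∏ i : Fin q, f i ^ (i : ℕ)) * (Matrix.vandermonde f).det := by
  classical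
  rw [Matrix.det_apply']
  have h1 : ∀ σ : Perm (Fin q), (∏ i, (Matrix.of fun i j : Fin q =>
      ∑ τ ∈ T, w τ * τ ^ ((i : ℕ) + (j : ℕ))) (σ i) i) =
      ∑ f ∈ Fintype.piFinset (fun _ : Fin q => T),
        ∏ i, (w (f i) * f i ^ ((σ i : ℕ) + (i : ℕ))) := by
    intro σ
    simp only [Matrix.of_apply]
    exact Finset.prod_univ_sum (fun _ : Fin q => T)
      (fun i τ => w τ * τ ^ ((σ i : ℕ) + (i : ℕ)))
  rw [Finset.sum_congr rfl fun σ _ => by rw [h1 σ, Finset.mul_sum]]
  rw [Finset.sum_comm]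
  refine Finset.sum_congr rfl fun f _ => ?_
  rw [← Matrix.det_transpose (Matrix.vandermonde f), Matrix.det_apply', Finset.mul_sum]
  refine Finset.sum_congr rfl fun σ _ => ?_
  simp only [Matrix.transpose_apply, Matrix.vandermonde_apply, pow_add, Finset.prod_mul_distrib]
  ring

end ANDRFaux

theorem pANDRF : ANDRF := by
  classical
  intro T q w
  rw [ANDRFaux.det_moment]
  have hperm : ∀ π : Equiv.Perm (Fin q),
      ∑ f ∈ Fintype.piFinset (fun _ : Fin q => T),
        (∏ i, w (f i)) * (∏ i : Fin q, f i ^ (i : ℕ)) * (Matrix.vandermonde f).det =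
      ∑ f ∈ Fintype.piFinset (fun _ : Fin q => T),
        (∏ i, w (f i)) * (((Equiv.Perm.sign π : ℤ) : ℝ) * ∏ i : Fin q, f (π i) ^ (i : ℕ)) *
          (Matrix.vandermonde f).det := by
    intro π
    refine Finset.sum_nbij' (fun f => f ∘ (π.symm : Fin q → Fin q)) (fun f => f ∘ (π : Fin q → Fin q))
      ?_ ?_ ?_ ?_ ?_
    · intro f hf
      rw [Fintype.mem_piFinset] at hf ⊢
      exact fun a => hf _
    · intro f hf
      rw [Fintype.mem_piFinset] at hf ⊢
      exact fun a => hf _
    · intro f _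
      funext a
      simp
    · intro f _
      funext a
      simp
    · intro f _
      have e1 : (∏ i, w ((f ∘ (π.symm : Fin q → Fin q)) i)) = ∏ i, w (f i) :=
        Equiv.prod_comp π.symm (fun i => w (f i))
      have e2 : (Matrix.vandermonde (f ∘ (π.symm : Fin q → Fin q))).det =
          ((Equiv.Perm.sign π : ℤ) : ℝ) * (Matrix.vandermonde f).det := by
        have := Matrix.det_permute π.symm (Matrix.vandermonde f)
        rw [Equiv.Perm.sign_symm] at this
        rw [← this]
        rfl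
      have e3 : ((Equiv.Perm.sign π : ℤ) : ℝ) * ((Equiv.Perm.sign π : ℤ) : ℝ) = 1 := by
        rcases Int.units_eq_one_or (Equiv.Perm.sign π) with h | h <;> simp [h]
      rw [e1, e2]
      simp only [Function.comp, Equiv.symm_apply_apply]
      linear_combination (-(∏ i, w (f i)) * (∏ i : Fin q, f i ^ (i : ℕ)) *
        (Matrix.vandermonde f).det) * e3
  have hsum : (q.factorial : ℝ) * ∑ f ∈ Fintype.piFinset (fun _ : Fin q => T),
        (∏ i, w (f i)) * (∏ i : Fin q, f i ^ (i : ℕ)) * (Matrix.vandermonde f).det =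
      ∑ π : Equiv.Perm (Fin q), ∑ f ∈ Fintype.piFinset (fun _ : Fin q => T),
        (∏ i, w (f i)) * (((Equiv.Perm.sign π : ℤ) : ℝ) * ∏ i : Fin q, f (π i) ^ (i : ℕ)) *
          (Matrix.vandermonde f).det := by
    rw [Finset.sum_congr rfl fun π _ => (hperm π).symm, Finset.sum_const, Finset.card_univ,
      Fintype.card_perm, Fintype.card_fin, nsmul_eq_mul]
  rw [hsum, Finset.sum_comm]
  refine Finset.sum_congr rfl fun f _ => ?_
  rw [← Finset.sum_mul, ← Finset.mul_sum]
  have hd : ∑ π : Equiv.Perm (Fin q), (((Equiv.Perm.sign π : ℤ) : ℝ) * ∏ i : Fin q,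
      f (π i) ^ (i : ℕ)) = (Matrix.vandermonde f).det := by
    rw [Matrix.det_apply']
    simp only [Matrix.vandermonde_apply]
  rw [hd, Matrix.det_vandermonde]
  ring

end Pool.Agent.W401.SSS
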