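import Pool.Agent.W401.SSS.Stm

set_option autoImplicit false

open MeasureTheory Polynomial

namespace Pool.Agent.W401.SSS

namespace AVGaux

theorem main (hU : UNI1) (x d p : ℝ) (α : ℂ) (hd : 0 < d) (hx : (x : ℂ) ≠ α)
    (hp : ∀ y ∈ Set.Icc p (p + d / 2), |y - x| ≤ d) :
    Real.log ‖(x : ℂ) - α‖ - (2 / d) * ∫ y in p..(p + d / 2), Real.log ‖(y : ℂ) - α‖ ≤ 4 := by
  obtain ⟨hI, hB⟩ := hU p (d / 2) α (by positivity)
  have hx0 : 0 < ‖(x : ℂ) - α‖ := norm_pos_iff.2 (sub_ne_zero.2 hx)
  have hl2 := Real.log_two_lt_d9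
  rcases le_or_gt (2 * d) ‖(x : ℂ) - α‖ with h | h
  · have h1 : ∫ y in p..(p + d / 2), Real.log (‖(x : ℂ) - α‖ / 2) ≤
        ∫ y in p..(p + d / 2), Real.log ‖(y : ℂ) - α‖ := by
      apply intervalIntegral.integral_mono_on (by linarith) _ hI
      · intro y hy
        apply Real.log_le_log (by positivity)
        have h2 : ‖(y : ℂ) - (x : ℂ)‖ ≤ d := by
          rw [← Complex.ofReal_sub, Complex.norm_real, Real.norm_eq_abs]
          exact hp y hy
        have h3 : ‖(x : ℂ) - α‖ ≤ ‖(y : ℂ) - α‖ + ‖(y : ℂ) - (x : ℂ)‖ := by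
          calc ‖(x : ℂ) - α‖ = ‖((y : ℂ) - α) - ((y : ℂ) - (x : ℂ))‖ := by congr 1; ring
            _ ≤ _ := norm_sub_le _ _
        linarith
      · exact intervalIntegrable_const
    rw [intervalIntegral.integral_const, smul_eq_mul, Real.log_div hx0.ne' (by norm_num)] at h1
    have h4 : (2 / d) * ((p + d / 2 - p) * (Real.log ‖(x : ℂ) - α‖ - Real.log 2)) ≤
        (2 / d) * ∫ y in p..(p + d / 2), Real.log ‖(y : ℂ) - α‖ := by
      apply mul_le_mul_of_nonneg_left h1 (by positivity)
    have h5 : (2 / d) * ((p + d / 2 - p) * (Real.log ‖(x : ℂ) - α‖ - Real.log 2)) =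
        Real.log ‖(x : ℂ) - α‖ - Real.log 2 := by
      field_simp
      ring
    rw [h5] at h4
    linarith
  · have h4 : (2 / d) * (d / 2 * (Real.log (d / 2 / 2) - 1)) ≤
        (2 / d) * ∫ y in p..(p + d / 2), Real.log ‖(y : ℂ) - α‖ := by
      apply mul_le_mul_of_nonneg_left hB (by positivity)
    have h5 : (2 / d) * (d / 2 * (Real.log (d / 2 / 2) - 1)) = Real.log (d / 2 / 2) - 1 := by
      field_simp
    rw [h5] at h4
    have h6 : Real.log ‖(x : ℂ) - α‖ ≤ Real.log (2 * d) := Real.log_le_log hx0 h.le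
    have h7 : Real.log (2 * d) = 3 * Real.log 2 + Real.log (d / 2 / 2) := by
      rw [show 2 * d = 2 ^ 3 * (d / 2 / 2) by ring, Real.log_mul (by norm_num) (by positivity),
        Real.log_pow]
      norm_num
    linarith

end AVGaux

open AVGaux in
theorem pAVG : UNI1 → AVG := by
  intro hU x d α hd hx
  constructor
  · have h := main hU x d (x + d / 2) α hd hx (fun y hy => by
      rw [abs_le]; constructor <;> linarith [hy.1, hy.2])
    rw [show x + d / 2 + d / 2 = x + d by ring] at h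
    exact h
  · have h := main hU x d (x - d) α hd hx (fun y hy => by
      rw [abs_le]; constructor <;> linarith [hy.1, hy.2])
    rw [show x - d + d / 2 = x - d / 2 by ring] at h
    exact h

end Pool.Agent.W401.SSS
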