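import Pool.Agent.W401.SSS.Stm

/-!
# Barycentres of equal mass blocks and the logarithmic potential
-/

open MeasureTheory Polynomial

namespace Pool.Agent.W401.SSS.BARYaux

theorem lip_nonneg {c : ℝ} {ν : Measure ℝ} (h : Lip c ν) : 0 ≤ c := by
  have h1 := h 0 1 zero_le_one
  have h2 : 0 ≤ (ν (Set.Icc (0:ℝ) (0+1))).toReal := ENNReal.toReal_nonneg
  linarith

theorem noatom {c : ℝ} {ν : Measure ℝ} [IsFiniteMeasure ν] (h : Lip c ν) (x : ℝ) :
    ν {x} = 0 := by
  have hc := lip_nonneg h
  have h0 : (ν {x}).toReal ≤ 0 := by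
    refine le_of_forall_pos_le_add ?_
    intro ε hε
    have hpos : 0 ≤ ε / (c + 1) := by positivity
    have h1 := h x (ε / (c+1)) hpos
    have h2 : (ν {x}).toReal ≤ (ν (Set.Icc x (x + ε/(c+1)))).toReal := by
      apply ENNReal.toReal_mono (measure_ne_top _ _)
      apply measure_mono
      intro y hy
      rw [Set.mem_singleton_iff] at hy
      subst hy
      exact ⟨le_refl _, by linarith⟩
    have h3 : c * (ε/(c+1)) ≤ ε := by
      rw [mul_div_assoc', div_le_iff₀ (by positivity)]; nlinarith
    linarith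
  have h4 := le_antisymm h0 ENNReal.toReal_nonneg
  rcases (ENNReal.toReal_eq_zero_iff _).1 h4 with h | h
  · exact h
  · exact absurd h (measure_ne_top _ _)

theorem int_id {ν : Measure ℝ} [IsFiniteMeasure ν] (a b : ℝ) :
    IntegrableOn (fun y : ℝ => y) (Set.Ioc a b) ν := by
  refine (ContinuousOn.integrableOn_Icc (a := a) (b := b) continuousOn_id).mono_set
    Set.Ioc_subset_Icc_self

theorem mean_mem {ν : Measure ℝ} [IsFiniteMeasure ν] [NullSingletonClass ν] {a b w : ℝ}
    (hw : 0 < w) (hm : (ν (Set.Ioc a b)).toReal = w) :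
    w * a < ∫ y in Set.Ioc a b, y ∂ν ∧ ∫ y in Set.Ioc a b, y ∂ν < w * b := by
  have hpos : 0 < ν (Set.Ioc a b) := by
    by_contra h
    have h1 : ν (Set.Ioc a b) = 0 := by simpa using h
    rw [h1] at hm
    simp at hm
    linarith
  have hreal : ν.real (Set.Ioc a b) = w := hm
  have hid := int_id (ν := ν) a b
  have hca : IntegrableOn (fun _ : ℝ => a) (Set.Ioc a b) ν := integrableOn_const (by finiteness)
  have hcb : IntegrableOn (fun _ : ℝ => b) (Set.Ioc a b) ν := integrableOn_const (by finiteness)
  constructor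
  · have h1 : 0 < ∫ y in Set.Ioc a b, (y - a) ∂ν := by
      rw [setIntegral_pos_iff_support_of_nonneg_ae]
      · have h2 : Function.support (fun y : ℝ => y - a) ∩ Set.Ioc a b = Set.Ioc a b := by
          apply Set.inter_eq_right.2
          intro y hy
          simp only [Function.mem_support]
          have := hy.1
          intro h; linarith
        rw [h2]; exact hpos
      · filter_upwards [ae_restrict_mem measurableSet_Ioc] with y hy
        have := hy.1
        simp only [Pi.zero_apply]
        linarith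
      · exact hid.sub hca
    rw [integral_sub hid hca, setIntegral_const, hreal, smul_eq_mul] at h1
    linarith
  · have h1 : 0 < ∫ y in Set.Ioc a b, (b - y) ∂ν := by
      rw [setIntegral_pos_iff_support_of_nonneg_ae]
      · have h2 : Set.Ioo a b ⊆ Function.support (fun y : ℝ => b - y) ∩ Set.Ioc a b := by
          intro y hy
          refine ⟨?_, hy.1, hy.2.le⟩
          simp only [Function.mem_support]
          have := hy.2
          intro h; linarith
        refine lt_of_lt_of_le ?_ (measure_mono h2)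
        rw [measure_congr (Ioo_ae_eq_Ioc (μ := ν) (a := a) (b := b))]
        exact hpos
      · filter_upwards [ae_restrict_mem measurableSet_Ioc] with y hy
        have := hy.2
        simp only [Pi.zero_apply]
        linarith
      · exact hcb.sub hid
    rw [integral_sub hcb hid, setIntegral_const, hreal, smul_eq_mul] at h1
    linarith

theorem log_tan {u v : ℝ} (hu : 0 < u) (hv : 0 < v) :
    Real.log u ≤ Real.log v + (u - v) / v := by
  have h1 : Real.log (u / v) ≤ u / v - 1 := Real.log_le_sub_one_of_pos (by positivity)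
  rw [Real.log_div hu.ne' hv.ne'] at h1
  have h2 : (u - v) / v = u / v - 1 := by field_simp
  rw [h2]
  linarith

theorem block {ν : Measure ℝ} [IsFiniteMeasure ν] [NullSingletonClass ν] {a b w M t : ℝ}
    (hw : 0 < w) (hm : (ν (Set.Ioc a b)).toReal = w)
    (hM : w * M = ∫ y in Set.Ioc a b, y ∂ν) (ht : t ≤ a ∨ b ≤ t)
    (hint : Integrable (fun y : ℝ => Real.log |y - t|) ν) :
    ∫ y in Set.Ioc a b, Real.log |y - t| ∂ν ≤ w * Real.log |t - M| := by
  have hmm := mean_mem (ν := ν) hw hm
  rw [← hM] at hmm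
  have haM : a < M := lt_of_mul_lt_mul_left hmm.1 hw.le
  have hMb : M < b := lt_of_mul_lt_mul_left hmm.2 hw.le
  have hreal : ν.real (Set.Ioc a b) = w := hm
  have hid := int_id (ν := ν) a b
  -- sign
  obtain ⟨s, hs1, hs2⟩ : ∃ s : ℝ, (∀ y ∈ Set.Icc a b, |y - t| = s * (y - t)) ∧ 0 < s * (M - t) := by
    rcases ht with ht | ht
    · refine ⟨1, ?_, by linarith⟩
      intro y hy
      rw [abs_of_nonneg (by linarith [hy.1])]; ring
    · refine ⟨-1, ?_, by linarith⟩
      intro y hy
      rw [abs_of_nonpos (by linarith [hy.2])]; ring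
  have hMt : |t - M| = s * (M - t) := by
    rw [abs_sub_comm]; exact hs1 M ⟨haM.le, hMb.le⟩
  have hv : 0 < |t - M| := by rw [hMt]; exact hs2
  have hrhs : ∫ y in Set.Ioc a b, (Real.log |t - M| + (s * (y - t) - |t - M|) / |t - M|) ∂ν
      = w * Real.log |t - M| := by
    have e1 : (fun y : ℝ => Real.log |t - M| + (s * (y - t) - |t - M|) / |t - M|)
        = fun y : ℝ => (s / |t - M|) * y + (Real.log |t - M| - (s * t) / |t - M| - 1) := by
      funext y
      have : |t - M| ≠ 0 := hv.ne'
      field_simp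
      ring
    rw [e1, integral_add (hid.const_mul _) (integrableOn_const (by finiteness)),
      integral_const_mul, ← hM, setIntegral_const, hreal, smul_eq_mul]
    have h5 : s / |t - M| * (w * M) + w * (Real.log |t - M| - s * t / |t - M| - 1)
        = w * Real.log |t - M| + w * (s * (M - t) / |t - M| - 1) := by
      ring
    rw [h5, ← hMt, div_self hv.ne']
    ring
  rw [← hrhs]
  apply setIntegral_mono_on_ae hint.integrableOn
  · apply Integrable.add (integrableOn_const (by finiteness))
    apply Integrable.div_const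
    apply Integrable.sub
    · apply Integrable.const_mul
      exact hid.sub (integrableOn_const (by finiteness))
    · exact integrableOn_const (by finiteness)
  · exact measurableSet_Ioc
  · have hne : ∀ᵐ y ∂ν, y ≠ t := by
      rw [ae_iff]
      simp
    filter_upwards [hne] with y hy hyI
    have h6 : |y - t| = s * (y - t) := hs1 y ⟨hyI.1.le, hyI.2⟩
    have h7 : 0 < |y - t| := abs_pos.2 (sub_ne_zero.2 hy)
    have h8 := log_tan h7 hv
    rw [h6] at h8 ⊢
    exact h8

theorem int_log {B c : ℝ} {ν : Measure ℝ} (hL : LIPL) (hB : 0 < B) (hon : On B ν)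
    (hlip : Lip c ν) (t : ℝ) : Integrable (fun y : ℝ => Real.log |y - t|) ν := by
  have : IsProbabilityMeasure ν := hon.1
  have h1 := (hL c ν inferInstance (lip_nonneg hlip) hlip (t : ℂ) 1 one_pos).1
  have hnorm : ∀ y : ℝ, ‖(y : ℂ) - (t : ℂ)‖ = |y - t| := by
    intro y
    rw [← Complex.ofReal_sub, Complex.norm_real, Real.norm_eq_abs]
  simp only [hnorm] at h1
  have hmeas : Measurable (fun y : ℝ => Real.log |y - t|) :=
    Real.measurable_log.comp ((measurable_id.sub_const t).abs)
  have h2 : Integrable (fun y : ℝ => max 0 (Real.log |y - t|)) ν := by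
    refine Integrable.mono' (integrable_const (B + |t|))
      (measurable_const.max hmeas).aestronglyMeasurable ?_
    have hae : ∀ᵐ y ∂ν, y ∈ Set.Icc 0 B := by
      rw [ae_iff]
      exact hon.2
    filter_upwards [hae] with y hy
    rw [Real.norm_eq_abs, abs_of_nonneg (le_max_left _ _)]
    apply max_le
    · positivity
    · have h3 : |y - t| ≤ B + |t| := by
        calc |y - t| ≤ |y| + |t| := abs_sub _ _
          _ ≤ B + |t| := by
            rw [abs_of_nonneg hy.1]; linarith [hy.2]
      rcases eq_or_ne (|y - t|) 0 with h0 | h0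
      · rw [h0, Real.log_zero]; positivity
      · have h4 : 0 < |y - t| := lt_of_le_of_ne (abs_nonneg _) (Ne.symm h0)
        have := Real.log_le_sub_one_of_pos h4
        linarith
  have h3 : (fun y : ℝ => Real.log |y - t|)
      = fun y : ℝ => max 0 (Real.log |y - t|) - max 0 (Real.log (1 / |y - t|)) := by
    funext y
    rw [one_div, Real.log_inv]
    rcases le_total 0 (Real.log |y - t|) with h | h
    · rw [max_eq_right h, max_eq_left (by linarith)]; ring
    · rw [max_eq_left h, max_eq_right (by linarith)]; ring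
  rw [h3]
  exact h2.sub h1

theorem sum_blocks {B : ℝ} {ν : Measure ℝ} (hon : On B ν) [NullSingletonClass ν] (hB : 0 < B)
    {x : ℕ → ℝ} {n : ℕ} (h0 : x 0 = 0) (hn : x n = B) (hx : ∀ j < n, x j < x (j + 1))
    (f : ℝ → ℝ) (hf : Integrable f ν) :
    ∑ j ∈ Finset.range n, ∫ y in Set.Ioc (x j) (x (j + 1)), f y ∂ν = ∫ y, f y ∂ν := by
  have h1 : ∑ j ∈ Finset.range n, ∫ y in (x j)..(x (j + 1)), f y ∂ν
      = ∫ y in (x 0)..(x n), f y ∂ν := by
    apply intervalIntegral.sum_integral_adjacent_intervals
    intro k _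
    exact hf.intervalIntegrable
  have h2 : ∑ j ∈ Finset.range n, ∫ y in Set.Ioc (x j) (x (j + 1)), f y ∂ν
      = ∑ j ∈ Finset.range n, ∫ y in (x j)..(x (j + 1)), f y ∂ν := by
    apply Finset.sum_congr rfl
    intro j hj
    rw [intervalIntegral.integral_of_le (hx j (Finset.mem_range.1 hj)).le]
  rw [h2, h1, h0, hn, intervalIntegral.integral_of_le hB.le]
  have h3 : (Set.Ioc 0 B) =ᵐ[ν] (Set.univ : Set ℝ) := by
    refine (Ioc_ae_eq_Icc (μ := ν)).trans ?_
    rw [ae_eq_univ]
    exact hon.2
  rw [setIntegral_congr_set h3, setIntegral_univ]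

end Pool.Agent.W401.SSS.BARYaux

namespace Pool.Agent.W401.SSS

open BARYaux in
theorem pBARY : QUANT → LIPL → BARY := by
  intro hQ hL B c ν hB hon hlip n hn
  obtain ⟨x, hx0, hxn, hxj⟩ := hQ B c ν hB hon hlip n hn
  have : IsProbabilityMeasure ν := hon.1
  have : NullSingletonClass ν := ⟨noatom hlip⟩
  have hn0 : (0 : ℝ) < n := by exact_mod_cast hn
  have hw : (0 : ℝ) < 1 / n := by positivity
  have hmass : ∀ j < n, (ν (Set.Ioc (x j) (x (j + 1)))).toReal = 1 / n := by
    intro j hj
    rw [measure_congr (Ioc_ae_eq_Icc (μ := ν) (a := x j) (b := x (j + 1)))]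
    exact (hxj j hj).2
  set m : ℕ → ℝ := fun j => n * ∫ y in Set.Ioc (x j) (x (j + 1)), y ∂ν with hm
  have hM : ∀ j, (1 / (n : ℝ)) * m j = ∫ y in Set.Ioc (x j) (x (j + 1)), y ∂ν := by
    intro j
    rw [hm]
    field_simp
  have hidint : Integrable (fun y : ℝ => y) ν := by
    refine Integrable.mono' (integrable_const B) measurable_id.aestronglyMeasurable ?_
    have hae : ∀ᵐ y ∂ν, y ∈ Set.Icc 0 B := by
      rw [ae_iff]
      exact hon.2
    filter_upwards [hae] with y hy
    rw [Real.norm_eq_abs]
    rw [abs_of_nonneg hy.1]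
    exact hy.2
  refine ⟨x, m, hx0, hxn, ?_, ?_, ?_⟩
  · intro j hj
    have h1 := mean_mem (ν := ν) hw (hmass j hj)
    rw [← hM j] at h1
    exact ⟨lt_of_mul_lt_mul_left h1.1 hw.le, lt_of_mul_lt_mul_left h1.2 hw.le⟩
  · have h1 := sum_blocks hon hB hx0 hxn (fun j hj => (hxj j hj).1) (fun y => y) hidint
    rw [hm, ← Finset.mul_sum, h1]
    rfl
  · intro t ht
    have hlog := int_log hL hB hon hlip t
    have hup : Upot ν (t : ℂ) = ∫ y, Real.log |y - t| ∂ν := by
      unfold Upot
      congr 1
      funext y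
      rw [← Complex.ofReal_sub, Complex.norm_real, Real.norm_eq_abs]
    rw [hup, ← sum_blocks hon hB hx0 hxn (fun j hj => (hxj j hj).1) _ hlog, Finset.mul_sum]
    apply Finset.sum_le_sum
    intro j hj
    have hj' := Finset.mem_range.1 hj
    have htj : t ≤ x j ∨ x (j + 1) ≤ t := by
      by_contra h
      push Not at h
      exact ht j hj' ⟨h.1, h.2⟩
    have h2 := block (ν := ν) hw (hmass j hj') (hM j) htj hlog
    calc (n : ℝ) * ∫ y in Set.Ioc (x j) (x (j + 1)), Real.log |y - t| ∂ν
        ≤ n * (1 / n * Real.log |t - m j|) := mul_le_mul_of_nonneg_left h2 hn0.le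
      _ = Real.log |t - m j| := by field_simp

end Pool.Agent.W401.SSS
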