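import Pool.Agent.W401.SSS.Stm

open MeasureTheory Polynomial

namespace Pool.Agent.W401.SSS.BIaux

/-- The truncated Poisson kernel. -/
noncomputable def K (t u : ℝ) : ℝ := t / (Real.pi * (u ^ 2 + t ^ 2))

theorem K_pos_den {t : ℝ} (ht : 0 < t) (u : ℝ) : 0 < Real.pi * (u ^ 2 + t ^ 2) := by
  have := Real.pi_pos
  positivity

theorem K_nonneg {t : ℝ} (ht : 0 < t) (u : ℝ) : 0 ≤ K t u :=
  div_nonneg ht.le (K_pos_den ht u).le

theorem K_cont {t : ℝ} (ht : 0 < t) : Continuous (K t) := by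
  unfold K
  refine continuous_const.div (by fun_prop) fun u => (K_pos_den ht u).ne'

theorem K_deriv {t : ℝ} (ht : 0 < t) (u : ℝ) :
    HasDerivAt (fun u : ℝ => (1 / Real.pi) * Real.arctan (u / t)) (K t u) u := by
  have h1 : HasDerivAt (fun u : ℝ => u / t) (1 / t) u := by
    simpa using (hasDerivAt_id u).div_const t
  have h2 := (h1.arctan).const_mul (1 / Real.pi)
  refine h2.congr_deriv ?_
  unfold K
  have hp := Real.pi_pos
  have h3 : u ^ 2 + t ^ 2 ≠ 0 := by positivity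
  have h4 : 1 + (u / t) ^ 2 ≠ 0 := by positivity
  field_simp
  ring

theorem K_int {t : ℝ} (ht : 0 < t) :
    ∫ u in (-1 : ℝ)..1, K t u = 1 - (2 / Real.pi) * Real.arctan t := by
  rw [intervalIntegral.integral_eq_sub_of_hasDerivAt (f := fun u : ℝ =>
    (1 / Real.pi) * Real.arctan (u / t)) (fun u _ => K_deriv ht u)
    ((K_cont ht).intervalIntegrable _ _)]
  have h1 : Real.arctan (1 / t) = Real.pi / 2 - Real.arctan t := by
    rw [one_div, Real.arctan_inv_of_pos ht]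
  have h2 : Real.arctan (-1 / t) = -(Real.pi / 2 - Real.arctan t) := by
    rw [neg_div, Real.arctan_neg, h1]
  simp only [h1, h2]
  have hp := Real.pi_pos.ne'
  field_simp
  ring

theorem arctan_le {t : ℝ} (ht : 0 < t) : Real.arctan t ≤ t := by
  have h := Real.arctan_lt_pi_div_two t
  have h0 : 0 ≤ Real.arctan t := Real.arctan_nonneg.2 ht.le
  rcases h0.eq_or_lt with h1 | h1
  · rw [← h1]; exact ht.le
  · have := Real.lt_tan h1 h
    rw [Real.tan_arctan] at this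
    exact this.le

theorem K_int_bd {t : ℝ} (ht : 0 < t) :
    1 - t ≤ ∫ u in (-1 : ℝ)..1, K t u ∧ ∫ u in (-1 : ℝ)..1, K t u ≤ 1 := by
  rw [K_int ht]
  have hp := Real.pi_gt_three
  have h0 : 0 ≤ Real.arctan t := Real.arctan_nonneg.2 ht.le
  have h1 := arctan_le ht
  have h2 : 2 / Real.pi ≤ 1 := by
    rw [div_le_one Real.pi_pos]; linarith
  have h3 : 0 ≤ 2 / Real.pi := by positivity
  constructor <;> nlinarith

theorem K_int_odd {t : ℝ} (_ht : 0 < t) : ∫ u in (-1 : ℝ)..1, u * K t u = 0 := by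
  have h := intervalIntegral.integral_comp_neg (a := -1) (b := 1) (f := fun u : ℝ => u * K t u)
  have h2 : (∫ u in (-1 : ℝ)..1, (-u) * K t (-u)) = - ∫ u in (-1 : ℝ)..1, u * K t u := by
    rw [← intervalIntegral.integral_neg]
    congr 1
    ext u
    unfold K
    rw [neg_sq]; ring
  simp only [neg_neg] at h
  rw [h2] at h
  linarith

theorem K_int_sq {t : ℝ} (ht : 0 < t) : ∫ u in (-1 : ℝ)..1, u ^ 2 * K t u ≤ t := by
  have h1 : ∫ u in (-1 : ℝ)..1, u ^ 2 * K t u ≤ ∫ _u in (-1 : ℝ)..1, t / 2 := by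
    refine intervalIntegral.integral_mono_on (by norm_num)
      (((continuous_pow 2).mul (K_cont ht)).intervalIntegrable _ _)
      (intervalIntegrable_const) ?_
    intro u _
    unfold K
    have hp := Real.pi_gt_three
    rw [mul_div_assoc', div_le_div_iff₀ (K_pos_den ht u) (by norm_num)]
    have h5 : 0 ≤ t * u ^ 2 := by positivity
    have h6 : 0 ≤ t * t ^ 2 := by positivity
    nlinarith [mul_nonneg (sub_nonneg.2 hp.le) h5, mul_nonneg (sub_nonneg.2 hp.le) h6]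
  refine h1.trans ?_
  rw [intervalIntegral.integral_const]
  simp only [smul_eq_mul]
  linarith

theorem ms_int (s : Multiset ℂ) (g : ℝ → ℂ → ℝ) (a b : ℝ)
    (h : ∀ α, IntervalIntegrable (fun u => g u α) volume a b) :
    IntervalIntegrable (fun u => (s.map (g u)).sum) volume a b ∧
      ∫ u in a..b, (s.map (g u)).sum = (s.map (fun α => ∫ u in a..b, g u α)).sum := by
  induction s using Multiset.induction_on with
  | empty => simp
  | cons c s ih =>
    simp only [Multiset.map_cons, Multiset.sum_cons]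
    refine ⟨(h c).add ih.1, ?_⟩
    rw [intervalIntegral.integral_add (h c) ih.1, ih.2]

theorem rsum_int (Q : ℤ[X]) (g : ℝ → ℂ → ℝ) (a b : ℝ)
    (h : ∀ α, IntervalIntegrable (fun u => g u α) volume a b) :
    IntervalIntegrable (fun u => rsum Q (g u)) volume a b ∧
      ∫ u in a..b, rsum Q (g u) = rsum Q (fun α => ∫ u in a..b, g u α) :=
  ms_int (rts Q) g a b h

theorem finite_sq {S : Set ℝ} (hS : S.Finite) (y : ℝ) : {u : ℝ | (y + u) ^ 2 ∈ S}.Finite := by
  have h : {u : ℝ | (y + u) ^ 2 ∈ S} ⊆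
      (fun c => Real.sqrt c - y) '' S ∪ (fun c => -Real.sqrt c - y) '' S := by
    intro u hu
    have hu : (y + u) ^ 2 ∈ S := hu
    have h1 : Real.sqrt ((y + u) ^ 2) = |y + u| := Real.sqrt_sq_eq_abs _
    rcases abs_cases (y + u) with h2 | h2
    · left
      refine ⟨_, hu, ?_⟩
      simp only
      rw [h1, h2.1]; ring
    · right
      refine ⟨_, hu, ?_⟩
      simp only
      rw [h1, h2.1]; ring
  exact ((hS.image _).union (hS.image _)).subset h

theorem exists_root : ∃ β : ℂ → ℂ, ∀ α, β α ^ 2 = α := by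
  have h : ∀ α : ℂ, ∃ b : ℂ, b ^ 2 = α := fun α => IsAlgClosed.exists_pow_nat_eq α (by norm_num)
  choose β hβ using h
  exact ⟨β, hβ⟩

/-- Size of the logarithm. -/
theorem log_bd {y : ℝ} (_hy0 : 0 ≤ y) (hy : y ≤ 32) (α b β : ℂ) (hβ : β ^ 2 = α)
    (hb : ‖b‖ ≤ ‖β‖ + y) :
    1 + Real.log (1 + ‖b‖) ≤ 6 * (1 + Real.log (1 + ‖α‖)) := by
  have hα : ‖α‖ = ‖β‖ ^ 2 := by rw [← hβ, norm_pow]
  have h0 := norm_nonneg β
  have h00 := norm_nonneg b
  have h1 : 1 + ‖b‖ ≤ 66 * (1 + ‖α‖) := by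
    rw [hα]; nlinarith [sq_nonneg (‖β‖ - 1)]
  have h2 : Real.log (1 + ‖b‖) ≤ Real.log 66 + Real.log (1 + ‖α‖) := by
    rw [← Real.log_mul (by norm_num) (by positivity)]
    exact Real.log_le_log (by positivity) h1
  have h3 : Real.log 66 ≤ 5 := by
    rw [Real.log_le_iff_le_exp (by norm_num)]
    have h4 := Real.exp_one_gt_d9
    have h5 : Real.exp 5 = Real.exp 1 ^ 5 := by
      rw [← Real.exp_nat_mul]; norm_num
    rw [h5]
    calc (66 : ℝ) ≤ 2.7 ^ 5 := by norm_num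
      _ ≤ Real.exp 1 ^ 5 := pow_le_pow_left₀ (by norm_num) (by linarith) 5
  have h4 : 0 ≤ Real.log (1 + ‖α‖) := Real.log_nonneg (by linarith [norm_nonneg α])
  linarith

/-- The product inequality. -/
theorem prod_bd {x y t r : ℝ} (hxy : y ^ 2 = x) (ht : t ^ 2 = r) (_hr : 0 < r) (α β : ℂ)
    (hβ : β ^ 2 = α) (hne : (x : ℂ) ≠ α) :
    Real.log ‖(x : ℂ) - α‖ + (1 / 2) * Real.log (1 + r ^ 2 / ‖(x : ℂ) - α‖ ^ 2) ≤
      (1 / 2) * Real.log (‖β - y‖ ^ 2 + t ^ 2) + (1 / 2) * Real.log (‖-β - y‖ ^ 2 + t ^ 2) := by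
  have hpos : 0 < ‖(x : ℂ) - α‖ := norm_pos_iff.2 (sub_ne_zero.2 hne)
  have hprod : ‖β - y‖ * ‖-β - y‖ = ‖(x : ℂ) - α‖ := by
    rw [← norm_mul]
    congr 1
    rw [← hβ, ← hxy]; push_cast; ring
  have hA : 0 < ‖β - y‖ := by
    rcases (norm_nonneg (β - y)).eq_or_lt with h | h
    · rw [← h] at hprod; simp only [zero_mul] at hprod; linarith
    · exact h
  have hD : 0 < ‖-β - y‖ := by
    rcases (norm_nonneg (-β - y)).eq_or_lt with h | h
    · rw [← h] at hprod; simp only [mul_zero] at hprod; linarith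
    · exact h
  set A := ‖β - y‖ with hAdef
  set D := ‖-β - y‖ with hDdef
  set N := ‖(x : ℂ) - α‖ with hN
  have e1 : Real.log N = (1 / 2) * Real.log (N ^ 2) := by
    rw [Real.log_pow]; push_cast; ring
  rw [e1, ← mul_add, ← mul_add, ← Real.log_mul (by positivity) (by positivity),
    ← Real.log_mul (by positivity) (by positivity)]
  refine mul_le_mul_of_nonneg_left ?_ (by norm_num)
  refine Real.log_le_log (by positivity) ?_
  have e2 : N ^ 2 * (1 + r ^ 2 / N ^ 2) = N ^ 2 + r ^ 2 := by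
    field_simp
  rw [e2, ← hprod, ← ht]
  nlinarith [mul_nonneg (sq_nonneg A) (sq_nonneg t), mul_nonneg (sq_nonneg D) (sq_nonneg t)]

/-- Splitting of the logarithm. -/
theorem log_split (y u : ℝ) (α β : ℂ) (hβ : β ^ 2 = α) (hne : (((y + u) ^ 2 : ℝ) : ℂ) ≠ α) :
    Real.log ‖(((y + u) ^ 2 : ℝ) : ℂ) - α‖ =
      Real.log ‖(u : ℂ) - (β - y)‖ + Real.log ‖(u : ℂ) - (-β - y)‖ := by
  have h1 : (((y + u) ^ 2 : ℝ) : ℂ) - α = ((u : ℂ) - (β - y)) * ((u : ℂ) - (-β - y)) := by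
    rw [← hβ]; push_cast; ring
  have h2 : (((y + u) ^ 2 : ℝ) : ℂ) - α ≠ 0 := sub_ne_zero.2 hne
  rw [h1] at h2
  rw [h1, norm_mul, Real.log_mul (norm_ne_zero_iff.2 (left_ne_zero_of_mul h2))
    (norm_ne_zero_iff.2 (right_ne_zero_of_mul h2))]

/-- Integrated majorant. -/
noncomputable def G (F : Finset ℤ[X]) (a : ℤ[X] → ℝ) (β : ℂ → ℂ) (t y u : ℝ) : ℝ :=
  ∑ Q ∈ F, a Q * (K t u * Real.log (Q.leadingCoeff : ℝ) + rsum Q (fun α =>
    K t u * Real.log ‖(u : ℂ) - (β α - y)‖ + K t u * Real.log ‖(u : ℂ) - (-β α - y)‖))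

theorem G_eq (F : Finset ℤ[X]) (a : ℤ[X] → ℝ) (hF : ∀ Q ∈ F, Adm Q) (β : ℂ → ℂ)
    (hβ : ∀ α, β α ^ 2 = α) (t y u : ℝ) (hu : ∀ Q ∈ F, ev Q ((y + u) ^ 2) ≠ 0) :
    G F a β t y u = K t u * pot F a ((y + u) ^ 2) := by
  unfold G pot
  rw [Finset.mul_sum]
  refine Finset.sum_congr rfl fun Q hQ => ?_
  rw [(hF Q hQ).log_abs_ev (hu Q hQ)]
  have h1 : rsum Q (fun α =>
      K t u * Real.log ‖(u : ℂ) - (β α - y)‖ + K t u * Real.log ‖(u : ℂ) - (-β α - y)‖) =
      K t u * rsum Q (fun α => Real.log ‖(((y + u) ^ 2 : ℝ) : ℂ) - α‖) := by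
    rw [← rsum_mul_left]
    refine rsum_congr Q _ _ fun α hα => ?_
    have hne : (((y + u) ^ 2 : ℝ) : ℂ) ≠ α := by
      rintro h
      exact hu Q hQ ((ev_eq_zero_iff (hF Q hQ).ne_zero _).2 (h ▸ hα))
    rw [log_split y u α (β α) (hβ α) hne]
    ring
  rw [h1]
  ring

end Pool.Agent.W401.SSS.BIaux

namespace Pool.Agent.W401.SSS

open BIaux

theorem pBI : CB → PK → UNI1 → BI := by
  intro hCB hPK _
  refine ⟨2700, by norm_num, ?_⟩
  intro lam η F a hl0 hl6 hη0 hη1 hc x hx hxF r hr0 hr1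
  have hwt : ∑ Q ∈ F, a Q * wt Q ≤ 70 := hCB lam η 2000 F a (by norm_num) hl0 hη1 hc
  obtain ⟨β, hβ⟩ := exists_root
  set y := Real.sqrt x with hy
  set t := Real.sqrt r with ht
  have hyx : y ^ 2 = x := Real.sq_sqrt hx.1
  have htr : t ^ 2 = r := Real.sq_sqrt hr0.le
  have hy0 : 0 ≤ y := Real.sqrt_nonneg x
  have hy32 : y ≤ 32 := by
    have := hx.2
    nlinarith
  have ht0 : 0 < t := Real.sqrt_pos.2 hr0
  have ht1 : t ≤ 1 := by nlinarith
  -- integrability
  have hK : ∀ b : ℂ, IntervalIntegrable (fun u : ℝ => K t u * Real.log ‖(u : ℂ) - b‖)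
      volume (-1) 1 := fun b => (hPK t b ht0 ht1).1
  have hQi : ∀ Q : ℤ[X], IntervalIntegrable (fun u : ℝ => rsum Q (fun α =>
      K t u * Real.log ‖(u : ℂ) - (β α - y)‖ + K t u * Real.log ‖(u : ℂ) - (-β α - y)‖))
      volume (-1) 1 ∧ ∫ u in (-1 : ℝ)..1, rsum Q (fun α =>
      K t u * Real.log ‖(u : ℂ) - (β α - y)‖ + K t u * Real.log ‖(u : ℂ) - (-β α - y)‖) =
      rsum Q (fun α => (∫ u in (-1 : ℝ)..1, K t u * Real.log ‖(u : ℂ) - (β α - y)‖) +
        ∫ u in (-1 : ℝ)..1, K t u * Real.log ‖(u : ℂ) - (-β α - y)‖) := by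
    intro Q
    have h := rsum_int Q (fun u α => K t u * Real.log ‖(u : ℂ) - (β α - y)‖ +
      K t u * Real.log ‖(u : ℂ) - (-β α - y)‖) (-1) 1 (fun α => (hK _).add (hK _))
    refine ⟨h.1, h.2.trans ?_⟩
    refine rsum_congr Q _ _ fun α _ => ?_
    exact intervalIntegral.integral_add (hK _) (hK _)
  have hKi : IntervalIntegrable (K t) volume (-1) 1 := (K_cont ht0).intervalIntegrable _ _
  have hterm : ∀ Q : ℤ[X], IntervalIntegrable (fun u : ℝ => a Q *
      (K t u * Real.log (Q.leadingCoeff : ℝ) + rsum Q (fun α =>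
      K t u * Real.log ‖(u : ℂ) - (β α - y)‖ + K t u * Real.log ‖(u : ℂ) - (-β α - y)‖)))
      volume (-1) 1 := fun Q => ((hKi.mul_const _).add (hQi Q).1).const_mul _
  have hGi : IntervalIntegrable (G F a β t y) volume (-1) 1 := by
    have := IntervalIntegrable.sum F (fun Q _ => hterm Q)
    refine this.congr ?_
    intro u _
    unfold G
    simp
  have hGint : ∫ u in (-1 : ℝ)..1, G F a β t y u = ∑ Q ∈ F, a Q *
      ((∫ u in (-1 : ℝ)..1, K t u) * Real.log (Q.leadingCoeff : ℝ) + rsum Q (fun α =>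
        (∫ u in (-1 : ℝ)..1, K t u * Real.log ‖(u : ℂ) - (β α - y)‖) +
        ∫ u in (-1 : ℝ)..1, K t u * Real.log ‖(u : ℂ) - (-β α - y)‖)) := by
    unfold G
    rw [intervalIntegral.integral_finsetSum (fun Q _ => hterm Q)]
    refine Finset.sum_congr rfl fun Q _ => ?_
    rw [intervalIntegral.integral_const_mul, intervalIntegral.integral_add (hKi.mul_const _)
      (hQi Q).1, (hQi Q).2, intervalIntegral.integral_mul_const]
  -- upper bound
  have hfin : {u : ℝ | ∃ Q ∈ F, ev Q ((y + u) ^ 2) = 0}.Finite := by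
    have : {u : ℝ | ∃ Q ∈ F, ev Q ((y + u) ^ 2) = 0} =
        ⋃ Q ∈ F, {u : ℝ | (y + u) ^ 2 ∈ {z : ℝ | ev Q z = 0}} := by
      ext u; simp
    rw [this]
    exact Set.Finite.biUnion F.finite_toSet fun Q hQ =>
      finite_sq (finite_roots (hc.adm Q hQ).ne_zero) y
  have hae : ∀ᵐ u : ℝ ∂volume, ∀ Q ∈ F, ev Q ((y + u) ^ 2) ≠ 0 := by
    have h0 : volume {u : ℝ | ∃ Q ∈ F, ev Q ((y + u) ^ 2) = 0} = 0 := hfin.measure_zero _
    rw [ae_iff]
    convert h0 using 2
    ext u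
    simp
  have hRi : IntervalIntegrable (fun u : ℝ => K t u * ((y + u) ^ 2 - lam + η)) volume (-1) 1 :=
    ((K_cont ht0).mul (by fun_prop)).intervalIntegrable _ _
  have hle : ∫ u in (-1 : ℝ)..1, G F a β t y u ≤
      ∫ u in (-1 : ℝ)..1, K t u * ((y + u) ^ 2 - lam + η) := by
    refine intervalIntegral.integral_mono_ae_restrict (by norm_num) hGi hRi ?_
    have hmem : ∀ᵐ u : ℝ ∂(volume.restrict (Set.Icc (-1 : ℝ) 1)), u ∈ Set.Icc (-1 : ℝ) 1 :=
      ae_restrict_mem measurableSet_Icc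
    filter_upwards [ae_restrict_of_ae hae, hmem] with u hu hu1
    rw [G_eq F a hc.adm β hβ t y u hu]
    refine mul_le_mul_of_nonneg_left ?_ (K_nonneg ht0 u)
    refine hc.le _ ⟨sq_nonneg _, ?_⟩ hu
    have h1 := hu1.1
    have h2 := hu1.2
    nlinarith
  have hR : ∫ u in (-1 : ℝ)..1, K t u * ((y + u) ^ 2 - lam + η) ≤ (x - lam + η) + 1011 * t := by
    have e1 : ∀ u : ℝ, K t u * ((y + u) ^ 2 - lam + η) =
        (x - lam + η) * K t u + (2 * y) * (u * K t u) + u ^ 2 * K t u := by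
      intro u; rw [← hyx]; ring
    simp only [e1]
    have i1 : IntervalIntegrable (fun u : ℝ => (x - lam + η) * K t u) volume (-1) 1 :=
      hKi.const_mul _
    have i2 : IntervalIntegrable (fun u : ℝ => (2 * y) * (u * K t u)) volume (-1) 1 :=
      ((continuous_id.mul (K_cont ht0)).intervalIntegrable _ _).const_mul _
    have i3 : IntervalIntegrable (fun u : ℝ => u ^ 2 * K t u) volume (-1) 1 :=
      ((continuous_pow 2).mul (K_cont ht0)).intervalIntegrable _ _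
    rw [intervalIntegral.integral_add (i1.add i2) i3, intervalIntegral.integral_add i1 i2,
      intervalIntegral.integral_const_mul, intervalIntegral.integral_const_mul, K_int_odd ht0]
    have h1 := K_int_bd ht0
    have h2 := K_int_sq ht0
    set m := ∫ u in (-1 : ℝ)..1, K t u with hm
    have hA1 : x - lam + η ≤ 1001 := by linarith [hx.2]
    have hA2 : -6 ≤ x - lam + η := by linarith [hx.1]
    have h3 : (x - lam + η) * m ≤ (x - lam + η) + 1010 * t := by
      have h4 : 0 ≤ 1 - m := by linarith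
      have h5 : 1 - m ≤ t := by linarith
      nlinarith
    linarith
  -- lower bound
  have hL : ∑ Q ∈ F, a Q * (Real.log (Q.leadingCoeff : ℝ) +
      rsum Q (fun α => Real.log ‖(x : ℂ) - α‖) +
      rsum Q (fun α => (1 / 2) * Real.log (1 + r ^ 2 / ‖(x : ℂ) - α‖ ^ 2)) - 24 * t * wt Q) ≤
      ∫ u in (-1 : ℝ)..1, G F a β t y u := by
    rw [hGint]
    refine Finset.sum_le_sum fun Q hQ => mul_le_mul_of_nonneg_left ?_ (hc.pos Q hQ).le
    have hQa := hc.adm Q hQ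
    have hlc := hQa.log_lc_nonneg
    have h1 := (K_int_bd ht0).1
    have h2 : (1 - t) * Real.log (Q.leadingCoeff : ℝ) ≤
        (∫ u in (-1 : ℝ)..1, K t u) * Real.log (Q.leadingCoeff : ℝ) :=
      mul_le_mul_of_nonneg_right h1 hlc
    have h3 : rsum Q (fun α => (Real.log ‖(x : ℂ) - α‖ +
        (1 / 2) * Real.log (1 + r ^ 2 / ‖(x : ℂ) - α‖ ^ 2)) -
        24 * t * (1 + Real.log (1 + ‖α‖))) ≤
        rsum Q (fun α => (∫ u in (-1 : ℝ)..1, K t u * Real.log ‖(u : ℂ) - (β α - y)‖) +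
        ∫ u in (-1 : ℝ)..1, K t u * Real.log ‖(u : ℂ) - (-β α - y)‖) := by
      refine rsum_le Q _ _ fun α hα => ?_
      have hne : (x : ℂ) ≠ α := by
        rintro h
        exact hxF Q hQ ((ev_eq_zero_iff hQa.ne_zero _).2 (h ▸ hα))
      have p1 : (1 / 2) * Real.log (‖β α - y‖ ^ 2 + t ^ 2) -
          2 * t * (1 + Real.log (1 + ‖β α - y‖)) ≤
          ∫ u in (-1 : ℝ)..1, K t u * Real.log ‖(u : ℂ) - (β α - y)‖ :=
        (hPK t (β α - y) ht0 ht1).2
      have p2 : (1 / 2) * Real.log (‖-β α - y‖ ^ 2 + t ^ 2) -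
          2 * t * (1 + Real.log (1 + ‖-β α - y‖)) ≤
          ∫ u in (-1 : ℝ)..1, K t u * Real.log ‖(u : ℂ) - (-β α - y)‖ :=
        (hPK t (-β α - y) ht0 ht1).2
      have p3 := prod_bd hyx htr hr0 α (β α) (hβ α) hne
      have n1 : ‖β α - (y : ℂ)‖ ≤ ‖β α‖ + y := by
        refine (norm_sub_le _ _).trans ?_
        rw [Complex.norm_real, Real.norm_of_nonneg hy0]
      have n2 : ‖-β α - (y : ℂ)‖ ≤ ‖β α‖ + y := by
        refine (norm_sub_le _ _).trans ?_
        rw [Complex.norm_real, Real.norm_of_nonneg hy0, norm_neg]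
      have p4 := log_bd hy0 hy32 α (β α - y) (β α) (hβ α) n1
      have p5 := log_bd hy0 hy32 α (-β α - y) (β α) (hβ α) n2
      nlinarith
    rw [rsum_sub, rsum_add, rsum_mul_left Q (24 * t)] at h3
    have h4 : rsum Q (fun α => 1 + Real.log (1 + ‖α‖)) =
        wt Q - Real.log (Q.leadingCoeff : ℝ) := by
      unfold wt; ring
    rw [h4] at h3
    have h5 : 0 ≤ t * Real.log (Q.leadingCoeff : ℝ) := by positivity
    nlinarith
  have hfinal := hL.trans (hle.trans hR)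
  have hsum : ∑ Q ∈ F, a Q * (Real.log (Q.leadingCoeff : ℝ) +
      rsum Q (fun α => Real.log ‖(x : ℂ) - α‖) +
      rsum Q (fun α => (1 / 2) * Real.log (1 + r ^ 2 / ‖(x : ℂ) - α‖ ^ 2)) - 24 * t * wt Q) =
      pot F a x + ∑ Q ∈ F, a Q * rsum Q (fun α => (1 / 2) *
        Real.log (1 + r ^ 2 / ‖(x : ℂ) - α‖ ^ 2)) - 24 * t * ∑ Q ∈ F, a Q * wt Q := by
    unfold pot
    rw [Finset.mul_sum, ← Finset.sum_add_distrib, ← Finset.sum_sub_distrib]
    refine Finset.sum_congr rfl fun Q hQ => ?_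
    rw [(hc.adm Q hQ).log_abs_ev (hxF Q hQ)]
    ring
  rw [hsum] at hfinal
  unfold hh
  nlinarith

end Pool.Agent.W401.SSS
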