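import Pool.Agent.W401.SSS.Stm

/-!
# Block polynomials
-/

open MeasureTheory Polynomial

namespace Pool.Agent.W401.SSS

namespace BLKaux

theorem null_singleton {c : ℝ} {ν : Measure ℝ} [IsFiniteMeasure ν] (h : Lip c ν) (x : ℝ) :
    ν {x} = 0 := by
  have h1 := h x 0 le_rfl
  rw [add_zero, Set.Icc_self, mul_zero] at h1
  have h2 : (ν {x}).toReal = 0 := le_antisymm h1 ENNReal.toReal_nonneg
  rcases (ENNReal.toReal_eq_zero_iff _).1 h2 with h3 | h3
  · exact h3
  · exact absurd h3 (measure_ne_top ν _)

theorem integrable_log {B c : ℝ} {ν : Measure ℝ} (hL : LIPL) (hc : 0 ≤ c) (hon : On B ν)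
    (h : Lip c ν) (hB : 0 < B) (α : ℂ) : Integrable (fun x : ℝ => Real.log ‖(x : ℂ) - α‖) ν := by
  have := hon.1
  set ρ : ℝ := B + ‖α‖ + 1 with hρ
  have hρ0 : 0 < ρ := by positivity
  have h1 := (hL c ν inferInstance hc h α ρ hρ0).1
  have h2 : Integrable (fun x : ℝ => Real.log ρ - max 0 (Real.log (ρ / ‖(x : ℂ) - α‖))) ν :=
    (integrable_const _).sub h1
  apply h2.congr
  have e1 : ∀ᵐ x ∂ν, x ∈ Set.Icc 0 B := by
    rw [ae_iff]
    exact hon.2
  have e2 : ∀ᵐ x ∂ν, x ≠ α.re := by
    rw [ae_iff]
    have : {a : ℝ | ¬ a ≠ α.re} = {α.re} := by ext a; simp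
    rw [this]
    exact null_singleton h _
  filter_upwards [e1, e2] with x hx hx2
  have hne : (x : ℂ) - α ≠ 0 := by
    intro h0
    apply hx2
    have := congrArg Complex.re h0
    simp at this
    linarith
  have hpos : 0 < ‖(x : ℂ) - α‖ := norm_pos_iff.2 hne
  have hle : ‖(x : ℂ) - α‖ ≤ ρ := by
    have h3 := norm_sub_le (x : ℂ) α
    have h4 : ‖(x : ℂ)‖ ≤ B := by
      rw [Complex.norm_real, Real.norm_eq_abs, abs_of_nonneg hx.1]; exact hx.2
    linarith
  have h5 : 0 ≤ Real.log (ρ / ‖(x : ℂ) - α‖) := by
    apply Real.log_nonneg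
    rw [le_div_iff₀ hpos]; linarith
  rw [max_eq_right h5, Real.log_div hρ0.ne' hpos.ne']
  ring

/-- The sum over `Z`. -/
noncomputable def G (Z : Multiset ℂ) (x : ℝ) : ℝ := (Z.map (fun α => Real.log ‖(x : ℂ) - α‖)).sum

theorem G_int {B c : ℝ} {ν : Measure ℝ} (hL : LIPL) (hc : 0 ≤ c) (hon : On B ν)
    (h : Lip c ν) (hB : 0 < B) (Z : Multiset ℂ) :
    Integrable (G Z) ν ∧ ∫ x, G Z x ∂ν = (Z.map (Upot ν)).sum := by
  have := hon.1
  induction Z using Multiset.induction_on with
  | empty =>
    have : G 0 = fun _ => (0 : ℝ) := by ext x; simp [G]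
    rw [this]; simp
  | cons a s ih =>
    have e : G (a ::ₘ s) = fun x : ℝ => Real.log ‖(x : ℂ) - a‖ + G s x := by
      ext x; simp [G]
    have h1 := integrable_log hL hc hon h hB a
    rw [e]
    refine ⟨h1.add ih.1, ?_⟩
    rw [integral_add h1 ih.1, ih.2, Multiset.map_cons, Multiset.sum_cons]
    rfl

theorem sum_swap (Z : Multiset ℂ) (D : ℕ) (f : ℂ → ℕ → ℝ) :
    ∑ j ∈ Finset.range D, (Z.map (fun α => f α j)).sum
      = (Z.map (fun α => ∑ j ∈ Finset.range D, f α j)).sum := by
  induction Z using Multiset.induction_on with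
  | empty => simp
  | cons a s ih => simp [Finset.sum_add_distrib, ih]

end BLKaux

open BLKaux

theorem pBLK : QUANT → BLKU → LIPL → BLK := by
  intro hQ hU hL B B' c ν hB hc hBB hon hlip
  have := hon.1
  have hna : NullSingletonClass ν := ⟨fun x => null_singleton hlip x⟩
  obtain ⟨C, hC0, hC⟩ := hU B B' c ν hB hc hBB hon hlip
  refine ⟨C, hC0, ?_⟩
  intro D Z
  rcases Nat.eq_zero_or_pos D with hD | hD
  · subst hD
    refine ⟨1, monic_one, natDegree_one, fun α _ => by simp, ?_, ?_⟩
    · simp
    · intro t _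
      rw [eval_one]
      have : (0 : ℝ) ≤ ((0 : ℕ) : ℝ) * Upot ν (t : ℂ) + C * (1 + Real.log (((0 : ℕ) : ℝ) + 1)) := by
        simp; exact hC0
      have h2 := Real.add_one_le_exp
        (((0 : ℕ) : ℝ) * Upot ν (t : ℂ) + C * (1 + Real.log (((0 : ℕ) : ℝ) + 1)))
      rw [abs_one]; linarith
  · obtain ⟨x, hx0, hxD, hx⟩ := hQ B c ν hB hon hlip D hD
    have hD' : (0 : ℝ) < D := by exact_mod_cast hD
    obtain ⟨hGi, hGs⟩ := G_int hL hc.le hon hlip hB Z
    -- choice of the points
    have hz : ∀ j, ∃ z : ℝ, j < D → (z ∈ Set.Icc (x j) (x (j + 1)) ∧ (∀ α ∈ Z, (z : ℂ) ≠ α) ∧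
        D * ∫ y in Set.Icc (x j) (x (j + 1)), G Z y ∂ν ≤ G Z z) := by
      intro j
      by_cases hj : j < D
      · obtain ⟨h1, h2⟩ := hx j hj
        set I := Set.Icc (x j) (x (j + 1)) with hI
        have hne : ν.restrict I ≠ 0 := by
          intro h0
          have : ν I = 0 := by
            have := congrArg (fun m : Measure ℝ => m Set.univ) h0
            simpa using this
          rw [this] at h2
          simp at h2
          exact absurd h2.symm (by positivity)
        let N : Set ℝ := Iᶜ ∪ (fun α : ℂ => α.re) '' {α | α ∈ Z}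
        have hN : (ν.restrict I) N = 0 := by
          apply measure_union_null
          · rw [Measure.restrict_apply (measurableSet_Icc.compl), Set.compl_inter_self,
              measure_empty]
          · exact (Measure.restrict_le_self.absolutelyContinuous)
              (((Multiset.finite_toSet Z).image _).countable.measure_zero ν)
        obtain ⟨z, hzN, hzG⟩ := exists_notMem_null_average_le hne hGi.restrict hN
        refine ⟨z, fun _ => ⟨?_, ?_, ?_⟩⟩
        · by_contra hc'
          exact hzN (Or.inl hc')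
        · intro α hα h
          apply hzN
          right
          refine ⟨α, hα, ?_⟩
          rw [← h]; simp
        · rw [setAverage_eq, measureReal_def, h2] at hzG
          simpa using hzG
      · exact ⟨0, fun h => absurd h hj⟩
    choose z hz using hz
    refine ⟨∏ j ∈ Finset.range D, (X - Polynomial.C (z j)), ?_, ?_, ?_, ?_, ?_⟩
    · exact monic_prod_of_monic _ _ (fun j _ => monic_X_sub_C _)
    · rw [natDegree_prod_of_monic _ _ (fun j _ => monic_X_sub_C _)]
      simp
    · intro α hα
      rw [map_prod, Finset.prod_ne_zero_iff]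
      intro j hj
      have := (hz j (Finset.mem_range.1 hj)).2.1 α hα
      simp only [map_sub, aeval_X, aeval_C]
      intro h0
      apply this
      have : α = (z j : ℂ) := by
        rw [sub_eq_zero] at h0; simpa using h0
      exact this.symm
    · -- main inequality
      have e1 : ∀ α ∈ Z, Real.log ‖aeval α (∏ j ∈ Finset.range D, (X - Polynomial.C (z j)))‖
          = ∑ j ∈ Finset.range D, Real.log ‖((z j : ℝ) : ℂ) - α‖ := by
        intro α hα
        rw [map_prod, norm_prod, Real.log_prod]
        · apply Finset.sum_congr rfl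
          intro j _
          simp only [map_sub, aeval_X, aeval_C]
          rw [norm_sub_rev]
          rfl
        · intro j hj
          have := (hz j (Finset.mem_range.1 hj)).2.1 α hα
          simp only [map_sub, aeval_X, aeval_C]
          intro h0
          apply this
          rw [norm_eq_zero, sub_eq_zero] at h0
          have h3 : α = (z j : ℂ) := by simpa using h0
          exact h3.symm
      rw [Multiset.map_congr rfl e1, ← sum_swap Z D (fun α j => Real.log ‖((z j : ℝ) : ℂ) - α‖)]
      have e2 : ∑ j ∈ Finset.range D, (D : ℝ) * ∫ y in Set.Icc (x j) (x (j + 1)), G Z y ∂ν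
          ≤ ∑ j ∈ Finset.range D, G Z (z j) :=
        Finset.sum_le_sum fun j hj => (hz j (Finset.mem_range.1 hj)).2.2
      have e3 : ∑ j ∈ Finset.range D, ∫ y in Set.Icc (x j) (x (j + 1)), G Z y ∂ν
          = ∫ y, G Z y ∂ν := by
        have a1 : ∀ j ∈ Finset.range D, ∫ y in Set.Icc (x j) (x (j + 1)), G Z y ∂ν
            = ∫ y in (x j)..(x (j + 1)), G Z y ∂ν := by
          intro j hj
          rw [intervalIntegral.integral_of_le (hx j (Finset.mem_range.1 hj)).1.le,
            integral_Icc_eq_integral_Ioc' (null_singleton hlip _)]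
        rw [Finset.sum_congr rfl a1, intervalIntegral.sum_integral_adjacent_intervals, hx0, hxD,
          intervalIntegral.integral_of_le hB.le, ← integral_Icc_eq_integral_Ioc'
            (null_singleton hlip _)]
        · apply setIntegral_eq_integral_of_ae_compl_eq_zero
          have : ∀ᵐ y ∂ν, y ∈ Set.Icc 0 B := by
            rw [ae_iff]; exact hon.2
          filter_upwards [this] with y hy hy2
          exact absurd hy hy2
        · intro k _
          exact hGi.intervalIntegrable
      rw [← Finset.mul_sum, e3, hGs] at e2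
      exact e2
    · intro t ht
      have := hC D hD x z hx0 hxD hx (fun j hj => (hz j hj).1) t ht
      rw [eval_prod, Finset.abs_prod]
      refine le_trans (le_of_eq ?_) this
      apply Finset.prod_congr rfl
      intro j _
      simp

end Pool.Agent.W401.SSS
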