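import Pool.Agent.W401.SSS.Stm

/-! Step BLKU of the Schur-Siegel-Smyth project. -/

open MeasureTheory Polynomial

namespace Pool.Agent.W401.SSS

namespace BLKUaux

open Finset

lemma norm_sub_real (y t : ℝ) : ‖(y : ℂ) - (t : ℂ)‖ = |y - t| := by
  rw [← Complex.ofReal_sub, Complex.norm_real, Real.norm_eq_abs]

lemma no_atom {c : ℝ} {ν : Measure ℝ} [IsProbabilityMeasure ν] (hL : Lip c ν) (t : ℝ) :
    ν {t} = 0 := by
  have h := hL t 0 le_rfl
  rw [add_zero, Set.Icc_self, mul_zero] at h
  have h2 : (ν {t}).toReal = 0 := le_antisymm h ENNReal.toReal_nonneg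
  rcases (ENNReal.toReal_eq_zero_iff _).1 h2 with h3 | h3
  · exact h3
  · exact absurd h3 (measure_ne_top ν _)

lemma sumL (G h : ℕ → ℝ) (K : ℝ) (p : ℕ) (hh : ∀ j, j < p → 0 ≤ h j)
    (hK : ∀ j, j < p → G j ≤ K) (hK0 : 0 ≤ K) (hG : ∀ j, j + 1 < p → G j ≤ h (j + 1)) :
    ∑ j ∈ range p, G j ≤ ∑ j ∈ range p, h j + K := by
  cases p with
  | zero => simpa using hK0
  | succ p =>
    rw [Finset.sum_range_succ, Finset.sum_range_succ' h]
    have h1 : ∑ j ∈ range p, G j ≤ ∑ j ∈ range p, h (j + 1) :=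
      Finset.sum_le_sum (fun j hj => hG j (by rw [Finset.mem_range] at hj; omega))
    have h2 := hK p (by omega)
    have h3 := hh 0 (by omega)
    linarith

lemma sumR (G h : ℕ → ℝ) (K : ℝ) (n : ℕ) (hh : ∀ j, j < n → 0 ≤ h j)
    (hK : ∀ j, j < n → G j ≤ K) (hK0 : 0 ≤ K) (hG : ∀ j, j + 1 < n → G (j + 1) ≤ h j) :
    ∑ j ∈ range n, G j ≤ ∑ j ∈ range n, h j + K := by
  cases n with
  | zero => simpa using hK0
  | succ n =>
    rw [Finset.sum_range_succ' G, Finset.sum_range_succ]
    have h1 : ∑ j ∈ range n, G (j + 1) ≤ ∑ j ∈ range n, h j :=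
      Finset.sum_le_sum (fun j hj => hG j (by rw [Finset.mem_range] at hj; omega))
    have h2 := hK 0 (by omega)
    have h3 := hh n (by omega)
    linarith

lemma sumAll (G h : ℕ → ℝ) (K : ℝ) (D p : ℕ) (hp : p ≤ D) (hh : ∀ j, j < D → 0 ≤ h j)
    (hK : ∀ j, j < D → G j ≤ K) (hK0 : 0 ≤ K) (hl : ∀ j, j + 1 < p → G j ≤ h (j + 1))
    (hr : ∀ j, p + 1 ≤ j → j + 1 < D → G (j + 1) ≤ h j) :
    ∑ j ∈ range D, G j ≤ ∑ j ∈ range D, h j + 3 * K := by
  obtain ⟨m, rfl⟩ := Nat.exists_eq_add_of_le hp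
  rw [Finset.sum_range_add, Finset.sum_range_add]
  have h1 := sumL G h K p (fun j hj => hh j (by omega)) (fun j hj => hK j (by omega)) hK0 hl
  cases m with
  | zero => simp only [Finset.range_zero, Finset.sum_empty, add_zero]; linarith
  | succ m =>
    rw [Finset.sum_range_succ' (fun x => G (p + x)), Finset.sum_range_succ' (fun x => h (p + x))]
    have h2 := hK (p + 0) (by omega)
    have h3 := hh (p + 0) (by omega)
    have h4 := sumR (fun j => G (p + (j + 1))) (fun j => h (p + (j + 1))) K m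
      (fun j hj => hh _ (by omega)) (fun j hj => hK _ (by omega)) hK0
      (fun j hj => by
        have := hr (p + (j + 1)) (by omega) (by omega)
        exact this)
    linarith

/-- the nonnegative kernel -/
noncomputable def gk (M t y : ℝ) : ℝ := max 0 (Real.log (M / ‖(y : ℂ) - (t : ℂ)‖))

lemma gk_nonneg (M t y : ℝ) : 0 ≤ gk M t y := le_max_left _ _

lemma gk_eq {M t y : ℝ} (hM : 0 < M) (hne : y ≠ t) (hle : |y - t| ≤ M) :
    gk M t y = Real.log M - Real.log |y - t| := by
  have h0 : 0 < |y - t| := abs_pos.2 (sub_ne_zero.2 hne)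
  unfold gk
  rw [norm_sub_real, Real.log_div hM.ne' h0.ne', max_eq_right]
  have := Real.log_le_log h0 hle
  linarith

lemma gk_mono {M t y u : ℝ} (hM : 0 < M) (hu : u ≠ t) (h : |u - t| ≤ |y - t|) :
    gk M t y ≤ gk M t u := by
  have h0 : 0 < |u - t| := abs_pos.2 (sub_ne_zero.2 hu)
  unfold gk
  rw [norm_sub_real, norm_sub_real]
  apply max_le_max le_rfl
  apply Real.log_le_log
  · exact div_pos hM (h0.trans_le h)
  · exact div_le_div_of_nonneg_left hM.le h0 h

lemma gk_split {M t y ρ : ℝ} (hM : 1 ≤ M) (hρ : 0 < ρ) (hρ1 : ρ ≤ 1) :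
    gk M t y ≤ Real.log M + Real.log ρ⁻¹ + gk ρ t y := by
  have hM0 : 0 < M := by linarith
  have h1 : 0 ≤ Real.log M := Real.log_nonneg hM
  have h2 : 0 ≤ Real.log ρ⁻¹ := Real.log_nonneg ((one_le_inv₀ hρ).2 hρ1)
  have h3 := gk_nonneg ρ t y
  unfold gk at h3 ⊢
  apply max_le
  · linarith
  · by_cases hy : ‖(y : ℂ) - (t : ℂ)‖ = 0
    · rw [hy, div_zero, Real.log_zero]
      have : (0 : ℝ) ≤ max 0 (Real.log (ρ / 0)) := le_max_left _ _
      linarith
    · have e : Real.log (M / ‖(y : ℂ) - (t : ℂ)‖) =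
          Real.log M + Real.log ρ⁻¹ + Real.log (ρ / ‖(y : ℂ) - (t : ℂ)‖) := by
        rw [Real.log_div hM0.ne' hy, Real.log_div hρ.ne' hy, Real.log_inv]; ring
      rw [e]
      have := le_max_right 0 (Real.log (ρ / ‖(y : ℂ) - (t : ℂ)‖))
      linarith

end BLKUaux

open BLKUaux in
theorem pBLKU : LIPL → BLKU := by
  intro hLIPL B B' c ν hB hc hBB' hOn hLip
  obtain ⟨hprob, hcarry⟩ := hOn
  set M : ℝ := max B' 1 with hM
  have hM1 : 1 ≤ M := le_max_right _ _
  have hM0 : 0 < M := by linarith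
  have hlogM : 0 ≤ Real.log M := Real.log_nonneg hM1
  refine ⟨3 * Real.log M + 6 * c + 3, by positivity, ?_⟩
  intro D hD x z hx0 hxD hx hz t ht
  have hD0 : (0 : ℝ) < D := by exact_mod_cast hD
  have hlogD : 0 ≤ Real.log ((D : ℝ) + 1) := Real.log_nonneg (by linarith)
  -- monotonicity of x
  have hmono : ∀ i j, i ≤ j → j ≤ D → x i ≤ x j := by
    intro i j hij hj
    induction j, hij using Nat.le_induction with
    | base => exact le_rfl
    | succ j hij ih => exact (ih (by omega)).trans (hx j (by omega)).1.le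
  by_cases hzt : ∃ j < D, z j = t
  · obtain ⟨j, hj, hjt⟩ := hzt
    have : ∏ j ∈ Finset.range D, |t - z j| = 0 :=
      Finset.prod_eq_zero (Finset.mem_range.2 hj) (by rw [hjt]; simp)
    rw [this]
    exact (Real.exp_pos _).le
  push Not at hzt
  -- integrability and the bound for small scales
  have hg1 := hLIPL c ν inferInstance hc.le hLip (t : ℂ) M hM0
  set ρ : ℝ := ((D : ℝ) + 1)⁻¹ with hρ
  have hρ0 : 0 < ρ := by positivity
  have hρ1 : ρ ≤ 1 := inv_le_one_of_one_le₀ (by linarith)
  have hg2 := hLIPL c ν inferInstance hc.le hLip (t : ℂ) ρ hρ0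
  have hint1 : Integrable (gk M t) ν := hg1.1
  have hint2 : Integrable (gk ρ t) ν := hg2.1
  have hle2 : ∫ y, gk ρ t y ∂ν ≤ 2 * c * ρ := hg2.2
  have hInt : ∀ y ∈ Set.Icc (0 : ℝ) B, |y - t| ≤ M := by
    intro y hy
    have h1 : B' ≤ M := le_max_left _ _
    rw [abs_le]
    constructor
    · linarith [hy.1, ht.2]
    · linarith [hy.2, ht.1]
  -- a.e. equality
  have hae : ∀ᵐ y ∂ν, gk M t y = Real.log M - Real.log ‖(y : ℂ) - (t : ℂ)‖ := by
    have h1 : ∀ᵐ y ∂ν, y ∈ Set.Icc (0 : ℝ) B := by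
      rw [ae_iff]
      exact hcarry
    have h2 : ∀ᵐ y ∂ν, y ≠ t := by
      rw [ae_iff]
      simpa using no_atom hLip t
    filter_upwards [h1, h2] with y hy hyt
    rw [gk_eq hM0 hyt (hInt y hy), norm_sub_real]
  have hUpot : Upot ν (t : ℂ) = Real.log M - ∫ y, gk M t y ∂ν := by
    have h1 : ∫ y, gk M t y ∂ν = ∫ y, (Real.log M - Real.log ‖(y : ℂ) - (t : ℂ)‖) ∂ν :=
      integral_congr_ae hae
    have h3 : Integrable (fun y : ℝ => Real.log ‖(y : ℂ) - (t : ℂ)‖) ν := by
      have h4 : Integrable (fun y : ℝ => Real.log M - gk M t y) ν :=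
        (integrable_const _).sub hint1
      refine h4.congr ?_
      filter_upwards [hae] with y hy
      rw [hy]; ring
    rw [h1, integral_sub (integrable_const _) h3]
    simp [Upot]
  -- block integrals
  set G : ℕ → ℝ := fun j => D * ∫ y in Set.Icc (x j) (x (j + 1)), gk M t y ∂ν with hG
  set K : ℝ := Real.log M + Real.log ((D : ℝ) + 1) + 2 * c with hK
  have hK0 : 0 ≤ K := by positivity
  have hmass : ∀ j, j < D → D * ν.real (Set.Icc (x j) (x (j + 1))) = 1 := by
    intro j hj
    have := (hx j hj).2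
    rw [Measure.real, this]
    field_simp
  -- pointwise comparison gives block comparison
  have hblock : ∀ j, j < D → ∀ a : ℝ, (∀ y ∈ Set.Icc (x j) (x (j + 1)), gk M t y ≤ a) →
      G j ≤ a := by
    intro j hj a ha
    have h1 : ∫ y in Set.Icc (x j) (x (j + 1)), gk M t y ∂ν ≤
        ∫ y in Set.Icc (x j) (x (j + 1)), a ∂ν := by
      apply setIntegral_mono_on hint1.integrableOn
      · exact integrableOn_const (by simp) 
      · exact measurableSet_Icc
      · exact ha
    rw [setIntegral_const, smul_eq_mul] at h1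
    calc G j ≤ D * (ν.real (Set.Icc (x j) (x (j + 1))) * a) :=
          mul_le_mul_of_nonneg_left h1 hD0.le
      _ = (D * ν.real (Set.Icc (x j) (x (j + 1)))) * a := by ring
      _ = a := by rw [hmass j hj, one_mul]
  have hGK : ∀ j, j < D → G j ≤ K := by
    intro j hj
    have h1 : ∫ y in Set.Icc (x j) (x (j + 1)), gk M t y ∂ν ≤
        ∫ y in Set.Icc (x j) (x (j + 1)),
          ((Real.log M + Real.log ρ⁻¹) + gk ρ t y) ∂ν := by
      apply setIntegral_mono_on hint1.integrableOn
      · exact (integrableOn_const (by simp)).add hint2.integrableOn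
      · exact measurableSet_Icc
      · intro y _
        exact gk_split hM1 hρ0 hρ1
    have h2 : ∫ y in Set.Icc (x j) (x (j + 1)), ((Real.log M + Real.log ρ⁻¹) + gk ρ t y) ∂ν =
        ν.real (Set.Icc (x j) (x (j + 1))) * (Real.log M + Real.log ρ⁻¹) +
          ∫ y in Set.Icc (x j) (x (j + 1)), gk ρ t y ∂ν := by
      rw [integral_add (integrable_const _) hint2.integrableOn, setIntegral_const,
        smul_eq_mul]
    have h3 : ∫ y in Set.Icc (x j) (x (j + 1)), gk ρ t y ∂ν ≤ ∫ y, gk ρ t y ∂ν :=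
      setIntegral_le_integral hint2 (Filter.Eventually.of_forall (fun y => gk_nonneg ρ t y))
    have h4 : (D : ℝ) * (2 * c * ρ) ≤ 2 * c := by
      have h5 : (D : ℝ) * ρ ≤ 1 := by
        rw [hρ, ← div_eq_mul_inv, div_le_one (by linarith)]
        linarith
      nlinarith
    have h6 : Real.log ρ⁻¹ = Real.log ((D : ℝ) + 1) := by rw [hρ, inv_inv]
    have h7 : ∫ y in Set.Icc (x j) (x (j + 1)), gk M t y ∂ν ≤
        ν.real (Set.Icc (x j) (x (j + 1))) * (Real.log M + Real.log ρ⁻¹) + 2 * c * ρ := by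
      linarith
    calc G j ≤ D * (ν.real (Set.Icc (x j) (x (j + 1))) * (Real.log M + Real.log ρ⁻¹) +
            2 * c * ρ) := mul_le_mul_of_nonneg_left h7 hD0.le
      _ = (D * ν.real (Set.Icc (x j) (x (j + 1)))) * (Real.log M + Real.log ρ⁻¹) +
            D * (2 * c * ρ) := by ring
      _ ≤ K := by rw [hmass j hj, one_mul, h6, hK]; linarith
  -- total
  have htotal : D * ∫ y, gk M t y ∂ν ≤ ∑ j ∈ Finset.range D, G j := by
    have h1 : ∀ n, n ≤ D → ∫ y in Set.Ioc 0 (x n), gk M t y ∂ν ≤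
        ∑ j ∈ Finset.range n, ∫ y in Set.Icc (x j) (x (j + 1)), gk M t y ∂ν := by
      intro n
      induction n with
      | zero => intro _; rw [hx0]; simp
      | succ n ih =>
        intro hn
        have h2 := ih (by omega)
        have h3 : Set.Ioc 0 (x (n + 1)) = Set.Ioc 0 (x n) ∪ Set.Ioc (x n) (x (n + 1)) := by
          rw [Set.Ioc_union_Ioc_eq_Ioc]
          · rw [← hx0]; exact hmono 0 n (by omega) (by omega)
          · exact (hx n (by omega)).1.le
        rw [h3, setIntegral_union (Set.Ioc_disjoint_Ioc_of_le le_rfl) measurableSet_Ioc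
          hint1.integrableOn hint1.integrableOn, Finset.sum_range_succ]
        have h4 : ∫ y in Set.Ioc (x n) (x (n + 1)), gk M t y ∂ν ≤
            ∫ y in Set.Icc (x n) (x (n + 1)), gk M t y ∂ν :=
          setIntegral_mono_set hint1.integrableOn
            (Filter.Eventually.of_forall (fun y => gk_nonneg M t y))
            (Filter.Eventually.of_forall (fun y hy => Set.Ioc_subset_Icc_self hy))
        linarith
    have h5 : ∫ y, gk M t y ∂ν = ∫ y in Set.Ioc 0 (x D), gk M t y ∂ν := by
      symm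
      apply setIntegral_eq_integral_of_ae_compl_eq_zero
      have e1 : ∀ᵐ y ∂ν, y ∈ Set.Icc (0 : ℝ) B := by
        rw [ae_iff]; exact hcarry
      have e2 : ∀ᵐ y ∂ν, y ≠ (0 : ℝ) := by
        rw [ae_iff]
        simpa using no_atom hLip 0
      filter_upwards [e1, e2] with y hy hy0 hcon
      exfalso
      apply hcon
      rw [hxD]
      exact ⟨lt_of_le_of_ne hy.1 (Ne.symm hy0), hy.2⟩
    have h6 := h1 D le_rfl
    rw [← h5] at h6
    rw [hG]
    simp only
    rw [← Finset.mul_sum]
    exact mul_le_mul_of_nonneg_left h6 hD0.le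
  -- the greatest index with x p ≤ t
  set p := Nat.findGreatest (fun i => x i ≤ t) D with hp
  have hpD : p ≤ D := Nat.findGreatest_le D
  have hpt : x p ≤ t := Nat.findGreatest_spec (P := fun i => x i ≤ t) (Nat.zero_le D)
    (by show x 0 ≤ t; rw [hx0]; exact ht.1)
  have hpg : ∀ i, p < i → i ≤ D → t < x i := by
    intro i hi hiD
    have := Nat.findGreatest_is_greatest (P := fun i => x i ≤ t) hi hiD
    exact not_le.1 this
  have hstrict : ∀ i j, i < j → j ≤ D → x i < x j := by
    intro i j hij hj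
    exact (hx i (by omega)).1.trans_le (hmono (i + 1) j hij hj)
  have hsum := sumAll G (fun j => gk M t (z j)) K D p hpD (fun j _ => gk_nonneg _ _ _) hGK hK0
    (by
      intro j hj
      have hjD : j + 1 < D := by omega
      apply hblock j (by omega)
      intro y hy
      have hz1 := hz (j + 1) hjD
      have hzne : z (j + 1) ≠ t := hzt (j + 1) hjD
      have h1 : z (j + 1) ≤ t := hz1.2.trans ((hmono (j + 1 + 1) p (by omega) hpD).trans hpt)
      have h2 : y ≤ z (j + 1) := hy.2.trans hz1.1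
      apply gk_mono hM0 hzne
      rw [abs_of_nonpos (by linarith), abs_of_nonpos (by linarith)]
      linarith)
    (by
      intro j hj1 hj2
      apply hblock (j + 1) hj2
      intro y hy
      have hz1 := hz j (by omega)
      have hzne : z j ≠ t := hzt j (by omega)
      have h1 : t < x j := hpg j (by omega) (by omega)
      have h2 : z j ≤ y := hz1.2.trans hy.1
      apply gk_mono hM0 hzne
      rw [abs_of_nonneg (by linarith [hz1.1]), abs_of_nonneg (by linarith [hz1.1])]
      linarith)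
  -- logs of the product
  have hzpos : ∀ j ∈ Finset.range D, 0 < |t - z j| := by
    intro j hj
    exact abs_pos.2 (sub_ne_zero.2 (Ne.symm (hzt j (Finset.mem_range.1 hj))))
  have hprodpos : 0 < ∏ j ∈ Finset.range D, |t - z j| := Finset.prod_pos hzpos
  rw [← Real.log_le_iff_le_exp hprodpos, Real.log_prod (fun j hj => (hzpos j hj).ne')]
  have hlogz : ∀ j ∈ Finset.range D, Real.log |t - z j| = Real.log M - gk M t (z j) := by
    intro j hj
    have hjD := Finset.mem_range.1 hj
    have hzj := hz j hjD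
    have hzI : z j ∈ Set.Icc (0 : ℝ) B := by
      constructor
      · have := hmono 0 j (by omega) (by omega)
        rw [hx0] at this
        exact this.trans hzj.1
      · have := hmono (j + 1) D hjD le_rfl
        rw [hxD] at this
        exact hzj.2.trans this
    rw [gk_eq hM0 (hzt j hjD) (hInt _ hzI), abs_sub_comm]
    ring
  rw [Finset.sum_congr rfl hlogz, Finset.sum_sub_distrib, Finset.sum_const, Finset.card_range,
    nsmul_eq_mul, hUpot]
  have hfin : 3 * K ≤ (3 * Real.log M + 6 * c + 3) * (1 + Real.log ((D : ℝ) + 1)) := by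
    rw [hK]
    have : 0 ≤ (3 * Real.log M + 6 * c) * Real.log ((D : ℝ) + 1) := by positivity
    nlinarith
  have hfin2 : D * (Real.log M - ∫ y, gk M t y ∂ν) =
      D * Real.log M - D * ∫ y, gk M t y ∂ν := by ring
  rw [hfin2]
  linarith

end Pool.Agent.W401.SSS
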