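import Pool.Agent.W401.SSS.Stm

open MeasureTheory Polynomial

namespace Pool.Agent.W401.SSS

namespace CBaux

theorem ae_good {B : ℝ} {ν : Measure ℝ} (hOn : On B ν) (hAr : Arith ν) (F : Finset ℤ[X])
    (hF : ∀ Q ∈ F, Q ≠ 0) :
    ∀ᵐ x ∂ν, x ∈ Set.Icc (0 : ℝ) B ∧ ∀ Q ∈ F, ev Q x ≠ 0 := by
  have h1 : ∀ᵐ x ∂ν, x ∈ Set.Icc (0 : ℝ) B := hOn.2
  have h2 : ∀ᵐ x ∂ν, ∀ Q ∈ F, ev Q x ≠ 0 := by
    rw [Filter.eventually_all_finset]
    intro Q hQ
    have h3 := (hAr Q (hF Q hQ)).1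
    have : {x | ¬ ev Q x ≠ 0} = {x | ev Q x = 0} := by ext x; simp
    rw [ae_iff, this]
    exact h3
  filter_upwards [h1, h2] with x hx1 hx2 using ⟨hx1, hx2⟩

theorem int_id {B : ℝ} {ν : Measure ℝ} (hOn : On B ν) : Integrable (fun x : ℝ => x) ν := by
  have := hOn.1
  exact Integrable.of_mem_Icc 0 B measurable_id.aemeasurable hOn.2

theorem int_pot {ν : Measure ℝ} (hAr : Arith ν) (F : Finset ℤ[X]) (a : ℤ[X] → ℝ)
    (hF : ∀ Q ∈ F, Q ≠ 0) :
    Integrable (pot F a) ν ∧ ∫ x, pot F a x ∂ν = ∑ Q ∈ F, a Q * ∫ x, Real.log |ev Q x| ∂ν := by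
  have h : ∀ Q ∈ F, Integrable (fun x => a Q * Real.log |ev Q x|) ν :=
    fun Q hQ => ((hAr Q (hF Q hQ)).2.1).const_mul _
  refine ⟨?_, ?_⟩
  · unfold pot
    exact integrable_finsetSum F h
  · unfold pot
    rw [integral_finsetSum F h]
    exact Finset.sum_congr rfl fun Q _ => integral_const_mul _ _

end CBaux

open CBaux in
theorem pCB : UNIF → CB := by
  rintro ⟨ν, hOn, hmean, -, hAr, -, hwt⟩ lam η B F a hB hlam hη hC
  have := hOn.1
  have hF : ∀ Q ∈ F, Q ≠ 0 := fun Q hQ => (hC.adm Q hQ).ne_zero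
  obtain ⟨hi, he⟩ := int_pot hAr F a hF
  have hid := int_id hOn
  have hs : Integrable (fun x : ℝ => x - lam) ν := hid.sub (integrable_const _)
  have hs2 : Integrable (fun x : ℝ => x - lam + η) ν := hs.add (integrable_const _)
  have h1 : ∫ x, pot F a x ∂ν ≤ ∫ x, (x - lam + η) ∂ν := by
    apply integral_mono_ae hi hs2
    filter_upwards [ae_good hOn hAr F hF] with x hx
    exact hC.le x ⟨hx.1.1, hx.1.2.trans hB⟩ hx.2
  have h2 : ∫ x, (x - lam + η) ∂ν = 6 - lam + η := by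
    rw [integral_add hs (integrable_const _), integral_sub hid (integrable_const _)]
    unfold mean at hmean
    rw [hmean]
    simp
  have h3 : ∑ Q ∈ F, a Q * wt Q ≤ 10 * ∑ Q ∈ F, a Q * ∫ x, Real.log |ev Q x| ∂ν := by
    rw [Finset.mul_sum]
    apply Finset.sum_le_sum
    intro Q hQ
    have h4 := hwt Q (hC.adm Q hQ)
    have h5 := hC.pos Q hQ
    nlinarith
  rw [he, h2] at h1
  linarith

end Pool.Agent.W401.SSS
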