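import Pool.Agent.W401.SSS.Stm

/-!
# A monic polynomial with large alternating values and prescribed top coefficients modulo 4
-/

open Polynomial

namespace Pool.Agent.W401.SSS

namespace CHEBaux

/-- Scaled Chebyshev polynomials: `2 * 10^j * T_j((x - a) / 20)`. -/
noncomputable def D (a : ℝ) : ℕ → ℝ[X]
  | 0 => C 2
  | 1 => X - C a
  | (j + 2) => (X - C a) * D a (j + 1) - C 100 * D a j

/-- The monic version. -/
noncomputable def Cc (a : ℝ) (j : ℕ) : ℝ[X] := if j = 0 then 1 else D a j

theorem D_monic (a : ℝ) : ∀ j : ℕ, ((D a (j + 1)).Monic ∧ (D a (j + 1)).natDegree = j + 1) := by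
  intro j
  induction j using Nat.strong_induction_on with
  | _ j ih =>
    match j with
    | 0 =>
      refine ⟨?_, ?_⟩
      · show (X - C a).Monic
        exact monic_X_sub_C a
      · show (X - C a).natDegree = 1
        exact natDegree_X_sub_C a
    | (j + 1) =>
      have h1 := ih j (by omega)
      have hm : ((X - C a) * D a (j + 1)).Monic := (monic_X_sub_C a).mul h1.1
      have hd : ((X - C a) * D a (j + 1)).natDegree = j + 1 + 1 := by
        rw [(monic_X_sub_C a).natDegree_mul h1.1, natDegree_X_sub_C, h1.2]; ring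
      have hlow : (C 100 * D a j).natDegree < j + 1 + 1 := by
        refine lt_of_le_of_lt (natDegree_C_mul_le _ _) ?_
        rcases j with _ | j
        · show (C (2 : ℝ)).natDegree < _
          rw [natDegree_C]; omega
        · rw [(ih j (by omega)).2]; omega
      have e : D a (j + 1 + 1) = (X - C a) * D a (j + 1) - C 100 * D a j := rfl
      have hdeg : (C 100 * D a j).degree < ((X - C a) * D a (j + 1)).degree := by
        apply degree_lt_degree
        rw [hd]; exact hlow
      refine ⟨?_, ?_⟩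
      · rw [e]; exact hm.sub_of_left hdeg
      · rw [e, natDegree_sub_eq_left_of_natDegree_lt (by rw [hd]; exact hlow), hd]

theorem Cc_monic (a : ℝ) (j : ℕ) : (Cc a j).Monic ∧ (Cc a j).natDegree = j := by
  unfold Cc
  rcases j with _ | j
  · simp
  · rw [if_neg (by omega)]; exact D_monic a j

theorem D_cos (a θ : ℝ) : ∀ j : ℕ,
    (D a j).eval (a + 20 * Real.cos θ) = 2 * 10 ^ j * Real.cos (j * θ) := by
  intro j
  induction j using Nat.strong_induction_on with
  | _ j ih =>
    match j with
    | 0 => simp [D]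
    | 1 =>
      simp only [D, eval_sub, eval_X, eval_C]
      push_cast
      rw [one_mul]; ring
    | (j + 2) =>
      have h1 := ih (j + 1) (by omega)
      have h0 := ih j (by omega)
      have e : D a (j + 2) = (X - C a) * D a (j + 1) - C 100 * D a j := rfl
      rw [e, eval_sub, eval_mul, eval_mul, eval_sub, eval_X, eval_C, eval_C, h1, h0]
      have c2 : Real.cos (((j + 2 : ℕ) : ℝ) * θ)
          = 2 * Real.cos θ * Real.cos (((j + 1 : ℕ) : ℝ) * θ) - Real.cos ((j : ℝ) * θ) := by
        have e1 : ((j + 2 : ℕ) : ℝ) * θ = ((j + 1 : ℕ) : ℝ) * θ + θ := by push_cast; ring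
        have e2 : (j : ℝ) * θ = ((j + 1 : ℕ) : ℝ) * θ - θ := by push_cast; ring
        rw [e1, e2, Real.cos_add, Real.cos_sub]; ring
      rw [c2, pow_succ, pow_succ]
      ring

/-- signed values to the left -/
theorem D_left (a t : ℝ) (ht : t ≤ a - 20) : ∀ j : ℕ,
    0 < (-1) ^ j * (D a j).eval t ∧
      10 * ((-1) ^ j * (D a j).eval t) ≤ (-1) ^ (j + 1) * (D a (j + 1)).eval t := by
  intro j
  induction j with
  | zero =>
    have e1 : (D a 0).eval t = 2 := by simp [D]
    have e2 : (D a (0 + 1)).eval t = t - a := by simp [D]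
    rw [e1, e2]
    constructor
    · norm_num
    · norm_num; linarith
  | succ j ih =>
    have e : D a (j + 1 + 1) = (X - C a) * D a (j + 1) - C 100 * D a j := rfl
    have h1 : 0 < (-1) ^ (j + 1) * (D a (j + 1)).eval t := by linarith [ih.1, ih.2]
    refine ⟨h1, ?_⟩
    rw [e, eval_sub, eval_mul, eval_mul, eval_sub, eval_X, eval_C, eval_C]
    have e3 : (-1 : ℝ) ^ (j + 1 + 1) * ((t - a) * (D a (j + 1)).eval t - 100 * (D a j).eval t)
        = (a - t) * ((-1) ^ (j + 1) * (D a (j + 1)).eval t)
          - 100 * ((-1) ^ j * (D a j).eval t) := by ring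
    rw [e3]
    have h2 : 20 * ((-1) ^ (j + 1) * (D a (j + 1)).eval t)
        ≤ (a - t) * ((-1) ^ (j + 1) * (D a (j + 1)).eval t) :=
      mul_le_mul_of_nonneg_right (by linarith) h1.le
    linarith [ih.2]

theorem D_next (a : ℝ) : ∀ j : ℕ, (D a (j + 1)).coeff j = -((j + 1 : ℕ) : ℝ) * a := by
  intro j
  induction j using Nat.strong_induction_on with
  | _ j ih =>
    match j with
    | 0 => simp [D]
    | (j + 1) =>
      have h1 := ih j (by omega)
      have e : D a (j + 1 + 1) = (X - C a) * D a (j + 1) - C 100 * D a j := rfl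
      have h3 := (D_monic a j)
      have h4 : (D a (j + 1)).coeff (j + 1) = 1 := by
        have := h3.1.coeff_natDegree
        rwa [h3.2] at this
      have h5 : (D a j).coeff (j + 1) = 0 := by
        apply coeff_eq_zero_of_natDegree_lt
        rcases j with _ | j
        · show (C (2 : ℝ)).natDegree < _
          rw [natDegree_C]; omega
        · rw [(D_monic a j).2]; omega
      rw [e, coeff_sub, coeff_C_mul, h5, sub_mul, coeff_sub, coeff_X_mul, coeff_C_mul, h1, h4]
      push_cast; ring

/-- The combination. -/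
noncomputable def U (a : ℝ) (m : ℕ) (t : ℕ → ℝ) (r : ℕ) : ℝ[X] :=
  D a m + ∑ k ∈ Finset.range r, C (t k) * Cc a (m - 1 - k)

theorem exists_t (a : ℝ) (m : ℕ) (P : ℝ[X]) (hP : P.Monic) : ∀ r ≤ m,
    ∃ t : ℕ → ℝ, (∀ k, |t k| ≤ 2) ∧ ∀ k < r, ∃ z : ℤ,
      (P * U a m t r).coeff (P.natDegree + (m - 1 - k)) = 4 * z := by
  intro r
  induction r with
  | zero => intro _; exact ⟨fun _ => 0, fun _ => by simp, fun k hk => by omega⟩
  | succ r ih =>
    intro hr
    obtain ⟨t, ht, hz⟩ := ih (by omega)
    set c : ℝ := (P * U a m t r).coeff (P.natDegree + (m - 1 - r)) with hc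
    set s : ℝ := 4 * (round (c / 4) : ℝ) - c with hs
    have hs2 : |s| ≤ 2 := by
      have := abs_sub_round (c / 4)
      have e : s = -4 * (c / 4 - (round (c / 4) : ℝ)) := by rw [hs]; ring
      rw [e, abs_mul]
      norm_num
      linarith
    have hU : U a m (Function.update t r s) (r + 1)
        = U a m t r + C s * Cc a (m - 1 - r) := by
      unfold U
      rw [Finset.sum_range_succ, Function.update_self, ← add_assoc]
      congr 2
      apply Finset.sum_congr rfl
      intro k hk
      rw [Finset.mem_range] at hk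
      rw [Function.update_of_ne (by omega)]
    have hPC : (P * Cc a (m - 1 - r)).Monic := hP.mul (Cc_monic a _).1
    have hPCd : (P * Cc a (m - 1 - r)).natDegree = P.natDegree + (m - 1 - r) := by
      rw [hP.natDegree_mul (Cc_monic a _).1, (Cc_monic a _).2]
    refine ⟨Function.update t r s, ?_, ?_⟩
    · intro k
      by_cases hk : k = r
      · subst hk; rw [Function.update_self]; exact hs2
      · rw [Function.update_of_ne hk]; exact ht k
    · intro k hk
      have e : P * U a m (Function.update t r s) (r + 1)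
          = P * U a m t r + C s * (P * Cc a (m - 1 - r)) := by
        rw [hU]; ring
      rw [e, coeff_add, coeff_C_mul]
      by_cases hkr : k = r
      · subst hkr
        refine ⟨round (c / 4), ?_⟩
        have h1 : (P * Cc a (m - 1 - k)).coeff (P.natDegree + (m - 1 - k)) = 1 := by
          have := hPC.coeff_natDegree
          rwa [hPCd] at this
        rw [h1, ← hc, hs]; ring
      · obtain ⟨z, hz⟩ := hz k (by omega)
        refine ⟨z, ?_⟩
        have h1 : (P * Cc a (m - 1 - r)).coeff (P.natDegree + (m - 1 - k)) = 0 := by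
          apply coeff_eq_zero_of_natDegree_lt
          rw [hPCd]; omega
        rw [h1, hz]; ring

/-- The sum of a sequence with ratio at least ten. -/
theorem sum_le (E : ℕ → ℝ) (h0 : 0 ≤ E 0) (h : ∀ j, 10 * E j ≤ E (j + 1)) (m : ℕ) :
    ∑ i ∈ Finset.range m, E i ≤ E m / 9 := by
  induction m with
  | zero => simp; linarith
  | succ m ih =>
    rw [Finset.sum_range_succ]
    linarith [h m]

/-- The general lower bound. -/
theorem U_lower (a : ℝ) (m : ℕ) (t : ℕ → ℝ) (ht : ∀ k, |t k| ≤ 2) (x σ : ℝ) (E : ℕ → ℝ)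
    (hσ : |σ| = 1) (hE0 : 2 = E 0) (h : ∀ j, 10 * E j ≤ E (j + 1))
    (hb : ∀ j, |(D a j).eval x| ≤ E j) (hm : σ * (D a m).eval x = E m) :
    (10 : ℝ) ^ m ≤ σ * (U a m t m).eval x := by
  have hEm : ∀ j, 2 * (10 : ℝ) ^ j ≤ E j := by
    intro j
    induction j with
    | zero => rw [← hE0]; norm_num
    | succ j ih => rw [pow_succ]; linarith [h j]
  have hCb : ∀ j, |(Cc a j).eval x| ≤ E j := by
    intro j
    unfold Cc
    rcases j with _ | j
    · rw [if_pos rfl, eval_one, ← hE0]; norm_num
    · rw [if_neg (by omega)]; exact hb _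
  have e : σ * (U a m t m).eval x
      = E m + σ * ∑ k ∈ Finset.range m, t k * (Cc a (m - 1 - k)).eval x := by
    unfold U
    rw [eval_add, mul_add, hm, eval_finsetSum]
    congr 2
    apply Finset.sum_congr rfl
    intro k _
    rw [eval_mul, eval_C]
  have hS : |σ * ∑ k ∈ Finset.range m, t k * (Cc a (m - 1 - k)).eval x| ≤ 2 * (E m / 9) := by
    rw [abs_mul, hσ, one_mul]
    calc |∑ k ∈ Finset.range m, t k * (Cc a (m - 1 - k)).eval x|
        ≤ ∑ k ∈ Finset.range m, |t k * (Cc a (m - 1 - k)).eval x| :=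
          Finset.abs_sum_le_sum_abs _ _
      _ ≤ ∑ k ∈ Finset.range m, 2 * E (m - 1 - k) := by
          apply Finset.sum_le_sum
          intro k _
          rw [abs_mul]
          exact mul_le_mul (ht k) (hCb _) (abs_nonneg _) (by norm_num)
      _ = 2 * ∑ k ∈ Finset.range m, E (m - 1 - k) := by rw [Finset.mul_sum]
      _ = 2 * ∑ k ∈ Finset.range m, E k := by rw [Finset.sum_range_reflect]
      _ ≤ 2 * (E m / 9) := by
          have := sum_le E (by rw [← hE0]; norm_num) h m
          linarith
  rw [e]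
  have h1 := neg_le_of_abs_le hS
  have h2 := hEm m
  have h3 : (0 : ℝ) < 10 ^ m := by positivity
  linarith

end CHEBaux

open CHEBaux

theorem pCHEB : CHEB := by
  intro b m P hm hP
  obtain ⟨t, ht, hz⟩ := exists_t (b + 20) m P hP m le_rfl
  obtain ⟨m', rfl⟩ : ∃ m', m = m' + 1 := ⟨m - 1, by omega⟩
  have hD := D_monic (b + 20) m'
  have hlow : (∑ k ∈ Finset.range (m' + 1), C (t k) * Cc (b + 20) (m' + 1 - 1 - k)).natDegree
      < m' + 1 := by
    apply lt_of_le_of_lt (natDegree_sum_le_of_forall_le _ _ (n := m') _) (by omega)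
    intro k _
    refine (natDegree_C_mul_le _ _).trans ?_
    rw [(Cc_monic _ _).2]; omega
  have hm0 : (0 : ℝ) < ((m' + 1 : ℕ) : ℝ) := by positivity
  refine ⟨U (b + 20) (m' + 1) t (m' + 1),
    fun j => (b + 20) - 20 * Real.cos (Real.pi * j / ((m' + 1 : ℕ) : ℝ)), ?_, ?_, ?_, ?_, ?_, ?_,
    ?_, ?_, ?_⟩
  · unfold U
    apply hD.1.add_of_left
    apply degree_lt_degree
    rw [hD.2]; exact hlow
  · unfold U
    rw [natDegree_add_eq_left_of_natDegree_lt (by rw [hD.2]; exact hlow), hD.2]
  · intro k hk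
    obtain ⟨z, hz⟩ := hz (m' + 1 - 1 - k) (by omega)
    refine ⟨z, ?_⟩
    have e : m' + 1 - 1 - (m' + 1 - 1 - k) = k := by omega
    rw [e] at hz
    exact hz
  · simp
  · have e : Real.pi * ((m' + 1 : ℕ) : ℝ) / ((m' + 1 : ℕ) : ℝ) = Real.pi := by
      field_simp
    beta_reduce
    rw [e, Real.cos_pi]; ring
  · intro j hj
    beta_reduce
    have hj' : (j : ℝ) + 1 ≤ ((m' + 1 : ℕ) : ℝ) := by exact_mod_cast hj
    have h1 : Real.cos (Real.pi * ((j + 1 : ℕ) : ℝ) / ((m' + 1 : ℕ) : ℝ))
        < Real.cos (Real.pi * (j : ℝ) / ((m' + 1 : ℕ) : ℝ)) := by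
      apply Real.cos_lt_cos_of_nonneg_of_le_pi
      · positivity
      · rw [div_le_iff₀ hm0]
        push_cast at hj' ⊢
        exact mul_le_mul_of_nonneg_left hj' Real.pi_pos.le
      · apply div_lt_div_of_pos_right _ hm0
        apply mul_lt_mul_of_pos_left _ Real.pi_pos
        push_cast; linarith
    linarith
  · intro j hj
    set θ : ℝ := Real.pi - Real.pi * j / ((m' + 1 : ℕ) : ℝ) with hθ
    have hx : (b + 20) - 20 * Real.cos (Real.pi * j / ((m' + 1 : ℕ) : ℝ))
        = (b + 20) + 20 * Real.cos θ := by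
      rw [hθ, Real.cos_pi_sub]; ring
    beta_reduce
    rw [hx]
    apply U_lower (b + 20) (m' + 1) t ht _ _ (fun j => 2 * 10 ^ j)
    · rw [abs_pow]; norm_num
    · norm_num
    · intro j; simp only [pow_succ]; linarith
    · intro i
      beta_reduce
      rw [D_cos, abs_mul, abs_of_pos (by positivity : (0 : ℝ) < 2 * 10 ^ i)]
      have := Real.abs_cos_le_one (i * θ)
      have h2 : (0 : ℝ) < 2 * 10 ^ i := by positivity
      nlinarith
    · beta_reduce
      rw [D_cos]
      have e1 : ((m' + 1 : ℕ) : ℝ) * θ = ((m' + 1 - j : ℕ) : ℝ) * Real.pi := by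
        rw [hθ, Nat.cast_sub hj]; field_simp
      rw [e1, Real.cos_nat_mul_pi]
      have e2 : (-1 : ℝ) ^ (m' + 1 - j) * (-1) ^ (m' + 1 - j) = 1 := by
        rw [← mul_pow]; norm_num
      calc (-1 : ℝ) ^ (m' + 1 - j) * (2 * 10 ^ (m' + 1) * (-1) ^ (m' + 1 - j))
          = 2 * 10 ^ (m' + 1) * ((-1 : ℝ) ^ (m' + 1 - j) * (-1) ^ (m' + 1 - j)) := by ring
        _ = 2 * 10 ^ (m' + 1) := by rw [e2]; ring
  · intro x hx
    have hl := D_left (b + 20) x (by linarith)
    apply U_lower (b + 20) (m' + 1) t ht _ _ (fun j => (-1) ^ j * (D (b + 20) j).eval x)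
    · rw [abs_pow]; norm_num
    · simp [D]
    · intro j; exact (hl j).2
    · intro i
      beta_reduce
      have h1 := (hl i).1
      have h2 : |(D (b + 20) i).eval x| = |(-1) ^ i * (D (b + 20) i).eval x| := by
        rw [abs_mul, abs_pow]; norm_num
      rw [h2, abs_of_pos h1]
    · rfl
  · have h1 : (U (b + 20) (m' + 1) t (m' + 1)).coeff (m' + 1 - 1)
        = -((m' + 1 : ℕ) : ℝ) * (b + 20) + t 0 := by
      unfold U
      rw [coeff_add, finsetSum_coeff, Nat.add_sub_cancel, D_next]
      congr 1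
      rw [Finset.sum_eq_single 0]
      · rw [coeff_C_mul]
        have := (Cc_monic (b + 20) m').1.coeff_natDegree
        rw [(Cc_monic (b + 20) m').2] at this
        rw [Nat.sub_zero, this, mul_one]
      · intro k hk' hk
        have hk'' := Finset.mem_range.1 hk'
        rw [coeff_C_mul, coeff_eq_zero_of_natDegree_lt, mul_zero]
        rw [(Cc_monic _ _).2]; omega
      · intro h; exact absurd (Finset.mem_range.2 (by omega)) h
    rw [h1]
    have h2 : -((m' + 1 : ℕ) : ℝ) * (b + 20) + t 0 + ((m' + 1 : ℕ) : ℝ) * (b + 20) = t 0 := by ring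
    rw [h2]; exact ht 0

end Pool.Agent.W401.SSS
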