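import Pool.Agent.W401.SSS.Stm

/-!
# The core step of the construction of totally positive integers
-/

open MeasureTheory Polynomial

namespace Pool.Agent.W401.SSS

namespace COREaux

/-- No atoms. -/
theorem noatom {c : ℝ} {ν : Measure ℝ} [IsFiniteMeasure ν] (h : Lip c ν) (x : ℝ) : ν {x} = 0 := by
  have h1 := h x 0 le_rfl
  rw [add_zero, Set.Icc_self, mul_zero] at h1
  have h2 : (ν {x}).toReal = 0 := le_antisymm h1 ENNReal.toReal_nonneg
  rcases (ENNReal.toReal_eq_zero_iff _).1 h2 with h3 | h3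
  · exact h3
  · exact absurd h3 (measure_ne_top ν _)

theorem ae_mem {B : ℝ} {ν : Measure ℝ} (h : On B ν) : ∀ᵐ x ∂ν, x ∈ Set.Icc (0 : ℝ) B := by
  rw [ae_iff]
  exact h.2

theorem ae_ne {c : ℝ} {ν : Measure ℝ} [IsFiniteMeasure ν] (h : Lip c ν) (α : ℂ) :
    ∀ᵐ x : ℝ ∂ν, (x : ℂ) ≠ α := by
  rw [ae_iff]
  refine measure_mono_null (t := {α.re}) ?_ (noatom h α.re)
  intro x hx
  simp only [ne_eq, not_not, Set.mem_ofPred_eq] at hx
  rw [Set.mem_singleton_iff, ← hx]
  simp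

theorem int_log (HL : LIPL) {B c : ℝ} {ν : Measure ℝ} (hc : 0 < c) (hOn : On B ν)
    (hLip : Lip c ν) (α : ℂ) : Integrable (fun x : ℝ => Real.log ‖(x : ℂ) - α‖) ν := by
  have := hOn.1
  set ρ : ℝ := |B| + ‖α‖ + 1 with hρ
  have hρ0 : 0 < ρ := by positivity
  have h1 := (HL c ν inferInstance hc.le hLip α ρ hρ0).1
  have h2 : Integrable (fun x : ℝ => Real.log ρ - max 0 (Real.log (ρ / ‖(x : ℂ) - α‖))) ν :=
    (integrable_const _).sub h1
  refine h2.congr ?_
  filter_upwards [ae_mem hOn, ae_ne hLip α] with x hx hne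
  have hn : 0 < ‖(x : ℂ) - α‖ := norm_pos_iff.2 (sub_ne_zero.2 hne)
  have hle : ‖(x : ℂ) - α‖ ≤ ρ := by
    have e1 : ‖(x : ℂ)‖ ≤ |B| := by
      rw [Complex.norm_real, Real.norm_eq_abs, abs_of_nonneg hx.1]
      exact hx.2.trans (le_abs_self B)
    have e2 := norm_sub_le (x : ℂ) α
    linarith
  have h3 : 0 ≤ Real.log (ρ / ‖(x : ℂ) - α‖) := by
    apply Real.log_nonneg
    rw [le_div_iff₀ hn]
    linarith
  rw [max_eq_right h3, Real.log_div hρ0.ne' hn.ne']
  ring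

theorem int_sum {ν : Measure ℝ} (s : Multiset ℂ)
    (h : ∀ α : ℂ, Integrable (fun x : ℝ => Real.log ‖(x : ℂ) - α‖) ν) :
    Integrable (fun x : ℝ => (s.map (fun α => Real.log ‖(x : ℂ) - α‖)).sum) ν ∧
      ∫ x : ℝ, (s.map (fun α => Real.log ‖(x : ℂ) - α‖)).sum ∂ν = (s.map (Upot ν)).sum := by
  induction s using Multiset.induction_on with
  | empty => simp
  | cons a s ih =>
    simp only [Multiset.map_cons, Multiset.sum_cons]
    refine ⟨(h a).add ih.1, ?_⟩
    rw [integral_add (h a) ih.1, ih.2]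
    rfl

theorem pot_eq (HL : LIPL) {B c : ℝ} {ν : Measure ℝ} (hc : 0 < c) (hOn : On B ν)
    (hLip : Lip c ν) (hAr : Arith ν) {Q : ℤ[X]} (hQ : Q ≠ 0) :
    0 ≤ Real.log |(Q.leadingCoeff : ℝ)| + ((rts Q).map (Upot ν)).sum := by
  have := hOn.1
  have hA := hAr Q hQ
  have h1 := int_sum (rts Q) (fun α => int_log HL hc hOn hLip α)
  have h2 : ∫ x, Real.log |ev Q x| ∂ν
      = Real.log |(Q.leadingCoeff : ℝ)| + ((rts Q).map (Upot ν)).sum := by
    rw [← h1.2]
    have e : ∫ x, Real.log |ev Q x| ∂ν = ∫ x : ℝ, (Real.log |(Q.leadingCoeff : ℝ)| +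
        ((rts Q).map (fun α => Real.log ‖(x : ℂ) - α‖)).sum) ∂ν := by
      apply integral_congr_ae
      have h3 : ∀ᵐ x ∂ν, ev Q x ≠ 0 := by
        rw [ae_iff]; simpa using hA.1
      filter_upwards [h3] with x hx
      rw [log_abs_ev hx]
      rfl
    rw [e, integral_add (integrable_const _) h1.1]
    simp
  rw [← h2]
  exact hA.2.2

theorem Upot_le (HL : LIPL) {B B' c : ℝ} {ν : Measure ℝ} (hc : 0 < c) (hB : B ≤ B')
    (hOn : On B ν) (hLip : Lip c ν) {t : ℝ} (ht : t ∈ Set.Icc (0 : ℝ) B') :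
    Upot ν (t : ℂ) ≤ max 0 (Real.log B') := by
  have := hOn.1
  have h1 : Upot ν (t : ℂ) ≤ ∫ _ : ℝ, max 0 (Real.log B') ∂ν := by
    unfold Upot
    apply integral_mono_ae (int_log HL hc hOn hLip _) (integrable_const _)
    filter_upwards [ae_mem hOn, ae_ne hLip (t : ℂ)] with x hx hne
    have hn : 0 < ‖(x : ℂ) - (t : ℂ)‖ := norm_pos_iff.2 (sub_ne_zero.2 hne)
    have hle : ‖(x : ℂ) - (t : ℂ)‖ ≤ B' := by
      rw [← Complex.ofReal_sub, Complex.norm_real, Real.norm_eq_abs, abs_le]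
      have := hx.1; have := hx.2; have := ht.1; have := ht.2
      constructor <;> linarith
    exact (Real.log_le_log hn hle).trans (le_max_right _ _)
  simpa using h1

/-- The choice of the threshold. -/
theorem threshold (L K s : ℝ) (hK : 0 < K) (hs : 0 < s) :
    ∃ n0 : ℕ, ∀ n : ℕ, n0 ≤ n → L + K * Real.log (n + 2) < s * n := by
  set ε : ℝ := s / (2 * K) with hε
  have hε0 : 0 < ε := by positivity
  set c : ℝ := L + K * (2 * ε - 1 - Real.log ε) with hc
  obtain ⟨n0, hn0⟩ := exists_nat_gt (2 * c / s)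
  refine ⟨n0, fun n hn => ?_⟩
  have hn1 : (n0 : ℝ) ≤ n := by exact_mod_cast hn
  have h1 : 2 * c / s < n := lt_of_lt_of_le hn0 hn1
  rw [div_lt_iff₀ hs] at h1
  have hy : (0 : ℝ) < (n : ℝ) + 2 := by positivity
  have h2 : Real.log (ε * ((n : ℝ) + 2)) ≤ ε * ((n : ℝ) + 2) - 1 :=
    Real.log_le_sub_one_of_pos (by positivity)
  rw [Real.log_mul hε0.ne' hy.ne'] at h2
  have h3 : K * Real.log ((n : ℝ) + 2) ≤ K * (ε * ((n : ℝ) + 2) - 1 - Real.log ε) :=
    mul_le_mul_of_nonneg_left (by linarith) hK.le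
  have h4 : K * ε = s / 2 := by
    rw [hε]; field_simp
  have h5 : L + K * (ε * ((n : ℝ) + 2) - 1 - Real.log ε) = c + s / 2 * n := by
    rw [hc, ← h4]; ring
  linarith

/-- Entries of the Hankel matrix. -/
theorem hmat_eq {n q : ℕ} {l : ℕ → ℤ} {lm : ℝ → ℝ} {T : Finset ℝ} {R : ℝ[X]}
    (hq2 : 2 * q ≤ n + 1) (hRm : R.Monic) (hRd : R.natDegree = n + 1 - 2 * q)
    (hmom : ∀ k < n, ∑ τ ∈ T, lm τ * τ ^ k = l k) :
    hmat n q l R = Matrix.of fun i j : Fin q =>
      ∑ τ ∈ T, (lm τ * R.eval τ) * τ ^ ((i : ℕ) + (j : ℕ)) := by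
  unfold hmat
  congr 1
  funext i j
  have hi := i.2
  have hj := j.2
  have hdeg : (X ^ ((i : ℕ) + (j : ℕ)) * R).natDegree < n := by
    rw [Polynomial.natDegree_mul (pow_ne_zero _ X_ne_zero) hRm.ne_zero, natDegree_X_pow, hRd]
    omega
  calc ∑ k ∈ Finset.range n, (l k : ℝ) * (X ^ ((i : ℕ) + (j : ℕ)) * R).coeff k
      = ∑ k ∈ Finset.range n, ∑ τ ∈ T, lm τ * ((X ^ ((i : ℕ) + (j : ℕ)) * R).coeff k * τ ^ k) := by
        refine Finset.sum_congr rfl fun k hk => ?_
        rw [← hmom k (Finset.mem_range.1 hk), Finset.sum_mul]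
        exact Finset.sum_congr rfl fun τ _ => by ring
    _ = ∑ τ ∈ T, lm τ * (∑ k ∈ Finset.range n, (X ^ ((i : ℕ) + (j : ℕ)) * R).coeff k * τ ^ k) := by
        rw [Finset.sum_comm]
        exact Finset.sum_congr rfl fun τ _ => by rw [Finset.mul_sum]
    _ = ∑ τ ∈ T, (lm τ * R.eval τ) * τ ^ ((i : ℕ) + (j : ℕ)) := by
        refine Finset.sum_congr rfl fun τ _ => ?_
        rw [← Polynomial.eval_eq_sum_range' hdeg τ]
        simp only [Polynomial.eval_mul, Polynomial.eval_pow, Polynomial.eval_X]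
        ring

end COREaux

open COREaux in
theorem pCORE : SERRE → ANDRF → HANK → BLK → VUB → LIPL → CORE := by
  intro HS HA HH HB HV HL B B' c ν hB hc hBB hOn hLip hAr s hs
  have := hOn.1
  obtain ⟨hE, hE0⟩ := HS B ν hOn hAr
  obtain ⟨Cb, hCb, hblk⟩ := HB B B' c ν hB hc hBB hOn hLip
  obtain ⟨Cv, hCv, hvub⟩ := HV B B' c ν hB hc hBB hOn hLip hE hE0
  set L : ℝ := max 0 (Real.log B') with hL
  obtain ⟨n0, hn0⟩ := threshold (L + Cb + Cv + Real.log 2) (Cb + Cv + 1) s (by positivity) hs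
  refine ⟨n0, fun n hn T hT hcard l lm hl hmom => ?_⟩
  by_contra hcon
  push Not at hcon
  have hthr := hn0 n hn
  obtain ⟨q, Q, hq1, hq2, hQ0, hQd, hdet⟩ := HH n l hl
  set D : ℕ := n + 1 - 2 * q with hD
  obtain ⟨R, hRm, hRd, hR0, hRsum, hRle⟩ := hblk D (rts Q)
  have hdet1 := hdet R hRm hRd
  -- lower bound
  have hlc : (0 : ℝ) < |(Q.leadingCoeff : ℝ)| := by
    rw [abs_pos]; exact_mod_cast leadingCoeff_ne_zero.2 hQ0
  have hlow : 1 ≤ |(Q.leadingCoeff : ℝ)| ^ D * ((rts Q).map (fun α => ‖aeval α R‖)).prod := by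
    have hp := log_prod_map (rts Q) (fun α => ‖aeval α R‖)
      (fun α hα => norm_ne_zero_iff.2 (hR0 α hα))
    have hpos : 0 < ((rts Q).map (fun α => ‖aeval α R‖)).prod := by
      refine lt_of_le_of_ne (Multiset.prod_nonneg ?_) hp.2.symm
      intro a ha
      obtain ⟨α, _, rfl⟩ := Multiset.mem_map.1 ha
      exact norm_nonneg _
    have hpos2 : 0 < |(Q.leadingCoeff : ℝ)| ^ D * ((rts Q).map (fun α => ‖aeval α R‖)).prod := by
      positivity
    rw [← Real.log_nonneg_iff hpos2, Real.log_mul (pow_pos hlc D).ne' hpos.ne', Real.log_pow, hp.1]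
    have h1 := pot_eq HL hc hOn hLip hAr hQ0
    have h2 : (0 : ℝ) ≤ D * (Real.log |(Q.leadingCoeff : ℝ)| + ((rts Q).map (Upot ν)).sum) :=
      mul_nonneg (Nat.cast_nonneg D) h1
    rw [mul_add] at h2
    linarith
  -- upper bound
  have hmat1 := hmat_eq hq2 hRm hRd hmom
  set w : ℝ → ℝ := fun τ => lm τ * R.eval τ with hw
  have handr := HA T q w
  set E : ℝ := -(s * n) + L + (Cb + Cv) * (1 + Real.log (n + 2)) with hEdef
  have hterm : ∀ f ∈ Fintype.piFinset (fun _ : Fin q => T),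
      |(∏ i, w (f i)) * (∏ i, ∏ j ∈ Finset.Ioi i, (f j - f i)) ^ 2| ≤ Real.exp (q * E) := by
    intro f hf
    have hfT : ∀ i, f i ∈ T := fun i => (Fintype.mem_piFinset.1 hf) i
    rw [abs_mul, Finset.abs_prod, abs_of_nonneg (sq_nonneg (∏ i, ∏ j ∈ Finset.Ioi i, (f j - f i)))]
    have h1 : ∏ i, |w (f i)| ≤ ∏ i : Fin q, Real.exp (-(s * n) +
        ((D : ℝ) - n) * Upot ν (f i : ℂ) + Cb * (1 + Real.log (D + 1))) := by
      refine Finset.prod_le_prod (fun i _ => abs_nonneg _) fun i _ => ?_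
      have ha := hcon (f i) (hfT i)
      have hb := hRle (f i) (hT _ (hfT i))
      have ha' : |lm (f i)| ≤ Real.exp (-(s * n) - n * Upot ν (f i : ℂ)) := by
        rw [Real.exp_sub, le_div_iff₀ (Real.exp_pos _)]
        exact ha.le
      calc |w (f i)| = |lm (f i)| * |R.eval (f i)| := by rw [hw]; exact abs_mul _ _
        _ ≤ Real.exp (-(s * n) - n * Upot ν (f i : ℂ)) *
            Real.exp (D * Upot ν (f i : ℂ) + Cb * (1 + Real.log (D + 1))) :=
            mul_le_mul ha' hb (abs_nonneg _) (Real.exp_pos _).le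
        _ = _ := by
            rw [← Real.exp_add]; congr 1; ring
    rw [← Real.exp_sum] at h1
    have h2 := hvub q f (fun i => hT _ (hfT i))
    have h3 := mul_le_mul h1 h2 (sq_nonneg _) (Real.exp_pos _).le
    refine h3.trans ?_
    rw [← Real.exp_add]
    apply Real.exp_le_exp.2
    have hDn : (D : ℝ) - n = 1 - 2 * q := by
      have : (D : ℝ) = (n : ℝ) + 1 - 2 * q := by
        rw [hD, Nat.cast_sub hq2]; push_cast; ring
      rw [this]; ring
    have hsum : ∑ i : Fin q, (-(s * n) +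
        ((D : ℝ) - n) * Upot ν (f i : ℂ) + Cb * (1 + Real.log (D + 1)))
        = q * (-(s * n)) + (1 - 2 * q) * ∑ i : Fin q, Upot ν (f i : ℂ) +
          q * (Cb * (1 + Real.log (D + 1))) := by
      rw [Finset.sum_add_distrib, Finset.sum_add_distrib, ← Finset.mul_sum, hDn]
      simp
    rw [hsum]
    have hU : ∑ i : Fin q, Upot ν (f i : ℂ) ≤ q * L := by
      calc ∑ i : Fin q, Upot ν (f i : ℂ) ≤ ∑ _i : Fin q, L :=
            Finset.sum_le_sum fun i _ => Upot_le HL hc hBB hOn hLip (hT _ (hfT i))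
        _ = q * L := by simp
    have hDle : (D : ℝ) + 1 ≤ n + 2 := by
      have : D ≤ n + 1 := by omega
      have : (D : ℝ) ≤ n + 1 := by exact_mod_cast this
      linarith
    have hqle : (q : ℝ) + 1 ≤ n + 2 := by
      have : q ≤ n + 1 := by omega
      have : (q : ℝ) ≤ n + 1 := by exact_mod_cast this
      linarith
    have hl1 : Real.log ((D : ℝ) + 1) ≤ Real.log (n + 2) :=
      Real.log_le_log (by positivity) hDle
    have hl2 : Real.log ((q : ℝ) + 1) ≤ Real.log (n + 2) :=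
      Real.log_le_log (by positivity) hqle
    have hq0 : (0 : ℝ) ≤ q := Nat.cast_nonneg q
    have hm1 : q * (Cb * (1 + Real.log ((D : ℝ) + 1))) ≤ q * (Cb * (1 + Real.log (n + 2))) :=
      mul_le_mul_of_nonneg_left (mul_le_mul_of_nonneg_left (by linarith) hCb) hq0
    have hm2 : Cv * q * (1 + Real.log ((q : ℝ) + 1)) ≤ Cv * q * (1 + Real.log (n + 2)) :=
      mul_le_mul_of_nonneg_left (by linarith) (mul_nonneg hCv hq0)
    rw [hEdef]
    nlinarith [hm1, hm2, hU]
  have hupp : |(hmat n q l R).det| ≤ ((2 : ℝ) * n + 2) ^ q * Real.exp (q * E) := by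
    have hf1 : (1 : ℝ) ≤ (q.factorial : ℝ) := by exact_mod_cast Nat.one_le_iff_ne_zero.2 (Nat.factorial_ne_zero q)
    have h1 : |(q.factorial : ℝ) * (hmat n q l R).det| ≤ ((2 : ℝ) * n + 2) ^ q * Real.exp (q * E) := by
      rw [hmat1, handr]
      calc |∑ f ∈ Fintype.piFinset (fun _ : Fin q => T),
            (∏ i, w (f i)) * (∏ i, ∏ j ∈ Finset.Ioi i, (f j - f i)) ^ 2|
          ≤ ∑ f ∈ Fintype.piFinset (fun _ : Fin q => T),
            |(∏ i, w (f i)) * (∏ i, ∏ j ∈ Finset.Ioi i, (f j - f i)) ^ 2| :=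
            Finset.abs_sum_le_sum_abs _ _
        _ ≤ ∑ _f ∈ Fintype.piFinset (fun _ : Fin q => T), Real.exp (q * E) :=
            Finset.sum_le_sum hterm
        _ = (T.card : ℝ) ^ q * Real.exp (q * E) := by
            rw [Finset.sum_const, nsmul_eq_mul, Fintype.card_piFinset]
            simp
        _ ≤ _ := by
            apply mul_le_mul_of_nonneg_right _ (Real.exp_pos _).le
            exact pow_le_pow_left₀ (Nat.cast_nonneg _) hcard q
    rw [abs_mul, abs_of_pos (by linarith : (0 : ℝ) < (q.factorial : ℝ))] at h1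
    nlinarith [abs_nonneg (hmat n q l R).det]
  have hlt : ((2 : ℝ) * n + 2) ^ q * Real.exp (q * E) < 1 := by
    have hpos : (0 : ℝ) < 2 * n + 2 := by positivity
    have e1 : ((2 : ℝ) * n + 2) ^ q = Real.exp (q * Real.log (2 * n + 2)) := by
      rw [Real.exp_nat_mul, Real.exp_log hpos]
    rw [e1, ← Real.exp_add, Real.exp_lt_one_iff, ← mul_add]
    have hq0 : (0 : ℝ) < q := by exact_mod_cast hq1
    apply mul_neg_of_pos_of_neg hq0
    have e2 : Real.log (2 * (n : ℝ) + 2) ≤ Real.log 2 + Real.log (n + 2) := by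
      rw [← Real.log_mul (by norm_num) (by positivity)]
      exact Real.log_le_log hpos (by linarith)
    rw [hEdef]
    nlinarith [hthr, e2]
  linarith

end Pool.Agent.W401.SSS
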