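import Pool.Agent.W401.SSS.Stm

/-!
# SSS-COUNT: the heavy members of a certificate (helper597)
-/

open MeasureTheory Polynomial

namespace Pool.Agent.W401.SSS

namespace COUNTaux

/-- a single term of a sum of nonnegative terms -/
theorem single {F : Finset ℤ[X]} {f : ℤ[X] → ℝ} (h : ∀ Q ∈ F, 0 ≤ f Q) {Q : ℤ[X]} (hQ : Q ∈ F) :
    f Q ≤ ∑ P ∈ F, f P := Finset.single_le_sum (f := f) h hQ

theorem J_nonneg (μ : Measure ℝ) (Q : ℤ[X]) (r : ℝ) :
    0 ≤ ∫ x : ℝ, rsum Q (fun α => (1 / 2) * Real.log (1 + r ^ 2 / ‖(x : ℂ) - α‖ ^ 2)) ∂μ := by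
  refine integral_nonneg fun x => rsum_nonneg Q _ fun α _ => ?_
  have h1 : 0 ≤ r ^ 2 / ‖(x : ℂ) - α‖ ^ 2 := by positivity
  have h2 := Real.log_nonneg (by linarith : (1 : ℝ) ≤ 1 + r ^ 2 / ‖(x : ℂ) - α‖ ^ 2)
  positivity

/-- `η / a ≤ √η` -/
theorem div_le_sqrt {η a : ℝ} (hη : 0 < η) (ha : Real.sqrt η ≤ a) : η / a ≤ Real.sqrt η := by
  have h1 : 0 < Real.sqrt η := Real.sqrt_pos.2 hη
  have h2 : Real.sqrt η * Real.sqrt η = η := Real.mul_self_sqrt hη.le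
  rw [div_le_iff₀ (lt_of_lt_of_le h1 ha)]
  nlinarith

/-- the conclusion from the quadratic inequality -/
theorem quad {c T E s : ℝ} (hc : 0 < c) (hT : 0 ≤ T) (hE : c ≤ E) (hs : s ≤ 3 * c / 16)
    (h : T ^ 2 * E ≤ 2 * T * (T * s) + T) : T ≤ 2 / c := by
  rw [le_div_iff₀ hc]
  by_contra hcon
  have hcon : 2 < T * c := not_le.1 hcon
  have hTpos : 0 < T := by
    rcases eq_or_lt_of_le hT with h0 | h0
    · rw [← h0] at hcon
      linarith
    · exact h0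
  have h1 : T ^ 2 * c ≤ T ^ 2 * E := mul_le_mul_of_nonneg_left hE (by positivity)
  have h2 : T ^ 2 * s ≤ T ^ 2 * (3 * c / 16) := mul_le_mul_of_nonneg_left hs (by positivity)
  have h3 : T ^ 2 * c ≤ 2 * (T ^ 2 * (3 * c / 16)) + T := by nlinarith
  have h4 : T * (T * c) * (5 / 8) ≤ T := by nlinarith
  have h5 : T * 2 < T * (T * c) := mul_lt_mul_of_pos_left hcon hTpos
  linarith

end COUNTaux

open COUNTaux in
theorem pCOUNT : SETI → EI → CB → COUNT := by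
  rintro ⟨C, hC, hS⟩ hEI hCB c hc
  set θ : ℝ := min (1 / 100) (c / (16 * (C + 1))) with hθ
  have hC1 : 0 < 16 * (C + 1) := by linarith
  have hθ0 : 0 < θ := lt_min (by norm_num) (div_pos hc hC1)
  have hθ1 : θ ≤ 1 / 100 := min_le_left _ _
  have hθ2 : C * θ ≤ c / 16 := by
    have h1 : θ ≤ c / (16 * (C + 1)) := min_le_right _ _
    rw [le_div_iff₀ hC1] at h1
    nlinarith
  have hlogθ : 1 ≤ Real.log (1 / θ) := by
    rw [Real.le_log_iff_exp_le (by positivity)]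
    have h1 := Real.exp_one_lt_d9
    have h2 : (100 : ℝ) ≤ 1 / θ := by
      rw [le_div_iff₀ hθ0]
      linarith
    linarith
  refine ⟨4 * Real.log (1 / θ) / c, min 1 ((c / 16) ^ 2), by positivity,
    lt_min one_pos (by positivity), ?_⟩
  intro μ lam η F a hSet hEn hη
  obtain ⟨-, -, -, hI0, hI1, hJ⟩ := hS μ lam η F a hSet
  have hη0 := hSet.eta0
  have hsq : Real.sqrt η ≤ c / 16 := by
    rw [Real.sqrt_le_left (by positivity)]
    exact hη.trans (min_le_right _ _)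
  have hcb := hCB lam η 2000 F a (by norm_num) hSet.lam0 hSet.eta1 hSet.cert
  have ha0 : ∀ Q ∈ F, 0 < a Q := hSet.cert.pos
  have ha70 : ∀ Q ∈ F, a Q ≤ 70 := by
    intro Q hQ
    have h1 := single (f := fun Q => a Q * wt Q) (fun P hP => mul_nonneg (ha0 P hP).le
      (zero_le_one.trans (hSet.cert.adm P hP).one_le_wt)) hQ
    have h2 := (hSet.cert.adm Q hQ).one_le_wt
    have h3 := ha0 Q hQ
    have h4 : a Q ≤ a Q * wt Q := le_mul_of_one_le_right h3.le h2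
    exact (h4.trans h1).trans hcb
  set H := heavy F a (Real.sqrt η) with hH
  set r : ℤ[X] → ℝ := fun Q => (θ * a Q) ^ 2 with hr
  set b : ℤ[X] → ℝ := fun Q => 1 / Real.log (1 / r Q) with hb
  have hHF : ∀ Q ∈ H, Q ∈ F := fun Q hQ => (mem_heavy.1 hQ).1
  have hHa : ∀ Q ∈ H, Real.sqrt η ≤ a Q := fun Q hQ => (mem_heavy.1 hQ).2
  have hρ : ∀ Q ∈ H, 0 < θ * a Q ∧ θ * a Q < 1 := by
    intro Q hQ
    have h1 := ha0 Q (hHF Q hQ)
    have h2 := ha70 Q (hHF Q hQ)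
    refine ⟨mul_pos hθ0 h1, ?_⟩
    nlinarith
  have hrpos : ∀ Q ∈ H, 0 < r Q ∧ r Q < 1 := by
    intro Q hQ
    obtain ⟨h1, h2⟩ := hρ Q hQ
    refine ⟨by positivity, ?_⟩
    show (θ * a Q) ^ 2 < 1
    nlinarith
  have hlogr : ∀ Q ∈ H, Real.log (1 / r Q) = 2 * Real.log (1 / θ) + 2 * Real.log (1 / a Q) := by
    intro Q hQ
    have h1 := ha0 Q (hHF Q hQ)
    show Real.log (1 / (θ * a Q) ^ 2) = _
    rw [one_div, one_div, one_div, Real.log_inv, Real.log_inv, Real.log_inv, Real.log_pow,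
      Real.log_mul hθ0.ne' h1.ne']
    push_cast
    ring
  have hlogpos : ∀ Q ∈ H, 0 < Real.log (1 / r Q) := by
    intro Q hQ
    obtain ⟨h1, h2⟩ := hrpos Q hQ
    refine Real.log_pos ?_
    rw [lt_div_iff₀ h1]
    linarith
  have hbpos : ∀ Q ∈ H, 0 < b Q := fun Q hQ => one_div_pos.2 (hlogpos Q hQ)
  have hblog : ∀ Q ∈ H, b Q * Real.log (1 / r Q) = 1 := fun Q hQ =>
    one_div_mul_cancel (hlogpos Q hQ).ne'
  have hsqr : ∀ Q ∈ H, Real.sqrt (r Q) = θ * a Q := fun Q hQ => Real.sqrt_sq (hρ Q hQ).1.le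
  set T : ℝ := ∑ Q ∈ H, b Q * (Q.natDegree : ℝ) with hT
  have hT0 : 0 ≤ T := Finset.sum_nonneg fun Q hQ => mul_nonneg (hbpos Q hQ).le (Nat.cast_nonneg _)
  have hSb : ∑ Q ∈ H, b Q ≤ T := by
    refine Finset.sum_le_sum fun Q hQ => ?_
    exact le_mul_of_one_le_right (hbpos Q hQ).le (hSet.cert.adm Q (hHF Q hQ)).one_le_deg
  have hei := hEI μ hSet.on hSet.ar hSet.eint H b r fun Q hQ =>
    ⟨hSet.cert.adm Q (hHF Q hQ), (hbpos Q hQ).le, (hrpos Q hQ).1, (hrpos Q hQ).2.le⟩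
  have hlast : ∑ Q ∈ H, b Q ^ 2 * (Q.natDegree : ℝ) * Real.log (1 / r Q) = T := by
    refine Finset.sum_congr rfl fun Q hQ => ?_
    calc b Q ^ 2 * (Q.natDegree : ℝ) * Real.log (1 / r Q)
        = b Q * (Q.natDegree : ℝ) * (b Q * Real.log (1 / r Q)) := by ring
      _ = _ := by rw [hblog Q hQ, mul_one]
  have hI : ∀ Q ∈ H, ∫ x, Real.log |ev Q x| ∂μ ≤ Real.sqrt η := by
    intro Q hQ
    have h1 := single (f := fun Q => a Q * ∫ x, Real.log |ev Q x| ∂μ) (fun P hP =>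
      mul_nonneg (ha0 P hP).le (hI0 P hP)) (hHF Q hQ)
    have h2 := ha0 Q (hHF Q hQ)
    have h3 : ∫ x, Real.log |ev Q x| ∂μ ≤ η / a Q := by
      rw [le_div_iff₀ h2, mul_comm]
      exact h1.trans hI1
    exact h3.trans (div_le_sqrt hη0 (hHa Q hQ))
  have hJ' : ∀ Q ∈ H, ∫ x : ℝ, rsum Q
      (fun α => (1 / 2) * Real.log (1 + r Q ^ 2 / ‖(x : ℂ) - α‖ ^ 2)) ∂μ ≤
      C * θ + Real.sqrt η := by
    intro Q hQ
    have h0 := hJ (r Q) (hrpos Q hQ).1 (hrpos Q hQ).2.le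
    have h1 := single (f := fun P => a P * ∫ x : ℝ, rsum P
      (fun α => (1 / 2) * Real.log (1 + r Q ^ 2 / ‖(x : ℂ) - α‖ ^ 2)) ∂μ) (fun P hP =>
      mul_nonneg (ha0 P hP).le (J_nonneg μ P (r Q))) (hHF Q hQ)
    have h2 := ha0 Q (hHF Q hQ)
    rw [hsqr Q hQ] at h0
    have h3 : ∫ x : ℝ, rsum Q
      (fun α => (1 / 2) * Real.log (1 + r Q ^ 2 / ‖(x : ℂ) - α‖ ^ 2)) ∂μ ≤
        C * θ + η / a Q := by
      have h4 : a Q * ∫ x : ℝ, rsum Q
          (fun α => (1 / 2) * Real.log (1 + r Q ^ 2 / ‖(x : ℂ) - α‖ ^ 2)) ∂μ ≤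
          C * (θ * a Q) + η := h1.trans h0
      have h5 : C * θ + η / a Q = (C * (θ * a Q) + η) / a Q := by
        field_simp
      rw [h5, le_div_iff₀ h2]
      linarith
    have h6 := div_le_sqrt hη0 (hHa Q hQ)
    linarith
  have hs0 : 0 ≤ C * θ + 2 * Real.sqrt η := by positivity
  have hmid : ∑ Q ∈ H, b Q * ∫ x, Real.log |ev Q x| ∂μ +
        ∑ Q ∈ H, b Q * ∫ x : ℝ, rsum Q
          (fun α => (1 / 2) * Real.log (1 + r Q ^ 2 / ‖(x : ℂ) - α‖ ^ 2)) ∂μ ≤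
      T * (C * θ + 2 * Real.sqrt η) := by
    rw [← Finset.sum_add_distrib]
    calc _ ≤ ∑ Q ∈ H, b Q * (C * θ + 2 * Real.sqrt η) := by
          refine Finset.sum_le_sum fun Q hQ => ?_
          rw [← mul_add]
          refine mul_le_mul_of_nonneg_left ?_ (hbpos Q hQ).le
          have h1 := hI Q hQ
          have h2 := hJ' Q hQ
          linarith
      _ = (∑ Q ∈ H, b Q) * (C * θ + 2 * Real.sqrt η) := by rw [Finset.sum_mul]
      _ ≤ _ := mul_le_mul_of_nonneg_right hSb hs0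
  have hTle : T ≤ 2 / c := by
    refine quad hc hT0 hEn (s := C * θ + 2 * Real.sqrt η) (by linarith) ?_
    rw [hlast] at hei
    have h1 : 2 * T * (∑ Q ∈ H, b Q * ∫ x, Real.log |ev Q x| ∂μ +
        ∑ Q ∈ H, b Q * ∫ x : ℝ, rsum Q
          (fun α => (1 / 2) * Real.log (1 + r Q ^ 2 / ‖(x : ℂ) - α‖ ^ 2)) ∂μ) ≤
        2 * T * (T * (C * θ + 2 * Real.sqrt η)) :=
      mul_le_mul_of_nonneg_left hmid (by linarith)
    linarith
  calc ∑ Q ∈ H, (Q.natDegree : ℝ) / (1 + max 0 (Real.log (1 / a Q)))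
      ≤ ∑ Q ∈ H, 2 * Real.log (1 / θ) * (b Q * (Q.natDegree : ℝ)) := by
        refine Finset.sum_le_sum fun Q hQ => ?_
        have h1 : 0 ≤ max 0 (Real.log (1 / a Q)) := le_max_left _ _
        have h2 : Real.log (1 / a Q) ≤ max 0 (Real.log (1 / a Q)) := le_max_right _ _
        rw [div_le_iff₀ (by linarith)]
        have h3 := hlogpos Q hQ
        have h4 : Real.log (1 / r Q) ≤
            2 * Real.log (1 / θ) * (1 + max 0 (Real.log (1 / a Q))) := by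
          rw [hlogr Q hQ]
          nlinarith
        have h5 : 1 ≤ b Q * (2 * Real.log (1 / θ) * (1 + max 0 (Real.log (1 / a Q)))) := by
          have h7 := mul_le_mul_of_nonneg_left h4 (hbpos Q hQ).le
          rwa [hblog Q hQ] at h7
        have h6 : (0 : ℝ) ≤ (Q.natDegree : ℝ) := Nat.cast_nonneg _
        calc (Q.natDegree : ℝ) = 1 * (Q.natDegree : ℝ) := (one_mul _).symm
          _ ≤ (b Q * (2 * Real.log (1 / θ) * (1 + max 0 (Real.log (1 / a Q))))) *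
              (Q.natDegree : ℝ) := mul_le_mul_of_nonneg_right h5 h6
          _ = _ := by ring
    _ = 2 * Real.log (1 / θ) * T := by rw [hT, Finset.mul_sum]
    _ ≤ 2 * Real.log (1 / θ) * (2 / c) := mul_le_mul_of_nonneg_left hTle (by linarith)
    _ = 4 * Real.log (1 / θ) / c := by ring

end Pool.Agent.W401.SSS
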