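import Pool.Agent.W401.SSS.Stm

/-!
# Compactness step of the Schur-Siegel-Smyth project
-/

open MeasureTheory Polynomial

namespace Pool.Agent.W401.SSS

namespace CPTaux

theorem restrict_prob (B : ℝ) (ν : Measure ℝ) (h : On B ν) :
    ∃ P : ProbabilityMeasure (Set.Icc (0 : ℝ) B), ∀ f : ℝ → ℝ,
      ∫ x, f x ∂(P : Measure (Set.Icc (0 : ℝ) B)) = ∫ x, f x ∂ν := by
  have hp := h.1
  have hres : ν.restrict (Set.Icc 0 B) = ν := by
    apply Measure.restrict_eq_self_of_ae_mem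
    rw [ae_iff]
    exact h.2
  have hm : MeasurableSet (Set.Icc (0 : ℝ) B) := measurableSet_Icc
  refine ⟨⟨ν.comap Subtype.val, ⟨?_⟩⟩, fun f => ?_⟩
  · rw [comap_subtype_coe_apply hm, Set.image_univ, Subtype.range_coe]
    exact (prob_compl_eq_zero_iff hm).1 h.2
  · show ∫ x : Set.Icc (0 : ℝ) B, f x ∂(ν.comap Subtype.val) = ∫ x, f x ∂ν
    rw [integral_subtype_comap hm, hres]

end CPTaux

theorem pCPT : CPT := by
  intro B hB ι f hf hfin
  have hc : ∀ i, ∃ g : BoundedContinuousFunction (Set.Icc (0 : ℝ) B) ℝ, ∀ x, g x = f i x := by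
    intro i
    exact ⟨BoundedContinuousFunction.mkOfCompact ⟨fun x => f i x,
      (hf i).comp continuous_subtype_val⟩, fun x => rfl⟩
  choose g hg using hc
  have hclosed : ∀ i, IsClosed {P : ProbabilityMeasure (Set.Icc (0 : ℝ) B) |
      0 ≤ ∫ x, g i x ∂(P : Measure (Set.Icc (0 : ℝ) B))} := fun i =>
    isClosed_le continuous_const
      (ProbabilityMeasure.continuous_integral_boundedContinuousFunction (g i))
  have hne : ∀ S : Finset ι, (Set.univ ∩ ⋂ i ∈ S, {P : ProbabilityMeasure (Set.Icc (0 : ℝ) B) |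
      0 ≤ ∫ x, g i x ∂(P : Measure (Set.Icc (0 : ℝ) B))}).Nonempty := by
    intro S
    obtain ⟨ν, hν, hS⟩ := hfin S
    obtain ⟨P, hP⟩ := CPTaux.restrict_prob B ν hν
    refine ⟨P, Set.mem_univ _, ?_⟩
    rw [Set.mem_iInter₂]
    intro i hi
    show 0 ≤ ∫ x, g i x ∂(P : Measure (Set.Icc (0 : ℝ) B))
    have e : ∫ x, g i x ∂(P : Measure (Set.Icc (0 : ℝ) B)) = ∫ x, f i x ∂ν := by
      rw [← hP (f i)]
      exact integral_congr_ae (ae_of_all _ fun x => hg i x)
    rw [e]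
    exact hS i hi
  obtain ⟨P, -, hP⟩ := isCompact_univ.inter_iInter_nonempty _ hclosed hne
  rw [Set.mem_iInter] at hP
  have hemb : MeasurableEmbedding (Subtype.val : Set.Icc (0 : ℝ) B → ℝ) :=
    MeasurableEmbedding.subtype_coe measurableSet_Icc
  refine ⟨(P : Measure (Set.Icc (0 : ℝ) B)).map Subtype.val, ⟨?_, ?_⟩, fun i => ?_⟩
  · exact Measure.isProbabilityMeasure_map measurable_subtype_coe.aemeasurable
  · rw [hemb.map_apply]
    have : (Subtype.val : Set.Icc (0 : ℝ) B → ℝ) ⁻¹' (Set.Icc 0 B)ᶜ = ∅ := by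
      ext x
      simp only [Set.mem_preimage, Set.mem_compl_iff, Set.mem_empty_iff_false, iff_false, not_not]
      exact x.2
    rw [this, measure_empty]
  · rw [hemb.integral_map]
    have h1 : 0 ≤ ∫ x, g i x ∂(P : Measure (Set.Icc (0 : ℝ) B)) := hP i
    have e : ∫ x, g i x ∂(P : Measure (Set.Icc (0 : ℝ) B))
        = ∫ x : Set.Icc (0 : ℝ) B, f i x ∂(P : Measure (Set.Icc (0 : ℝ) B)) :=
      integral_congr_ae (ae_of_all _ fun x => hg i x)
    rwa [e] at h1

end Pool.Agent.W401.SSS
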