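import Pool.Agent.W401.SSS.Stm

/-!
# The derivative of the defect (subtask SSS-DER)
-/

open MeasureTheory Polynomial

namespace Pool.Agent.W401.SSS

namespace DERaux

/-- log bound -/
theorem log_one_add {w : ℂ} (hw : ‖w‖ ≤ 1 / 2) : w.re - ‖w‖ ^ 2 ≤ Real.log ‖1 + w‖ := by
  have h1 := Complex.norm_log_one_add_sub_self_le (z := w) (by linarith)
  have h2 : ‖w‖ ^ 2 * (1 - ‖w‖)⁻¹ / 2 ≤ ‖w‖ ^ 2 := by
    have h3 : (1 - ‖w‖)⁻¹ ≤ 2 := by
      rw [inv_le_comm₀ (by linarith) (by norm_num)]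
      linarith
    have h4 := mul_le_mul_of_nonneg_left h3 (sq_nonneg ‖w‖)
    linarith
  have h5 := (Complex.abs_re_le_norm (Complex.log (1 + w) - w)).trans (h1.trans h2)
  rw [Complex.sub_re, Complex.log_re, abs_le] at h5
  linarith [h5.1]

theorem re_msum (s : Multiset ℂ) (f : ℂ → ℂ) :
    ((s.map f).sum).re = (s.map (fun α => (f α).re)).sum := by
  induction s using Multiset.induction_on with
  | empty => simp
  | cons a s ih => simp [ih]

/-- the logarithmic derivative -/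
theorem logderiv {Q : ℤ[X]} (x : ℝ) (hx : ev Q x ≠ 0) :
    ev (derivative Q) x / ev Q x = rsum Q (fun α => (1 / ((x : ℂ) - α)).re) := by
  have h1 : (Q.map (Int.castRingHom ℂ)).eval (x : ℂ) = ((ev Q x : ℝ) : ℂ) := by
    rw [ev_cast, Polynomial.aeval_def, Polynomial.eval_map]
    rfl
  have h2 : (Q.map (Int.castRingHom ℂ)).derivative.eval (x : ℂ) = ((ev (derivative Q) x : ℝ) : ℂ) := by
    rw [ev_cast, Polynomial.aeval_def, Polynomial.derivative_map, Polynomial.eval_map]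
    rfl
  have h3 : (Q.map (Int.castRingHom ℂ)).eval (x : ℂ) ≠ 0 := by
    rw [h1]
    exact_mod_cast hx
  have h4 := (IsAlgClosed.splits (Q.map (Int.castRingHom ℂ))).eval_derivative_div_eval_of_ne_zero h3
  rw [h1, h2] at h4
  have h5 : ((ev (derivative Q) x / ev Q x : ℝ) : ℂ) =
      ((Q.map (Int.castRingHom ℂ)).roots.map fun z => 1 / ((x : ℂ) - z)).sum := by
    rw [← h4]
    push_cast
    rfl
  have h6 := congrArg Complex.re h5
  rw [Complex.ofReal_re, re_msum] at h6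
  exact h6

/-- the heavy polynomials -/
theorem heavy_le {Q : ℤ[X]} {x y δ : ℝ} (hx : ev Q x ≠ 0) (hy : ev Q y ≠ 0) (hδ : 0 < δ)
    (hδ2 : δ ≤ 1 / 2) (hxy : |y - x| ≤ δ ^ 4) (hd : ∀ α ∈ rts Q, δ ≤ ‖(x : ℂ) - α‖) :
    (y - x) * (ev (derivative Q) x / ev Q x) - Q.natDegree * δ ^ 6 ≤
      Real.log |ev Q y| - Real.log |ev Q x| := by
  rw [SSS.log_abs_ev hx, SSS.log_abs_ev hy]
  have h1 : (y - x) * (ev (derivative Q) x / ev Q x) - Q.natDegree * δ ^ 6 =
      rsum Q (fun α => (y - x) * (1 / ((x : ℂ) - α)).re - δ ^ 6) := by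
    rw [rsum_sub, rsum_mul_left, rsum_const, logderiv x hx]
  have h2 : Real.log |(Q.leadingCoeff : ℝ)| + rsum Q (fun α => Real.log ‖(y : ℂ) - α‖) -
      (Real.log |(Q.leadingCoeff : ℝ)| + rsum Q (fun α => Real.log ‖(x : ℂ) - α‖)) =
      rsum Q (fun α => Real.log ‖(y : ℂ) - α‖ - Real.log ‖(x : ℂ) - α‖) := by
    rw [rsum_sub]
    ring
  rw [h1, h2]
  refine rsum_le Q _ _ fun α hα => ?_
  have hα1 := hd α hα
  have hxα : (x : ℂ) - α ≠ 0 := by
    intro h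
    rw [h, norm_zero] at hα1
    linarith
  set w : ℂ := ((y - x : ℝ) : ℂ) * (1 / ((x : ℂ) - α)) with hw
  have hwn : ‖w‖ ≤ δ ^ 3 := by
    rw [hw, norm_mul, Complex.norm_real, Real.norm_eq_abs, norm_div, norm_one]
    have h3 : 1 / ‖(x : ℂ) - α‖ ≤ 1 / δ := one_div_le_one_div_of_le hδ hα1
    calc |y - x| * (1 / ‖(x : ℂ) - α‖) ≤ δ ^ 4 * (1 / δ) :=
          mul_le_mul hxy h3 (by positivity) (by positivity)
      _ = δ ^ 3 := by field_simp
  have hδ3 : δ ^ 3 ≤ 1 / 2 := by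
    have : δ ^ 3 ≤ (1 / 2) ^ 3 := pow_le_pow_left₀ hδ.le hδ2 3
    norm_num at this
    linarith
  have h4 := log_one_add (hwn.trans hδ3)
  have h5 : (y : ℂ) - α = ((x : ℂ) - α) * (1 + w) := by
    rw [hw]
    push_cast
    field_simp
    ring
  have hyα : (y : ℂ) - α ≠ 0 := by
    intro h
    have hQ : Q ≠ 0 := by
      rintro rfl
      simp [ev] at hx
    apply hy
    rw [ev_eq_zero_iff hQ]
    rw [sub_eq_zero] at h
    rw [h]
    exact hα
  have hw1 : (1 + w) ≠ 0 := by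
    intro h
    rw [h, mul_zero] at h5
    exact hyα h5
  rw [h5, norm_mul, Real.log_mul (by simpa using hxα) (by simpa using hw1)]
  have h6 : w.re = (y - x) * (1 / ((x : ℂ) - α)).re := by
    rw [hw, Complex.re_ofReal_mul]
  have h7 : ‖w‖ ^ 2 ≤ δ ^ 6 := by
    calc ‖w‖ ^ 2 ≤ (δ ^ 3) ^ 2 := pow_le_pow_left₀ (norm_nonneg _) hwn 2
      _ = δ ^ 6 := by ring
  rw [← h6]
  linarith

/-- integral of a sum over a multiset -/
theorem int_msum (s : Multiset ℂ) (p q : ℝ)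
    (h : ∀ α, IntervalIntegrable (fun x : ℝ => Real.log ‖(x : ℂ) - α‖) volume p q) :
    IntervalIntegrable (fun x : ℝ => (s.map (fun α => Real.log ‖(x : ℂ) - α‖)).sum) volume p q ∧
    ∫ x in p..q, (s.map (fun α => Real.log ‖(x : ℂ) - α‖)).sum =
      (s.map (fun α => ∫ x in p..q, Real.log ‖(x : ℂ) - α‖)).sum := by
  induction s using Multiset.induction_on with
  | empty => simp
  | cons a s ih =>
    simp only [Multiset.map_cons, Multiset.sum_cons]
    refine ⟨(h a).add ih.1, ?_⟩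
    rw [intervalIntegral.integral_add (h a) ih.1, ih.2]

theorem ae_ne {Q : ℤ[X]} (hQ : Q ≠ 0) : ∀ᵐ x : ℝ, ev Q x ≠ 0 := by
  have h := (finite_roots hQ).measure_zero (volume : Measure ℝ)
  rw [ae_iff]
  simpa using h

theorem int_ev {Q : ℤ[X]} (hQ : Adm Q) (p q : ℝ)
    (h : ∀ α, IntervalIntegrable (fun x : ℝ => Real.log ‖(x : ℂ) - α‖) volume p q) :
    IntervalIntegrable (fun x : ℝ => Real.log |ev Q x|) volume p q ∧
    ∫ x in p..q, Real.log |ev Q x| = (q - p) * Real.log (Q.leadingCoeff : ℝ) +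
      rsum Q (fun α => ∫ x in p..q, Real.log ‖(x : ℂ) - α‖) := by
  obtain ⟨h1, h2⟩ := int_msum (rts Q) p q h
  have hae : ∀ᵐ x : ℝ, Real.log |ev Q x| = Real.log (Q.leadingCoeff : ℝ) +
      ((rts Q).map (fun α => Real.log ‖(x : ℂ) - α‖)).sum := by
    filter_upwards [ae_ne hQ.ne_zero] with x hx
    exact hQ.log_abs_ev hx
  have h3 : IntervalIntegrable (fun x : ℝ => Real.log (Q.leadingCoeff : ℝ) +
      ((rts Q).map (fun α => Real.log ‖(x : ℂ) - α‖)).sum) volume p q :=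
    intervalIntegrable_const.add h1
  constructor
  · refine h3.congr_ae (ae_restrict_of_ae ?_)
    filter_upwards [hae] with x hx
    exact hx.symm
  · rw [intervalIntegral.integral_congr_ae (g := fun x : ℝ => Real.log (Q.leadingCoeff : ℝ) +
      ((rts Q).map (fun α => Real.log ‖(x : ℂ) - α‖)).sum)]
    · rw [intervalIntegral.integral_add intervalIntegrable_const h1, h2,
        intervalIntegral.integral_const, smul_eq_mul]
      rfl
    · filter_upwards [hae] with x hx _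
      exact hx

/-- the light polynomials -/
theorem light_le {Q : ℤ[X]} (hQ : Adm Q) {x p d : ℝ} (hd : 0 < d) (hx : ev Q x ≠ 0)
    (h : ∀ α, IntervalIntegrable (fun x : ℝ => Real.log ‖(x : ℂ) - α‖) volume p (p + d / 2))
    (havg : ∀ α : ℂ, (x : ℂ) ≠ α →
      Real.log ‖(x : ℂ) - α‖ - (2 / d) * ∫ y in p..(p + d / 2), Real.log ‖(y : ℂ) - α‖ ≤ 4) :
    d / 2 * Real.log |ev Q x| - ∫ y in p..(p + d / 2), Real.log |ev Q y| ≤
      d / 2 * (4 * Q.natDegree) := by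
  rw [(int_ev hQ p (p + d / 2) h).2, hQ.log_abs_ev hx]
  have h1 : rsum Q (fun α => d / 2 * Real.log ‖(x : ℂ) - α‖) -
      rsum Q (fun α => ∫ y in p..(p + d / 2), Real.log ‖(y : ℂ) - α‖) ≤
      rsum Q (fun _ => d / 2 * 4) := by
    rw [← rsum_sub]
    refine rsum_le Q _ _ fun α hα => ?_
    have hxα : (x : ℂ) ≠ α := by
      intro h
      apply hx
      rw [ev_eq_zero_iff hQ.ne_zero, h]
      exact hα
    have h2 := mul_le_mul_of_nonneg_left (havg α hxα) (by positivity : 0 ≤ d / 2)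
    have h3 : d / 2 * (Real.log ‖(x : ℂ) - α‖ -
        (2 / d) * ∫ y in p..(p + d / 2), Real.log ‖(y : ℂ) - α‖) =
        d / 2 * Real.log ‖(x : ℂ) - α‖ - ∫ y in p..(p + d / 2), Real.log ‖(y : ℂ) - α‖ := by
      field_simp
    linarith
  rw [rsum_mul_left, rsum_const] at h1
  have h4 : p + d / 2 - p = d / 2 := by ring
  rw [h4]
  linarith

theorem split (F : Finset ℤ[X]) (a : ℤ[X] → ℝ) (ε : ℝ) (f : ℤ[X] → ℝ) :
    ∑ Q ∈ F, f Q = ∑ Q ∈ heavy F a ε, f Q + ∑ Q ∈ light F a ε, f Q := by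
  classical
  unfold heavy light
  rw [← Finset.sum_filter_add_sum_filter_not F (fun Q => ε ≤ a Q)]
  congr 1
  refine Finset.sum_congr ?_ fun _ _ => rfl
  ext Q
  simp

theorem core {lam η δ x p : ℝ} {F : Finset ℤ[X]} {a : ℤ[X] → ℝ} (hc : Cert lam η 2000 F a)
    (hsum : ∑ Q ∈ F, a Q * (Q.natDegree : ℝ) ≤ 70) (hδ : 0 < δ) (hδ2 : δ ≤ 1 / 2)
    (hp0 : 0 ≤ p) (hp1 : p + δ ^ 4 / 2 ≤ 2000)
    (hpx : ∀ y ∈ Set.Icc p (p + δ ^ 4 / 2), |y - x| ≤ δ ^ 4)
    (hx : ∀ Q ∈ F, ev Q x ≠ 0) (hhx : hh lam η F a x ≤ δ ^ 8)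
    (hd : ∀ Q ∈ heavy F a (δ ^ 8), ∀ α ∈ rts Q, δ ≤ ‖(x : ℂ) - α‖)
    (h : ∀ α, IntervalIntegrable (fun x : ℝ => Real.log ‖(x : ℂ) - α‖) volume p (p + δ ^ 4 / 2))
    (havg : ∀ α : ℂ, (x : ℂ) ≠ α →
      Real.log ‖(x : ℂ) - α‖ - (2 / δ ^ 4) *
        ∫ y in p..(p + δ ^ 4 / 2), Real.log ‖(y : ℂ) - α‖ ≤ 4) :
    0 ≤ δ ^ 4 / 2 * (δ ^ 8 + 70 * δ ^ 6 +
        4 * ∑ Q ∈ light F a (δ ^ 8), a Q * (Q.natDegree : ℝ)) +
      (1 - ∑ Q ∈ heavy F a (δ ^ 8), a Q * (ev (derivative Q) x / ev Q x)) *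
        (((p + δ ^ 4 / 2 - x) ^ 2 - (p - x) ^ 2) / 2) := by
  set H := heavy F a (δ ^ 8) with hH
  set Lt := light F a (δ ^ 8) with hLt
  set G := ∑ Q ∈ H, a Q * (ev (derivative Q) x / ev Q x) with hG
  set d := δ ^ 4 with hdd
  have hdpos : 0 < d := by positivity
  have hHF : ∀ Q ∈ H, Q ∈ F := fun Q hQ => (mem_heavy.1 hQ).1
  have hLF : ∀ Q ∈ Lt, Q ∈ F := fun Q hQ => (mem_light.1 hQ).1
  have hHsum : ∑ Q ∈ H, a Q * (Q.natDegree : ℝ) ≤ 70 := by
    rw [split F a (δ ^ 8)] at hsum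
    have : 0 ≤ ∑ Q ∈ Lt, a Q * (Q.natDegree : ℝ) :=
      Finset.sum_nonneg fun Q hQ => mul_nonneg (hc.pos Q (hLF Q hQ)).le (Nat.cast_nonneg _)
    linarith
  -- pointwise
  have hpt : ∀ y ∈ Set.Icc p (p + d / 2), (∀ Q ∈ F, ev Q y ≠ 0) →
      0 ≤ (δ ^ 8 + 70 * δ ^ 6 + (y - x) * (1 - G)) -
        ∑ Q ∈ Lt, a Q * (Real.log |ev Q y| - Real.log |ev Q x|) := by
    intro y hy hyr
    have h1 := hc.le y ⟨hp0.trans hy.1, hy.2.trans hp1⟩ hyr
    have h2 : pot F a y - pot F a x = ∑ Q ∈ H, a Q * (Real.log |ev Q y| - Real.log |ev Q x|) +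
        ∑ Q ∈ Lt, a Q * (Real.log |ev Q y| - Real.log |ev Q x|) := by
      rw [← split F a (δ ^ 8)]
      unfold pot
      rw [← Finset.sum_sub_distrib]
      exact Finset.sum_congr rfl fun Q _ => by ring
    have h3 : ∑ Q ∈ H, a Q * ((y - x) * (ev (derivative Q) x / ev Q x) - Q.natDegree * δ ^ 6) ≤
        ∑ Q ∈ H, a Q * (Real.log |ev Q y| - Real.log |ev Q x|) := by
      refine Finset.sum_le_sum fun Q hQ => ?_
      refine mul_le_mul_of_nonneg_left ?_ (hc.pos Q (hHF Q hQ)).le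
      exact heavy_le (hx Q (hHF Q hQ)) (hyr Q (hHF Q hQ)) hδ hδ2 (hpx y hy) (hd Q hQ)
    have h4 : ∑ Q ∈ H, a Q * ((y - x) * (ev (derivative Q) x / ev Q x) - Q.natDegree * δ ^ 6) =
        (y - x) * G - δ ^ 6 * ∑ Q ∈ H, a Q * (Q.natDegree : ℝ) := by
      rw [hG, Finset.mul_sum, Finset.mul_sum, ← Finset.sum_sub_distrib]
      exact Finset.sum_congr rfl fun Q _ => by ring
    have h5 : δ ^ 6 * ∑ Q ∈ H, a Q * (Q.natDegree : ℝ) ≤ δ ^ 6 * 70 :=
      mul_le_mul_of_nonneg_left hHsum (by positivity)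
    unfold hh at hhx
    linarith
  have hae : ∀ᵐ y : ℝ, ∀ Q ∈ F, ev Q y ≠ 0 := by
    rw [Filter.eventually_all_finset]
    intro Q hQ
    exact ae_ne (hc.adm Q hQ).ne_zero
  have hint : 0 ≤ ∫ y in p..(p + d / 2), ((δ ^ 8 + 70 * δ ^ 6 + (y - x) * (1 - G)) -
        ∑ Q ∈ Lt, a Q * (Real.log |ev Q y| - Real.log |ev Q x|)) := by
    refine intervalIntegral.integral_nonneg_of_ae_restrict (by linarith) ?_
    rw [Filter.EventuallyLE, ae_restrict_iff' measurableSet_Icc]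
    filter_upwards [hae] with y hy hy2
    exact hpt y hy2 hy
  have hI : ∀ Q ∈ Lt, IntervalIntegrable (fun y : ℝ => a Q * (Real.log |ev Q y| -
      Real.log |ev Q x|)) volume p (p + d / 2) := fun Q hQ =>
    (((int_ev (hc.adm Q (hLF Q hQ)) p (p + d / 2) h).1.sub intervalIntegrable_const).const_mul _)
  have hI1 : IntervalIntegrable (fun y : ℝ => ∑ Q ∈ Lt, a Q * (Real.log |ev Q y| -
      Real.log |ev Q x|)) volume p (p + d / 2) := by
    have := IntervalIntegrable.sum Lt hI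
    refine this.congr_ae (Filter.Eventually.of_forall fun y => ?_)
    simp
  have hI2 : IntervalIntegrable (fun y : ℝ => δ ^ 8 + 70 * δ ^ 6 + (y - x) * (1 - G)) volume p
      (p + d / 2) := by
    apply Continuous.intervalIntegrable
    fun_prop
  rw [intervalIntegral.integral_sub hI2 hI1, intervalIntegral.integral_finsetSum hI] at hint
  have e1 : ∫ y in p..(p + d / 2), (δ ^ 8 + 70 * δ ^ 6 + (y - x) * (1 - G)) =
      d / 2 * (δ ^ 8 + 70 * δ ^ 6) + (1 - G) * (((p + d / 2 - x) ^ 2 - (p - x) ^ 2) / 2) := by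
    rw [intervalIntegral.integral_add intervalIntegrable_const
      (by apply Continuous.intervalIntegrable; fun_prop), intervalIntegral.integral_const,
      intervalIntegral.integral_mul_const,
      intervalIntegral.integral_sub (by apply Continuous.intervalIntegrable; fun_prop)
        intervalIntegrable_const, integral_id, intervalIntegral.integral_const]
    simp only [smul_eq_mul]
    ring
  have e2 : ∀ Q ∈ Lt, -(∫ y in p..(p + d / 2), a Q * (Real.log |ev Q y| - Real.log |ev Q x|)) ≤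
      d / 2 * (4 * (a Q * (Q.natDegree : ℝ))) := by
    intro Q hQ
    have hQF := hLF Q hQ
    have h1 := light_le (hc.adm Q hQF) hdpos (hx Q hQF) h havg
    rw [intervalIntegral.integral_const_mul, intervalIntegral.integral_sub
      (int_ev (hc.adm Q hQF) p (p + d / 2) h).1 intervalIntegrable_const,
      intervalIntegral.integral_const, smul_eq_mul]
    have h2 := mul_le_mul_of_nonneg_left h1 (hc.pos Q hQF).le
    have h3 : p + d / 2 - p = d / 2 := by ring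
    rw [h3]
    linarith
  have e3 := Finset.sum_le_sum e2
  rw [Finset.sum_neg_distrib, ← Finset.mul_sum, ← Finset.mul_sum] at e3
  rw [e1] at hint
  linarith

end DERaux

open DERaux in
theorem pDER : AVG → CB → UNI1 → DER := by
  intro hAVG hCB hUNI K hK
  refine ⟨1 / (200 * (1 + K)), by positivity, ?_⟩
  intro lam η F a hlam hlam6 hη hη1 hc δ hδ hδ0 hlight x hx1 hx2 hxr hhx hroots
  have hδK : δ * (200 * (1 + K)) ≤ 1 := by
    rwa [le_div_iff₀ (by positivity)] at hδ0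
  have hδ200 : δ ≤ 1 / 200 := by nlinarith
  have hKδ : K * δ ≤ 1 / 200 := by nlinarith
  have hsum : ∑ Q ∈ F, a Q * (Q.natDegree : ℝ) ≤ 70 := by
    refine le_trans (Finset.sum_le_sum fun Q hQ => ?_) (hCB lam η 2000 F a (by norm_num) hlam hη1 hc)
    exact mul_le_mul_of_nonneg_left (hc.adm Q hQ).deg_le_wt (hc.pos Q hQ).le
  have hd4 : 0 < δ ^ 4 := by positivity
  have hd41 : δ ^ 4 ≤ 1 := pow_le_one₀ hδ.le (by linarith)
  -- the bound for the errors
  have hlog : Real.log (1 / δ) ≤ 1 / δ := by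
    have := Real.log_le_sub_one_of_pos (x := 1 / δ) (by positivity)
    linarith
  have hL : ∑ Q ∈ light F a (δ ^ 8), a Q * (Q.natDegree : ℝ) ≤ K * δ ^ 7 := by
    refine hlight.trans ?_
    calc K * δ ^ 8 * Real.log (1 / δ) ≤ K * δ ^ 8 * (1 / δ) :=
          mul_le_mul_of_nonneg_left hlog (by positivity)
      _ = K * δ ^ 7 := by field_simp
  have hR : δ ^ 8 + 70 * δ ^ 6 + 4 * ∑ Q ∈ light F a (δ ^ 8), a Q * (Q.natDegree : ℝ) ≤
      3 / 4 * δ ^ 5 := by
    have h1 : δ ^ 8 + 70 * δ ^ 6 + 4 * (K * δ ^ 7) = δ ^ 5 * (δ ^ 3 + 70 * δ + 4 * (K * δ) * δ) := by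
      ring
    have h2 : δ ^ 3 ≤ 1 / 200 := by
      calc δ ^ 3 ≤ (1 / 200) ^ 3 := pow_le_pow_left₀ hδ.le hδ200 3
        _ ≤ 1 / 200 := by norm_num
    have h3 : 4 * (K * δ) * δ ≤ 4 * (1 / 200) * 1 := by
      apply mul_le_mul _ (by linarith) hδ.le (by norm_num)
      linarith
    have h4 : δ ^ 5 * (δ ^ 3 + 70 * δ + 4 * (K * δ) * δ) ≤ δ ^ 5 * (3 / 4) :=
      mul_le_mul_of_nonneg_left (by linarith) (by positivity)
    linarith
  have hcont : ∀ p : ℝ, ∀ α, IntervalIntegrable (fun x : ℝ => Real.log ‖(x : ℂ) - α‖) volume p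
      (p + δ ^ 4 / 2) := fun p α => (hUNI p (δ ^ 4 / 2) α (by positivity)).1
  have hA := core (p := x + δ ^ 4 / 2) hc hsum hδ (by linarith) (by linarith) (by linarith)
    (by
      intro y hy
      rw [abs_le]
      constructor <;> linarith [hy.1, hy.2]) hxr hhx hroots (hcont _)
    (by
      intro α hα
      have h1 := (hAVG x (δ ^ 4) α hd4 hα).1
      have h2 : x + δ ^ 4 / 2 + δ ^ 4 / 2 = x + δ ^ 4 := by ring
      rw [h2]
      exact h1)
  have hB := core (p := x - δ ^ 4) hc hsum hδ (by linarith) (by linarith) (by linarith)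
    (by
      intro y hy
      rw [abs_le]
      constructor <;> linarith [hy.1, hy.2]) hxr hhx hroots (hcont _)
    (by
      intro α hα
      have h1 := (hAVG x (δ ^ 4) α hd4 hα).2
      have h2 : x - δ ^ 4 + δ ^ 4 / 2 = x - δ ^ 4 / 2 := by ring
      rw [h2]
      exact h1)
  set g := 1 - ∑ Q ∈ heavy F a (δ ^ 8), a Q * (ev (derivative Q) x / ev Q x) with hg
  set R := δ ^ 8 + 70 * δ ^ 6 + 4 * ∑ Q ∈ light F a (δ ^ 8), a Q * (Q.natDegree : ℝ) with hRdef
  have hA' : 0 ≤ δ ^ 4 * (1 / 2 * R + g * (3 / 8 * δ ^ 4)) := by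
    refine hA.trans (le_of_eq ?_)
    ring
  have hB' : 0 ≤ δ ^ 4 * (1 / 2 * R - g * (3 / 8 * δ ^ 4)) := by
    refine hB.trans (le_of_eq ?_)
    ring
  have hA2 := nonneg_of_mul_nonneg_right hA' hd4
  have hB2 := nonneg_of_mul_nonneg_right hB' hd4
  have hA3 : 0 ≤ δ ^ 4 * (δ + g) := by
    have : δ ^ 4 * (δ + g) = δ ^ 5 + δ ^ 4 * g := by ring
    rw [this]
    linarith
  have hB3 : 0 ≤ δ ^ 4 * (δ - g) := by
    have : δ ^ 4 * (δ - g) = δ ^ 5 - δ ^ 4 * g := by ring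
    rw [this]
    linarith
  have hA4 := nonneg_of_mul_nonneg_right hA3 hd4
  have hB4 := nonneg_of_mul_nonneg_right hB3 hd4
  rw [abs_le]
  constructor <;> linarith

end Pool.Agent.W401.SSS
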