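import Pool.Agent.W401.SSS.Stm

/-! Task SSS-EI (helper782): the energy inequality for a finite family of polynomials. -/

open MeasureTheory Polynomial

namespace Pool.Agent.W401.SSS

namespace EIaux

theorem rsum_finset {Q : ℤ[X]} (h : (rts Q).Nodup) (f : ℂ → ℝ) :
    ∑ α ∈ (rts Q).toFinset, f α = rsum Q f := by
  unfold rsum
  rw [Finset.sum, Multiset.toFinset_val, h.dedup]

/-- the index set -/
noncomputable def idx (F : Finset ℤ[X]) : Finset (Σ _ : ℤ[X], ℂ) :=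
  F.sigma (fun Q => (rts Q).toFinset)

theorem sum_idx {F : Finset ℤ[X]} (hF : ∀ Q ∈ F, Adm Q) (g : ℤ[X] → ℂ → ℝ) :
    ∑ i : idx F, g i.1.1 i.1.2 = ∑ Q ∈ F, rsum Q (g Q) := by
  rw [Finset.sum_coe_sort (idx F) (fun p : (Σ _ : ℤ[X], ℂ) => g p.1 p.2)]
  unfold idx
  rw [Finset.sum_sigma]
  exact Finset.sum_congr rfl fun Q hQ => rsum_finset (hF Q hQ).nodup (g Q)

theorem int_cont {B : ℝ} {μ : Measure ℝ} (h : On B μ) {f : ℝ → ℝ} (hf : Continuous f) :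
    Integrable f μ := by
  have := h.1
  have h1 : μ.restrict (Set.Icc 0 B) = μ := by
    apply Measure.restrict_eq_self_of_ae_mem
    exact h.2
  have h2 : IntegrableOn f (Set.Icc 0 B) μ := hf.continuousOn.integrableOn_compact isCompact_Icc
  rw [IntegrableOn, h1] at h2
  exact h2

theorem cont_log (α : ℂ) {r : ℝ} (hr : 0 < r) :
    Continuous (fun x : ℝ => Real.log (‖(x : ℂ) - α‖ ^ 2 + r ^ 2)) := by
  refine Continuous.log (by fun_prop) ?_
  intro x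
  positivity

theorem J_eq (hI : INTEG) {μ : Measure ℝ} (hμ : On 1000 μ) (hA : Arith μ) {Q : ℤ[X]} (hQ : Adm Q)
    {r : ℝ} (hr : 0 < r) :
    2 * Real.log (Q.leadingCoeff : ℝ)
      + rsum Q (fun α => ∫ x : ℝ, Real.log (‖(x : ℂ) - α‖ ^ 2 + r ^ 2) ∂μ)
    = 2 * ∫ x, Real.log |ev Q x| ∂μ + 2 * ∫ x : ℝ, rsum Q
          (fun α => (1 / 2) * Real.log (1 + r ^ 2 / ‖(x : ℂ) - α‖ ^ 2)) ∂μ := by
  have := hμ.1
  obtain ⟨h1, h2⟩ := hI 1000 μ Q hμ hQ.ne_zero (hA Q hQ.ne_zero)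
  obtain ⟨h3, h4, h5⟩ := hA Q hQ.ne_zero
  have e1 : rsum Q (fun α => ∫ x : ℝ, Real.log (‖(x : ℂ) - α‖ ^ 2 + r ^ 2) ∂μ)
      = ∫ x : ℝ, rsum Q (fun α => Real.log (‖(x : ℂ) - α‖ ^ 2 + r ^ 2)) ∂μ := by
    rw [← rsum_finset hQ.nodup]
    simp only [← rsum_finset hQ.nodup]
    rw [integral_finsetSum]
    intro α _
    exact int_cont hμ (cont_log α hr)
  have i1 : Integrable (fun x : ℝ => rsum Q (fun α => Real.log (‖(x : ℂ) - α‖ ^ 2 + r ^ 2))) μ := by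
    simp only [← rsum_finset hQ.nodup]
    apply integrable_finsetSum
    intro α _
    exact int_cont hμ (cont_log α hr)
  have e2 : 2 * Real.log (Q.leadingCoeff : ℝ) = ∫ x : ℝ, 2 * Real.log (Q.leadingCoeff : ℝ) ∂μ := by
    rw [integral_const]; simp
  rw [e1, e2, ← integral_add (integrable_const _) i1, ← integral_const_mul, ← integral_const_mul,
    ← integral_add (h4.const_mul 2) ((h2 r).const_mul 2)]
  apply integral_congr_ae
  have hae : ∀ᵐ x ∂μ, ev Q x ≠ 0 := by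
    rw [ae_iff]
    simpa using h3
  filter_upwards [hae] with x hx
  rw [hQ.log_abs_ev hx, mul_add, add_assoc, ← mul_add, ← rsum_add, ← rsum_mul_left]
  congr 1
  apply rsum_congr
  intro α hα
  have hne : (x : ℂ) - α ≠ 0 := by
    intro h
    apply hx
    rw [ev_eq_zero_iff hQ.ne_zero]
    rw [sub_eq_zero] at h
    rw [h]; exact hα
  have hn : 0 < ‖(x : ℂ) - α‖ := norm_pos_iff.2 hne
  have e3 : ‖(x : ℂ) - α‖ ^ 2 + r ^ 2 = ‖(x : ℂ) - α‖ ^ 2 * (1 + r ^ 2 / ‖(x : ℂ) - α‖ ^ 2) := by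
    field_simp
  rw [e3, Real.log_mul (by positivity) (by positivity), Real.log_pow]
  push_cast
  ring

theorem pair_term {F : Finset ℤ[X]} {r : ℤ[X] → ℝ} (hF : ∀ Q ∈ F, Adm Q ∧ 0 < r Q)
    (i j : idx F) :
    2 * Real.log ‖i.1.2 - j.1.2‖ + (if i = j then -(2 * Real.log (1 / r i.1.1)) else 0) ≤
      Real.log (‖i.1.2 - j.1.2‖ ^ 2 + r i.1.1 ^ 2 + r j.1.1 ^ 2) := by
  have mi := i.2
  have mj := j.2
  unfold idx at mi mj
  rw [Finset.mem_sigma, Multiset.mem_toFinset] at mi mj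
  by_cases hij : i = j
  · subst hij
    have hr := (hF _ mi.1).2
    rw [if_pos rfl]
    simp only [sub_self, norm_zero, Real.log_zero, mul_zero, zero_add, one_div, Real.log_inv]
    rw [show 2 * -Real.log (r i.1.1) = -(Real.log (r i.1.1 ^ 2)) by rw [Real.log_pow]; push_cast; ring,
      neg_neg]
    apply Real.log_le_log (by positivity)
    nlinarith [sq_nonneg (r i.1.1)]
  · rw [if_neg hij, add_zero]
    have hne : i.1.2 ≠ j.1.2 := by
      intro h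
      by_cases hQ : i.1.1 = j.1.1
      · apply hij
        apply Subtype.ext
        exact Sigma.ext hQ (heq_of_eq h)
      · exact Adm.disjoint (hF _ mi.1).1 (hF _ mj.1).1 hQ mi.2 (by rw [h]; exact mj.2)
    have hn : 0 < ‖i.1.2 - j.1.2‖ := norm_pos_iff.2 (sub_ne_zero.2 hne)
    rw [show 2 * Real.log ‖i.1.2 - j.1.2‖ = Real.log (‖i.1.2 - j.1.2‖ ^ 2) by
      rw [Real.log_pow]; push_cast; ring]
    apply Real.log_le_log (by positivity)
    nlinarith [sq_nonneg (r i.1.1), sq_nonneg (r j.1.1)]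

end EIaux

open EIaux in
theorem pEI : NEGM → RES → INTEG → EI := by
  intro hN hR hI μ hμ hA hE F b r hF
  have hF1 : ∀ Q ∈ F, Adm Q := fun Q hQ => (hF Q hQ).1
  have hmem : ∀ i : idx F, i.1.1 ∈ F ∧ i.1.2 ∈ rts i.1.1 := by
    intro i
    have mi := i.2
    unfold idx at mi
    rw [Finset.mem_sigma, Multiset.mem_toFinset] at mi
    exact mi
  set T := ∑ Q ∈ F, b Q * (Q.natDegree : ℝ) with hT
  have hT0 : 0 ≤ T := Finset.sum_nonneg fun Q hQ => mul_nonneg (hF Q hQ).2.1 (Nat.cast_nonneg _)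
  have k := hN 1000 μ hμ hE (idx F) (fun i => i.1.2) (fun i => b i.1.1) (fun i => r i.1.1)
    (fun i => (hF _ (hmem i).1).2.2.1)
  have k1 : ∑ i : idx F, b i.1.1 = T := by
    rw [sum_idx hF1 (fun Q _ => b Q)]
    apply Finset.sum_congr rfl
    intro Q _
    rw [rsum_const]; ring
  have k2 : ∑ i : idx F, b i.1.1 * ∫ x : ℝ, Real.log (‖(x : ℂ) - i.1.2‖ ^ 2 + r i.1.1 ^ 2) ∂μ
      = ∑ Q ∈ F, b Q * rsum Q (fun α => ∫ x : ℝ, Real.log (‖(x : ℂ) - α‖ ^ 2 + r Q ^ 2) ∂μ) := by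
    rw [sum_idx hF1 (fun Q α => b Q * ∫ x : ℝ, Real.log (‖(x : ℂ) - α‖ ^ 2 + r Q ^ 2) ∂μ)]
    exact Finset.sum_congr rfl fun Q _ => rsum_mul_left _ _ _
  have k3 : 2 * (∑ Q ∈ F, ∑ P ∈ F, b Q * b P * rsum Q (fun α => rsum P (fun β =>
      Real.log ‖α - β‖))) - 2 * (∑ Q ∈ F, b Q ^ 2 * (Q.natDegree : ℝ) * Real.log (1 / r Q)) ≤
      ∑ i : idx F, ∑ j : idx F, b i.1.1 * b j.1.1 *
        Real.log (‖i.1.2 - j.1.2‖ ^ 2 + r i.1.1 ^ 2 + r j.1.1 ^ 2) := by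
    have e1 : ∑ Q ∈ F, ∑ P ∈ F, b Q * b P * rsum Q (fun α => rsum P (fun β =>
        Real.log ‖α - β‖)) = ∑ i : idx F, ∑ j : idx F, b i.1.1 * b j.1.1 *
          Real.log ‖i.1.2 - j.1.2‖ := by
      rw [sum_idx hF1 (fun Q α => ∑ j : idx F, b Q * b j.1.1 * Real.log ‖α - j.1.2‖)]
      apply Finset.sum_congr rfl
      intro Q hQ
      rw [← rsum_finset (hF1 Q hQ).nodup]
      have e2 : ∀ α : ℂ, ∑ j : idx F, b Q * b j.1.1 * Real.log ‖α - j.1.2‖
          = ∑ P ∈ F, b Q * b P * rsum P (fun β => Real.log ‖α - β‖) := by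
        intro α
        rw [sum_idx hF1 (fun P β => b Q * b P * Real.log ‖α - β‖)]
        exact Finset.sum_congr rfl fun P _ => rsum_mul_left _ _ _
      simp only [e2]
      rw [Finset.sum_comm]
      apply Finset.sum_congr rfl
      intro P _
      rw [← rsum_finset (hF1 Q hQ).nodup, Finset.mul_sum]
    have e3 : ∑ Q ∈ F, b Q ^ 2 * (Q.natDegree : ℝ) * Real.log (1 / r Q)
        = ∑ i : idx F, b i.1.1 ^ 2 * Real.log (1 / r i.1.1) := by
      rw [sum_idx hF1 (fun Q _ => b Q ^ 2 * Real.log (1 / r Q))]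
      apply Finset.sum_congr rfl
      intro Q _
      rw [rsum_const]; ring
    rw [e1, e3, Finset.mul_sum, Finset.mul_sum, ← Finset.sum_sub_distrib]
    apply Finset.sum_le_sum
    intro i _
    rw [Finset.mul_sum]
    have e4 : 2 * (b i.1.1 ^ 2 * Real.log (1 / r i.1.1)) =
        ∑ j : idx F, (if i = j then b i.1.1 * b j.1.1 * (2 * Real.log (1 / r i.1.1)) else 0) := by
      rw [Finset.sum_ite_eq]
      simp only [Finset.mem_univ, if_true]
      ring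
    rw [e4, ← Finset.sum_sub_distrib]
    apply Finset.sum_le_sum
    intro j _
    have h1 := pair_term (r := r) (fun Q hQ => ⟨(hF Q hQ).1, (hF Q hQ).2.2.1⟩) i j
    have h2 : 0 ≤ b i.1.1 * b j.1.1 := mul_nonneg (hF _ (hmem i).1).2.1 (hF _ (hmem j).1).2.1
    have h3 := mul_le_mul_of_nonneg_left h1 h2
    refine le_trans (le_of_eq ?_) h3
    by_cases hij : i = j
    · subst hij
      simp only [if_true]
      ring
    · simp only [if_neg hij]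
      ring
  have k4 := hR F b (fun Q hQ => ⟨(hF Q hQ).1, (hF Q hQ).2.1⟩)
  have k5 : ∑ Q ∈ F, b Q * rsum Q (fun α => ∫ x : ℝ, Real.log (‖(x : ℂ) - α‖ ^ 2 + r Q ^ 2) ∂μ)
      = 2 * (∑ Q ∈ F, b Q * ∫ x, Real.log |ev Q x| ∂μ +
        ∑ Q ∈ F, b Q * ∫ x : ℝ, rsum Q
          (fun α => (1 / 2) * Real.log (1 + r Q ^ 2 / ‖(x : ℂ) - α‖ ^ 2)) ∂μ)
        - 2 * ∑ Q ∈ F, b Q * Real.log (Q.leadingCoeff : ℝ) := by
    rw [← Finset.sum_add_distrib, Finset.mul_sum, Finset.mul_sum, ← Finset.sum_sub_distrib]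
    apply Finset.sum_congr rfl
    intro Q hQ
    have := J_eq hI hμ hA (hF Q hQ).1 (hF Q hQ).2.2.1
    have e : rsum Q (fun α => ∫ x : ℝ, Real.log (‖(x : ℂ) - α‖ ^ 2 + r Q ^ 2) ∂μ)
      = 2 * ∫ x, Real.log |ev Q x| ∂μ + 2 * ∫ x : ℝ, rsum Q
          (fun α => (1 / 2) * Real.log (1 + r Q ^ 2 / ‖(x : ℂ) - α‖ ^ 2)) ∂μ
        - 2 * Real.log (Q.leadingCoeff : ℝ) := by linarith
    rw [e]; ring
  rw [k1, k2, k5] at k
  set A := ∑ Q ∈ F, b Q * ∫ x, Real.log |ev Q x| ∂μ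
  set D := ∑ Q ∈ F, b Q * ∫ x : ℝ, rsum Q
          (fun α => (1 / 2) * Real.log (1 + r Q ^ 2 / ‖(x : ℂ) - α‖ ^ 2)) ∂μ
  set L := ∑ Q ∈ F, b Q * Real.log (Q.leadingCoeff : ℝ)
  nlinarith

end Pool.Agent.W401.SSS
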