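import Pool.Agent.W401.SSS.Stm

set_option autoImplicit false

open MeasureTheory Polynomial

namespace Pool.Agent.W401.SSS

namespace EISENaux

theorem dvd_iff_mem (a b : ℤ) : b ∈ Ideal.span {a} ↔ a ∣ b := Ideal.mem_span_singleton

end EISENaux

theorem pEISEN : EISEN := by
  intro p hp hd h2 h4
  have hprime : (Ideal.span {(2 : ℤ)}).IsPrime := by
    rw [Ideal.span_singleton_prime (by norm_num)]
    exact Int.prime_two
  refine Polynomial.irreducible_of_eisenstein_criterion hprime ?_ ?_ ?_ ?_ hp.isPrimitive
  · rw [hp.leadingCoeff, EISENaux.dvd_iff_mem]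
    norm_num
  · intro n hn
    rw [EISENaux.dvd_iff_mem]
    apply h2
    rw [Polynomial.degree_eq_natDegree hp.ne_zero] at hn
    exact_mod_cast hn
  · exact Polynomial.natDegree_pos_iff_degree_pos.1 hd
  · rw [Ideal.span_singleton_pow, EISENaux.dvd_iff_mem]
    norm_num
    exact h4

end Pool.Agent.W401.SSS
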