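import Pool.Agent.W401.SSS.Stm

open MeasureTheory Polynomial

namespace Pool.Agent.W401.SSS

namespace EXISTaux

theorem on_mono {B B' : ℝ} {ν : Measure ℝ} (h : B ≤ B') (hν : On B ν) : On B' ν :=
  ⟨hν.1, measure_mono_null (Set.compl_subset_compl.2 (Set.Icc_subset_Icc_right h)) hν.2⟩

end EXISTaux

open EXISTaux in
theorem pEXIST : MINB → SUPPB → UNIF → EXIST := by
  rintro hM hS ⟨ν, hνOn, hνmean, -, hνAr, -⟩
  obtain ⟨μ, hOn, hAr, hmin⟩ := hM 1000 (by norm_num)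
  refine ⟨μ, mean μ, ?_, ?_, hOn, hAr, rfl, ?_⟩
  · have h1 : ∀ᵐ x ∂μ, x ∈ Set.Icc (0 : ℝ) 1000 := hOn.2
    exact integral_nonneg_of_ae (by filter_upwards [h1] with x hx using hx.1)
  · rw [← hνmean]
    exact hmin ν (on_mono (by norm_num) hνOn) hνAr
  · intro B ν' hOn' hAr'
    obtain ⟨ρ, hρ1, hρ2, hρ3⟩ := hM (max B 1000) ((by norm_num : (12 : ℝ) ≤ 1000).trans
      (le_max_right _ _))
    have h1 : mean ρ ≤ mean ν' := hρ3 ν' (on_mono (le_max_left _ _) hOn') hAr'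
    have h2 : On 1000 ρ := hS (max B 1000) (mean ρ) ρ ((by norm_num : (12 : ℝ) ≤ 1000).trans
      (le_max_right _ _)) hρ3 hρ1 hρ2 rfl
    exact (hmin ρ h2 hρ2).trans h1

end Pool.Agent.W401.SSS
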