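import Pool.Agent.W401.SSS.Stm

open MeasureTheory Polynomial

namespace Pool.Agent.W401.SSS

namespace FACTaux

theorem ev_mul (P Q : ℤ[X]) (x : ℝ) : ev (P * Q) x = ev P x * ev Q x := by
  unfold ev
  simp

theorem ev_C (c : ℤ) (x : ℝ) : ev (C c) x = c := by
  unfold ev
  simp

theorem ev_neg (Q : ℤ[X]) (x : ℝ) : ev (-Q) x = - ev Q x := by
  unfold ev
  simp

theorem logNonneg_mul {ν : Measure ℝ} {P Q : ℤ[X]} (hP : LogNonneg ν P) (hQ : LogNonneg ν Q) :
    LogNonneg ν (P * Q) := by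
  obtain ⟨p1, p2, p3⟩ := hP
  obtain ⟨q1, q2, q3⟩ := hQ
  have hae : (fun x => Real.log |ev P x| + Real.log |ev Q x|)
      =ᵐ[ν] (fun x => Real.log |ev (P * Q) x|) := by
    have hp : ∀ᵐ x ∂ν, ev P x ≠ 0 := by
      rw [ae_iff]; simpa using p1
    have hq : ∀ᵐ x ∂ν, ev Q x ≠ 0 := by
      rw [ae_iff]; simpa using q1
    filter_upwards [hp, hq] with x hx1 hx2
    rw [ev_mul, abs_mul, Real.log_mul (abs_ne_zero.2 hx1) (abs_ne_zero.2 hx2)]
  refine ⟨?_, ?_, ?_⟩
  · have hsub : {x | ev (P * Q) x = 0} ⊆ {x | ev P x = 0} ∪ {x | ev Q x = 0} := by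
      intro x hx
      simp only [Set.mem_ofPred_eq, ev_mul, mul_eq_zero] at hx
      exact hx
    exact measure_mono_null hsub (measure_union_null p1 q1)
  · exact (p2.add q2).congr hae
  · rw [← integral_congr_ae hae, integral_add p2 q2]
    exact add_nonneg p3 q3

theorem logNonneg_neg {ν : Measure ℝ} {Q : ℤ[X]} (hQ : LogNonneg ν (-Q)) : LogNonneg ν Q := by
  obtain ⟨q1, q2, q3⟩ := hQ
  simp only [ev_neg, neg_eq_zero, abs_neg] at q1 q2 q3
  exact ⟨q1, q2, q3⟩

theorem logNonneg_C {ν : Measure ℝ} [IsProbabilityMeasure ν] {c : ℤ} (hc : c ≠ 0) :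
    LogNonneg ν (C c) := by
  have h1 : (1 : ℝ) ≤ |(c : ℝ)| := by exact_mod_cast Int.one_le_abs hc
  have hc' : (c : ℝ) ≠ 0 := by exact_mod_cast hc
  refine ⟨?_, ?_, ?_⟩
  · have h : {x : ℝ | ev (C c) x = 0} = ∅ := by
      ext x
      simp only [ev_C, Set.mem_ofPred_eq, Set.mem_empty_iff_false, iff_false]
      exact hc'
    rw [h]
    exact measure_empty
  · simp only [ev_C]
    exact integrable_const _
  · simp only [ev_C]
    rw [integral_const]
    simp only [probReal_univ, one_smul]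
    exact Real.log_nonneg h1

theorem logNonneg_irr {ν : Measure ℝ} [IsProbabilityMeasure ν]
    (h : ∀ Q : ℤ[X], Adm Q → LogNonneg ν Q) {Q : ℤ[X]} (hQ : Irreducible Q) :
    LogNonneg ν Q := by
  rcases Nat.eq_zero_or_pos Q.natDegree with h0 | h0
  · have hC := Polynomial.eq_C_of_natDegree_eq_zero h0
    have hne : Q.coeff 0 ≠ 0 := by
      intro h1
      rw [h1] at hC
      exact hQ.ne_zero (by simpa using hC)
    rw [hC]
    exact logNonneg_C hne
  · rcases lt_trichotomy Q.leadingCoeff 0 with h1 | h1 | h1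
    · apply logNonneg_neg
      apply h
      refine ⟨?_, ?_, ?_⟩
      · exact (Associated.irreducible_iff (Associated.neg_left (Associated.refl Q))).2 hQ
      · rwa [Polynomial.natDegree_neg]
      · rw [Polynomial.leadingCoeff_neg]
        omega
    · exact absurd (Polynomial.leadingCoeff_eq_zero.1 h1) hQ.ne_zero
    · exact h Q ⟨hQ, h0, h1⟩

end FACTaux

open FACTaux in
theorem pFACT : FACT := by
  intro B ν hOn h Q hQ
  have := hOn.1
  revert hQ
  induction Q using WfDvdMonoid.induction_on_irreducible with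
  | zero => intro h0; exact absurd rfl h0
  | unit u hu =>
    intro _
    obtain ⟨r, hr, hr2⟩ := Polynomial.isUnit_iff.1 hu
    rw [← hr2]
    exact logNonneg_C hr.ne_zero
  | mul a i ha hi ih =>
    intro _
    exact logNonneg_mul (logNonneg_irr h hi) (ih ha)

end Pool.Agent.W401.SSS
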