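import Pool.Agent.W401.SSS.Stm

open MeasureTheory Polynomial

namespace Pool.Agent.W401.SSS

namespace GROWaux

theorem log_ev_le {Q : ℤ[X]} (hQ : Adm Q) {x : ℝ} (hx : 0 ≤ x) (h0 : ev Q x ≠ 0) :
    Real.log |ev Q x| ≤ wt Q + Q.natDegree * Real.log (1 + x) := by
  rw [hQ.log_abs_ev h0, wt_eq, ← rsum_const Q (Real.log (1 + x))]
  have h1 : rsum Q (fun α => Real.log ‖(x : ℂ) - α‖) ≤
      rsum Q (fun α => Real.log (1 + ‖α‖) + Real.log (1 + x)) := by
    apply rsum_le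
    intro α hα
    have hne : (x : ℂ) - α ≠ 0 := by
      intro h
      rw [sub_eq_zero] at h
      exact h0 ((ev_eq_zero_iff hQ.ne_zero x).2 (h ▸ hα))
    have hpos : 0 < ‖(x : ℂ) - α‖ := norm_pos_iff.2 hne
    have ha : 0 ≤ ‖α‖ := norm_nonneg α
    rw [← Real.log_mul (by linarith) (by linarith)]
    apply Real.log_le_log hpos
    calc ‖(x : ℂ) - α‖ ≤ ‖(x : ℂ)‖ + ‖α‖ := norm_sub_le _ _
      _ = x + ‖α‖ := by rw [Complex.norm_real, Real.norm_of_nonneg hx]
      _ ≤ (1 + ‖α‖) * (1 + x) := by nlinarith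
  rw [rsum_add] at h1
  have h2 : (0 : ℝ) ≤ Q.natDegree := Nat.cast_nonneg _
  linarith

theorem log_bound {x : ℝ} (hx : 1000 ≤ x) : 70 * (1 + Real.log (1 + x)) ≤ x - 7 := by
  have h1 : Real.log (1001 : ℝ) ≤ 7 := by
    rw [Real.log_le_iff_le_exp (by norm_num)]
    have h2 : Real.exp 7 = Real.exp 1 ^ 7 := by
      rw [← Real.exp_nat_mul]; norm_num
    rw [h2]
    have h3 := Real.exp_one_gt_d9
    calc (1001 : ℝ) ≤ 2.7182818283 ^ 7 := by norm_num
      _ ≤ Real.exp 1 ^ 7 := by gcongr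
  have h4 : Real.log (1 + x) = Real.log 1001 + Real.log ((1 + x) / 1001) := by
    rw [← Real.log_mul (by norm_num) (by positivity)]
    congr 1
    field_simp
  have h5 : Real.log ((1 + x) / 1001) ≤ (1 + x) / 1001 - 1 :=
    Real.log_le_sub_one_of_pos (by positivity)
  rw [h4]
  linarith

end GROWaux

open GROWaux in
theorem pGROW : CB → GROW := by
  intro hCB lam η B F a hB hlam hη hC x hx hroot
  have h70 := hCB lam η B F a hB hlam hη hC
  have hlog : 0 ≤ Real.log (1 + x) := Real.log_nonneg (by linarith)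
  have h1 : pot F a x ≤ ∑ Q ∈ F, (a Q * wt Q) * (1 + Real.log (1 + x)) := by
    unfold pot
    apply Finset.sum_le_sum
    intro Q hQ
    have hA := hC.adm Q hQ
    have h2 := log_ev_le hA (by linarith : (0 : ℝ) ≤ x) (hroot Q hQ)
    have h3 := hC.pos Q hQ
    have h4 := hA.deg_le_wt
    calc a Q * Real.log |ev Q x| ≤ a Q * (wt Q + Q.natDegree * Real.log (1 + x)) := by gcongr
      _ ≤ a Q * (wt Q + wt Q * Real.log (1 + x)) := by gcongr
      _ = (a Q * wt Q) * (1 + Real.log (1 + x)) := by ring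
  rw [← Finset.sum_mul] at h1
  have h5 := log_bound hx
  have h6 : (∑ Q ∈ F, a Q * wt Q) * (1 + Real.log (1 + x)) ≤ 70 * (1 + Real.log (1 + x)) := by
    gcongr
  linarith

end Pool.Agent.W401.SSS
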