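import Pool.Agent.W401.SSS.Stm

/-!
# SSS-HANK: lower bound for the Hankel determinants
-/

open MeasureTheory Polynomial

namespace Pool.Agent.W401.SSS

namespace HANKaux

theorem dvd_of_eq (L N : ℤ) (P R : ℤ[X]) (hR : R.IsPrimitive)
    (h : (L : ℤ[X]) * P = (N : ℤ[X]) * R) : L ∣ N := by
  have h1 : C L ∣ C N * R := ⟨P, by
    have e1 : (C L : ℤ[X]) = (L : ℤ[X]) := by simp
    have e2 : (C N : ℤ[X]) = (N : ℤ[X]) := by simp
    rw [e1, e2, h]⟩
  have h2 := (dvd_content_iff_C_dvd).2 h1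
  rw [content_C_mul, hR.content_eq_one, mul_one] at h2
  exact (dvd_normalize_iff).1 h2

theorem prod_nonneg (s : Multiset ℂ) (g : ℂ → ℝ) (hg : ∀ z, 0 ≤ g z) : 0 ≤ (s.map g).prod := by
  induction s using Multiset.induction_on with
  | empty => simp
  | cons a s ih =>
    simp only [Multiset.map_cons, Multiset.prod_cons]
    exact mul_nonneg (hg a) ih

end HANKaux

open HANKaux

theorem pHANK : HANKA → HANKB → HANKC → HANKP → HANK := by
  intro hA hB hC hP n l hl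
  obtain ⟨q, Q, hd⟩ := hA n l hl
  obtain ⟨N, hN, hres⟩ := hB n l q Q hd
  have hQ : Q ≠ 0 := hd.prim.ne_zero
  refine ⟨q, Q, hd.one_le, hd.two_le, hQ, hd.deg, ?_⟩
  intro R hR hdeg
  set D := n + 1 - 2 * q with hD
  have hlc : Q.leadingCoeff ≠ 0 := by simpa using hQ
  -- divisibility
  have hdvd : Q.leadingCoeff ^ D ∣ N := by
    rcases Nat.eq_zero_or_pos D with h0 | h0
    · rw [h0]; simp
    · have h1 := hres ℤ[X] (X ^ D + C (X : ℤ[X])) (monic_X_pow_add_C _ h0.ne')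
        (natDegree_X_pow_add_C)
      have h2 := hP q D Q hd.prim hd.deg
      refine dvd_of_eq (Q.leadingCoeff ^ D) N
        (hmat n q l ((X : ℤ[X][X]) ^ D + C (X : ℤ[X]))).det _ h2 ?_
      rw [← h1, Int.cast_pow]
  obtain ⟨k, hk⟩ := hdvd
  have hk0 : k ≠ 0 := by
    rintro rfl
    exact hN (by rw [hk]; simp)
  have hk1 : (1 : ℝ) ≤ |(k : ℝ)| := by
    have := Int.one_le_abs hk0
    exact_mod_cast this
  have h1 := hres ℝ R hR hdeg
  have h2 := hC q D Q R hQ hd.deg hR hdeg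
  have h3 := congrArg abs h1
  rw [abs_mul, abs_mul, h2, abs_pow] at h3
  have h4 : (0 : ℝ) < |(Q.leadingCoeff : ℝ)| ^ D := by
    have : (Q.leadingCoeff : ℝ) ≠ 0 := by exact_mod_cast hlc
    positivity
  have hNk : |(N : ℝ)| = |(Q.leadingCoeff : ℝ)| ^ D * |(k : ℝ)| := by
    rw [hk]; push_cast; rw [abs_mul, abs_pow]
  have hprod : 0 ≤ ((rts Q).map (fun α => ‖aeval α R‖)).prod :=
    prod_nonneg _ _ fun z => norm_nonneg _
  set Pd := ((rts Q).map (fun α => ‖aeval α R‖)).prod with hPd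
  have h5 : |(hmat n q l R).det| = |(N : ℝ)| * Pd := by
    have h6 : |(Q.leadingCoeff : ℝ)| ^ D * |(hmat n q l R).det| =
        |(Q.leadingCoeff : ℝ)| ^ D * (|(N : ℝ)| * Pd) := by
      rw [h3]; ring
    exact mul_left_cancel₀ h4.ne' h6
  rw [h5, hNk]
  have h7 : |(Q.leadingCoeff : ℝ)| ^ D ≤ |(Q.leadingCoeff : ℝ)| ^ D * |(k : ℝ)| :=
    le_mul_of_one_le_right h4.le hk1
  exact mul_le_mul_of_nonneg_right h7 hprod

end Pool.Agent.W401.SSS
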