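import Pool.Agent.W401.SSS.Stm

/-!
# Existence of a minimal recurrence
-/

open Polynomial

namespace Pool.Agent.W401.SSS

namespace HANKAaux

/-- A recurrence of order `q`. -/
def Rc (n : ℕ) (l : ℕ → ℤ) (q : ℕ) : Prop :=
  ∃ C : ℕ → ℚ, (∃ i ≤ q, C i ≠ 0) ∧
    ∀ j, j + q + 1 ≤ n → ∑ i ∈ Finset.range (q + 1), C i * (l (i + j) : ℚ) = 0

theorem exists_rc (n : ℕ) (l : ℕ → ℤ) (q : ℕ) (hq : n ≤ 2 * q) : Rc n l q := by
  let A : Matrix (Fin (n - q)) (Fin (q + 1)) ℚ :=
    Matrix.of fun j i => (l ((i : ℕ) + (j : ℕ)) : ℚ)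
  have hker : LinearMap.ker A.mulVecLin ≠ ⊥ := by
    apply LinearMap.ker_ne_bot_of_finrank_lt
    simp only [Module.finrank_fintype_fun_eq_card, Fintype.card_fin]
    omega
  obtain ⟨v, hv, hv0⟩ := (Submodule.ne_bot_iff _).1 hker
  rw [LinearMap.mem_ker, Matrix.mulVecLin_apply] at hv
  obtain ⟨i0, hi0⟩ := Function.ne_iff.1 hv0
  refine ⟨fun i => if h : i < q + 1 then v ⟨i, h⟩ else 0, ⟨i0, by omega, ?_⟩, ?_⟩
  · simp only [i0.2, dif_pos]
    simpa using hi0
  · intro j hj
    have h := congrFun hv ⟨j, by omega⟩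
    simp only [Matrix.mulVec, dotProduct, A, Matrix.of_apply, Pi.zero_apply] at h
    rw [Finset.sum_range]
    rw [← h]
    apply Finset.sum_congr rfl
    intro i _
    simp only [i.2, dif_pos]
    rw [mul_comm]

end HANKAaux

open HANKAaux

theorem pHANKA : HANKA := by
  classical
  rintro n l ⟨k, hk, hlk⟩
  have hex : ∃ q, Rc n l q := ⟨(n + 1) / 2, exists_rc n l _ (by omega)⟩
  obtain ⟨q, hq, hmin⟩ : ∃ q, Rc n l q ∧ ∀ r < q, ¬ Rc n l r :=
    ⟨Nat.find hex, Nat.find_spec hex, fun r hr => Nat.find_min hex hr⟩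
  have hq2 : 2 * q ≤ n + 1 := by
    by_contra hc
    exact hmin (q - 1) (by omega) (exists_rc n l _ (by omega))
  have hq1 : 1 ≤ q := by
    by_contra hc
    have hq0 : q = 0 := by omega
    subst hq0
    obtain ⟨C, ⟨i, hi, hCi⟩, hC⟩ := hq
    have hi0 : i = 0 := by omega
    subst hi0
    have := hC k (by omega)
    rw [Finset.sum_range_one] at this
    rcases mul_eq_zero.1 this with h | h
    · exact hCi h
    · apply hlk
      have : ((l (0 + k) : ℤ) : ℚ) = 0 := h
      rw [zero_add] at this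
      exact_mod_cast this
  obtain ⟨C, ⟨i0, hi0, hCi0⟩, hC⟩ := hq
  -- the polynomial
  let p : ℚ[X] := ∑ i ∈ Finset.range (q + 1), monomial i (C i)
  have hpc : ∀ i, p.coeff i = if i < q + 1 then C i else 0 := by
    intro i
    simp only [p, finsetSum_coeff, coeff_monomial]
    rw [Finset.sum_ite_eq' (Finset.range (q + 1)) i (fun j => C j)]
    simp only [Finset.mem_range]
  obtain ⟨b, hbm, hb⟩ := IsLocalization.integerNormalization_spec (nonZeroDivisors ℤ) p
  set Q0 := IsLocalization.integerNormalization (nonZeroDivisors ℤ) p with hQ0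
  have hb0 : ((b : ℤ) : ℚ) ≠ 0 := by
    have := nonZeroDivisors.ne_zero hbm
    exact_mod_cast this
  have hQc : ∀ i, ((Q0.coeff i : ℤ) : ℚ) = (b : ℤ) * (if i < q + 1 then C i else 0) := by
    intro i
    have := congrArg (fun R : ℚ[X] => R.coeff i) hb
    simp only [coeff_map, coeff_smul] at this
    rw [hpc] at this
    simpa [zsmul_eq_mul] using this
  have hQ0ne : Q0 ≠ 0 := by
    intro h
    have := hQc i0
    rw [h, if_pos (by omega)] at this
    simp at this
    rcases this with h1 | h1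
    · exact hb0 (by exact_mod_cast h1)
    · exact hCi0 h1
  have hcont : Q0.content ≠ 0 := by
    intro h; exact hQ0ne (content_eq_zero_iff.1 h)
  have hprim : ∀ i, ((Q0.content : ℤ) : ℚ) * (Q0.primPart.coeff i : ℚ)
      = (b : ℤ) * (if i < q + 1 then C i else 0) := by
    intro i
    rw [← hQc i]
    have := congrArg (fun R : ℤ[X] => R.coeff i) Q0.eq_C_content_mul_primPart
    simp only [coeff_C_mul] at this
    rw [this]; push_cast; ring
  have hcont' : ((Q0.content : ℤ) : ℚ) ≠ 0 := by exact_mod_cast hcont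
  refine ⟨q, Q0.primPart, hq1, hq2, Q0.isPrimitive_primPart, ?_, ?_, ?_⟩
  · rw [natDegree_primPart]
    rw [natDegree_le_iff_coeff_eq_zero]
    intro i hi
    have := hQc i
    rw [if_neg (by omega), mul_zero] at this
    exact_mod_cast this
  · intro j hj
    have h1 := hC j hj
    have h2 : ((Q0.content : ℤ) : ℚ) *
        ((∑ i ∈ Finset.range (q + 1), Q0.primPart.coeff i * l (i + j) : ℤ) : ℚ) = 0 := by
      push_cast
      rw [Finset.mul_sum]
      have : ∀ i ∈ Finset.range (q + 1), ((Q0.content : ℤ) : ℚ) *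
          ((Q0.primPart.coeff i : ℚ) * (l (i + j) : ℚ)) = (b : ℤ) * (C i * (l (i + j) : ℚ)) := by
        intro i hi
        rw [← mul_assoc, hprim i, if_pos (Finset.mem_range.1 hi)]; ring
      rw [Finset.sum_congr rfl this, ← Finset.mul_sum, h1, mul_zero]
    have h3 := (mul_eq_zero.1 h2).resolve_left hcont'
    exact_mod_cast h3
  · intro C' hC' i hi
    by_contra hne
    apply hmin (q - 1) (by omega)
    refine ⟨C', ⟨i, by omega, hne⟩, fun j hj => ?_⟩
    have e : q - 1 + 1 = q := by omega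
    rw [e]
    exact hC' j (by omega)

end Pool.Agent.W401.SSS
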