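import Pool.Agent.W401.SSS.Stm

/-!
# Hankel matrices and resultants
-/

open Polynomial

namespace Pool.Agent.W401.SSS

namespace HANKBaux

section
variable {A : Type} [CommRing A]

/-- The integer matrix: `D` coordinate rows and `q` Hankel rows. -/
def Nm (D q q' : ℕ) (l : ℕ → ℤ) : Matrix (Fin (D + q)) (Fin (D + q)) ℤ :=
  Matrix.of fun i k => i.addCases (fun b : Fin D => if (k : ℕ) = q' + b then 1 else 0)
    (fun i : Fin q => l ((i : ℕ) + k))

theorem syl_left (R Q : A[X]) (D q : ℕ) (hQ : Q.natDegree ≤ q) (k : Fin (D + q)) (a : Fin D) :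
    sylvester R Q D q k (Fin.castAdd q a) = (X ^ (a : ℕ) * Q).coeff k := by
  rw [coeff_X_pow_mul']
  simp only [sylvester, Matrix.of_apply, Fin.addCases_left, Set.mem_Icc]
  by_cases h1 : (a : ℕ) ≤ k
  · by_cases h2 : (k : ℕ) ≤ a + q
    · rw [if_pos ⟨h1, h2⟩, if_pos h1]
    · rw [if_neg (fun h => h2 h.2), if_pos h1]
      exact (coeff_eq_zero_of_natDegree_lt (by omega)).symm
  · rw [if_neg (fun h => h1 h.1), if_neg h1]

theorem syl_right (R Q : A[X]) (D q : ℕ) (hR : R.natDegree ≤ D) (k : Fin (D + q)) (a : Fin q) :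
    sylvester R Q D q k (Fin.natAdd D a) = (X ^ (a : ℕ) * R).coeff k := by
  rw [coeff_X_pow_mul']
  simp only [sylvester, Matrix.of_apply, Fin.addCases_right, Set.mem_Icc]
  by_cases h1 : (a : ℕ) ≤ k
  · by_cases h2 : (k : ℕ) ≤ a + D
    · rw [if_pos ⟨h1, h2⟩, if_pos h1]
    · rw [if_neg (fun h => h2 h.2), if_pos h1]
      exact (coeff_eq_zero_of_natDegree_lt (by omega)).symm
  · rw [if_neg (fun h => h1 h.1), if_neg h1]

theorem sum_ll (P : A[X]) (m c : ℕ) (hc : c < m) :
    ∑ k : Fin m, (((if (k : ℕ) = c then 1 else 0 : ℤ)) : A) * P.coeff k = P.coeff c := by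
  rw [Fin.sum_univ_eq_sum_range (fun k => (((if k = c then 1 else 0 : ℤ)) : A) * P.coeff k) m,
    Finset.sum_eq_single_of_mem c (Finset.mem_range.2 hc)]
  · simp
  · intro b _ hb
    simp [hb]

theorem sum_rl (l : ℕ → ℤ) (P : A[X]) (D q i a : ℕ) (hP : P.natDegree ≤ q) (ha : a < D)
    (h0 : ∑ m ∈ Finset.range (q + 1), P.coeff m * (l (m + (i + a)) : A) = 0) :
    ∑ k : Fin (D + q), (l (i + k) : A) * (X ^ a * P).coeff k = 0 := by
  have e0 : ∑ k : Fin (D + q), (l (i + k) : A) * (X ^ a * P).coeff k =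
      ∑ k ∈ Finset.range (D + q), (l (i + k) : A) * (X ^ a * P).coeff k :=
    Fin.sum_univ_eq_sum_range (fun k : ℕ => (l (i + k) : A) * (X ^ a * P : A[X]).coeff k) (D + q)
  rw [e0]
  obtain ⟨r, hr⟩ : ∃ r, D + q = a + ((q + 1) + r) := ⟨D - 1 - a, by omega⟩
  rw [hr, Finset.sum_range_add, Finset.sum_range_add]
  have e1 : ∑ x ∈ Finset.range a, (l (i + x) : A) * (X ^ a * P).coeff x = 0 := by
    refine Finset.sum_eq_zero fun x hx => ?_
    rw [coeff_X_pow_mul', if_neg (by have := Finset.mem_range.1 hx; omega), mul_zero]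
  have e3 : ∑ x ∈ Finset.range r, (l (i + (a + (q + 1 + x))) : A) *
      (X ^ a * P).coeff (a + (q + 1 + x)) = 0 := by
    refine Finset.sum_eq_zero fun x _ => ?_
    rw [coeff_X_pow_mul', if_pos (by omega), coeff_eq_zero_of_natDegree_lt (by omega), mul_zero]
  rw [e1, e3, add_zero, zero_add, ← h0]
  refine Finset.sum_congr rfl fun x _ => ?_
  rw [coeff_X_pow_mul', if_pos (by omega), mul_comm, show a + x - a = x by omega,
    show i + (a + x) = x + (i + a) by omega]

theorem sum_rr (l : ℕ → ℤ) (R : A[X]) (n D q : ℕ) (hn : D + 2 * q = n + 1)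
    (hR : R.natDegree ≤ D) (i j : Fin q) :
    ∑ k : Fin (D + q), (l ((i : ℕ) + k) : A) * (X ^ (j : ℕ) * R).coeff k = hmat n q l R i j := by
  have e0 : ∑ k : Fin (D + q), (l ((i : ℕ) + k) : A) * (X ^ (j : ℕ) * R).coeff k =
      ∑ k ∈ Finset.range (D + q), (l ((i : ℕ) + k) : A) * (X ^ (j : ℕ) * R).coeff k :=
    Fin.sum_univ_eq_sum_range
      (fun k : ℕ => (l ((i : ℕ) + k) : A) * (X ^ (j : ℕ) * R : A[X]).coeff k) (D + q)
  rw [e0]
  simp only [hmat, Matrix.of_apply]
  obtain ⟨r, hr⟩ : ∃ r, n = i + ((D + q) + r) := ⟨q - 1 - i, by have := i.2; omega⟩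
  obtain ⟨m, hm⟩ : ∃ m, m = D + q := ⟨_, rfl⟩
  rw [← hm] at hr ⊢
  rw [hr, Finset.sum_range_add, Finset.sum_range_add]
  have e1 : ∑ x ∈ Finset.range (i : ℕ), (l x : A) * (X ^ ((i : ℕ) + (j : ℕ)) * R).coeff x = 0 := by
    refine Finset.sum_eq_zero fun x hx => ?_
    rw [coeff_X_pow_mul', if_neg (by have := Finset.mem_range.1 hx; omega), mul_zero]
  have e3 : ∑ x ∈ Finset.range r, (l ((i : ℕ) + (m + x)) : A) *
      (X ^ ((i : ℕ) + (j : ℕ)) * R).coeff ((i : ℕ) + (m + x)) = 0 := by
    refine Finset.sum_eq_zero fun x _ => ?_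
    have := j.2
    rw [coeff_X_pow_mul', if_pos (by omega), coeff_eq_zero_of_natDegree_lt (by omega), mul_zero]
  rw [e1, e3, add_zero, zero_add]
  refine Finset.sum_congr rfl fun x _ => ?_
  rw [coeff_X_pow_mul', coeff_X_pow_mul']
  by_cases h : (j : ℕ) ≤ x
  · rw [if_pos h, if_pos (by omega), show (i : ℕ) + x - (i + j) = x - j by omega]
  · rw [if_neg h, if_neg (by omega)]

/-- The triangular block. -/
noncomputable def J (D q' : ℕ) (P : A[X]) : Matrix (Fin D) (Fin D) A :=
  Matrix.of fun b a => (X ^ (a : ℕ) * P).coeff (q' + b)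

theorem det_J (D q' : ℕ) (P : A[X]) (hP : P.natDegree ≤ q') : (J D q' P).det = P.coeff q' ^ D := by
  rw [Matrix.det_of_isUpperTriangular]
  · have : ∀ a : Fin D, J D q' P a a = P.coeff q' := by
      intro a
      simp only [J, Matrix.of_apply]
      rw [coeff_X_pow_mul', if_pos (by omega), show q' + (a : ℕ) - a = q' by omega]
    simp [this]
  · intro b a hab
    have hab : (a : ℕ) < b := hab
    simp only [J, Matrix.of_apply]
    rw [coeff_X_pow_mul', if_pos (by omega), coeff_eq_zero_of_natDegree_lt (by omega)]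

theorem block (n D q : ℕ) (l : ℕ → ℤ) (Q : ℤ[X]) (h : HData n l q Q) (hn : D + 2 * q = n + 1)
    (R : A[X]) (hR : R.natDegree ≤ D) :
    (((Nm D q Q.natDegree l).map (Int.cast : ℤ → A)) *
      sylvester R (Q.map (Int.castRingHom A)) D q).submatrix finSumFinEquiv finSumFinEquiv =
    Matrix.fromBlocks (J D Q.natDegree (Q.map (Int.castRingHom A)))
      (Matrix.of fun b j => (X ^ (j : ℕ) * R).coeff (Q.natDegree + b)) 0 (hmat n q l R) := by
  have hq := h.deg
  have hQ : (Q.map (Int.castRingHom A)).natDegree ≤ q := (natDegree_map_le).trans hq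
  ext i j
  rcases i with i | i <;> rcases j with j | j
  · simp only [Matrix.submatrix_apply, finSumFinEquiv_apply_left, Matrix.mul_apply,
      Matrix.fromBlocks_apply₁₁, Matrix.map_apply, Nm, Matrix.of_apply, Fin.addCases_left,
      syl_left _ _ _ _ hQ]
    rw [sum_ll _ _ _ (by have := i.2; omega)]
    simp only [J, Matrix.of_apply]
  · simp only [Matrix.submatrix_apply, finSumFinEquiv_apply_left, finSumFinEquiv_apply_right,
      Matrix.mul_apply,
      Matrix.fromBlocks_apply₁₂, Matrix.map_apply, Nm, Matrix.of_apply, Fin.addCases_left,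
      syl_right _ _ _ _ hR]
    rw [sum_ll _ _ _ (by have := i.2; omega)]
  · simp only [Matrix.submatrix_apply, finSumFinEquiv_apply_left, finSumFinEquiv_apply_right,
      Matrix.mul_apply,
      Matrix.fromBlocks_apply₂₁, Matrix.map_apply, Nm, Matrix.of_apply, Fin.addCases_right,
      syl_left _ _ _ _ hQ, Matrix.zero_apply]
    refine sum_rl l _ D q i j hQ j.2 ?_
    have h1 := h.recur (i + j) (by have := i.2; have := j.2; omega)
    have h2 := congrArg (Int.cast : ℤ → A) h1
    push_cast at h2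
    rw [← h2]
    refine Finset.sum_congr rfl fun m _ => ?_
    rw [coeff_map]
    simp
  · simp only [Matrix.submatrix_apply, finSumFinEquiv_apply_right,
      Matrix.mul_apply,
      Matrix.fromBlocks_apply₂₂, Matrix.map_apply, Nm, Matrix.of_apply, Fin.addCases_right,
      syl_right _ _ _ _ hR]
    exact sum_rr l R n D q hn hR i j

end

theorem det_Nm_ne (n D q : ℕ) (l : ℕ → ℤ) (Q : ℤ[X]) (h : HData n l q Q)
    (hn : D + 2 * q = n + 1) : (Nm D q Q.natDegree l).det ≠ 0 := by
  intro h0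
  obtain ⟨v, hv, hv0⟩ := Matrix.exists_vecMul_eq_zero_iff.2 h0
  have hq := h.deg
  have hQ0 : Q ≠ 0 := h.prim.ne_zero
  -- the coordinates
  have hk : ∀ k : Fin (D + q), (∑ b : Fin D, v (Fin.castAdd q b) *
      (if (k : ℕ) = Q.natDegree + b then 1 else 0)) +
      ∑ i : Fin q, v (Fin.natAdd D i) * l ((i : ℕ) + k) = 0 := by
    intro k
    have := congrFun hv0 k
    rw [Matrix.vecMul, dotProduct, Fin.sum_univ_add] at this
    simpa only [Nm, Matrix.of_apply, Fin.addCases_left, Fin.addCases_right,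
      Pi.zero_apply] using this
  have hE : (fun b : Fin D => v (Fin.castAdd q b)) = 0 := by
    refine Matrix.eq_zero_of_vecMul_eq_zero (M := J D Q.natDegree Q) ?_ ?_
    · rw [det_J _ _ _ le_rfl]
      exact pow_ne_zero _ (leadingCoeff_ne_zero.2 hQ0)
    · ext a
      have h1 : ∑ k : Fin (D + q), ((∑ b : Fin D, v (Fin.castAdd q b) *
        (if (k : ℕ) = Q.natDegree + b then 1 else 0)) +
        ∑ i : Fin q, v (Fin.natAdd D i) * l ((i : ℕ) + k)) * (X ^ (a : ℕ) * Q).coeff k = 0 :=
        Finset.sum_eq_zero fun k _ => by rw [hk k, zero_mul]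
      simp only [add_mul, Finset.sum_add_distrib, Finset.sum_mul] at h1
      rw [Finset.sum_comm, Finset.sum_comm (s := (Finset.univ : Finset (Fin (D + q))))
        (t := (Finset.univ : Finset (Fin q)))] at h1
      have h2 : ∑ i : Fin q, ∑ k : Fin (D + q), v (Fin.natAdd D i) * l ((i : ℕ) + k) *
          (X ^ (a : ℕ) * Q).coeff k = 0 := by
        refine Finset.sum_eq_zero fun i _ => ?_
        have h3 := sum_rl (A := ℤ) l Q D q i a hq a.2 (by
          have h1 := h.recur (i + a) (by have := i.2; have := a.2; omega)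
          simpa using h1)
        simp only [mul_assoc, ← Finset.mul_sum]
        simp only [Int.cast_id] at h3
        rw [h3, mul_zero]
      rw [h2, add_zero] at h1
      rw [Pi.zero_apply, ← h1, Matrix.vecMul, dotProduct]
      refine Finset.sum_congr rfl fun b _ => ?_
      have h4 := sum_ll (A := ℤ) (X ^ (a : ℕ) * Q) (D + q) (Q.natDegree + b)
        (by have := b.2; omega)
      simp only [mul_assoc, ← Finset.mul_sum]
      simp only [Int.cast_id] at h4
      rw [h4]
      simp only [J, Matrix.of_apply]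
  have hC : ∀ i : Fin q, v (Fin.natAdd D i) = 0 := by
    set C : ℕ → ℚ := fun i => if hi : i < q then (v (Fin.natAdd D ⟨i, hi⟩) : ℚ) else 0 with hCdef
    have hCi : ∀ i : Fin q, C i = (v (Fin.natAdd D i) : ℚ) := fun i => dif_pos i.2
    have h5 := h.nondeg C (by
      intro j hj
      have h6 := hk ⟨j, by omega⟩
      have h7 : ∀ b : Fin D, v (Fin.castAdd q b) = 0 := fun b => congrFun hE b
      simp only [h7, zero_mul, Finset.sum_const_zero, zero_add] at h6
      have h8 := congrArg (Int.cast : ℤ → ℚ) h6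
      push_cast at h8
      rw [← Fin.sum_univ_eq_sum_range (fun i => C i * (l (i + j) : ℚ)) q, ← h8]
      refine Finset.sum_congr rfl fun i _ => ?_
      rw [hCi i])
    intro i
    have h9 := h5 i i.2
    rw [hCi i] at h9
    exact_mod_cast h9
  refine hv ?_
  ext k
  refine Fin.addCases (fun b => ?_) (fun i => ?_) k
  · exact congrFun hE b
  · exact hC i

end HANKBaux

open HANKBaux in
theorem pHANKB : HANKB := by
  intro n l q Q h
  have h2 := h.two_le
  obtain ⟨D, hD⟩ : ∃ D, n + 1 - 2 * q = D := ⟨_, rfl⟩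
  have hn : D + 2 * q = n + 1 := by omega
  refine ⟨(Nm D q Q.natDegree l).det, det_Nm_ne n D q l Q h hn, ?_⟩
  intro A _ R _ hR
  rw [hD] at hR ⊢
  have h3 := congrArg Matrix.det (block n D q l Q h hn R hR.le)
  rw [Matrix.det_submatrix_equiv_self, Matrix.det_mul, Matrix.det_fromBlocks_zero₂₁,
    det_J _ _ _ natDegree_map_le] at h3
  rw [show (Q.leadingCoeff : A) = (Q.map (Int.castRingHom A)).coeff Q.natDegree by
    rw [coeff_map, coeff_natDegree, eq_intCast], ← h3, resultant]
  congr 1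
  have := (Int.castRingHom A).map_det (Nm D q Q.natDegree l)
  exact this.symm

end Pool.Agent.W401.SSS
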