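import Pool.Agent.W401.SSS.Stm

set_option autoImplicit false

open MeasureTheory Polynomial

namespace Pool.Agent.W401.SSS

namespace HANKCaux

theorem norm_prod_map (s : Multiset ℂ) (g : ℂ → ℂ) :
    ‖(s.map g).prod‖ = (s.map (fun α => ‖g α‖)).prod := by
  induction s using Multiset.induction_on with
  | empty => simp
  | cons a s ih => simp [ih]

end HANKCaux

open HANKCaux in
theorem pHANKC : HANKC := by
  intro q D Q R hQ hdeg hR hD
  have hQd : (Q.map (Int.castRingHom ℂ)).natDegree = Q.natDegree :=
    Polynomial.natDegree_map_eq_of_injective (Int.castRingHom ℂ).injective_int Q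
  have hRd : (R.map Complex.ofRealHom).natDegree = D := by
    rw [Polynomial.natDegree_map, hD]
  have hmap : (Q.map (Int.castRingHom ℝ)).map Complex.ofRealHom = Q.map (Int.castRingHom ℂ) := by
    rw [Polynomial.map_map]
    congr 1
  have h1 : ((resultant R (Q.map (Int.castRingHom ℝ)) D q : ℝ) : ℂ) =
      resultant (R.map Complex.ofRealHom) (Q.map (Int.castRingHom ℂ)) D q := by
    rw [← hmap, resultant_map_map]
    rfl
  obtain ⟨k, hk⟩ := Nat.exists_eq_add_of_le hdeg
  have hlc : (R.map Complex.ofRealHom).coeff D = 1 := by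
    rw [Polynomial.coeff_map, ← hD, Polynomial.coeff_natDegree, hR.leadingCoeff]
    simp
  have h2 : resultant (R.map Complex.ofRealHom) (Q.map (Int.castRingHom ℂ)) D q =
      resultant (R.map Complex.ofRealHom) (Q.map (Int.castRingHom ℂ)) D Q.natDegree := by
    rw [hk, resultant_add_right_deg _ _ _ _ _ hQd.le, hlc, one_pow, one_mul]
  have h3 : resultant (Q.map (Int.castRingHom ℂ)) (R.map Complex.ofRealHom)
      Q.natDegree D = (Q.map (Int.castRingHom ℂ)).leadingCoeff ^ D *
        ((Q.map (Int.castRingHom ℂ)).roots.map (R.map Complex.ofRealHom).eval).prod := by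
    rw [← hQd]
    exact resultant_eq_prod_eval _ _ D hRd.le (IsAlgClosed.splits _)
  have h4 : |resultant R (Q.map (Int.castRingHom ℝ)) D q| =
      ‖((resultant R (Q.map (Int.castRingHom ℝ)) D q : ℝ) : ℂ)‖ := by
    rw [Complex.norm_real, Real.norm_eq_abs]
  rw [h4, h1, h2, resultant_comm, h3, norm_mul, norm_mul, norm_pow, norm_pow, norm_neg, norm_one,
    one_pow, one_mul, leadingCoeff_map', norm_prod_map]
  congr 1
  · simp
  · unfold rts
    congr 1
    apply Multiset.map_congr rfl
    intro α _
    rw [Polynomial.eval_map, Polynomial.aeval_def]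
    rfl

end Pool.Agent.W401.SSS
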