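import Pool.Agent.W401.SSS.Stm

/-!
# SSS-HANKP: primitivity of a resultant
-/

set_option autoImplicit false

open MeasureTheory Polynomial

namespace Pool.Agent.W401.SSS

namespace HANKPaux

theorem res_ne_zero {L : Type} [Field L] [IsAlgClosed L] (q D : ℕ) (P : L[X]) (hP : P ≠ 0)
    (hq : P.natDegree ≤ q) :
    resultant (X ^ D + C (X : L[X])) (P.map (C : L →+* L[X])) D q ≠ 0 := by
  have hCinj : Function.Injective (C : L →+* L[X]) := C_injective
  have hdeg : (P.map (C : L →+* L[X])).natDegree = P.natDegree :=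
    natDegree_map_eq_of_injective hCinj P
  obtain ⟨k, rfl⟩ := Nat.exists_eq_add_of_le hq
  have hfd : (X ^ D + C (X : L[X]) : L[X][X]).natDegree ≤ D := by
    refine (natDegree_add_le _ _).trans ?_
    rw [natDegree_X_pow, natDegree_C]
    simp
  rw [resultant_add_right_deg _ _ _ _ k (by rw [hdeg])]
  refine mul_ne_zero (pow_ne_zero _ ?_) ?_
  · rw [coeff_add, coeff_X_pow, if_pos rfl, coeff_C]
    split_ifs
    · intro h
      have h2 := congrArg (fun p : L[X] => p.coeff 1) h
      simp [coeff_one] at h2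
    · rw [add_zero]
      exact one_ne_zero
  · rw [resultant_comm]
    refine mul_ne_zero (pow_ne_zero _ (neg_ne_zero.2 one_ne_zero)) ?_
    have hs : (P.map (C : L →+* L[X])).Splits := (IsAlgClosed.splits P).map C
    have h1 := resultant_eq_prod_eval (P.map (C : L →+* L[X])) (X ^ D + C (X : L[X])) D hfd hs
    rw [hdeg] at h1
    rw [h1]
    refine mul_ne_zero (pow_ne_zero _ ?_) ?_
    · rw [Ne, leadingCoeff_eq_zero, Polynomial.map_eq_zero_iff hCinj]
      exact hP
    · refine Multiset.prod_ne_zero ?_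
      intro h0
      obtain ⟨ρ, hρ, hρ0⟩ := Multiset.mem_map.1 h0
      have hroots : P.roots.map (C : L →+* L[X]) = (P.map (C : L →+* L[X])).roots := by
        refine roots_map_of_injective_of_card_eq_natDegree hCinj ?_
        exact IsAlgClosed.card_roots_eq_natDegree
      rw [← hroots] at hρ
      obtain ⟨α, _, rfl⟩ := Multiset.mem_map.1 hρ
      rw [eval_add, eval_pow, eval_X, eval_C, ← C_pow] at hρ0
      have h2 : (C (α ^ D) + X : L[X]).coeff 1 = (0 : L[X]).coeff 1 := by rw [hρ0]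
      rw [coeff_add, coeff_C_of_ne_zero one_ne_zero, coeff_X_one, coeff_zero, zero_add] at h2
      exact one_ne_zero h2

end HANKPaux

open HANKPaux in
theorem pHANKP : HANKP := by
  intro q D Q hQ hq r hr
  by_contra hu
  obtain ⟨p, hp, hpr⟩ : ∃ p : ℕ, p.Prime ∧ (p : ℤ) ∣ r := by
    have h1 : r.natAbs ≠ 1 := fun h => hu (Int.isUnit_iff_natAbs_eq.2 h)
    exact ⟨r.natAbs.minFac, Nat.minFac_prime h1, Int.natCast_dvd.2 (Nat.minFac_dvd _)⟩
  have : Fact p.Prime := ⟨hp⟩
  let L := AlgebraicClosure (ZMod p)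
  let φ : ℤ →+* L := Int.castRingHom L
  have hφp : ∀ s : ℤ, (p : ℤ) ∣ s → φ s = 0 := by
    rintro s ⟨t, rfl⟩
    rw [map_mul]
    have : φ (p : ℤ) = 0 := by
      show ((p : ℤ) : L) = 0
      rw [Int.cast_natCast]
      exact CharP.cast_eq_zero L p
    rw [this, zero_mul]
  have hφz : ∀ s : ℤ, φ s = 0 → (p : ℤ) ∣ s := by
    intro s hs
    exact (CharP.intCast_eq_zero_iff L p s).1 hs
  have hQ' : Q.map φ ≠ 0 := by
    intro h0
    have h1 : C (p : ℤ) ∣ Q := by
      rw [C_dvd_iff_dvd_coeff]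
      intro i
      apply hφz
      rw [← coeff_map, h0, coeff_zero]
    have h2 := hQ _ h1
    rw [Int.isUnit_iff_natAbs_eq, Int.natAbs_natCast] at h2
    exact hp.one_lt.ne' h2
  refine res_ne_zero q D (Q.map φ) hQ' (natDegree_map_le.trans hq) ?_
  have h3 : ((Q.map φ).map (C : L →+* L[X])) = (Q.map (Int.castRingHom ℤ[X])).map (mapRingHom φ) := by
    rw [Polynomial.map_map, Polynomial.map_map]
    congr 1
    exact RingHom.ext_int _ _
  have h4 : (X ^ D + C (X : L[X]) : L[X][X]) = (X ^ D + C (X : ℤ[X]) : ℤ[X][X]).map (mapRingHom φ) := by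
    rw [Polynomial.map_add, Polynomial.map_pow, map_X, map_C, coe_mapRingHom, map_X]
  rw [h3, h4, resultant_map_map]
  obtain ⟨G, hG⟩ := hr
  rw [hG, map_mul, coe_mapRingHom, map_C, hφp r hpr, map_zero, zero_mul]

end Pool.Agent.W401.SSS
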