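import Pool.Agent.W401.SSS.Stm

set_option autoImplicit false
open MeasureTheory Matrix
open scoped MatrixOrder ComplexOrder ENNReal

namespace Pool.Agent.W401.SSS
namespace HERMaux

theorem exists_factor {n : ℕ} (G : Matrix (Fin n) (Fin n) ℝ) (hG : G.PosDef) :
    ∃ A : Matrix (Fin n) (Fin n) ℝ, G = Aᵀ * A := by
  have h := CStarAlgebra.nonneg_iff_eq_star_mul_self.mp hG.posSemidef.nonneg
  obtain ⟨B, hB⟩ := h
  refine ⟨B, ?_⟩
  rw [hB, Matrix.star_eq_conjTranspose, Matrix.conjTranspose_eq_transpose_of_trivial]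

/-- Minkowski linear forms. -/
theorem linear_forms {n : ℕ} (hn : 0 < n) (A : Matrix (Fin n) (Fin n) ℝ) (hA : A.det ≠ 0)
    (t : ℝ) (ht : 0 ≤ t) (hvol : |A.det| ≤ t ^ n) :
    ∃ c : Fin n → ℤ, c ≠ 0 ∧ ∀ i, |(A.mulVec (fun j => (c j : ℝ))) i| ≤ t := by
  classical
  have : Nonempty (Fin n) := ⟨⟨0, hn⟩⟩
  let b := Pi.basisFun ℝ (Fin n)
  let L : AddSubgroup (Fin n → ℝ) := (Submodule.span ℤ (Set.range b)).toAddSubgroup
  have hdet : LinearMap.det (Matrix.toLin' A) = A.det := by simp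
  have hdet0 : LinearMap.det (Matrix.toLin' A) ≠ 0 := by rw [hdet]; exact hA
  let e := (Matrix.toLin' A).equivOfDetNeZero hdet0
  let s : Set (Fin n → ℝ) := (Matrix.toLin' A) ⁻¹' (Set.pi Set.univ fun _ : Fin n => Set.Icc (-t) t)
  have hs_mem : ∀ x, x ∈ s ↔ ∀ i, |(A.mulVec x) i| ≤ t := by
    intro x
    simp only [s, Set.mem_preimage, Set.mem_pi, Set.mem_univ, forall_true_left, Set.mem_Icc,
      Matrix.toLin'_apply, abs_le]
  have h_symm : ∀ x ∈ s, -x ∈ s := by
    intro x hx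
    rw [hs_mem] at hx ⊢
    intro i
    rw [Matrix.mulVec_neg, Pi.neg_apply, abs_neg]
    exact hx i
  have h_conv : Convex ℝ s := by
    apply Convex.linear_preimage
    exact convex_pi (fun _ _ => convex_Icc _ _)
  have h_cpt : IsCompact s := by
    have h1 : IsCompact (Set.pi Set.univ fun _ : Fin n => Set.Icc (-t) t) :=
      isCompact_univ_pi (fun _ => isCompact_Icc)
    have h2 := (e.toContinuousLinearEquiv.toHomeomorph.isCompact_preimage).2 h1
    exact h2
  have hvs : volume s = ENNReal.ofReal |(A.det)⁻¹| * ENNReal.ofReal ((2 * t) ^ n) := by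
    have h1 := Measure.addHaar_preimage_linearMap (μ := (volume : Measure (Fin n → ℝ)))
      (f := Matrix.toLin' A) hdet0 (Set.pi Set.univ fun _ : Fin n => Set.Icc (-t) t)
    have h2 : volume (Set.pi Set.univ fun _ : Fin n => Set.Icc (-t) t)
        = ENNReal.ofReal ((2 * t) ^ n) := by
      rw [volume_pi_pi]
      simp only [Real.volume_Icc, sub_neg_eq_add, Finset.prod_const, Finset.card_univ,
        Fintype.card_fin]
      rw [ENNReal.ofReal_pow (by positivity), two_mul]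
    rw [h2, hdet] at h1
    exact h1
  have hF : volume (ZSpan.fundamentalDomain b) = 1 := by
    rw [ZSpan.fundamentalDomain_pi_basisFun, Real.volume_pi_Ico]
    simp
  have hmain : volume (ZSpan.fundamentalDomain b) * 2 ^ Module.finrank ℝ (Fin n → ℝ) ≤ volume s := by
    rw [hF, one_mul, hvs, Module.finrank_fin_fun, ← ENNReal.ofReal_mul (abs_nonneg _)]
    have h3 : (2 : ℝ≥0∞) ^ n = ENNReal.ofReal (2 ^ n) := by
      rw [ENNReal.ofReal_pow (by norm_num)]
      norm_num
    rw [h3]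
    apply ENNReal.ofReal_le_ofReal
    rw [abs_inv, mul_pow]
    have h4 : 0 < |A.det| := abs_pos.2 hA
    rw [← mul_assoc, mul_comm _ ((2 : ℝ) ^ n), mul_assoc]
    have h5 : 1 ≤ |A.det|⁻¹ * t ^ n := by
      rw [inv_mul_eq_div, one_le_div h4]
      exact hvol
    have h6 : (0 : ℝ) < 2 ^ n := by positivity
    nlinarith
  have : Countable L := inferInstanceAs (Countable (Submodule.span ℤ (Set.range b)))
  have : DiscreteTopology L := inferInstanceAs (DiscreteTopology (Submodule.span ℤ (Set.range b)))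
  obtain ⟨x, hx0, hxs⟩ := exists_ne_zero_mem_lattice_of_measure_mul_two_pow_le_measure
    (L := L) (ZSpan.isAddFundamentalDomain' b volume) h_symm h_conv h_cpt hmain
  have hx : ∀ i, ∃ c : ℤ, (c : ℝ) = (x : Fin n → ℝ) i := by
    intro i
    have := (b.mem_span_iff_repr_mem ℤ (x : Fin n → ℝ)).mp x.2 i
    simpa [b] using this
  choose c hc using hx
  refine ⟨c, ?_, ?_⟩
  · intro h0
    apply hx0
    apply Subtype.ext
    funext i
    rw [← hc i, h0]
    simp
  · have h7 : (fun j => (c j : ℝ)) = (x : Fin n → ℝ) := funext hc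
    rw [h7]
    exact (hs_mem _).1 hxs

end HERMaux

theorem pHERM : HERM := by
  intro n hn G hG
  obtain ⟨A, hA⟩ := HERMaux.exists_factor G hG
  have hdG : G.det = A.det ^ 2 := by rw [hA, Matrix.det_mul, Matrix.det_transpose, sq]
  have hGpos : 0 < G.det := hG.det_pos
  have hAd : A.det ≠ 0 := by
    intro h
    rw [hdG, h] at hGpos
    norm_num at hGpos
  have hnR : (0 : ℝ) < n := by exact_mod_cast hn
  set t : ℝ := |A.det| ^ ((1 : ℝ) / n) with ht
  have ht0 : 0 ≤ t := Real.rpow_nonneg (abs_nonneg _) _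
  have htn : t ^ n = |A.det| := by
    rw [ht, ← Real.rpow_natCast, ← Real.rpow_mul (abs_nonneg _)]
    rw [one_div, inv_mul_cancel₀ hnR.ne', Real.rpow_one]
  obtain ⟨c, hc0, hc⟩ := HERMaux.linear_forms hn A hAd t ht0 htn.ge
  refine ⟨c, hc0, ?_⟩
  set x : Fin n → ℝ := fun j => (c j : ℝ) with hx
  have h1 : ∑ i, ∑ j, (c i : ℝ) * G i j * (c j : ℝ) = ∑ k, (A.mulVec x k) ^ 2 := by
    have h2 : ∑ i, ∑ j, (c i : ℝ) * G i j * (c j : ℝ) = x ⬝ᵥ (G.mulVec x) := by
      simp only [dotProduct, Matrix.mulVec, hx]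
      apply Finset.sum_congr rfl
      intro i _
      rw [Finset.mul_sum]
      apply Finset.sum_congr rfl
      intro j _
      ring
    rw [h2, hA, ← Matrix.mulVec_mulVec, Matrix.dotProduct_mulVec, Matrix.vecMul_transpose]
    simp only [dotProduct, sq]
  rw [h1]
  have h3 : ∑ k, (A.mulVec x k) ^ 2 ≤ ∑ _k : Fin n, t ^ 2 := by
    apply Finset.sum_le_sum
    intro k _
    rw [← sq_abs]
    exact pow_le_pow_left₀ (abs_nonneg _) (hc k) 2
  have h4 : t ^ 2 = G.det ^ ((1 : ℝ) / n) := by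
    rw [ht, ← Real.rpow_natCast, ← Real.rpow_mul (abs_nonneg _), hdG, ← sq_abs,
      ← Real.rpow_natCast, ← Real.rpow_mul (abs_nonneg _)]
    congr 1
    ring
  calc ∑ k, (A.mulVec x k) ^ 2 ≤ ∑ _k : Fin n, t ^ 2 := h3
    _ = n * G.det ^ ((1 : ℝ) / n) := by
      rw [Finset.sum_const, Finset.card_univ, Fintype.card_fin, nsmul_eq_mul, h4]

end Pool.Agent.W401.SSS
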