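import Pool.Agent.W401.SSS.Stm

open MeasureTheory Polynomial

namespace Pool.Agent.W401.SSS

namespace INTEGaux

theorem meas_norm (α : ℂ) : Measurable (fun x : ℝ => ‖(x : ℂ) - α‖) := by
  have : Continuous (fun x : ℝ => ‖(x : ℂ) - α‖) := by fun_prop
  exact this.measurable

theorem norm_le {B : ℝ} {x : ℝ} (hx : x ∈ Set.Icc (0 : ℝ) B) (α : ℂ) :
    ‖(x : ℂ) - α‖ ≤ |B| + ‖α‖ := by
  calc ‖(x : ℂ) - α‖ ≤ ‖(x : ℂ)‖ + ‖α‖ := norm_sub_le _ _
    _ = x + ‖α‖ := by rw [Complex.norm_real, Real.norm_of_nonneg hx.1]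
    _ ≤ |B| + ‖α‖ := by have := le_abs_self B; linarith [hx.2]

theorem log_le {B : ℝ} {x : ℝ} (hx : x ∈ Set.Icc (0 : ℝ) B) (α : ℂ) :
    Real.log ‖(x : ℂ) - α‖ ≤ Real.log (1 + |B| + ‖α‖) := by
  rcases (norm_nonneg ((x : ℂ) - α)).eq_or_lt with h | h
  · rw [← h, Real.log_zero]
    apply Real.log_nonneg
    have h1 := abs_nonneg B
    have h2 := norm_nonneg α
    linarith
  · exact Real.log_le_log h (by have := norm_le hx α; linarith)

theorem cst_nonneg (B : ℝ) (α : ℂ) : 0 ≤ Real.log (1 + |B| + ‖α‖) := by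
  apply Real.log_nonneg
  have h1 := abs_nonneg B
  have h2 := norm_nonneg α
  linarith

theorem sum_le_sum' (B : ℝ) {x : ℝ} (hx : x ∈ Set.Icc (0 : ℝ) B) (s : Multiset ℂ) :
    (s.map (fun α => Real.log ‖(x : ℂ) - α‖)).sum ≤
      (s.map (fun α => Real.log (1 + |B| + ‖α‖))).sum :=
  Multiset.sum_map_le_sum_map _ _ fun α _ => log_le hx α

theorem sum_cst_nonneg (B : ℝ) (s : Multiset ℂ) :
    0 ≤ (s.map (fun α => Real.log (1 + |B| + ‖α‖))).sum := by
  apply Multiset.sum_nonneg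
  intro y hy
  obtain ⟨α, -, rfl⟩ := Multiset.mem_map.1 hy
  exact cst_nonneg B α

theorem int_multiset {μ : Measure ℝ} (f : ℂ → ℝ → ℝ) (s : Multiset ℂ)
    (h : ∀ α ∈ s, Integrable (f α) μ) : Integrable (fun x => (s.map (fun α => f α x)).sum) μ := by
  induction s using Multiset.induction_on with
  | empty => simp
  | cons a s ih =>
    simp only [Multiset.map_cons, Multiset.sum_cons]
    exact (h a (Multiset.mem_cons_self a s)).add
      (ih fun α hα => h α (Multiset.mem_cons_of_mem hα))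

theorem half_log_bound {d D r : ℝ} (hd : 0 ≤ d) (hD : d ≤ D) :
    ‖(1 / 2) * Real.log (1 + r ^ 2 / d ^ 2)‖ ≤
      (1 / 2) * Real.log (1 + D ^ 2 + r ^ 2) + |Real.log d| := by
  have h0 : 0 ≤ (1 / 2) * Real.log (1 + r ^ 2 / d ^ 2) := by
    have : 0 ≤ Real.log (1 + r ^ 2 / d ^ 2) := Real.log_nonneg (by
      have : 0 ≤ r ^ 2 / d ^ 2 := by positivity
      linarith)
    linarith
  have hK : 0 ≤ Real.log (1 + D ^ 2 + r ^ 2) := Real.log_nonneg (by nlinarith [sq_nonneg D, sq_nonneg r])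
  rw [Real.norm_of_nonneg h0]
  rcases hd.eq_or_lt with h | h
  · rw [← h]
    simp
    linarith
  · have h1 : 1 + r ^ 2 / d ^ 2 = (d ^ 2 + r ^ 2) / d ^ 2 := by
      field_simp
    rw [h1, Real.log_div (by positivity) (by positivity), Real.log_pow]
    have h2 : Real.log (d ^ 2 + r ^ 2) ≤ Real.log (1 + D ^ 2 + r ^ 2) := by
      apply Real.log_le_log (by positivity)
      nlinarith
    have h3 := neg_abs_le (Real.log d)
    push_cast
    linarith

end INTEGaux

open INTEGaux in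
theorem pINTEG : INTEG := by
  intro B μ Q hOn hQ hL
  have := hOn.1
  have h1 : ∀ᵐ x ∂μ, x ∈ Set.Icc (0 : ℝ) B := hOn.2
  have h2 : ∀ᵐ x ∂μ, ev Q x ≠ 0 := by
    have : {x | ¬ ev Q x ≠ 0} = {x | ev Q x = 0} := by ext x; simp
    rw [ae_iff, this]
    exact hL.1
  have hi : ∀ α ∈ rts Q, Integrable (fun x : ℝ => Real.log ‖(x : ℂ) - α‖) μ := by
    intro α hα
    obtain ⟨s, hs⟩ := Multiset.exists_cons_of_mem hα
    have hdom : Integrable (fun x => |(Real.log |ev Q x|)| +
        (|(Real.log |(Q.leadingCoeff : ℝ)|)| +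
        rsum Q (fun β => Real.log (1 + |B| + ‖β‖)))) μ :=
      hL.2.1.abs.add (integrable_const _)
    refine hdom.mono' (Real.measurable_log.comp (meas_norm α)).aestronglyMeasurable ?_
    filter_upwards [h1, h2] with x hx1 hx2
    have e := log_abs_ev hx2
    unfold rsum at e ⊢
    rw [hs] at e ⊢
    simp only [Multiset.map_cons, Multiset.sum_cons] at e ⊢
    have k1 := sum_le_sum' B hx1 s
    have k2 := log_le hx1 α
    have k3 := cst_nonneg B α
    have k4 := sum_cst_nonneg B s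
    have k5 := neg_abs_le (Real.log |ev Q x|)
    have k6 := le_abs_self (Real.log |(Q.leadingCoeff : ℝ)|)
    have k7 := abs_nonneg (Real.log |ev Q x|)
    have k8 := abs_nonneg (Real.log |(Q.leadingCoeff : ℝ)|)
    rw [Real.norm_eq_abs, abs_le]
    constructor <;> linarith
  refine ⟨hi, fun r => ?_⟩
  unfold rsum
  apply int_multiset (fun α x => (1 / 2) * Real.log (1 + r ^ 2 / ‖(x : ℂ) - α‖ ^ 2))
  intro α hα
  have hdom : Integrable (fun x : ℝ => (1 / 2) * Real.log (1 + (|B| + ‖α‖) ^ 2 + r ^ 2) +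
      |Real.log ‖(x : ℂ) - α‖|) μ := (integrable_const _).add (hi α hα).abs
  refine hdom.mono' ?_ ?_
  · have hm := meas_norm α
    have : Measurable (fun x : ℝ => (1 / 2) * Real.log (1 + r ^ 2 / ‖(x : ℂ) - α‖ ^ 2)) :=
      (Real.measurable_log.comp ((measurable_const.div (hm.pow_const 2)).const_add 1)).const_mul _
    exact this.aestronglyMeasurable
  · filter_upwards [h1] with x hx1
    exact half_log_bound (norm_nonneg _) (norm_le hx1 α)

end Pool.Agent.W401.SSS
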