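import Pool.Agent.W401.SSS.Stm

set_option autoImplicit false

open Polynomial Matrix

namespace Pool.Agent.W401.SSS.LATaux

/-- the Gram matrix -/
noncomputable def GG (n : ℕ) (T : Finset ℝ) (w : ℝ → ℝ) : Matrix (Fin n) (Fin n) ℝ :=
  Matrix.of fun i j => ∑ τ ∈ T, w τ ^ 2 * τ ^ ((i : ℕ) + (j : ℕ))

theorem GG_apply (n : ℕ) (T : Finset ℝ) (w : ℝ → ℝ) (i j : Fin n) :
    GG n T w i j = ∑ τ ∈ T, w τ ^ 2 * τ ^ ((i : ℕ) + (j : ℕ)) := rfl

theorem quad (n : ℕ) (T : Finset ℝ) (w : ℝ → ℝ) (z : Fin n → ℝ) :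
    ∑ i, ∑ j, z i * GG n T w i j * z j
      = ∑ τ ∈ T, w τ ^ 2 * (∑ j, z j * τ ^ (j : ℕ)) ^ 2 := by
  have h1 : ∀ τ ∈ T, w τ ^ 2 * (∑ j, z j * τ ^ (j : ℕ)) ^ 2
      = ∑ i : Fin n, ∑ j : Fin n, z i * (w τ ^ 2 * τ ^ ((i : ℕ) + (j : ℕ))) * z j := by
    intro τ _
    rw [sq (∑ j, z j * τ ^ (j : ℕ)), Finset.sum_mul_sum, Finset.mul_sum]
    refine Finset.sum_congr rfl fun i _ => ?_
    rw [Finset.mul_sum]
    refine Finset.sum_congr rfl fun j _ => ?_
    rw [pow_add]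
    ring
  symm
  rw [Finset.sum_congr rfl h1, Finset.sum_comm]
  refine Finset.sum_congr rfl fun i _ => ?_
  rw [Finset.sum_comm]
  refine Finset.sum_congr rfl fun j _ => ?_
  rw [GG_apply, Finset.mul_sum, Finset.sum_mul]

theorem mulVec_eq (n : ℕ) (T : Finset ℝ) (w : ℝ → ℝ) (z : Fin n → ℝ) (k : Fin n) :
    (GG n T w *ᵥ z) k = ∑ τ ∈ T, (w τ ^ 2 * ∑ j, z j * τ ^ (j : ℕ)) * τ ^ (k : ℕ) := by
  have h1 : ∀ τ ∈ T, (w τ ^ 2 * ∑ j, z j * τ ^ (j : ℕ)) * τ ^ (k : ℕ)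
      = ∑ j : Fin n, (w τ ^ 2 * τ ^ ((k : ℕ) + (j : ℕ))) * z j := by
    intro τ _
    rw [Finset.mul_sum, Finset.sum_mul]
    refine Finset.sum_congr rfl fun j _ => ?_
    rw [pow_add]
    ring
  rw [Finset.sum_congr rfl h1, Finset.sum_comm, mulVec, dotProduct]
  refine Finset.sum_congr rfl fun j _ => ?_
  rw [GG_apply, Finset.sum_mul]

theorem coeff_eq (n : ℕ) (z : Fin n → ℝ) (k : Fin n) :
    (∑ i : Fin n, C (z i) * X ^ (i : ℕ) : ℝ[X]).coeff k = z k := by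
  rw [Polynomial.finsetSum_coeff, Finset.sum_eq_single k]
  · simp
  · intro i _ hi
    rw [Polynomial.coeff_C_mul, Polynomial.coeff_X_pow, if_neg, mul_zero]
    intro h
    exact hi (Fin.ext h.symm)
  · intro h
    exact absurd (Finset.mem_univ k) h

theorem posDef (n : ℕ) (T : Finset ℝ) (w : ℝ → ℝ) (hn : n ≤ T.card) (hw : ∀ τ ∈ T, 0 < w τ) :
    (GG n T w).PosDef := by
  refine Matrix.PosDef.of_dotProduct_mulVec_pos ?_ fun z hz => ?_
  · ext i j
    rw [Matrix.conjTranspose_apply, GG_apply, GG_apply, star_trivial]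
    refine Finset.sum_congr rfl fun τ _ => ?_
    rw [add_comm]
  · have h1 : star z ⬝ᵥ (GG n T w *ᵥ z) = ∑ τ ∈ T, w τ ^ 2 * (∑ j, z j * τ ^ (j : ℕ)) ^ 2 := by
      rw [← quad, dotProduct]
      refine Finset.sum_congr rfl fun i _ => ?_
      rw [mulVec, dotProduct, Finset.mul_sum]
      refine Finset.sum_congr rfl fun j _ => ?_
      simp only [Pi.star_apply, star_trivial]
      ring
    rw [h1]
    have h0 : ∀ τ ∈ T, 0 ≤ w τ ^ 2 * (∑ j, z j * τ ^ (j : ℕ)) ^ 2 := fun τ _ => by positivity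
    refine lt_of_le_of_ne (Finset.sum_nonneg h0) fun he => hz ?_
    have h2 := (Finset.sum_eq_zero_iff_of_nonneg h0).1 he.symm
    have h3 : (∑ i : Fin n, C (z i) * X ^ (i : ℕ) : ℝ[X]) = 0 := by
      refine Polynomial.eq_zero_of_degree_lt_of_eval_finset_eq_zero T ?_ ?_
      · refine lt_of_lt_of_le (Polynomial.degree_sum_fin_lt z) ?_
        exact_mod_cast hn
      · intro τ hτ
        have h4 := h2 τ hτ
        have h5 : w τ ^ 2 ≠ 0 := pow_ne_zero _ (hw τ hτ).ne'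
        have h6 := (mul_eq_zero.1 h4).resolve_left h5
        have h7 := pow_eq_zero_iff (two_ne_zero) |>.1 h6
        rw [Polynomial.eval_finsetSum, ← h7]
        refine Finset.sum_congr rfl fun j _ => ?_
        simp
    funext k
    have h4 := coeff_eq n z k
    rw [h3, Polynomial.coeff_zero] at h4
    exact h4.symm

end Pool.Agent.W401.SSS.LATaux

namespace Pool.Agent.W401.SSS

open LATaux

theorem pLAT : TRANS → LAT := by
  intro hT n T w δ hn hw hδ hl x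
  have hpd := posDef n T w hn hw
  have hdet : IsUnit (GG n T w).det := hpd.det_pos.ne'.isUnit
  obtain ⟨k, hk⟩ := hT n (GG n T w) δ hpd hδ (by
    intro l hl0
    set z : Fin n → ℝ := (GG n T w)⁻¹ *ᵥ (fun i => (l i : ℝ)) with hz
    have hGz : GG n T w *ᵥ z = fun i => (l i : ℝ) := by
      rw [hz, Matrix.mulVec_mulVec, Matrix.mul_nonsing_inv _ hdet, Matrix.one_mulVec]
    have h1 := hl l (fun τ => w τ ^ 2 * ∑ j, z j * τ ^ (j : ℕ)) hl0 (by
      intro k
      have h2 := mulVec_eq n T w z k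
      rw [hGz] at h2
      exact h2.symm)
    refine h1.trans (le_of_eq ?_)
    have h3 : ∀ τ ∈ T, (w τ ^ 2 * ∑ j, z j * τ ^ (j : ℕ)) / w τ
        = w τ * ∑ j, z j * τ ^ (j : ℕ) := by
      intro τ hτ
      have := (hw τ hτ).ne'
      field_simp
    have h4 : ∑ τ ∈ T, ((w τ ^ 2 * ∑ j, z j * τ ^ (j : ℕ)) / w τ) ^ 2
        = ∑ i, ∑ j, z i * GG n T w i j * z j := by
      rw [quad]
      refine Finset.sum_congr rfl fun τ hτ => ?_
      rw [h3 τ hτ, mul_pow]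
    rw [h4]
    have h5 : ∀ i, ∑ j, z i * GG n T w i j * z j = z i * (l i : ℝ) := by
      intro i
      have h6 := congrFun hGz i
      rw [mulVec, dotProduct] at h6
      rw [← h6, Finset.mul_sum]
      refine Finset.sum_congr rfl fun j _ => ?_
      ring
    simp only [h5]
    refine Finset.sum_congr rfl fun i _ => ?_
    rw [hz, mulVec, dotProduct, Finset.sum_mul]
    refine Finset.sum_congr rfl fun j _ => ?_
    ring) x
  refine ⟨k, le_of_eq_of_le ?_ hk⟩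
  rw [quad n T w (fun j => x j - k j)]

end Pool.Agent.W401.SSS
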