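import Pool.Agent.W401.SSS.Stm

/-!
# SSS-LIPL: local logarithmic integrals of a measure with bounded density
-/

open MeasureTheory Polynomial

namespace Pool.Agent.W401.SSS

namespace LIPLaux

theorem sub (α : ℂ) (ρ t : ℝ) (hρ : 0 < ρ) (ht : 0 < t) :
    {x : ℝ | t < max 0 (Real.log (ρ / ‖(x : ℂ) - α‖))} ⊆
      Set.Icc (α.re - ρ * Real.exp (-t)) (α.re - ρ * Real.exp (-t) + 2 * ρ * Real.exp (-t)) := by
  intro x hx
  have hx : t < max 0 (Real.log (ρ / ‖(x : ℂ) - α‖)) := hx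
  rcases lt_max_iff.1 hx with h | h
  · linarith
  have h0 : 0 < ρ / ‖(x : ℂ) - α‖ := by
    by_contra hc
    have h1 : ρ / ‖(x : ℂ) - α‖ = 0 := le_antisymm (not_lt.1 hc) (by positivity)
    rw [h1, Real.log_zero] at h
    linarith
  have hn : 0 < ‖(x : ℂ) - α‖ := by
    rcases (norm_nonneg ((x : ℂ) - α)).lt_or_eq with h1 | h1
    · exact h1
    · rw [← h1, div_zero] at h0; exact absurd h0 (lt_irrefl _)
  have h2 : Real.exp t < ρ / ‖(x : ℂ) - α‖ := (Real.lt_log_iff_exp_lt h0).1 h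
  have h3 : ‖(x : ℂ) - α‖ < ρ * Real.exp (-t) := by
    rw [lt_div_iff₀ hn] at h2
    rw [Real.exp_neg, ← div_eq_mul_inv, lt_div_iff₀ (Real.exp_pos t)]
    linarith
  have h4 : |x - α.re| ≤ ‖(x : ℂ) - α‖ := by
    have := Complex.abs_re_le_norm ((x : ℂ) - α)
    simpa using this
  have h5 := abs_le.1 (h4.trans h3.le)
  constructor <;> linarith [h5.1, h5.2]

theorem meas (α : ℂ) (ρ : ℝ) :
    Measurable (fun x : ℝ => max 0 (Real.log (ρ / ‖(x : ℂ) - α‖))) := by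
  refine measurable_const.max (Real.measurable_log.comp ?_)
  refine measurable_const.div ?_
  exact (Complex.measurable_ofReal.sub_const α).norm

theorem nn (α : ℂ) (ρ : ℝ) (ν : Measure ℝ) :
    0 ≤ᵐ[ν] (fun x : ℝ => max 0 (Real.log (ρ / ‖(x : ℂ) - α‖))) :=
  Filter.Eventually.of_forall fun _ => le_max_left _ _

theorem lint (c : ℝ) (ν : Measure ℝ) (hν : IsFiniteMeasure ν) (hc : 0 ≤ c) (hL : Lip c ν)
    (α : ℂ) (ρ : ℝ) (hρ : 0 < ρ) :
    ∫⁻ x : ℝ, ENNReal.ofReal (max 0 (Real.log (ρ / ‖(x : ℂ) - α‖))) ∂ν ≤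
      ENNReal.ofReal (2 * c * ρ) := by
  rw [lintegral_eq_lintegral_meas_lt ν (nn α ρ ν)
    (meas α ρ).aemeasurable]
  have h1 : ∫⁻ t in Set.Ioi (0 : ℝ), ν {x : ℝ | t < max 0 (Real.log (ρ / ‖(x : ℂ) - α‖))} ≤
      ∫⁻ t in Set.Ioi (0 : ℝ), ENNReal.ofReal (2 * c * ρ * Real.exp (-t)) := by
    refine setLIntegral_mono' measurableSet_Ioi ?_
    intro t ht
    have ht : 0 < t := ht
    have h2 := measure_mono (μ := ν) (sub α ρ t hρ ht)
    have h3 := hL (α.re - ρ * Real.exp (-t)) (2 * ρ * Real.exp (-t)) (by positivity)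
    refine h2.trans ?_
    rw [← ENNReal.ofReal_toReal (measure_ne_top ν _)]
    refine ENNReal.ofReal_le_ofReal ?_
    linarith
  refine h1.trans ?_
  rw [← ofReal_integral_eq_lintegral_ofReal]
  · rw [integral_const_mul, integral_exp_neg_Ioi_zero, mul_one]
  · exact (integrableOn_exp_neg_Ioi 0).const_mul _
  · exact Filter.Eventually.of_forall fun t => by positivity

end LIPLaux

open LIPLaux

theorem pLIPL : LIPL := by
  intro c ν hν hc hL α ρ hρ
  have h1 := lint c ν hν hc hL α ρ hρ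
  have hI : Integrable (fun x : ℝ => max 0 (Real.log (ρ / ‖(x : ℂ) - α‖))) ν := by
    refine ⟨(meas α ρ).aestronglyMeasurable, ?_⟩
    rw [hasFiniteIntegral_iff_ofReal (nn α ρ ν)]
    exact h1.trans_lt ENNReal.ofReal_lt_top
  refine ⟨hI, ?_⟩
  rw [integral_eq_lintegral_of_nonneg_ae (nn α ρ ν)
    (meas α ρ).aestronglyMeasurable]
  have h2 := ENNReal.toReal_mono ENNReal.ofReal_ne_top h1
  rwa [ENNReal.toReal_ofReal (by positivity)] at h2

end Pool.Agent.W401.SSS
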