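import Pool.Agent.W401.SSS.Stm

open MeasureTheory Polynomial

namespace Pool.Agent.W401.SSS

namespace MINBaux

theorem on_mono {B B' : ℝ} {ν : Measure ℝ} (h : B ≤ B') (hν : On B ν) : On B' ν :=
  ⟨hν.1, measure_mono_null (Set.compl_subset_compl.2 (Set.Icc_subset_Icc_right h)) hν.2⟩

theorem int_id {B : ℝ} {ν : Measure ℝ} (hOn : On B ν) : Integrable (fun x : ℝ => x) ν := by
  have := hOn.1
  exact Integrable.of_mem_Icc 0 B measurable_id.aemeasurable hOn.2

theorem cont_trunc (Q : ℤ[X]) (M : ℕ) : Continuous (trunc Q M) := by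
  unfold trunc
  refine Continuous.log ((continuous_ev Q).abs.max continuous_const) fun x => ?_
  exact (lt_of_lt_of_le (Real.exp_pos _) (le_max_right _ _)).ne'

theorem int_cont {B : ℝ} {ν : Measure ℝ} (hOn : On B ν) {f : ℝ → ℝ} (hf : Continuous f) :
    Integrable f ν := by
  have := hOn.1
  have h1 : IntegrableOn f (Set.Icc 0 B) ν := hf.integrableOn_Icc
  have h2 : ∀ᵐ x ∂ν, x ∈ Set.Icc (0 : ℝ) B := hOn.2
  rwa [IntegrableOn, Measure.restrict_eq_self_of_ae_mem h2] at h1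

theorem trunc_nonneg {B : ℝ} {ν : Measure ℝ} (hOn : On B ν) {Q : ℤ[X]} (h : LogNonneg ν Q)
    (M : ℕ) : 0 ≤ ∫ x, trunc Q M x ∂ν := by
  refine h.2.2.trans (integral_mono_ae h.2.1 (int_cont hOn (cont_trunc Q M)) ?_)
  have h1 : ∀ᵐ x ∂ν, ev Q x ≠ 0 := by
    have : {x | ¬ ev Q x ≠ 0} = {x | ev Q x = 0} := by ext x; simp
    rw [ae_iff, this]
    exact h.1
  filter_upwards [h1] with x hx
  exact Real.log_le_log (abs_pos.2 hx) (le_max_left _ _)

/-- the functions for the compactness argument -/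
noncomputable def fam (m : ℝ) : ℕ ⊕ ({Q : ℤ[X] // Adm Q} × ℕ) → ℝ → ℝ
  | Sum.inl k => fun x => m + 1 / ((k : ℝ) + 1) - x
  | Sum.inr q => trunc q.1.1 q.2

end MINBaux

open MINBaux in
theorem pMINB : CPT → TRUNC → FACT → UNIF → MINB := by
  rintro hC hT hFa ⟨ν0, hνOn, hνmean, -, hνAr, -⟩ B hB
  set S0 : Set ℝ := {t | ∃ ν : Measure ℝ, On B ν ∧ Arith ν ∧ mean ν = t} with hS0
  have hne : S0.Nonempty := ⟨mean ν0, ν0, on_mono hB hνOn, hνAr, rfl⟩
  have hbd : BddBelow S0 := by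
    refine ⟨0, ?_⟩
    rintro t ⟨ν, hOn, -, rfl⟩
    have h1 : ∀ᵐ x ∂ν, x ∈ Set.Icc (0 : ℝ) B := hOn.2
    exact integral_nonneg_of_ae (by filter_upwards [h1] with x hx using hx.1)
  set m := sInf S0 with hm
  have key : ∃ ν : Measure ℝ, On B ν ∧ ∀ i, 0 ≤ ∫ x, fam m i x ∂ν := by
    refine hC B (by linarith) _ (fam m) ?_ ?_
    · rintro (k | q)
      · show Continuous fun x : ℝ => m + 1 / ((k : ℝ) + 1) - x
        fun_prop
      · exact cont_trunc _ _
    · intro S
      set K : ℕ := S.sup (Sum.elim id (fun _ => 0)) with hK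
      have hKpos : (0 : ℝ) < (K : ℝ) + 1 := by positivity
      obtain ⟨t, ⟨ν, hOn, hAr, rfl⟩, ht⟩ := exists_lt_of_csInf_lt hne
        (show sInf S0 < m + 1 / ((K : ℝ) + 1) by rw [← hm]; linarith [one_div_pos.2 hKpos])
      refine ⟨ν, hOn, ?_⟩
      have := hOn.1
      rintro (k | q) hi
      · show 0 ≤ ∫ x, (m + 1 / ((k : ℝ) + 1) - x) ∂ν
        rw [integral_sub (integrable_const _) (int_id hOn), integral_const]
        simp only [probReal_univ, one_smul]
        have hkK : k ≤ K := by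
          have := Finset.le_sup (f := Sum.elim id (fun _ => 0)) hi
          simpa using this
        have h2 : 1 / ((K : ℝ) + 1) ≤ 1 / ((k : ℝ) + 1) := by
          apply one_div_le_one_div_of_le (by positivity)
          have : (k : ℝ) ≤ K := by exact_mod_cast hkK
          linarith
        unfold mean at ht
        linarith
      · exact trunc_nonneg hOn (hAr _ q.1.2.ne_zero) q.2
  obtain ⟨ν, hOn, hν⟩ := key
  have := hOn.1
  have hmean : mean ν ≤ m := by
    apply le_of_forall_pos_le_add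
    intro ε hε
    obtain ⟨k, hk⟩ := exists_nat_one_div_lt hε
    have h1 : 0 ≤ ∫ x, (m + 1 / ((k : ℝ) + 1) - x) ∂ν := hν (Sum.inl k)
    rw [integral_sub (integrable_const _) (int_id hOn), integral_const] at h1
    simp only [probReal_univ, one_smul] at h1
    unfold mean
    linarith
  have hAr : Arith ν := hFa B ν hOn fun Q hQ => hT B ν Q hQ.ne_zero hOn
    fun M => hν (Sum.inr (⟨Q, hQ⟩, M))
  refine ⟨ν, hOn, hAr, fun ν' hOn' hAr' => hmean.trans ?_⟩
  exact csInf_le hbd ⟨ν', hOn', hAr', rfl⟩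

end Pool.Agent.W401.SSS
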