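import Pool.Agent.W401.SSS.Stm

set_option autoImplicit false

open MeasureTheory Polynomial

namespace Pool.Agent.W401.SSS

namespace MIXLaux

theorem on_integrable_id {B : ℝ} {μ : Measure ℝ} (h : On B μ) : Integrable (fun x : ℝ => x) μ := by
  obtain ⟨hP, hs⟩ := h
  have hs' : ∀ᵐ x ∂μ, x ∈ Set.Icc (0 : ℝ) B := by
    rw [ae_iff]
    exact hs
  apply Integrable.mono' (integrable_const B) measurable_id.aestronglyMeasurable
  filter_upwards [hs'] with x hx
  simp only [id]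
  rw [Real.norm_of_nonneg hx.1]
  exact hx.2

theorem mix_zero (s : ℝ) (μ ν : Measure ℝ) (A : Set ℝ) (h1 : μ A = 0) (h2 : ν A = 0) :
    mix s μ ν A = 0 := by
  unfold mix
  simp [h1, h2]

theorem mix_int (s : ℝ) (hs0 : 0 ≤ s) (hs1 : s ≤ 1) (μ ν : Measure ℝ) (f : ℝ → ℝ)
    (h1 : Integrable f μ) (h2 : Integrable f ν) : Integrable f (mix s μ ν) ∧
    ∫ x, f x ∂(mix s μ ν) = (1 - s) * ∫ x, f x ∂μ + s * ∫ x, f x ∂ν := by
  have h3 : Integrable f (ENNReal.ofReal (1 - s) • μ) := h1.smul_measure ENNReal.ofReal_ne_top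
  have h4 : Integrable f (ENNReal.ofReal s • ν) := h2.smul_measure ENNReal.ofReal_ne_top
  refine ⟨h3.add_measure h4, ?_⟩
  unfold mix
  rw [integral_add_measure h3 h4, integral_smul_measure, integral_smul_measure,
    ENNReal.toReal_ofReal (by linarith), ENNReal.toReal_ofReal hs0, smul_eq_mul, smul_eq_mul]

end MIXLaux

open MIXLaux in
theorem pMIXL : MIXL := by
  intro B s μ ν hs0 hs1 hμ hν
  have hPμ := hμ.1
  have hPν := hν.1
  refine ⟨⟨⟨?_⟩, mix_zero s μ ν _ hμ.2 hν.2⟩,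
    fun f h1 h2 => mix_int s hs0 hs1 μ ν f h1 h2, ?_, ?_⟩
  · unfold mix
    simp only [Measure.coe_add, Measure.coe_smul, Pi.add_apply, Pi.smul_apply, measure_univ,
      smul_eq_mul, mul_one]
    rw [← ENNReal.ofReal_add (by linarith) hs0]
    simp
  · intro h1 h2 Q hQ
    obtain ⟨a1, a2, a3⟩ := h1 Q hQ
    obtain ⟨b1, b2, b3⟩ := h2 Q hQ
    obtain ⟨c1, c2⟩ := mix_int s hs0 hs1 μ ν _ a2 b2
    refine ⟨mix_zero s μ ν _ a1 b1, c1, ?_⟩
    rw [c2]
    have : 0 ≤ 1 - s := by linarith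
    positivity
  · exact (mix_int s hs0 hs1 μ ν _ (on_integrable_id hμ) (on_integrable_id hν)).2

end Pool.Agent.W401.SSS
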