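import Pool.Agent.W401.SSS.Stm

/-!
# Task MU: good compact sets
-/

set_option autoImplicit false

open MeasureTheory Polynomial Set Filter Topology

namespace Pool.Agent.W401.SSS.MUaux

theorem log1000 : Real.log 1000 ≤ 7 := by
  have h1 : Real.log 1000 ≤ Real.log 1024 := Real.log_le_log (by norm_num) (by norm_num)
  have h2 : Real.log 1024 = 10 * Real.log 2 := by
    rw [show (1024 : ℝ) = 2 ^ (10 : ℕ) by norm_num, Real.log_pow]; norm_num
  have h3 := Real.log_two_lt_d9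
  linarith

theorem no_atoms {μ : Measure ℝ} [IsProbabilityMeasure μ] (h : Eint μ) (x : ℝ) : μ {x} = 0 := by
  have h1 : (μ.prod μ) ({x} ×ˢ {x}) ≤ (μ.prod μ) {p : ℝ × ℝ | p.1 = p.2} := by
    apply measure_mono
    rintro ⟨a, b⟩ ⟨ha, hb⟩
    simp only [mem_singleton_iff] at ha hb
    simp [ha, hb]
  rw [h.1, Measure.prod_prod, nonpos_iff_eq_zero, mul_self_eq_zero] at h1
  exact h1

theorem meas_log : StronglyMeasurable (Function.uncurry fun x y : ℝ => Real.log |x - y|) := by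
  apply Measurable.stronglyMeasurable
  exact Real.measurable_log.comp ((continuous_fst.sub continuous_snd).abs.measurable)

/-- the good set at level `n` -/
def Gn (μ : Measure ℝ) (n : ℕ) : Set ℝ :=
  {x | Integrable (fun y : ℝ => Real.log |x - y|) μ} ∩
    {x | -(n : ℝ) ≤ ∫ y, Real.log |x - y| ∂μ} ∩ Icc 0 1000

theorem meas_Gn (μ : Measure ℝ) [IsProbabilityMeasure μ] (n : ℕ) : MeasurableSet (Gn μ n) := by
  refine (MeasurableSet.inter ?_ ?_).inter measurableSet_Icc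
  · exact measurableSet_integrable meas_log
  · have h : StronglyMeasurable fun x : ℝ => ∫ y, Real.log |x - y| ∂μ :=
      StronglyMeasurable.integral_prod_right (f := fun x y : ℝ => Real.log |x - y|) meas_log
    exact measurableSet_le measurable_const h.measurable

theorem exists_level {μ : Measure ℝ} [IsProbabilityMeasure μ] (hon : μ (Icc (0 : ℝ) 1000)ᶜ = 0)
    (h : Eint μ) : ∃ n : ℕ, 3 / 4 ≤ μ.real (Gn μ n) := by
  have hmono : Monotone (Gn μ) := by
    intro m n hmn x hx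
    refine ⟨⟨hx.1.1, ?_⟩, hx.2⟩
    have h1 : -(m : ℝ) ≤ ∫ y, Real.log |x - y| ∂μ := hx.1.2
    have h2 : (m : ℝ) ≤ n := by exact_mod_cast hmn
    show -(n : ℝ) ≤ ∫ y, Real.log |x - y| ∂μ
    linarith
  have hae : ∀ᵐ x ∂μ, x ∈ ⋃ n, Gn μ n := by
    have h1 : ∀ᵐ x ∂μ, Integrable (fun y : ℝ => Real.log |x - y|) μ := h.2.prod_right_ae
    have h2 : ∀ᵐ x ∂μ, x ∈ Icc (0 : ℝ) 1000 := by
      rw [ae_iff]; exact hon
    filter_upwards [h1, h2] with x hx1 hx2
    rw [mem_iUnion]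
    obtain ⟨n, hn⟩ := exists_nat_ge (-(∫ y, Real.log |x - y| ∂μ))
    refine ⟨n, ⟨hx1, ?_⟩, hx2⟩
    show -(n : ℝ) ≤ ∫ y, Real.log |x - y| ∂μ
    linarith
  have hone : μ (⋃ n, Gn μ n) = 1 := by
    have h1 : (⋃ n, Gn μ n) =ᵐ[μ] (univ : Set ℝ) := eventuallyEq_univ.mpr hae
    rw [measure_congr h1]
    exact measure_univ
  have hlim : Tendsto (fun n => μ (Gn μ n)) atTop (𝓝 1) := by
    rw [← hone]
    exact tendsto_measure_iUnion_atTop hmono
  have hlim' : Tendsto (fun n => μ.real (Gn μ n)) atTop (𝓝 1) := by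
    have := (ENNReal.tendsto_toReal (ENNReal.one_ne_top)).comp hlim
    rw [ENNReal.toReal_one] at this
    exact this
  obtain ⟨n, hn⟩ := (hlim'.eventually (eventually_ge_nhds (show (3 / 4 : ℝ) < 1 by norm_num))).exists
  exact ⟨n, hn⟩

/-- a small ball has small mass in the good set -/
theorem ball_mass {μ : Measure ℝ} [IsProbabilityMeasure μ] (hon : μ (Icc (0 : ℝ) 1000)ᶜ = 0)
    (h : Eint μ) (n : ℕ) {δ : ℝ} (hδ : 0 < δ) (hδ4 : δ ≤ 1 / 4) (s : ℂ) :
    μ.real (Gn μ n ∩ {x : ℝ | ‖(x : ℂ) - s‖ < δ}) * Real.log (1 / δ) ≤ 2 * ((n : ℝ) + 7) := by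
  set V : Set ℝ := Gn μ n ∩ {x : ℝ | ‖(x : ℂ) - s‖ < δ} with hV
  have hVm : MeasurableSet V := by
    refine (meas_Gn μ n).inter ?_
    exact measurableSet_lt ((Complex.continuous_ofReal.sub continuous_const).norm.measurable)
      measurable_const
  rcases V.eq_empty_or_nonempty with h0 | ⟨a, ha⟩
  · rw [h0, measureReal_empty, zero_mul]; positivity
  have haG := ha.1
  have haint : Integrable (fun y : ℝ => Real.log |a - y|) μ := haG.1.1
  have haM : -(n : ℝ) ≤ ∫ y, Real.log |a - y| ∂μ := haG.1.2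
  have hlogδ : Real.log (1 / (2 * δ)) = - Real.log (2 * δ) := by
    rw [one_div, Real.log_inv]
  have h2δ : 2 * δ < 1 := by linarith
  have hL0 : 0 ≤ Real.log (1 / (2 * δ)) := by
    rw [hlogδ]
    have := Real.log_neg (by positivity : 0 < 2 * δ) h2δ
    linarith
  have hIcc : ∀ᵐ y ∂μ, y ∈ Icc (0 : ℝ) 1000 := by
    rw [ae_iff]; exact hon
  have hna : ∀ᵐ y ∂μ, y ≠ a := by
    rw [ae_iff]
    simpa using no_atoms h a
  have hpt : ∀ᵐ y ∂μ, Real.log |a - y| ≤ 7 - V.indicator (fun _ => Real.log (1 / (2 * δ))) y := by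
    filter_upwards [hIcc, hna] with y hy hya
    have hpos : 0 < |a - y| := abs_pos.mpr (sub_ne_zero.mpr (Ne.symm hya))
    by_cases hyV : y ∈ V
    · rw [indicator_of_mem hyV, hlogδ]
      have h1 : |a - y| ≤ 2 * δ := by
        have h2 : ‖((a : ℝ) : ℂ) - ((y : ℝ) : ℂ)‖ ≤ ‖(a : ℂ) - s‖ + ‖(y : ℂ) - s‖ := by
          have : ((a : ℝ) : ℂ) - ((y : ℝ) : ℂ) = ((a : ℂ) - s) - ((y : ℂ) - s) := by ring
          rw [this]; exact norm_sub_le _ _
        rw [← Complex.ofReal_sub, Complex.norm_real, Real.norm_eq_abs] at h2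
        have h3 : ‖(a : ℂ) - s‖ < δ := ha.2
        have h4 : ‖(y : ℂ) - s‖ < δ := hyV.2
        linarith
      have h2 := Real.log_le_log hpos h1
      linarith
    · rw [indicator_of_notMem hyV]
      have h1 : |a - y| ≤ 1000 := by
        have ha' := haG.2
        rw [mem_Icc] at ha' hy
        rw [abs_le]
        constructor <;> linarith [ha'.1, ha'.2, hy.1, hy.2]
      have h2 := (Real.log_le_log hpos h1).trans log1000
      linarith
  have hind : Integrable (V.indicator (fun _ => Real.log (1 / (2 * δ)))) μ :=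
    (integrable_const _).indicator hVm
  have hint : ∫ y, Real.log |a - y| ∂μ ≤
      ∫ y, (7 - V.indicator (fun _ => Real.log (1 / (2 * δ))) y) ∂μ :=
    integral_mono_ae haint ((integrable_const (7 : ℝ)).sub hind) hpt
  rw [integral_sub (integrable_const _) hind, integral_const, integral_indicator_const _ hVm] at hint
  simp only [probReal_univ, smul_eq_mul, one_mul] at hint
  have hkey : μ.real V * Real.log (1 / (2 * δ)) ≤ (n : ℝ) + 7 := by linarith
  have hhalf : Real.log (1 / δ) / 2 ≤ Real.log (1 / (2 * δ)) := by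
    rw [hlogδ, Real.log_mul (by norm_num) hδ.ne', one_div, Real.log_inv]
    have h1 : Real.log δ ≤ Real.log (1 / 4) := Real.log_le_log hδ hδ4
    have h2 : Real.log (1 / 4 : ℝ) = -(2 * Real.log 2) := by
      rw [one_div, Real.log_inv, show (4 : ℝ) = 2 ^ (2 : ℕ) by norm_num, Real.log_pow]
      norm_num
    linarith
  have := mul_le_mul_of_nonneg_left hhalf (measureReal_nonneg (μ := μ) (s := V))
  linarith

theorem exists_small {μ : Measure ℝ} [IsProbabilityMeasure μ] (h0 : μ {(0 : ℝ)} = 0) :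
    ∃ r : ℝ, 0 < r ∧ μ.real (Ico 0 r) ≤ 1 / 16 := by
  have hanti : Antitone fun n : ℕ => Ico (0 : ℝ) (1 / ((n : ℝ) + 1)) := by
    intro m n hmn x hx
    refine ⟨hx.1, hx.2.trans_le ?_⟩
    have h1 : (m : ℝ) ≤ n := by exact_mod_cast hmn
    exact one_div_le_one_div_of_le (by positivity) (by linarith)
  have hInter : ⋂ n : ℕ, Ico (0 : ℝ) (1 / ((n : ℝ) + 1)) = {0} := by
    ext x
    simp only [mem_iInter, mem_Ico, mem_singleton_iff]
    constructor
    · intro hx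
      have hx0 := (hx 0).1
      by_contra hne
      have hpos : 0 < x := lt_of_le_of_ne hx0 (Ne.symm hne)
      obtain ⟨n, hn⟩ := exists_nat_one_div_lt hpos
      exact absurd (hx n).2 (by linarith)
    · rintro rfl n
      exact ⟨le_refl _, by positivity⟩
  have hlim : Tendsto (fun n : ℕ => μ (Ico (0 : ℝ) (1 / ((n : ℝ) + 1)))) atTop (𝓝 0) := by
    have h1 := tendsto_measure_iInter_atTop (μ := μ)
      (fun n : ℕ => (measurableSet_Ico (a := (0 : ℝ)) (b := 1 / ((n : ℝ) + 1))).nullMeasurableSet)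
      hanti ⟨0, measure_ne_top _ _⟩
    rw [hInter, h0] at h1
    exact h1
  have hlim' : Tendsto (fun n : ℕ => μ.real (Ico (0 : ℝ) (1 / ((n : ℝ) + 1)))) atTop (𝓝 0) := by
    have := (ENNReal.tendsto_toReal (ENNReal.zero_ne_top)).comp hlim
    rw [ENNReal.toReal_zero] at this
    exact this
  obtain ⟨n, hn⟩ := (hlim'.eventually (eventually_le_nhds (show (0 : ℝ) < 1 / 16 by norm_num))).exists
  exact ⟨1 / ((n : ℝ) + 1), by positivity, hn⟩

end Pool.Agent.W401.SSS.MUaux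

namespace Pool.Agent.W401.SSS
open MUaux

theorem pMU : MUB → MU := by
  intro hMUB μ hOn hE
  have : IsProbabilityMeasure μ := hOn.1
  have hon : μ (Icc (0 : ℝ) 1000)ᶜ = 0 := hOn.2
  obtain ⟨n, hn⟩ := exists_level hon hE
  obtain ⟨r, hr0, hr⟩ := exists_small (μ := μ) (no_atoms hE 0)
  have hn7 : 0 < (n : ℝ) + 7 := by positivity
  refine ⟨4 * ((n : ℝ) + 8) + 8, 1 / (16 * ((n : ℝ) + 7)), min (1 / 4) r, by positivity,
    by positivity, lt_min (by norm_num) hr0, ?_⟩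
  intro δ hδ hδ0 S hS E0 hE0 hE0δ
  have hδ4 : δ ≤ 1 / 4 := hδ0.trans (min_le_left _ _)
  have hδr : δ ≤ r := hδ0.trans (min_le_right _ _)
  have hδ1 : δ ≤ 1 := by linarith
  have hlogpos : 0 < Real.log (1 / δ) := by
    apply Real.log_pos
    rw [lt_div_iff₀ hδ]
    linarith
  set V : ℂ → Set ℝ := fun s => Gn μ n ∩ {x : ℝ | ‖(x : ℂ) - s‖ < δ} with hV
  set G1 : Set ℝ := Gn μ n ∩ E0 ∩ Icc (δ ^ 4) 1000 ∩ {x : ℝ | ∀ s ∈ S, δ ≤ ‖(x : ℂ) - s‖} with hG1
  have hG1m : MeasurableSet G1 := by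
    refine (((meas_Gn μ n).inter hE0).inter measurableSet_Icc).inter ?_
    have : {x : ℝ | ∀ s ∈ S, δ ≤ ‖(x : ℂ) - s‖} = ⋂ s ∈ S, {x : ℝ | δ ≤ ‖(x : ℂ) - s‖} := by
      ext x; simp
    rw [this]
    refine Finset.measurableSet_biInter _ fun s _ => ?_
    exact measurableSet_le measurable_const
      ((Complex.continuous_ofReal.sub continuous_const).norm.measurable)
  have hcover : Gn μ n ⊆ G1 ∪ (E0ᶜ ∪ (Ico 0 r ∪ ⋃ s ∈ S, V s)) := by
    intro x hx
    by_cases h1 : x ∈ E0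
    · by_cases h2 : δ ^ 4 ≤ x
      · by_cases h3 : ∀ s ∈ S, δ ≤ ‖(x : ℂ) - s‖
        · left
          exact ⟨⟨⟨hx, h1⟩, h2, hx.2.2⟩, h3⟩
        · right; right; right
          push Not at h3
          obtain ⟨s, hs, hs2⟩ := h3
          rw [mem_iUnion₂]
          exact ⟨s, hs, hx, hs2⟩
      · right; right; left
        refine ⟨hx.2.1, ?_⟩
        push Not at h2
        have h3 : δ ^ 4 ≤ δ := by
          calc δ ^ 4 ≤ δ ^ 1 := pow_le_pow_of_le_one hδ.le hδ1 (by norm_num)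
            _ = δ := pow_one δ
        linarith
    · right; left; exact h1
  have hVsum : μ.real (⋃ s ∈ S, V s) ≤ 1 / 8 := by
    have h1 : μ.real (⋃ s ∈ S, V s) ≤ ∑ s ∈ S, μ.real (V s) := measureReal_biUnion_finset_le _ _
    have h2 : ∀ s ∈ S, μ.real (V s) ≤ 2 * ((n : ℝ) + 7) / Real.log (1 / δ) := by
      intro s _
      rw [le_div_iff₀ hlogpos]
      exact ball_mass hon hE n hδ hδ4 s
    have h3 := h1.trans (Finset.sum_le_sum h2)
    rw [Finset.sum_const, nsmul_eq_mul] at h3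
    have h4 : (S.card : ℝ) * (2 * ((n : ℝ) + 7) / Real.log (1 / δ)) ≤
        1 / (16 * ((n : ℝ) + 7)) * Real.log (1 / δ) * (2 * ((n : ℝ) + 7) / Real.log (1 / δ)) :=
      mul_le_mul_of_nonneg_right hS (by positivity)
    have h5 : 1 / (16 * ((n : ℝ) + 7)) * Real.log (1 / δ) *
        (2 * ((n : ℝ) + 7) / Real.log (1 / δ)) = 1 / 8 := by
      field_simp
      norm_num
    linarith
  have hE16 : μ.real E0ᶜ ≤ 1 / 16 := by
    have h1 : δ ^ 8 ≤ (1 / 4) ^ 8 := pow_le_pow_left₀ hδ.le hδ4 8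
    have h2 : μ.real E0ᶜ ≤ δ ^ 8 := hE0δ
    have h3 : ((1 : ℝ) / 4) ^ 8 ≤ 1 / 16 := by norm_num
    linarith
  have hG1mass : 1 / 2 ≤ μ.real G1 := by
    have h1 : μ.real (Gn μ n) ≤ μ.real (G1 ∪ (E0ᶜ ∪ (Ico 0 r ∪ ⋃ s ∈ S, V s))) :=
      measureReal_mono hcover
    have h2 := measureReal_union_le (μ := μ) G1 (E0ᶜ ∪ (Ico 0 r ∪ ⋃ s ∈ S, V s))
    have h3 := measureReal_union_le (μ := μ) E0ᶜ (Ico 0 r ∪ ⋃ s ∈ S, V s)
    have h4 := measureReal_union_le (μ := μ) (Ico 0 r) (⋃ s ∈ S, V s)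
    linarith
  obtain ⟨G, hGsub, hGc, hGmass⟩ := hG1m.exists_isCompact_lt_add (μ := μ) (measure_ne_top μ G1)
    (ε := ENNReal.ofReal (1 / 4)) (by simp)
  have hGmass' : 1 / 4 ≤ μ.real G := by
    have h1 : μ.real G1 ≤ μ.real G + 1 / 4 := by
      have h2 := ENNReal.toReal_mono (by finiteness) hGmass.le
      rw [ENNReal.toReal_add (measure_ne_top μ G) (by simp),
        ENNReal.toReal_ofReal (by norm_num)] at h2
      exact h2
    linarith
  refine ⟨G, hGc, fun x hx => (hGsub hx).1.1.2, fun x hx => (hGsub hx).1.2,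
    fun x hx => (hGsub hx).2, hGmass', ?_⟩
  refine hMUB μ n G hOn (Nat.cast_nonneg n) hGc (fun x hx => (hGsub hx).1.1.1.2) hGmass' ?_
    (fun x => no_atoms hE x)
  intro x hx
  exact ⟨(hGsub hx).1.1.1.1.1, (hGsub hx).1.1.1.1.2⟩

end Pool.Agent.W401.SSS
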