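import Pool.Agent.W401.SSS.Stm

set_option autoImplicit false

open MeasureTheory Polynomial

namespace Pool.Agent.W401.SSS

namespace MUBaux

theorem pow_le_exp (n : ℕ) : (2.7 : ℝ) ^ n ≤ Real.exp n := by
  have h1 := Real.exp_one_gt_d9
  have h2 : Real.exp n = Real.exp 1 ^ n := by
    rw [← Real.exp_nat_mul, mul_one]
  rw [h2]
  apply pow_le_pow_left₀ (by norm_num)
  linarith

theorem log_le_of {a : ℝ} (ha : 0 < a) (n : ℕ) (h : a ≤ (2.7 : ℝ) ^ n) : Real.log a ≤ n := by
  rw [Real.log_le_iff_le_exp ha]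
  exact h.trans (pow_le_exp n)

theorem meas (β : ℂ) : Measurable (fun x : ℝ => Real.log ‖(x : ℂ) - β‖) := by
  apply Real.measurable_log.comp
  exact (by fun_prop : Continuous (fun x : ℝ => ‖(x : ℂ) - β‖)).measurable

end MUBaux

open MUBaux in
theorem pMUB : MUB := by
  intro μ M G hOn hM hGc hG h14 hpot hatom β
  obtain ⟨hP, hsupp⟩ := hOn
  have hGm : MeasurableSet G := hGc.measurableSet
  set m : ℝ := (μ G).toReal with hm
  have hmr : μ.real G = m := rfl
  have hm1 : m ≤ 1 := by
    rw [hm, ← ENNReal.toReal_one]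
    exact ENNReal.toReal_mono ENNReal.one_ne_top prob_le_one
  have hm0 : 0 ≤ m := by linarith
  have hbd : ∀ x ∈ G, ‖(x : ℂ)‖ ≤ 1000 := by
    intro x hx
    have h := hG hx
    rw [Complex.norm_real, Real.norm_of_nonneg h.1]
    exact h.2
  by_cases hβ : 2001 ≤ ‖β‖
  · have hlow : ∀ x ∈ G, (1 + ‖β‖) / 3 ≤ ‖(x : ℂ) - β‖ := by
      intro x hx
      have h1 := hbd x hx
      have h2 := norm_sub_norm_le β (x : ℂ)
      rw [norm_sub_rev] at h2
      linarith
    have hup : ∀ x ∈ G, ‖(x : ℂ) - β‖ ≤ 1000 + ‖β‖ := by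
      intro x hx
      exact (norm_sub_le _ _).trans (by linarith [hbd x hx])
    have hlowlog : ∀ x ∈ G, Real.log ((1 + ‖β‖) / 3) ≤ Real.log ‖(x : ℂ) - β‖ := by
      intro x hx
      exact Real.log_le_log (by positivity) (hlow x hx)
    have huplog : ∀ x ∈ G, Real.log ‖(x : ℂ) - β‖ ≤ Real.log (1000 + ‖β‖) := by
      intro x hx
      exact Real.log_le_log (lt_of_lt_of_le (by positivity) (hlow x hx)) (hup x hx)
    have hlow0 : 0 ≤ Real.log ((1 + ‖β‖) / 3) := Real.log_nonneg (by linarith)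
    have hint : IntegrableOn (fun x : ℝ => Real.log ‖(x : ℂ) - β‖) G μ := by
      apply Measure.integrableOn_of_bounded (M := Real.log (1000 + ‖β‖)) (measure_ne_top μ G)
        (meas β).aestronglyMeasurable
      filter_upwards [ae_restrict_mem hGm] with x hx
      rw [Real.norm_of_nonneg (hlow0.trans (hlowlog x hx))]
      exact huplog x hx
    refine ⟨hint, ?_⟩
    have h1 : ∫ x in G, Real.log ((1 + ‖β‖) / 3) ∂μ ≤ ∫ x in G, Real.log ‖(x : ℂ) - β‖ ∂μ := by
      apply setIntegral_mono_on _ hint hGm hlowlog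
      exact integrableOn_const (measure_ne_top μ G)
    rw [setIntegral_const, hmr, smul_eq_mul] at h1
    refine le_trans ?_ h1
    apply mul_le_mul_of_nonneg_left _ hm0
    rw [Real.log_div (by positivity) (by norm_num)]
    have h3 : Real.log 3 ≤ (2 : ℕ) := log_le_of (by norm_num) 2 (by norm_num)
    push_cast at h3
    linarith
  · push Not at hβ
    have hne : G.Nonempty := by
      rw [Set.nonempty_iff_ne_empty]
      intro h
      rw [hm, h] at h14
      simp at h14
      linarith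
    obtain ⟨xs, hxs, hmin⟩ := hGc.exists_isMinOn hne
      (f := fun x : ℝ => ‖(x : ℂ) - β‖) (by fun_prop)
    have htri : ∀ x ∈ G, |xs - x| ≤ 2 * ‖(x : ℂ) - β‖ := by
      intro x hx
      have h1 : ‖(xs : ℂ) - β‖ ≤ ‖(x : ℂ) - β‖ := hmin hx
      have h2 : |xs - x| = ‖(xs : ℂ) - (x : ℂ)‖ := by
        rw [← Complex.ofReal_sub, Complex.norm_real, Real.norm_eq_abs]
      rw [h2]
      calc ‖(xs : ℂ) - (x : ℂ)‖ = ‖((xs : ℂ) - β) - ((x : ℂ) - β)‖ := by congr 1; ring
        _ ≤ ‖(xs : ℂ) - β‖ + ‖(x : ℂ) - β‖ := norm_sub_le _ _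
        _ ≤ _ := by linarith
    have hup : ∀ x ∈ G, ‖(x : ℂ) - β‖ ≤ 3001 := by
      intro x hx
      exact (norm_sub_le _ _).trans (by linarith [hbd x hx])
    obtain ⟨hI, hIM⟩ := hpot xs hxs
    have hxae : ∀ᵐ x ∂μ, x ≠ xs := by
      rw [ae_iff]
      simpa using hatom xs
    have hlow : ∀ x ∈ G, x ≠ xs → Real.log |xs - x| - Real.log 2 ≤ Real.log ‖(x : ℂ) - β‖ ∧
        0 < ‖(x : ℂ) - β‖ := by
      intro x hx hne
      have h1 : 0 < |xs - x| := abs_pos.2 (sub_ne_zero.2 hne.symm)
      have h2 := htri x hx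
      refine ⟨?_, by linarith⟩
      rw [← Real.log_div h1.ne' (by norm_num)]
      apply Real.log_le_log (by positivity)
      linarith
    have hlog2 : 0 ≤ Real.log 2 := Real.log_nonneg (by norm_num)
    have hlog2' : Real.log 2 ≤ (1 : ℕ) := log_le_of (by norm_num) 1 (by norm_num)
    push_cast at hlog2'
    have hlog3 : 0 ≤ Real.log 3001 := Real.log_nonneg (by norm_num)
    have hint : IntegrableOn (fun x : ℝ => Real.log ‖(x : ℂ) - β‖) G μ := by
      have hg : IntegrableOn (fun x : ℝ => |(Real.log |xs - x|)| + (Real.log 2 + Real.log 3001)) G μ :=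
        (hI.abs.integrableOn).add (integrableOn_const (measure_ne_top μ G))
      apply Integrable.mono' hg (meas β).aestronglyMeasurable
      filter_upwards [ae_restrict_mem hGm, ae_restrict_of_ae hxae] with x hx hne
      obtain ⟨h1, h2⟩ := hlow x hx hne
      have h3 : Real.log ‖(x : ℂ) - β‖ ≤ Real.log 3001 := Real.log_le_log h2 (hup x hx)
      rw [Real.norm_eq_abs, abs_le]
      constructor
      · linarith [neg_abs_le (Real.log |xs - x|)]
      · linarith [abs_nonneg (Real.log |xs - x|)]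
    refine ⟨hint, ?_⟩
    have hIG : IntegrableOn (fun x : ℝ => Real.log |xs - x|) G μ := hI.integrableOn
    have hcI : IntegrableOn (fun _ : ℝ => Real.log 2) G μ := integrableOn_const (measure_ne_top μ G)
    have hc7 : IntegrableOn (fun _ : ℝ => (7 : ℝ)) G μ := integrableOn_const (measure_ne_top μ G)
    have h1 : ∫ x in G, (Real.log |xs - x| - Real.log 2) ∂μ ≤
        ∫ x in G, Real.log ‖(x : ℂ) - β‖ ∂μ := by
      apply integral_mono_ae (hIG.sub hcI) hint
      filter_upwards [ae_restrict_mem hGm, ae_restrict_of_ae hxae] with x hx hne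
      exact (hlow x hx hne).1
    rw [integral_sub hIG hcI, setIntegral_const, hmr, smul_eq_mul] at h1
    have h2 : ∫ x in G, (7 - Real.log |xs - x|) ∂μ ≤ ∫ x, (7 - Real.log |xs - x|) ∂μ := by
      apply setIntegral_le_integral ((integrable_const _).sub hI)
      have hs : ∀ᵐ x ∂μ, x ∈ Set.Icc (0 : ℝ) 1000 := by
        rw [ae_iff]
        exact hsupp
      filter_upwards [hs, hxae] with x hx hne
      have h3 := hG hxs
      have h4 : |xs - x| ≤ 1000 := by
        rw [abs_le]
        constructor <;> linarith [hx.1, hx.2, h3.1, h3.2]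
      have h5 : 0 < |xs - x| := abs_pos.2 (sub_ne_zero.2 hne.symm)
      have h6 : Real.log |xs - x| ≤ (7 : ℕ) := log_le_of h5 7 (h4.trans (by norm_num))
      push_cast at h6
      show (0 : ℝ) ≤ 7 - Real.log |xs - x|
      linarith
    rw [integral_sub hc7 hIG, setIntegral_const, hmr, smul_eq_mul,
      integral_sub (integrable_const _) hI, integral_const, probReal_univ, one_smul] at h2
    have h3 : Real.log (1 + ‖β‖) ≤ (8 : ℕ) :=
      log_le_of (by positivity) 8 (le_trans (by linarith : 1 + ‖β‖ ≤ 2002) (by norm_num))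
    push_cast at h3
    nlinarith

end Pool.Agent.W401.SSS
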