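import Pool.Agent.W401.SSS.Stm

open MeasureTheory Set Filter Topology

namespace Pool.Agent.W401.SSS

namespace NEGFaux

theorem gauss_pos (s : ℝ) (hs : 0 < s) :
    0 < ∫ w : ℂ, Real.exp (-(4 * s) * ‖w‖ ^ 2) := by
  rw [GaussianFourier.integral_rexp_neg_mul_sq_norm (V := ℂ) (b := 4 * s) (by linarith)]
  apply Real.rpow_pos_of_pos
  have := Real.pi_pos
  positivity

theorem gauss_int (s : ℝ) (hs : 0 < s) :
    Integrable (fun w : ℂ => Real.exp (-(4 * s) * ‖w‖ ^ 2)) :=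
  not_imp_comm.1 integral_undef (gauss_pos s hs).ne'

theorem par (w a b : ℂ) : ‖w - a‖ ^ 2 + ‖w - b‖ ^ 2
    = 2 * ‖w - (a + b) / 2‖ ^ 2 + ‖a - b‖ ^ 2 / 2 := by
  simp only [← Complex.normSq_eq_norm_sq, Complex.normSq_apply, Complex.sub_re, Complex.sub_im,
    Complex.div_ofNat_re, Complex.div_ofNat_im, Complex.add_re, Complex.add_im]
  ring

theorem gauss_prod (s : ℝ) (a b w : ℂ) :
    Real.exp (-(2 * s) * ‖w - a‖ ^ 2) * Real.exp (-(2 * s) * ‖w - b‖ ^ 2)
      = Real.exp (-(s * ‖a - b‖ ^ 2)) * Real.exp (-(4 * s) * ‖w - (a + b) / 2‖ ^ 2) := by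
  rw [← Real.exp_add, ← Real.exp_add]
  congr 1
  have := par w a b
  linear_combination (-(2 * s)) * this

theorem gauss_pair_int (s : ℝ) (hs : 0 < s) (a b : ℂ) :
    Integrable (fun w : ℂ => Real.exp (-(2 * s) * ‖w - a‖ ^ 2)
      * Real.exp (-(2 * s) * ‖w - b‖ ^ 2)) := by
  simp only [gauss_prod]
  exact ((gauss_int s hs).comp_sub_right ((a + b) / 2)).const_mul _

theorem gauss_pair (s : ℝ) (a b : ℂ) :
    ∫ w : ℂ, Real.exp (-(2 * s) * ‖w - a‖ ^ 2) * Real.exp (-(2 * s) * ‖w - b‖ ^ 2)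
      = Real.exp (-(s * ‖a - b‖ ^ 2)) * ∫ w : ℂ, Real.exp (-(4 * s) * ‖w‖ ^ 2) := by
  simp only [gauss_prod]
  rw [integral_const_mul]
  congr 1
  exact integral_sub_right_eq_self (fun w : ℂ => Real.exp (-(4 * s) * ‖w‖ ^ 2)) ((a + b) / 2)

theorem gauss_pd {ι : Type} [Fintype ι] (z : ι → ℂ) (c : ι → ℝ) (s : ℝ) (hs : 0 < s) :
    0 ≤ ∑ i, ∑ j, c i * c j * Real.exp (-(s * ‖z i - z j‖ ^ 2)) := by
  set K := ∫ w : ℂ, Real.exp (-(4 * s) * ‖w‖ ^ 2) with hK
  have hKpos : 0 < K := gauss_pos s hs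
  have h1 : (∑ i, ∑ j, c i * c j * Real.exp (-(s * ‖z i - z j‖ ^ 2))) * K
      = ∫ w : ℂ, (∑ i, c i * Real.exp (-(2 * s) * ‖w - z i‖ ^ 2)) ^ 2 := by
    have h2 : ∀ w : ℂ, (∑ i, c i * Real.exp (-(2 * s) * ‖w - z i‖ ^ 2)) ^ 2
        = ∑ i, ∑ j, c i * c j * (Real.exp (-(2 * s) * ‖w - z i‖ ^ 2)
          * Real.exp (-(2 * s) * ‖w - z j‖ ^ 2)) := by
      intro w
      rw [sq, Finset.sum_mul_sum]
      refine Finset.sum_congr rfl fun i _ => Finset.sum_congr rfl fun j _ => ?_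
      ring
    simp only [h2]
    rw [integral_finsetSum]
    · rw [Finset.sum_mul]
      refine Finset.sum_congr rfl fun i _ => ?_
      rw [integral_finsetSum]
      · rw [Finset.sum_mul]
        refine Finset.sum_congr rfl fun j _ => ?_
        rw [integral_const_mul, gauss_pair, mul_assoc]
      · intro j _
        exact (gauss_pair_int s hs _ _).const_mul _
    · intro i _
      exact integrable_finsetSum _ fun j _ => (gauss_pair_int s hs _ _).const_mul _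
  have h3 : 0 ≤ (∑ i, ∑ j, c i * c j * Real.exp (-(s * ‖z i - z j‖ ^ 2))) * K := by
    rw [h1]
    exact integral_nonneg fun w => sq_nonneg _
  exact nonneg_of_mul_nonneg_left h3 hKpos

theorem pow_pd {ι : Type} [Fintype ι] (q : ι → ι → ℝ) (c : ι → ℝ) (hq : ∀ i j, 0 < q i j)
    (h : ∀ s : ℝ, 0 < s → 0 ≤ ∑ i, ∑ j, c i * c j * Real.exp (-(q i j * s))) (p : ℝ) (hp : 0 < p) :
    0 ≤ ∑ i, ∑ j, c i * c j * (q i j) ^ (-p) := by
  have hG : 0 < Real.Gamma p := Real.Gamma_pos_of_pos hp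
  have hval : ∀ i j, ∫ t : ℝ in Ioi 0, t ^ (p - 1) * Real.exp (-(q i j * t))
      = (q i j) ^ (-p) * Real.Gamma p := by
    intro i j
    rw [Real.integral_rpow_mul_exp_neg_mul_Ioi hp (hq i j), one_div, Real.inv_rpow (hq i j).le,
      Real.rpow_neg (hq i j).le]
  have hint : ∀ i j, Integrable (fun t : ℝ => t ^ (p - 1) * Real.exp (-(q i j * t)))
      (volume.restrict (Ioi 0)) := by
    intro i j
    apply not_imp_comm.1 integral_undef
    rw [hval]
    exact (mul_pos (Real.rpow_pos_of_pos (hq i j) _) hG).ne'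
  have h1 : (∑ i, ∑ j, c i * c j * (q i j) ^ (-p)) * Real.Gamma p
      = ∫ t : ℝ in Ioi 0, t ^ (p - 1) * ∑ i, ∑ j, c i * c j * Real.exp (-(q i j * t)) := by
    have h2 : ∀ t : ℝ, t ^ (p - 1) * ∑ i, ∑ j, c i * c j * Real.exp (-(q i j * t))
        = ∑ i, ∑ j, c i * c j * (t ^ (p - 1) * Real.exp (-(q i j * t))) := by
      intro t
      rw [Finset.mul_sum]
      refine Finset.sum_congr rfl fun i _ => ?_
      rw [Finset.mul_sum]
      refine Finset.sum_congr rfl fun j _ => ?_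
      ring
    simp only [h2]
    rw [integral_finsetSum]
    · rw [Finset.sum_mul]
      refine Finset.sum_congr rfl fun i _ => ?_
      rw [integral_finsetSum]
      · rw [Finset.sum_mul]
        refine Finset.sum_congr rfl fun j _ => ?_
        rw [integral_const_mul, hval, mul_assoc]
      · intro j _
        exact (hint _ _).const_mul _
    · intro i _
      exact integrable_finsetSum _ fun j _ => (hint _ _).const_mul _
  have h3 : 0 ≤ (∑ i, ∑ j, c i * c j * (q i j) ^ (-p)) * Real.Gamma p := by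
    rw [h1]
    apply setIntegral_nonneg measurableSet_Ioi
    intro t ht
    have ht' : 0 < t := ht
    exact mul_nonneg (Real.rpow_nonneg ht'.le _) (h t ht')
  exact nonneg_of_mul_nonneg_left h3 hG

theorem log_nd {ι : Type} [Fintype ι] (q : ι → ι → ℝ) (c : ι → ℝ) (hq : ∀ i j, 0 < q i j)
    (hc : ∑ i, c i = 0) (h : ∀ p : ℝ, 0 < p → 0 ≤ ∑ i, ∑ j, c i * c j * (q i j) ^ (-p)) :
    ∑ i, ∑ j, c i * c j * Real.log (q i j) ≤ 0 := by
  have hF0 : ∑ i, ∑ j, c i * c j * (q i j) ^ (-(0 : ℝ)) = 0 := by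
    simp only [neg_zero, Real.rpow_zero, mul_one]
    rw [← Finset.sum_mul_sum, hc, zero_mul]
  have hder : HasDerivAt (fun p : ℝ => ∑ i, ∑ j, c i * c j * (q i j) ^ (-p))
      (∑ i, ∑ j, c i * c j * (-Real.log (q i j))) 0 := by
    apply HasDerivAt.fun_sum
    intro i _
    apply HasDerivAt.fun_sum
    intro j _
    apply HasDerivAt.const_mul
    have h1 : HasDerivAt (fun p : ℝ => (q i j) ^ (-p)) (((q i j) ^ (-(0 : ℝ)) * Real.log (q i j)) * (-1)) 0 := by
      have h2 : HasDerivAt (fun x : ℝ => (q i j) ^ x) ((q i j) ^ (-(0 : ℝ)) * Real.log (q i j)) (-(0 : ℝ)) :=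
        (Real.hasStrictDerivAt_const_rpow (hq i j) _).hasDerivAt
      exact h2.comp (0 : ℝ) (hasDerivAt_neg (0 : ℝ))
    have e : ((q i j) ^ (-(0 : ℝ)) * Real.log (q i j)) * (-1) = - Real.log (q i j) := by
      rw [neg_zero, Real.rpow_zero]; ring
    rw [e] at h1
    exact h1
  have hlim := hder.tendsto_slope_zero_right
  have hge : 0 ≤ ∑ i, ∑ j, c i * c j * (-Real.log (q i j)) := by
    refine ge_of_tendsto hlim ?_
    filter_upwards [self_mem_nhdsWithin] with t ht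
    have ht' : 0 < t := ht
    rw [hF0, sub_zero, zero_add, smul_eq_mul]
    exact mul_nonneg (inv_nonneg.mpr ht'.le) (h t ht')
  have h4 : ∑ i, ∑ j, c i * c j * (-Real.log (q i j)) = - ∑ i, ∑ j, c i * c j * Real.log (q i j) := by
    rw [← Finset.sum_neg_distrib]
    refine Finset.sum_congr rfl fun i _ => ?_
    rw [← Finset.sum_neg_distrib]
    refine Finset.sum_congr rfl fun j _ => ?_
    ring
  rw [h4] at hge
  linarith

end NEGFaux

theorem pNEGF : NEGF := by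
  intro ι _ z ρ c hρ hc
  have hq : ∀ i j, 0 < ‖z i - z j‖ ^ 2 + ρ i ^ 2 + ρ j ^ 2 := by
    intro i j
    have h1 := pow_pos (hρ i) 2
    have h2 := pow_pos (hρ j) 2
    have h3 := sq_nonneg ‖z i - z j‖
    linarith
  apply NEGFaux.log_nd (fun i j => ‖z i - z j‖ ^ 2 + ρ i ^ 2 + ρ j ^ 2) c hq hc
  apply NEGFaux.pow_pd _ c hq
  intro s hs
  have h1 := NEGFaux.gauss_pd z (fun i => c i * Real.exp (-(s * ρ i ^ 2))) s hs
  refine h1.trans_eq ?_
  refine Finset.sum_congr rfl fun i _ => Finset.sum_congr rfl fun j _ => ?_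
  have h2 : Real.exp (-((‖z i - z j‖ ^ 2 + ρ i ^ 2 + ρ j ^ 2) * s))
      = Real.exp (-(s * ρ i ^ 2)) * Real.exp (-(s * ρ j ^ 2)) * Real.exp (-(s * ‖z i - z j‖ ^ 2)) := by
    rw [← Real.exp_add, ← Real.exp_add]
    congr 1
    ring
  rw [h2]
  ring

end Pool.Agent.W401.SSS
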