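import Pool.Agent.W401.SSS.Stm

/-!
# SSS-NEGM
-/

set_option autoImplicit false

open MeasureTheory Polynomial

namespace Pool.Agent.W401.SSS

namespace NEGMaux

theorem ae_mem {B : ℝ} {μ : Measure ℝ} (h : On B μ) : ∀ᵐ x ∂μ, x ∈ Set.Icc 0 B := by
  rw [ae_iff]
  exact h.2

theorem int1 {B : ℝ} {μ : Measure ℝ} (h : On B μ) {f : ℝ → ℝ} (hf : Continuous f) :
    Integrable f μ := by
  have := h.1
  obtain ⟨C, hC⟩ := (isCompact_Icc (a := (0 : ℝ)) (b := B)).exists_bound_of_continuousOn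
    hf.continuousOn
  refine Integrable.of_bound hf.aestronglyMeasurable C ?_
  filter_upwards [ae_mem h] with x hx using hC x hx

theorem int2 {B : ℝ} {μ : Measure ℝ} (h : On B μ) {f : ℝ × ℝ → ℝ} (hf : Continuous f) :
    Integrable f (μ.prod μ) := by
  have := h.1
  obtain ⟨C, hC⟩ := ((isCompact_Icc (a := (0 : ℝ)) (b := B)).prod
    (isCompact_Icc (a := (0 : ℝ)) (b := B))).exists_bound_of_continuousOn hf.continuousOn
  refine Integrable.of_bound hf.aestronglyMeasurable C ?_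
  have h1 : ∀ᵐ p ∂(μ.prod μ), p.1 ∈ Set.Icc 0 B :=
    Measure.quasiMeasurePreserving_fst.ae (ae_mem h)
  have h2 : ∀ᵐ p ∂(μ.prod μ), p.2 ∈ Set.Icc 0 B :=
    Measure.quasiMeasurePreserving_snd.ae (ae_mem h)
  filter_upwards [h1, h2] with p hp1 hp2 using hC p ⟨hp1, hp2⟩

theorem En_le {B : ℝ} {μ : Measure ℝ} (h : On B μ) (he : Eint μ) {ρ : ℝ} (hρ : 0 < ρ) :
    2 * En μ ≤ ∫ p : ℝ × ℝ, Real.log ((p.1 - p.2) ^ 2 + 2 * ρ ^ 2) ∂(μ.prod μ) := by
  have := h.1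
  unfold En
  rw [← integral_const_mul]
  refine integral_mono_ae (he.2.const_mul 2) (int2 h ?_) ?_
  · refine Continuous.log (by fun_prop) fun p => ?_
    positivity
  · have h1 : ∀ᵐ p ∂(μ.prod μ), ¬ p.1 = p.2 := by
      rw [ae_iff]
      simpa using he.1
    filter_upwards [h1] with p hp
    have h2 : 0 < |p.1 - p.2| := abs_pos.mpr (sub_ne_zero.mpr hp)
    have h3 : 2 * Real.log |p.1 - p.2| = Real.log ((p.1 - p.2) ^ 2) := by
      rw [← sq_abs, Real.log_pow]; norm_num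
    show 2 * Real.log |p.1 - p.2| ≤ _
    rw [h3]
    refine Real.log_le_log ?_ ?_
    · rw [← sq_abs]; positivity
    · have : 0 < ρ ^ 2 := by positivity
      linarith

theorem J_close {B : ℝ} {μ : Measure ℝ} (h : On B μ) (α : ℂ) {r ρ : ℝ} (hr : 0 < r) (hρ : 0 < ρ) :
    |(∫ x : ℝ, Real.log (‖(x : ℂ) - α‖ ^ 2 + ρ ^ 2 + r ^ 2) ∂μ) -
      ∫ x : ℝ, Real.log (‖(x : ℂ) - α‖ ^ 2 + r ^ 2) ∂μ| ≤ ρ ^ 2 / r ^ 2 := by
  have := h.1
  have i1 : Integrable (fun x : ℝ => Real.log (‖(x : ℂ) - α‖ ^ 2 + ρ ^ 2 + r ^ 2)) μ := by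
    refine int1 h (Continuous.log (by fun_prop) fun p => ?_)
    positivity
  have i2 : Integrable (fun x : ℝ => Real.log (‖(x : ℂ) - α‖ ^ 2 + r ^ 2)) μ := by
    refine int1 h (Continuous.log (by fun_prop) fun p => ?_)
    positivity
  rw [← integral_sub i1 i2]
  have h1 := norm_integral_le_of_norm_le_const (μ := μ) (C := ρ ^ 2 / r ^ 2)
    (f := fun x : ℝ => Real.log (‖(x : ℂ) - α‖ ^ 2 + ρ ^ 2 + r ^ 2) -
      Real.log (‖(x : ℂ) - α‖ ^ 2 + r ^ 2)) (Filter.Eventually.of_forall fun x => ?_)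
  · simpa using h1
  · set q := ‖(x : ℂ) - α‖ ^ 2 with hq
    have hq0 : 0 ≤ q := by positivity
    have hr2 : 0 < r ^ 2 := by positivity
    have hρ2 : 0 < ρ ^ 2 := by positivity
    have h2 : 0 < q + r ^ 2 := by linarith
    have h3 : 0 ≤ Real.log (q + ρ ^ 2 + r ^ 2) - Real.log (q + r ^ 2) := by
      rw [sub_nonneg]
      exact Real.log_le_log h2 (by linarith)
    rw [Real.norm_of_nonneg h3, ← Real.log_div (by linarith) h2.ne']
    refine (Real.log_le_sub_one_of_pos (by positivity)).trans ?_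
    have h4 : (q + ρ ^ 2 + r ^ 2) / (q + r ^ 2) - 1 = ρ ^ 2 / (q + r ^ 2) := by
      field_simp; ring
    rw [h4]
    exact div_le_div_of_nonneg_left hρ2.le hr2 (by linarith)

end NEGMaux

open NEGMaux in
theorem pNEGM : NEGR → NEGM := by
  intro hN B μ hB he ι _ α b r hr
  set T := ∑ i, b i with hT
  set D := ∑ i, ∑ j, b i * b j * Real.log (‖α i - α j‖ ^ 2 + r i ^ 2 + r j ^ 2) with hD
  set J : ι → ℝ := fun i => ∫ x : ℝ, Real.log (‖(x : ℂ) - α i‖ ^ 2 + r i ^ 2) ∂μ with hJ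
  set C := 2 * |T| * ∑ i, |b i| / r i ^ 2 with hC
  have hC0 : 0 ≤ C := by
    rw [hC]; positivity
  have key : ∀ ρ : ℝ, 0 < ρ → T ^ 2 * (2 * En μ) - 2 * T * ∑ i, b i * J i + D ≤ C * ρ ^ 2 := by
    intro ρ hρ
    have h1 := hN B μ hB ι α b r ρ hr hρ
    have h2 := mul_le_mul_of_nonneg_left (En_le hB he hρ) (sq_nonneg T)
    have h3 : |T * ∑ i, b i * (∫ x : ℝ, Real.log (‖(x : ℂ) - α i‖ ^ 2 + ρ ^ 2 + r i ^ 2) ∂μ)
        - T * ∑ i, b i * J i| ≤ |T| * ∑ i, |b i| / r i ^ 2 * ρ ^ 2 := by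
      rw [← mul_sub, ← Finset.sum_sub_distrib, abs_mul]
      refine mul_le_mul_of_nonneg_left ?_ (abs_nonneg _)
      refine (Finset.abs_sum_le_sum_abs _ _).trans (Finset.sum_le_sum fun i _ => ?_)
      rw [← mul_sub, abs_mul]
      have h4 := J_close hB (α i) (hr i) hρ
      calc |b i| * |(∫ x : ℝ, Real.log (‖(x : ℂ) - α i‖ ^ 2 + ρ ^ 2 + r i ^ 2) ∂μ) - J i|
          ≤ |b i| * (ρ ^ 2 / r i ^ 2) := mul_le_mul_of_nonneg_left h4 (abs_nonneg _)
        _ = |b i| / r i ^ 2 * ρ ^ 2 := by ring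
    rw [← Finset.sum_mul] at h3
    have h5 := (abs_le.mp h3).2
    have h6 : C * ρ ^ 2 = 2 * (|T| * ((∑ i, |b i| / r i ^ 2) * ρ ^ 2)) := by
      rw [hC]; ring
    rw [h6]
    linarith
  by_contra hcon
  push Not at hcon
  set X := T ^ 2 * (2 * En μ) - 2 * T * ∑ i, b i * J i + D with hX
  have hX0 : 0 < X := hcon
  have h7 := key (Real.sqrt (X / (2 * (C + 1)))) (Real.sqrt_pos.mpr (by positivity))
  rw [Real.sq_sqrt (by positivity)] at h7
  have h8 : C * (X / (2 * (C + 1))) < X := by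
    rw [← mul_div_assoc, div_lt_iff₀ (by positivity)]
    nlinarith
  linarith

end Pool.Agent.W401.SSS
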