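import Pool.Agent.W401.SSS.Stm

/-!
# The energy inequality for measures, from the one for finite systems
-/

open MeasureTheory Filter Topology

namespace Pool.Agent.W401.SSS.NEGRaux

/-- The inequality for a measure seen through a map to a finite type. -/
theorem step (hN : NEGF) (μ : Measure ℝ) [IsProbabilityMeasure μ] {X : Type} [Fintype X]
    [MeasurableSpace X] [MeasurableSingletonClass X] (φ : ℝ → X) (hφ : Measurable φ) (v : X → ℝ)
    {ι : Type} [Fintype ι] (α : ι → ℂ) (b r : ι → ℝ) (ρ : ℝ) (hr : ∀ i, 0 < r i) (hρ : 0 < ρ) :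
    (∑ i, b i) ^ 2 * ∫ p : ℝ × ℝ, Real.log ((v (φ p.1) - v (φ p.2)) ^ 2 + 2 * ρ ^ 2) ∂(μ.prod μ)
    - 2 * (∑ i, b i) * ∑ i, b i *
        ∫ x : ℝ, Real.log (‖((v (φ x) : ℝ) : ℂ) - α i‖ ^ 2 + ρ ^ 2 + r i ^ 2) ∂μ
    + ∑ i, ∑ j, b i * b j * Real.log (‖α i - α j‖ ^ 2 + r i ^ 2 + r j ^ 2) ≤ 0 := by
  classical
  set T := ∑ i, b i with hT
  set ν : Measure X := μ.map φ with hν
  have hνp : IsProbabilityMeasure ν := Measure.isProbabilityMeasure_map hφ.aemeasurable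
  set w : X → ℝ := fun s => ν.real {s} with hw
  have hw1 : ∑ s, w s = 1 := by
    have h := integral_fintype (μ := ν) (f := fun _ : X => (1 : ℝ)) Integrable.of_finite
    simp at h
    simpa [hw] using h.symm
  have h1 : ∀ g : X → ℝ, ∫ x, g (φ x) ∂μ = ∑ s, w s * g s := by
    intro g
    have e1 : ∫ x, g (φ x) ∂μ = ∫ s, g s ∂ν := by
      rw [hν, integral_map hφ.aemeasurable]
      exact (measurable_of_finite g).aestronglyMeasurable
    rw [e1, integral_fintype Integrable.of_finite]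
    rfl
  have h2 : ∀ G : X → X → ℝ, ∫ p : ℝ × ℝ, G (φ p.1) (φ p.2) ∂(μ.prod μ)
      = ∑ s, ∑ t, w s * w t * G s t := by
    intro G
    have hm : Measurable (Prod.map φ φ) := hφ.prodMap hφ
    have e0 : (μ.prod μ).map (Prod.map φ φ) = ν.prod ν := by
      rw [hν, Measure.map_prod_map _ _ hφ hφ]
    have e1 : ∫ p : ℝ × ℝ, G (φ p.1) (φ p.2) ∂(μ.prod μ) = ∫ q : X × X, G q.1 q.2 ∂(ν.prod ν) := by
      rw [← e0, integral_map hm.aemeasurable]
      · rfl
      · exact (measurable_of_finite _).aestronglyMeasurable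
    rw [e1, integral_prod _ Integrable.of_finite, integral_fintype Integrable.of_finite]
    refine Finset.sum_congr rfl fun s _ => ?_
    rw [integral_fintype Integrable.of_finite, smul_eq_mul, Finset.mul_sum]
    refine Finset.sum_congr rfl fun t _ => ?_
    simp only [smul_eq_mul, hw]
    ring
  have key := hN (X ⊕ ι) (Sum.elim (fun s => ((v s : ℝ) : ℂ)) α) (Sum.elim (fun _ => ρ) r)
    (Sum.elim (fun s => T * w s) (fun i => - b i))
    (by rintro (s | i) <;> simp [hρ, hr])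
    (by
      rw [Fintype.sum_sum_type]
      simp only [Sum.elim_inl, Sum.elim_inr]
      rw [← Finset.mul_sum, hw1, Finset.sum_neg_distrib, ← hT]; ring)
  rw [Fintype.sum_sum_type] at key
  simp only [Fintype.sum_sum_type, Sum.elim_inl, Sum.elim_inr] at key
  have e2 := h2 (fun s t => Real.log ((v s - v t) ^ 2 + 2 * ρ ^ 2))
  have e1 : ∀ i, ∫ x : ℝ, Real.log (‖((v (φ x) : ℝ) : ℂ) - α i‖ ^ 2 + ρ ^ 2 + r i ^ 2) ∂μ
      = ∑ s, w s * Real.log (‖((v s : ℝ) : ℂ) - α i‖ ^ 2 + ρ ^ 2 + r i ^ 2) := fun i =>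
    h1 (fun s => Real.log (‖((v s : ℝ) : ℂ) - α i‖ ^ 2 + ρ ^ 2 + r i ^ 2))
  rw [e2]
  simp only [e1]
  refine le_of_eq_of_le ?_ key
  rw [Finset.sum_add_distrib, Finset.sum_add_distrib]
  have a1 : ∑ s : X, ∑ t : X, T * w s * (T * w t)
      * Real.log (‖((v s : ℝ) : ℂ) - ((v t : ℝ) : ℂ)‖ ^ 2 + ρ ^ 2 + ρ ^ 2)
      = T ^ 2 * ∑ s, ∑ t, w s * w t * Real.log ((v s - v t) ^ 2 + 2 * ρ ^ 2) := by
    rw [Finset.mul_sum]
    refine Finset.sum_congr rfl fun s _ => ?_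
    rw [Finset.mul_sum]
    refine Finset.sum_congr rfl fun t _ => ?_
    have : ‖((v s : ℝ) : ℂ) - ((v t : ℝ) : ℂ)‖ ^ 2 = (v s - v t) ^ 2 := by
      rw [← Complex.ofReal_sub, Complex.norm_real, Real.norm_eq_abs, sq_abs]
    rw [this]
    have e : (v s - v t) ^ 2 + ρ ^ 2 + ρ ^ 2 = (v s - v t) ^ 2 + 2 * ρ ^ 2 := by ring
    rw [e]; ring
  have a2 : ∑ s : X, ∑ i : ι, T * w s * (- b i)
      * Real.log (‖((v s : ℝ) : ℂ) - α i‖ ^ 2 + ρ ^ 2 + r i ^ 2)
      = - (T * ∑ i, b i * ∑ s, w s * Real.log (‖((v s : ℝ) : ℂ) - α i‖ ^ 2 + ρ ^ 2 + r i ^ 2)) := by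
    rw [Finset.sum_comm, Finset.mul_sum, ← Finset.sum_neg_distrib]
    refine Finset.sum_congr rfl fun i _ => ?_
    rw [Finset.mul_sum, Finset.mul_sum, ← Finset.sum_neg_distrib]
    refine Finset.sum_congr rfl fun s _ => ?_
    ring
  have a3 : ∑ i : ι, ∑ s : X, (- b i) * (T * w s)
      * Real.log (‖α i - ((v s : ℝ) : ℂ)‖ ^ 2 + r i ^ 2 + ρ ^ 2)
      = - (T * ∑ i, b i * ∑ s, w s * Real.log (‖((v s : ℝ) : ℂ) - α i‖ ^ 2 + ρ ^ 2 + r i ^ 2)) := by
    rw [Finset.mul_sum, ← Finset.sum_neg_distrib]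
    refine Finset.sum_congr rfl fun i _ => ?_
    rw [Finset.mul_sum, Finset.mul_sum, ← Finset.sum_neg_distrib]
    refine Finset.sum_congr rfl fun s _ => ?_
    rw [norm_sub_rev]
    have e : ‖((v s : ℝ) : ℂ) - α i‖ ^ 2 + r i ^ 2 + ρ ^ 2
      = ‖((v s : ℝ) : ℂ) - α i‖ ^ 2 + ρ ^ 2 + r i ^ 2 := by ring
    rw [e]; ring
  have a4 : ∑ i : ι, ∑ j : ι, (- b i) * (- b j)
      * Real.log (‖α i - α j‖ ^ 2 + r i ^ 2 + r j ^ 2)
      = ∑ i, ∑ j, b i * b j * Real.log (‖α i - α j‖ ^ 2 + r i ^ 2 + r j ^ 2) := by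
    refine Finset.sum_congr rfl fun i _ => Finset.sum_congr rfl fun j _ => ?_
    ring
  rw [a1, a2, a3, a4]
  ring

end Pool.Agent.W401.SSS.NEGRaux

namespace Pool.Agent.W401.SSS

open NEGRaux

theorem pNEGR : NEGF → NEGR := by
  intro hN B μ hμ ι _ α b r ρ hr hρ
  obtain ⟨hp, hB⟩ := hμ
  have hB0 : 0 ≤ B := by
    by_contra h
    rw [Set.Icc_eq_empty h, Set.compl_empty, measure_univ] at hB
    exact one_ne_zero hB
  set f : ℕ → SimpleFunc ℝ ℝ := SimpleFunc.approxOn id measurable_id (Set.Icc 0 B) 0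
    (Set.left_mem_Icc.2 hB0) with hf
  have hmem : ∀ n x, f n x ∈ Set.Icc 0 B := fun n x => SimpleFunc.approxOn_mem _ _ n x
  have hlim : ∀ x ∈ Set.Icc 0 B, Tendsto (fun n => f n x) atTop (𝓝 x) := by
    intro x hx
    exact SimpleFunc.tendsto_approxOn measurable_id _ (subset_closure hx)
  have hae : ∀ᵐ x ∂μ, x ∈ Set.Icc 0 B := by
    rw [ae_iff]; exact hB
  have haep : ∀ᵐ p ∂(μ.prod μ), p.1 ∈ Set.Icc 0 B ∧ p.2 ∈ Set.Icc 0 B := by
    have h1 : ∀ᵐ p ∂(μ.prod μ), p.1 ∈ Set.Icc 0 B :=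
      (Measure.quasiMeasurePreserving_fst (μ := μ) (ν := μ)).ae hae
    have h2 : ∀ᵐ p ∂(μ.prod μ), p.2 ∈ Set.Icc 0 B :=
      (Measure.quasiMeasurePreserving_snd (μ := μ) (ν := μ)).ae hae
    filter_upwards [h1, h2] with p a c using ⟨a, c⟩
  have key : ∀ n, (∑ i, b i) ^ 2
      * ∫ p : ℝ × ℝ, Real.log ((f n p.1 - f n p.2) ^ 2 + 2 * ρ ^ 2) ∂(μ.prod μ)
    - 2 * (∑ i, b i) * ∑ i, b i *
        ∫ x : ℝ, Real.log (‖((f n x : ℝ) : ℂ) - α i‖ ^ 2 + ρ ^ 2 + r i ^ 2) ∂μ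
    + ∑ i, ∑ j, b i * b j * Real.log (‖α i - α j‖ ^ 2 + r i ^ 2 + r j ^ 2) ≤ 0 := by
    intro n
    let φ : ℝ → (f n).range := fun x => ⟨f n x, SimpleFunc.mem_range_self _ _⟩
    have hφ : Measurable φ := (f n).measurable.subtype_mk
    exact step hN μ φ hφ (fun s => (s : ℝ)) α b r ρ hr hρ
  -- the two limits
  have bound : ∀ (c t M : ℝ), 0 < c → c ≤ t → t ≤ M → |Real.log t| ≤ |Real.log c| + |Real.log M| := by
    intro c t M hc h1 h2
    have l1 := Real.log_le_log hc h1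
    have l2 := Real.log_le_log (hc.trans_le h1) h2
    rw [abs_le]
    constructor
    · have := neg_abs_le (Real.log c)
      have := abs_nonneg (Real.log M)
      linarith
    · have := le_abs_self (Real.log M)
      have := abs_nonneg (Real.log c)
      linarith
  have L2 : Tendsto (fun n => ∫ p : ℝ × ℝ, Real.log ((f n p.1 - f n p.2) ^ 2 + 2 * ρ ^ 2)
      ∂(μ.prod μ)) atTop
      (𝓝 (∫ p : ℝ × ℝ, Real.log ((p.1 - p.2) ^ 2 + 2 * ρ ^ 2) ∂(μ.prod μ))) := by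
    refine tendsto_integral_of_dominated_convergence
      (fun _ => |Real.log (2 * ρ ^ 2)| + |Real.log (B ^ 2 + 2 * ρ ^ 2)|) ?_ (integrable_const _)
      ?_ ?_
    · intro n
      have m1 : Measurable (fun p : ℝ × ℝ => f n p.1) := (f n).measurable.comp measurable_fst
      have m2 : Measurable (fun p : ℝ × ℝ => f n p.2) := (f n).measurable.comp measurable_snd
      exact (Real.measurable_log.comp (((m1.sub m2).pow_const 2).add_const _)).aestronglyMeasurable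
    · intro n
      refine Eventually.of_forall fun p => ?_
      rw [Real.norm_eq_abs]
      refine bound _ _ _ (by positivity) (by nlinarith [sq_nonneg (f n p.1 - f n p.2)]) ?_
      have h1 := hmem n p.1
      have h2 := hmem n p.2
      have : (f n p.1 - f n p.2) ^ 2 ≤ B ^ 2 := by
        apply sq_le_sq'
        · linarith [h1.1, h2.2]
        · linarith [h1.2, h2.1]
      linarith
    · filter_upwards [haep] with p hp'
      have t1 := (((hlim _ hp'.1).sub (hlim _ hp'.2)).pow 2).add_const (2 * ρ ^ 2)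
      refine t1.log ?_
      have : 0 < 2 * ρ ^ 2 := by positivity
      nlinarith [sq_nonneg (p.1 - p.2)]
  have L1 : ∀ i, Tendsto (fun n => ∫ x : ℝ, Real.log (‖((f n x : ℝ) : ℂ) - α i‖ ^ 2 + ρ ^ 2
      + r i ^ 2) ∂μ) atTop
      (𝓝 (∫ x : ℝ, Real.log (‖(x : ℂ) - α i‖ ^ 2 + ρ ^ 2 + r i ^ 2) ∂μ)) := by
    intro i
    refine tendsto_integral_of_dominated_convergence
      (fun _ => |Real.log (ρ ^ 2 + r i ^ 2)| + |Real.log ((B + ‖α i‖) ^ 2 + ρ ^ 2 + r i ^ 2)|) ?_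
      (integrable_const _) ?_ ?_
    · intro n
      have m1 : Measurable (fun x : ℝ => ((f n x : ℝ) : ℂ)) :=
        Complex.measurable_ofReal.comp (f n).measurable
      exact (Real.measurable_log.comp
        ((((m1.sub_const (α i)).norm.pow_const 2).add_const _).add_const _)).aestronglyMeasurable
    · intro n
      refine Eventually.of_forall fun x => ?_
      rw [Real.norm_eq_abs]
      have hr0 := hr i
      refine bound _ _ _ (by positivity)
        (by nlinarith [sq_nonneg (‖((f n x : ℝ) : ℂ) - α i‖)]) ?_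
      have h1 := hmem n x
      have h2 : ‖((f n x : ℝ) : ℂ) - α i‖ ≤ B + ‖α i‖ := by
        refine (norm_sub_le _ _).trans ?_
        rw [Complex.norm_real, Real.norm_eq_abs, abs_of_nonneg h1.1]
        linarith [h1.2]
      have h3 : ‖((f n x : ℝ) : ℂ) - α i‖ ^ 2 ≤ (B + ‖α i‖) ^ 2 :=
        pow_le_pow_left₀ (norm_nonneg _) h2 2
      linarith
    · filter_upwards [hae] with x hx
      have t0 : Tendsto (fun n => ((f n x : ℝ) : ℂ)) atTop (𝓝 (x : ℂ)) :=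
        (Complex.continuous_ofReal.tendsto x).comp (hlim x hx)
      have t1 := ((((t0.sub_const (α i)).norm).pow 2).add_const (ρ ^ 2)).add_const (r i ^ 2)
      refine t1.log ?_
      have := hr i
      positivity
  have L : Tendsto (fun n => (∑ i, b i) ^ 2
      * ∫ p : ℝ × ℝ, Real.log ((f n p.1 - f n p.2) ^ 2 + 2 * ρ ^ 2) ∂(μ.prod μ)
    - 2 * (∑ i, b i) * ∑ i, b i *
        ∫ x : ℝ, Real.log (‖((f n x : ℝ) : ℂ) - α i‖ ^ 2 + ρ ^ 2 + r i ^ 2) ∂μ
    + ∑ i, ∑ j, b i * b j * Real.log (‖α i - α j‖ ^ 2 + r i ^ 2 + r j ^ 2)) atTop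
    (𝓝 ((∑ i, b i) ^ 2 * ∫ p : ℝ × ℝ, Real.log ((p.1 - p.2) ^ 2 + 2 * ρ ^ 2) ∂(μ.prod μ)
    - 2 * (∑ i, b i) * ∑ i, b i * ∫ x : ℝ, Real.log (‖(x : ℂ) - α i‖ ^ 2 + ρ ^ 2 + r i ^ 2) ∂μ
    + ∑ i, ∑ j, b i * b j * Real.log (‖α i - α j‖ ^ 2 + r i ^ 2 + r j ^ 2))) := by
    refine ((L2.const_mul _).sub (Tendsto.const_mul _ ?_)).add_const _
    exact tendsto_finset_sum _ fun i _ => (L1 i).const_mul _
  exact le_of_tendsto L (Eventually.of_forall key)

end Pool.Agent.W401.SSS
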