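import Pool.Agent.W401.SSS.Stm

set_option autoImplicit false

open MeasureTheory Polynomial

namespace Pool.Agent.W401.SSS

namespace NICEaux

lemma int_msum (ν : Measure ℝ) (g : ℂ → ℝ → ℝ) (s : Multiset ℂ)
    (h : ∀ α ∈ s, Integrable (g α) ν) :
    Integrable (fun x => (s.map (fun α => g α x)).sum) ν ∧
      ∫ x, (s.map (fun α => g α x)).sum ∂ν = (s.map (fun α => ∫ x, g α x ∂ν)).sum := by
  induction s using Multiset.induction_on with
  | empty => simp
  | cons a s ih =>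
    obtain ⟨h1, h2⟩ := ih (fun α hα => h α (Multiset.mem_cons_of_mem hα))
    have h3 := h a (Multiset.mem_cons_self a s)
    simp only [Multiset.map_cons, Multiset.sum_cons]
    refine ⟨h3.add h1, ?_⟩
    rw [integral_add h3 h1, h2]

lemma log_int (ν : Measure ℝ) [IsProbabilityMeasure ν] (Q : ℤ[X]) (hQ : Adm Q)
    (h0 : ν {x | ev Q x = 0} = 0)
    (h : ∀ α ∈ rts Q, Integrable (fun x : ℝ => Real.log ‖(x : ℂ) - α‖) ν) :
    Integrable (fun x => Real.log |ev Q x|) ν ∧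
      ∫ x, Real.log |ev Q x| ∂ν = Real.log (Q.leadingCoeff : ℝ) + rsum Q (Upot ν) := by
  obtain ⟨h1, h2⟩ := int_msum ν (fun α x => Real.log ‖(x : ℂ) - α‖) (rts Q) h
  have hae : (fun x => Real.log |ev Q x|) =ᵐ[ν] (fun x => Real.log (Q.leadingCoeff : ℝ) +
      ((rts Q).map (fun α => Real.log ‖(x : ℂ) - α‖)).sum) := by
    have h3 : ∀ᵐ x ∂ν, ev Q x ≠ 0 := by
      rw [ae_iff]
      simpa using h0
    filter_upwards [h3] with x hx
    exact hQ.log_abs_ev hx
  refine ⟨(integrable_congr hae).2 ((integrable_const _).add h1), ?_⟩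
  rw [integral_congr_ae hae, integral_add (integrable_const _) h1, h2, integral_const]
  simp only [probReal_univ, one_smul]
  rfl

lemma noAtoms (c : ℝ) (ν : Measure ℝ) [IsProbabilityMeasure ν] (h : Lip c ν) :
    NullSingletonClass ν := by
  refine ⟨fun x => ?_⟩
  have h1 := h x 0 le_rfl
  rw [add_zero, Set.Icc_self, mul_zero] at h1
  have h2 : (ν {x}).toReal = 0 := le_antisymm h1 ENNReal.toReal_nonneg
  rcases (ENNReal.toReal_eq_zero_iff _).1 h2 with h3 | h3
  · exact h3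
  · exact absurd h3 (measure_ne_top ν _)

end NICEaux

theorem pNICE : SMOO → UNIF → MIXL → FACT → INTEG → NICE := by
  intro hS hUn hM hF hI B ε μ hB hon har hei hε
  obtain ⟨s, hs0, hs1, hs2⟩ : ∃ s : ℝ, 0 < s ∧ s ≤ 1 ∧ 6 * s ≤ ε / 2 := by
    refine ⟨min 1 (ε / 12), lt_min one_pos (by linarith), min_le_left _ _, ?_⟩
    have := min_le_right 1 (ε / 12)
    linarith
  obtain ⟨ε', he0, he1, he2⟩ : ∃ ε' : ℝ, 0 < ε' ∧ ε' ≤ s / 10 ∧ ε' ≤ ε / 2 :=
    ⟨min (s / 10) (ε / 2), lt_min (by linarith) (by linarith), min_le_left _ _, min_le_right _ _⟩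
  obtain ⟨ν0, c0, hc0, hon0, hlip0, hmean0, hU0⟩ := hS B ε' μ (by linarith) hon hei he0
  obtain ⟨u, honu, hmeanu, hlipu, haru, hlogu, hQu⟩ := hUn
  have honu' : On (B + 1) u := by
    refine ⟨honu.1, measure_mono_null ?_ honu.2⟩
    exact Set.compl_subset_compl.2 (Set.Icc_subset_Icc_right (by linarith))
  have := hon0.1
  have := honu'.1
  have := hon.1
  obtain ⟨m1, m2, -, m4⟩ := hM (B + 1) s ν0 u hs0.le hs1 hon0 honu'
  have := m1.1
  have hmean0nn : 0 ≤ mean ν0 := by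
    unfold mean
    refine integral_nonneg_of_ae ?_
    have h3 : ∀ᵐ x ∂ν0, x ∈ Set.Icc 0 (B + 1) := by
      rw [ae_iff]
      exact hon0.2
    filter_upwards [h3] with x hx
    exact hx.1
  have hlip : Lip (c0 + 1) (mix s ν0 u) := by
    intro x δ hδ
    have h1 := hlip0 x δ hδ
    have h2 := hlipu x δ hδ
    have e1 : (mix s ν0 u (Set.Icc x (x + δ))).toReal
        = (1 - s) * (ν0 (Set.Icc x (x + δ))).toReal + s * (u (Set.Icc x (x + δ))).toReal := by
      unfold mix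
      rw [Measure.add_apply, Measure.smul_apply, Measure.smul_apply, smul_eq_mul, smul_eq_mul,
        ENNReal.toReal_add, ENNReal.toReal_mul, ENNReal.toReal_mul,
        ENNReal.toReal_ofReal (by linarith), ENNReal.toReal_ofReal hs0.le]
      · exact ENNReal.mul_ne_top ENNReal.ofReal_ne_top (measure_ne_top _ _)
      · exact ENNReal.mul_ne_top ENNReal.ofReal_ne_top (measure_ne_top _ _)
    rw [e1]
    have h3 : (1 - s) * (ν0 (Set.Icc x (x + δ))).toReal ≤ (1 - s) * (c0 * δ) :=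
      mul_le_mul_of_nonneg_left h1 (by linarith)
    have h4 : s * (u (Set.Icc x (x + δ))).toReal ≤ s * (1 / 12 * δ) :=
      mul_le_mul_of_nonneg_left h2 hs0.le
    have h5 : 0 ≤ s * (c0 * δ) := by positivity
    have h6 : s * δ ≤ 1 * δ := mul_le_mul_of_nonneg_right hs1 hδ
    nlinarith
  refine ⟨mix s ν0 u, c0 + 1, by linarith, m1, hlip, ?_, ?_⟩
  · refine hF (B + 1) _ m1 fun Q hQ => ?_
    have := NICEaux.noAtoms c0 ν0 hlip0
    have := NICEaux.noAtoms _ _ hlip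
    have hQ0 := hQ.ne_zero
    have z0 : ν0 {x | ev Q x = 0} = 0 := (finite_roots hQ0).measure_zero _
    have z1 : mix s ν0 u {x | ev Q x = 0} = 0 := (finite_roots hQ0).measure_zero _
    obtain ⟨i0, j0⟩ := NICEaux.log_int ν0 Q hQ z0 (fun α _ => (hU0 α).1)
    obtain ⟨k1, k2, k3⟩ := har Q hQ0
    have hImu := (hI B μ Q hon hQ0 ⟨k1, k2, k3⟩).1
    obtain ⟨i1, j1⟩ := NICEaux.log_int μ Q hQ k1 hImu
    obtain ⟨l1, l2, l3⟩ := haru Q hQ0
    obtain ⟨n1, n2⟩ := m2 _ i0 l2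
    refine ⟨z1, n1, ?_⟩
    rw [n2]
    have h1 : -(ε' * Q.natDegree) ≤ ∫ x, Real.log |ev Q x| ∂ν0 := by
      have h2 : rsum Q (fun α => Upot μ α - ε') ≤ rsum Q (Upot ν0) :=
        rsum_le Q _ _ fun α hα => (hU0 α).2 (hImu α hα)
      rw [rsum_sub Q (Upot μ) (fun _ => ε'), rsum_const] at h2
      rw [j1] at k3
      rw [j0]
      linarith
    have h2 : (Q.natDegree : ℝ) / 10 ≤ ∫ x, Real.log |ev Q x| ∂u := by
      have h3 := hQu Q hQ
      have h4 := hQ.deg_le_wt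
      linarith
    have hd : (0 : ℝ) ≤ Q.natDegree := Nat.cast_nonneg _
    have h3 : (1 - s) * (-(ε' * Q.natDegree)) ≤ (1 - s) * ∫ x, Real.log |ev Q x| ∂ν0 :=
      mul_le_mul_of_nonneg_left h1 (by linarith)
    have h4 : s * ((Q.natDegree : ℝ) / 10) ≤ s * ∫ x, Real.log |ev Q x| ∂u :=
      mul_le_mul_of_nonneg_left h2 hs0.le
    have h5 : ε' * (Q.natDegree : ℝ) ≤ s / 10 * Q.natDegree := mul_le_mul_of_nonneg_right he1 hd
    have h6 : 0 ≤ s * (ε' * Q.natDegree) := by positivity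
    nlinarith
  · rw [m4, hmeanu]
    have : 0 ≤ s * mean ν0 := by positivity
    linarith

end Pool.Agent.W401.SSS
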