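import Pool.Agent.W401.SSS.Stm

open MeasureTheory Polynomial Set

namespace Pool.Agent.W401.SSS.PKaux

theorem logM (a c : ℂ) :
    (Polynomial.C a * Polynomial.X + Polynomial.C c).logMahlerMeasure
      = Real.log (max ‖a‖ ‖c‖) := by
  rw [Polynomial.logMahlerMeasure_eq_log_MahlerMeasure]
  by_cases ha : a = 0
  · subst ha
    simp only [map_zero, zero_mul, zero_add, Polynomial.mahlerMeasure_const, norm_zero]
    rw [max_eq_right (norm_nonneg c)]
  · rw [Polynomial.mahlerMeasure_C_mul_X_add_C ha]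

theorem avg_eq (a c : ℂ) :
    ∫ θ in (0 : ℝ)..(2 * Real.pi), Real.log ‖a * circleMap 0 1 θ + c‖
      = 2 * Real.pi * Real.log (max ‖a‖ ‖c‖) := by
  have h := logM a c
  rw [Polynomial.logMahlerMeasure_def, Real.circleAverage_def] at h
  simp only [Polynomial.eval_add, Polynomial.eval_mul, Polynomial.eval_C, Polynomial.eval_X,
    smul_eq_mul] at h
  rw [← h]
  field_simp

theorem avg_int (a c : ℂ) :
    IntervalIntegrable (fun θ : ℝ => Real.log ‖a * circleMap 0 1 θ + c‖) volume 0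
      (2 * Real.pi) := by
  have h := Polynomial.intervalIntegrable_mahlerMeasure
    (p := Polynomial.C a * Polynomial.X + Polynomial.C c)
  simpa using h

/-- The function on the circle. -/
noncomputable def G (a c : ℂ) (θ : ℝ) : ℝ :=
  Real.log ‖a * circleMap 0 1 θ + c‖ - Real.log ‖circleMap 0 1 θ + 1‖

theorem G_per (a c : ℂ) : Function.Periodic (G a c) (2 * Real.pi) := by
  intro θ
  unfold G
  rw [periodic_circleMap 0 1 θ]

theorem G_int (a c : ℂ) : IntervalIntegrable (G a c) volume 0 (2 * Real.pi) := by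
  have h1 := avg_int a c
  have h2 := avg_int 1 1
  simp only [one_mul] at h2
  exact h1.sub h2

theorem G_int_eq (a c : ℂ) :
    ∫ θ in (0 : ℝ)..(2 * Real.pi), G a c θ = 2 * Real.pi * Real.log (max ‖a‖ ‖c‖) := by
  have h1 := avg_int a c
  have h2 := avg_int 1 1
  have e2 := avg_eq 1 1
  simp only [one_mul] at h2 e2
  unfold G
  rw [intervalIntegral.integral_sub h1 h2, avg_eq a c, e2]
  simp

theorem G_intOn (a c : ℂ) : IntegrableOn (G a c) (Ioo (-Real.pi) Real.pi) := by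
  have h := (G_per a c).intervalIntegrable₀ (by positivity) (G_int a c) (-Real.pi) Real.pi
  rw [intervalIntegrable_iff_integrableOn_Ioo_of_le (by linarith [Real.pi_pos])] at h
  exact h

theorem G_intOn_eq (a c : ℂ) :
    ∫ θ in Ioo (-Real.pi) Real.pi, G a c θ = 2 * Real.pi * Real.log (max ‖a‖ ‖c‖) := by
  rw [← MeasureTheory.integral_Ioc_eq_integral_Ioo,
    ← intervalIntegral.integral_of_le (by linarith [Real.pi_pos])]
  have h := (G_per a c).intervalIntegral_add_eq (-Real.pi) 0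
  rw [zero_add, show -Real.pi + 2 * Real.pi = Real.pi by ring] at h
  rw [h, G_int_eq]

/-- The substitution. -/
noncomputable def ph (t u : ℝ) : ℝ := 2 * Real.arctan (u / t)

theorem ph_deriv {t : ℝ} (ht : 0 < t) (u : ℝ) :
    HasDerivAt (ph t) (2 * t / (u ^ 2 + t ^ 2)) u := by
  unfold ph
  have h1 : HasDerivAt (fun u : ℝ => u / t) (1 / t) u := (hasDerivAt_id u).div_const t
  have h2 := (Real.hasDerivAt_arctan (u / t)).comp u h1
  have h3 := h2.const_mul 2
  refine h3.congr_deriv ?_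
  have : u ^ 2 + t ^ 2 ≠ 0 := by positivity
  field_simp
  ring

theorem ph_inj {t : ℝ} (ht : 0 < t) : Function.Injective (ph t) := by
  intro u v h
  unfold ph at h
  have h1 : Real.arctan (u / t) = Real.arctan (v / t) := by linarith
  have h2 := Real.arctan_injective h1
  field_simp at h2
  exact h2

theorem ph_image {t : ℝ} (ht : 0 < t) : ph t '' univ = Ioo (-Real.pi) Real.pi := by
  ext θ
  simp only [image_univ, mem_range, mem_Ioo]
  constructor
  · rintro ⟨u, rfl⟩
    unfold ph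
    have h1 := Real.neg_pi_div_two_lt_arctan (u / t)
    have h2 := Real.arctan_lt_pi_div_two (u / t)
    constructor <;> linarith
  · rintro ⟨h1, h2⟩
    refine ⟨t * Real.tan (θ / 2), ?_⟩
    unfold ph
    rw [mul_div_cancel_left₀ _ ht.ne', Real.arctan_tan (by linarith) (by linarith)]
    ring

theorem circ_ph {t : ℝ} (ht : 0 < t) (u : ℝ) :
    circleMap 0 1 (ph t u) = ((t : ℂ) + u * Complex.I) / ((t : ℂ) - u * Complex.I) := by
  have hne : ((t : ℂ) - u * Complex.I) ≠ 0 := by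
    intro h
    have := congrArg Complex.re h
    simp at this
    exact ht.ne' this
  have hc : (0 : ℝ) < Real.sqrt (1 + (u / t) ^ 2) := by positivity
  rw [circleMap_zero]
  have h1 : Complex.exp ((ph t u : ℝ) * Complex.I)
      = (Complex.exp ((Real.arctan (u / t) : ℝ) * Complex.I)) ^ 2 := by
    rw [← Complex.exp_nat_mul]
    congr 1
    unfold ph
    push_cast
    ring
  have h2 : Complex.exp ((Real.arctan (u / t) : ℝ) * Complex.I)
      = (1 + (u / t : ℝ) * Complex.I) / (Real.sqrt (1 + (u / t) ^ 2) : ℝ) := by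
    rw [Complex.exp_mul_I, ← Complex.ofReal_cos, ← Complex.ofReal_sin, Real.cos_arctan,
      Real.sin_arctan]
    push_cast
    ring
  rw [h1, h2, div_pow]
  have h3 : ((Real.sqrt (1 + (u / t) ^ 2) : ℝ) : ℂ) ^ 2 = ((1 + (u / t) ^ 2 : ℝ) : ℂ) := by
    rw [← Complex.ofReal_pow, Real.sq_sqrt (by positivity)]
  rw [h3]
  have h4 : ((1 + (u / t) ^ 2 : ℝ) : ℂ) ≠ 0 := by
    exact_mod_cast (by positivity : (1 + (u / t) ^ 2 : ℝ) ≠ 0)
  have ht' : (t : ℂ) ≠ 0 := by exact_mod_cast ht.ne'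
  rw [Complex.ofReal_one, one_mul, div_eq_div_iff h4 hne]
  push_cast
  field_simp
  have hI : Complex.I ^ 2 = -1 := Complex.I_sq
  have hI3 : Complex.I ^ 3 = -Complex.I := by rw [pow_succ, hI]; ring
  linear_combination (-(u : ℂ) ^ 2 * (t : ℂ) - (u : ℂ) ^ 3 * Complex.I) * hI

theorem G_ph {t : ℝ} (ht : 0 < t) (b : ℂ) (u : ℝ) (hu : (u : ℂ) ≠ b) :
    G (b + t * Complex.I) (b - t * Complex.I) (ph t u) = Real.log ‖(u : ℂ) - b‖ := by
  have hne : ((t : ℂ) - u * Complex.I) ≠ 0 := by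
    intro h
    have := congrArg Complex.re h
    simp at this
    exact ht.ne' this
  unfold G
  rw [circ_ph ht]
  have e1 : (b + t * Complex.I) * (((t : ℂ) + u * Complex.I) / ((t : ℂ) - u * Complex.I))
      + (b - t * Complex.I) = (2 * t * (b - u)) / ((t : ℂ) - u * Complex.I) := by
    rw [eq_div_iff hne, add_mul, mul_assoc, div_mul_cancel₀ _ hne]
    linear_combination (2 * (t : ℂ) * u) * Complex.I_sq
  have e2 : ((t : ℂ) + u * Complex.I) / ((t : ℂ) - u * Complex.I) + 1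
      = (2 * t) / ((t : ℂ) - u * Complex.I) := by
    rw [eq_div_iff hne, add_mul, div_mul_cancel₀ _ hne]
    ring
  rw [e1, e2, norm_div, norm_div]
  have hn : (0 : ℝ) < ‖(t : ℂ) - u * Complex.I‖ := norm_pos_iff.2 hne
  have ht2 : (0 : ℝ) < ‖(2 * t : ℂ)‖ := by
    rw [norm_pos_iff]
    have : (t : ℂ) ≠ 0 := by exact_mod_cast ht.ne'
    simpa using this
  have hb : (0 : ℝ) < ‖(u : ℂ) - b‖ := norm_pos_iff.2 (sub_ne_zero.2 hu)
  have hb2 : ‖b - (u : ℂ)‖ = ‖(u : ℂ) - b‖ := norm_sub_rev _ _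
  rw [← Real.log_div (by rw [norm_mul, hb2]; positivity) (by positivity)]
  congr 1
  rw [norm_mul, hb2]
  field_simp

/-- The integrand. -/
noncomputable def f (t : ℝ) (b : ℂ) (u : ℝ) : ℝ :=
  t / (Real.pi * (u ^ 2 + t ^ 2)) * Real.log ‖(u : ℂ) - b‖

theorem f_ae {t : ℝ} (ht : 0 < t) (b : ℂ) :
    (fun u => (1 / (2 * Real.pi)) *
      (|2 * t / (u ^ 2 + t ^ 2)| • G (b + t * Complex.I) (b - t * Complex.I) (ph t u)))
      =ᵐ[volume] f t b := by
  have h0 : ({b.re} : Set ℝ)ᶜ ∈ ae (volume : Measure ℝ) := by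
    rw [compl_mem_ae_iff]
    exact measure_singleton _
  filter_upwards [h0] with u hu
  have hub : (u : ℂ) ≠ b := by
    intro h
    apply hu
    rw [← h]
    simp
  rw [G_ph ht b u hub, abs_of_pos (by positivity), smul_eq_mul]
  unfold f
  have : u ^ 2 + t ^ 2 ≠ 0 := by positivity
  field_simp

theorem f_integrable {t : ℝ} (ht : 0 < t) (b : ℂ) : Integrable (f t b) := by
  have h := (integrableOn_image_iff_integrableOn_abs_deriv_smul (s := univ) MeasurableSet.univ
    (fun x _ => (ph_deriv ht x).hasDerivWithinAt) (ph_inj ht).injOn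
    (G (b + t * Complex.I) (b - t * Complex.I))).1
    (by rw [ph_image ht]; exact G_intOn _ _)
  rw [integrableOn_univ] at h
  exact (h.const_mul (1 / (2 * Real.pi))).congr (f_ae ht b)

theorem f_integral {t : ℝ} (ht : 0 < t) (b : ℂ) :
    ∫ u, f t b u = Real.log (max ‖b + t * Complex.I‖ ‖b - t * Complex.I‖) := by
  have h := integral_image_eq_integral_abs_deriv_smul (s := univ) MeasurableSet.univ
    (fun x _ => (ph_deriv ht x).hasDerivWithinAt) (ph_inj ht).injOn
    (G (b + t * Complex.I) (b - t * Complex.I))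
  rw [ph_image ht, G_intOn_eq, Measure.restrict_univ] at h
  rw [← integral_congr_ae (f_ae ht b), integral_const_mul, ← h]
  field_simp

theorem norm_sq_sum {t : ℝ} (b : ℂ) :
    ‖b + t * Complex.I‖ ^ 2 + ‖b - t * Complex.I‖ ^ 2 = 2 * (‖b‖ ^ 2 + t ^ 2) := by
  rw [← Complex.normSq_eq_norm_sq, ← Complex.normSq_eq_norm_sq, ← Complex.normSq_eq_norm_sq,
    Complex.normSq_apply, Complex.normSq_apply, Complex.normSq_apply]
  simp
  ring

theorem whole_ge {t : ℝ} (ht : 0 < t) (b : ℂ) :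
    (1 / 2) * Real.log (‖b‖ ^ 2 + t ^ 2) ≤ ∫ u, f t b u := by
  rw [f_integral ht]
  have h := norm_sq_sum (t := t) b
  have hp : 0 < ‖b‖ ^ 2 + t ^ 2 := by positivity
  set M := max ‖b + t * Complex.I‖ ‖b - t * Complex.I‖ with hM
  have h1 : ‖b + t * Complex.I‖ ≤ M := le_max_left _ _
  have h2 : ‖b - t * Complex.I‖ ≤ M := le_max_right _ _
  have h3 : ‖b‖ ^ 2 + t ^ 2 ≤ M ^ 2 := by
    have a1 : ‖b + t * Complex.I‖ ^ 2 ≤ M ^ 2 := pow_le_pow_left₀ (norm_nonneg _) h1 2
    have a2 : ‖b - t * Complex.I‖ ^ 2 ≤ M ^ 2 := pow_le_pow_left₀ (norm_nonneg _) h2 2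
    linarith
  have h4 := Real.log_le_log hp h3
  rw [Real.log_pow] at h4
  push_cast at h4
  linarith

/-- The comparison function for the tail. -/
noncomputable def g (t L u : ℝ) : ℝ := (t / Real.pi) * (u ^ (-(3 / 2) : ℝ) + L * u ^ (-2 : ℝ))

theorem g_intOn (t L : ℝ) : IntegrableOn (g t L) (Ioi 1) := by
  unfold g
  have h1 : IntegrableOn (fun u : ℝ => u ^ (-(3 / 2) : ℝ)) (Ioi 1) :=
    integrableOn_Ioi_rpow_of_lt (by norm_num) one_pos
  have h2 : IntegrableOn (fun u : ℝ => u ^ (-2 : ℝ)) (Ioi 1) :=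
    integrableOn_Ioi_rpow_of_lt (by norm_num) one_pos
  exact (h1.add (h2.const_mul L)).const_mul _

theorem g_int (t L : ℝ) : ∫ u in Ioi (1 : ℝ), g t L u = (t / Real.pi) * (2 + L) := by
  unfold g
  have h1 : IntegrableOn (fun u : ℝ => u ^ (-(3 / 2) : ℝ)) (Ioi 1) :=
    integrableOn_Ioi_rpow_of_lt (by norm_num) one_pos
  have h2 : IntegrableOn (fun u : ℝ => u ^ (-2 : ℝ)) (Ioi 1) :=
    integrableOn_Ioi_rpow_of_lt (by norm_num) one_pos
  rw [integral_const_mul, integral_add h1 (h2.const_mul L), integral_const_mul,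
    integral_Ioi_rpow_of_lt (by norm_num) one_pos, integral_Ioi_rpow_of_lt (by norm_num) one_pos]
  norm_num

theorem log_le_sqrt {u : ℝ} (hu : 0 ≤ u) : Real.log (1 + u) ≤ Real.sqrt u := by
  have h1 : 1 + u ≤ Real.exp (Real.sqrt u) := by
    set s := Real.sqrt u with hs
    have hs0 : 0 ≤ s := Real.sqrt_nonneg u
    have hu2 : u = s ^ 2 := (Real.sq_sqrt hu).symm
    have h := Real.sum_le_exp_of_nonneg hs0 4
    norm_num [Finset.sum_range_succ, Nat.factorial] at h
    rw [hu2]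
    have h5 : 1 + s ^ 2 ≤ 1 + s + s ^ 2 / 2 + s ^ 3 / 6 := by
      have : 0 ≤ s * (s ^ 2 - 3 * s + 6) := by
        apply mul_nonneg hs0
        nlinarith [sq_nonneg (s - 3 / 2)]
      nlinarith
    linarith
  calc Real.log (1 + u) ≤ Real.log (Real.exp (Real.sqrt u)) :=
        Real.log_le_log (by positivity) h1
    _ = Real.sqrt u := Real.log_exp _

theorem tail_pt {t : ℝ} (ht : 0 < t) (b : ℂ) {v : ℝ} (hv : 1 < v) {u : ℝ} (hu : |u| = v) :
    f t b u ≤ g t (Real.log (1 + ‖b‖)) v := by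
  unfold f g
  have hv0 : 0 < v := by linarith
  have hu2 : u ^ 2 = v ^ 2 := by rw [← hu, sq_abs]
  rw [hu2]
  have hL : 0 ≤ Real.log (1 + ‖b‖) := Real.log_nonneg (by linarith [norm_nonneg b])
  have e1 : v ^ (-(3 / 2) : ℝ) = Real.sqrt v / v ^ 2 := by
    rw [Real.sqrt_eq_rpow, ← Real.rpow_natCast v 2, ← Real.rpow_sub hv0]
    norm_num
  have e2 : v ^ (-2 : ℝ) = 1 / v ^ 2 := by
    rw [Real.rpow_neg hv0.le, one_div]
    norm_num
  rw [e1, e2]
  have hlog : Real.log ‖(u : ℂ) - b‖ ≤ Real.sqrt v + Real.log (1 + ‖b‖) := by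
    by_cases h0 : ‖(u : ℂ) - b‖ = 0
    · rw [h0, Real.log_zero]
      positivity
    · have hpos : 0 < ‖(u : ℂ) - b‖ := lt_of_le_of_ne (norm_nonneg _) (Ne.symm h0)
      have h1 : ‖(u : ℂ) - b‖ ≤ (1 + v) * (1 + ‖b‖) := by
        have := norm_sub_le (u : ℂ) b
        rw [Complex.norm_real, Real.norm_eq_abs, hu] at this
        nlinarith [norm_nonneg b]
      have h2 := Real.log_le_log hpos h1
      rw [Real.log_mul (by positivity) (by positivity)] at h2
      have h3 := log_le_sqrt hv0.le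
      linarith
  have hs : 0 ≤ Real.sqrt v + Real.log (1 + ‖b‖) := by positivity
  calc t / (Real.pi * (v ^ 2 + t ^ 2)) * Real.log ‖(u : ℂ) - b‖
      ≤ t / (Real.pi * (v ^ 2 + t ^ 2)) * (Real.sqrt v + Real.log (1 + ‖b‖)) := by
        gcongr
    _ ≤ t / (Real.pi * v ^ 2) * (Real.sqrt v + Real.log (1 + ‖b‖)) := by
        gcongr
        nlinarith [sq_nonneg t]
    _ = _ := by
        field_simp

theorem tail_pos {t : ℝ} (ht : 0 < t) (b : ℂ) :
    ∫ u in Ioi (1 : ℝ), f t b u ≤ (t / Real.pi) * (2 + Real.log (1 + ‖b‖)) := by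
  rw [← g_int]
  refine setIntegral_mono_on (f_integrable ht b).integrableOn (g_intOn t _) measurableSet_Ioi ?_
  intro u hu
  have hu' : (1 : ℝ) < u := hu
  exact tail_pt ht b hu' (abs_of_pos (by linarith))

theorem tail_neg {t : ℝ} (ht : 0 < t) (b : ℂ) :
    ∫ u in Iic (-1 : ℝ), f t b u ≤ (t / Real.pi) * (2 + Real.log (1 + ‖b‖)) := by
  have h1 : ∫ u in Ioi (1 : ℝ), f t b (-u) = ∫ u in Iic (-1 : ℝ), f t b u := by
    rw [integral_comp_neg_Ioi]
  rw [← h1, ← g_int]
  refine setIntegral_mono_on ?_ (g_intOn t _) measurableSet_Ioi ?_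
  · exact ((f_integrable ht b).comp_neg).integrableOn
  · intro u hu
    have hu' : (1 : ℝ) < u := hu
    exact tail_pt ht b hu' (by rw [abs_neg, abs_of_pos (by linarith)])

end Pool.Agent.W401.SSS.PKaux

namespace Pool.Agent.W401.SSS

open PKaux in
theorem pPK : PK := by
  intro t b ht ht1
  have hf := f_integrable ht b
  refine ⟨hf.intervalIntegrable, ?_⟩
  change _ ≤ ∫ u in (-1 : ℝ)..1, f t b u
  have hw := whole_ge ht b
  have h1 := tail_pos ht b
  have h2 := tail_neg ht b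
  have hsplit : ∫ u, f t b u = (∫ u in Iic (-1 : ℝ), f t b u) + (∫ u in (-1 : ℝ)..1, f t b u)
      + ∫ u in Ioi (1 : ℝ), f t b u := by
    have e1 := intervalIntegral.integral_Iic_sub_Iic (μ := volume) (f := f t b) (a := -1) (b := 1)
      hf.integrableOn hf.integrableOn
    have e2 := intervalIntegral.integral_Iic_add_Ioi (μ := volume) (f := f t b) (b := 1)
      hf.integrableOn hf.integrableOn
    rw [← e1, ← e2]
    ring
  have hL : 0 ≤ Real.log (1 + ‖b‖) := Real.log_nonneg (by linarith [norm_nonneg b])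
  have hpi : 3 < Real.pi := Real.pi_gt_three
  have h3 : (t / Real.pi) * (2 + Real.log (1 + ‖b‖)) ≤ t * (1 + Real.log (1 + ‖b‖)) := by
    rw [div_mul_eq_mul_div, div_le_iff₀ Real.pi_pos]
    have : 2 + Real.log (1 + ‖b‖) ≤ (1 + Real.log (1 + ‖b‖)) * Real.pi := by nlinarith
    nlinarith
  linarith

end Pool.Agent.W401.SSS
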