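import Pool.Agent.W401.SSS.Stm

open MeasureTheory Polynomial

namespace Pool.Agent.W401.SSS

namespace POLYaux

theorem ms (μ : Measure ℝ) (G : Set ℝ) (C1 : ℝ)
    (h : ∀ β : ℂ, IntegrableOn (fun x : ℝ => Real.log ‖(x : ℂ) - β‖) G μ ∧
    (μ G).toReal * (Real.log (1 + ‖β‖) - C1) ≤ ∫ x in G, Real.log ‖(x : ℂ) - β‖ ∂μ)
    (s : Multiset ℂ) :
    IntegrableOn (fun x : ℝ => (s.map (fun ζ => Real.log ‖(x : ℂ) - ζ‖)).sum) G μ ∧
    (μ G).toReal * (s.map (fun ζ => Real.log (1 + ‖ζ‖) - C1)).sum ≤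
      ∫ x in G, (s.map (fun ζ => Real.log ‖(x : ℂ) - ζ‖)).sum ∂μ := by
  induction s using Multiset.induction_on with
  | empty => simp
  | cons a s ih =>
    obtain ⟨h1, h2⟩ := h a
    obtain ⟨i1, i2⟩ := ih
    simp only [Multiset.map_cons, Multiset.sum_cons]
    refine ⟨h1.add i1, ?_⟩
    rw [integral_add h1 i1, mul_add]
    exact add_le_add h2 i2

theorem ms2 (z0 : ℂ) (C1 : ℝ) (s : Multiset ℂ) (hs : ∀ ζ ∈ s, z0 ≠ ζ) :
    (s.map (fun ζ => Real.log ‖z0 - ζ‖)).sum ≤
      (s.map (fun ζ => Real.log (1 + ‖ζ‖) - C1)).sum +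
        (Multiset.card s : ℝ) * (C1 + Real.log (1 + ‖z0‖)) := by
  induction s using Multiset.induction_on with
  | empty => simp
  | cons a s ih =>
    have ih' := ih (fun ζ hζ => hs ζ (Multiset.mem_cons_of_mem hζ))
    have ha := hs a (Multiset.mem_cons_self a s)
    simp only [Multiset.map_cons, Multiset.sum_cons, Multiset.card_cons]
    push_cast
    have h1 : 0 < ‖z0 - a‖ := norm_pos_iff.2 (sub_ne_zero.2 ha)
    have h2 : ‖z0 - a‖ ≤ (1 + ‖a‖) * (1 + ‖z0‖) := by
      have := norm_sub_le z0 a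
      nlinarith [norm_nonneg a, norm_nonneg z0, mul_nonneg (norm_nonneg a) (norm_nonneg z0)]
    have h3 : Real.log ‖z0 - a‖ ≤ Real.log (1 + ‖a‖) + Real.log (1 + ‖z0‖) := by
      rw [← Real.log_mul (by positivity) (by positivity)]
      exact Real.log_le_log h1 h2
    linarith

theorem log_eval (P : ℂ[X]) (z : ℂ) (hz : P.eval z ≠ 0) :
    Real.log ‖P.eval z‖ = Real.log ‖P.leadingCoeff‖ +
      (P.roots.map (fun ζ => Real.log ‖z - ζ‖)).sum := by
  have hP : P ≠ 0 := by rintro rfl; simp at hz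
  have h2 := (IsAlgClosed.splits P).eq_prod_roots
  have h3 : P.eval z = P.leadingCoeff * (P.roots.map (fun α => z - α)).prod := by
    conv_lhs => rw [h2]
    rw [Polynomial.eval_mul, Polynomial.eval_C, Polynomial.eval_multiset_prod,
      Multiset.map_map]
    congr 3
    ext α
    simp
  have h4 : ∀ s : Multiset ℂ, ‖(s.map (fun α => z - α)).prod‖ = (s.map (fun α => ‖z - α‖)).prod := by
    intro s
    induction s using Multiset.induction_on with
    | empty => simp
    | cons a s ih => simp [ih]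
  have hne : ∀ α ∈ P.roots, ‖z - α‖ ≠ 0 := by
    intro α hα h0
    rw [norm_eq_zero, sub_eq_zero] at h0
    subst h0
    exact hz ((Polynomial.mem_roots hP).1 hα)
  have h := log_prod_map P.roots (fun α => ‖z - α‖) hne
  rw [h3, norm_mul, h4, Real.log_mul _ h.2, h.1]
  simpa using hP

end POLYaux

theorem pPOLY : POLY := by
  intro μ G C1 hμ hatom hG hC1 hβ P z0 hz0
  have hP : P ≠ 0 := by rintro rfl; simp at hz0
  obtain ⟨i1, i2⟩ := POLYaux.ms μ G C1 hβ P.roots
  have hnull : μ {x : ℝ | P.eval (x : ℂ) = 0} = 0 := by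
    have hfin : {x : ℝ | P.eval (x : ℂ) = 0}.Finite := by
      have h1 : {z : ℂ | P.eval z = 0}.Finite := by
        have := P.roots.toFinset.finite_toSet
        refine this.subset ?_
        intro z hz
        simp only [Finset.mem_coe, Multiset.mem_toFinset]
        exact (Polynomial.mem_roots hP).2 hz
      exact h1.preimage (Complex.ofReal_injective.injOn)
    rw [← Set.biUnion_of_singleton {x : ℝ | P.eval (x : ℂ) = 0}]
    exact (measure_biUnion_null_iff hfin.countable).2 (fun x _ => hatom x)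
  have hae : ∀ᵐ x : ℝ ∂(μ.restrict G), Real.log ‖P.leadingCoeff‖ +
      (P.roots.map (fun ζ => Real.log ‖(x : ℂ) - ζ‖)).sum = Real.log ‖P.eval (x : ℂ)‖ := by
    have h1 : ∀ᵐ x : ℝ ∂μ, P.eval (x : ℂ) ≠ 0 := by
      rw [ae_iff]
      simpa using hnull
    filter_upwards [ae_restrict_of_ae h1] with x hx
    exact (POLYaux.log_eval P x hx).symm
  have hcI : IntegrableOn (fun _ : ℝ => Real.log ‖P.leadingCoeff‖) G μ := integrableOn_const
  have hI := hcI.add i1
  have hint : ∫ x in G, Real.log ‖P.eval (x : ℂ)‖ ∂μ = (μ G).toReal * Real.log ‖P.leadingCoeff‖ +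
      ∫ x in G, (P.roots.map (fun ζ => Real.log ‖(x : ℂ) - ζ‖)).sum ∂μ := by
    rw [← integral_congr_ae hae, integral_add hcI i1]
    congr 1
    rw [setIntegral_const, smul_eq_mul]
    rfl
  refine ⟨hI.congr hae, ?_⟩
  rw [hint, POLYaux.log_eval P z0 hz0]
  have h5 := POLYaux.ms2 z0 C1 P.roots (fun ζ hζ h => by
    subst h
    exact hz0 ((Polynomial.mem_roots hP).1 hζ))
  have hcard : (Multiset.card P.roots : ℝ) = P.natDegree := by
    rw [(Polynomial.splits_iff_card_roots.1 (IsAlgClosed.splits P))]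
  rw [hcard] at h5
  have hμ0 : 0 ≤ (μ G).toReal := ENNReal.toReal_nonneg
  have h6 := mul_le_mul_of_nonneg_left h5 hμ0
  rw [mul_add] at h6
  have e : (μ G).toReal * ((P.natDegree : ℝ) * (C1 + Real.log (1 + ‖z0‖))) =
      (μ G).toReal * (P.natDegree : ℝ) * (C1 + Real.log (1 + ‖z0‖)) := by ring
  rw [mul_add]
  linarith

end Pool.Agent.W401.SSS
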