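import Pool.Agent.W401.SSS.Stm

/-!
# A point where the logarithmic derivative is far from one (step PT)
-/

open MeasureTheory Polynomial

namespace Pool.Agent.W401.SSS

namespace PTaux

/-- The kernel `|t|^{-1/2}`. -/
noncomputable def k (t : ℝ) : ℝ := (Real.sqrt |t|)⁻¹

theorem rp_nonpos {t : ℝ} (ht : t ≤ 0) : t ^ (-(1 / 2) : ℝ) = 0 := by
  rcases ht.eq_or_lt with rfl | h
  · exact Real.zero_rpow (by norm_num)
  · rw [Real.rpow_def_of_neg h]
    have : Real.cos (-(1 / 2) * Real.pi) = 0 := by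
      rw [show -(1 / 2) * Real.pi = -(Real.pi / 2) by ring, Real.cos_neg, Real.cos_pi_div_two]
    rw [this, mul_zero]

theorem rp_pos {t : ℝ} (ht : 0 < t) : t ^ (-(1 / 2) : ℝ) = (Real.sqrt t)⁻¹ := by
  rw [Real.rpow_neg ht.le, Real.sqrt_eq_rpow]

theorem k_eq (t : ℝ) : k t = t ^ (-(1 / 2) : ℝ) + (-t) ^ (-(1 / 2) : ℝ) := by
  rcases lt_trichotomy t 0 with h | h | h
  · rw [rp_nonpos h.le, rp_pos (by linarith), k, abs_of_neg h, zero_add]
  · subst h
    rw [rp_nonpos le_rfl, rp_nonpos (by simp)]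
    simp [k]
  · rw [rp_nonpos (by linarith : -t ≤ 0), rp_pos h, k, abs_of_pos h, add_zero]

theorem sqrt_sub (p L : ℝ) (hL : 0 ≤ L) : Real.sqrt (p + L) - Real.sqrt p ≤ Real.sqrt L := by
  rcases le_or_gt 0 p with h | h
  · have h1 : Real.sqrt (p + L) ≤ Real.sqrt p + Real.sqrt L := by
      rw [Real.sqrt_le_left (by positivity)]
      nlinarith [Real.sq_sqrt h, Real.sq_sqrt hL, Real.sqrt_nonneg p, Real.sqrt_nonneg L,
        mul_nonneg (Real.sqrt_nonneg p) (Real.sqrt_nonneg L)]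
    linarith
  · have h1 : Real.sqrt (p + L) ≤ Real.sqrt L := Real.sqrt_le_sqrt (by linarith)
    have := Real.sqrt_nonneg p
    linarith

theorem rp_int (p q : ℝ) (hpq : p ≤ q) :
    IntervalIntegrable (fun t : ℝ => t ^ (-(1 / 2) : ℝ)) volume p q ∧
    ∫ t in p..q, t ^ (-(1 / 2) : ℝ) ≤ 2 * Real.sqrt (q - p) := by
  refine ⟨intervalIntegral.intervalIntegrable_rpow' (by norm_num), ?_⟩
  rw [integral_rpow (Or.inl (by norm_num))]
  rw [show (-(1 / 2) + 1 : ℝ) = 1 / 2 by norm_num, ← Real.sqrt_eq_rpow, ← Real.sqrt_eq_rpow]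
  have := sqrt_sub p (q - p) (by linarith)
  rw [show p + (q - p) = q by ring] at this
  rw [div_le_iff₀ (by norm_num)]
  linarith

theorem k_int (a L : ℝ) (hL : 0 ≤ L) :
    IntegrableOn (fun x => k (x - a)) (Set.Ioc 0 L) ∧
      ∫ x in Set.Ioc 0 L, k (x - a) ≤ 4 * Real.sqrt L := by
  have h1 := rp_int (0 - a) (L - a) (by linarith)
  have h2 := rp_int (a - L) (a - 0) (by linarith)
  have i1 : IntervalIntegrable (fun x : ℝ => (x - a) ^ (-(1 / 2) : ℝ)) volume 0 L := by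
    have := h1.1.comp_sub_right a
    simpa using this
  have i2 : IntervalIntegrable (fun x : ℝ => (a - x) ^ (-(1 / 2) : ℝ)) volume 0 L := by
    have := h2.1.comp_sub_left a
    simpa using this.symm
  have e : (fun x => k (x - a)) = fun x : ℝ => (x - a) ^ (-(1 / 2) : ℝ)
      + (a - x) ^ (-(1 / 2) : ℝ) := by
    ext x
    rw [k_eq, neg_sub]
  have i3 : IntervalIntegrable (fun x => k (x - a)) volume 0 L := by
    rw [e]; exact i1.add i2
  refine ⟨(intervalIntegrable_iff_integrableOn_Ioc_of_le hL).1 i3, ?_⟩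
  rw [← intervalIntegral.integral_of_le hL, e, intervalIntegral.integral_add i1 i2,
    intervalIntegral.integral_comp_sub_right (fun x : ℝ => x ^ (-(1 / 2) : ℝ)),
    intervalIntegral.integral_comp_sub_left (fun x : ℝ => x ^ (-(1 / 2) : ℝ))]
  have h3 := h1.2
  have h4 := h2.2
  rw [show L - a - (0 - a) = L by ring] at h3
  rw [show a - 0 - (a - L) = L by ring] at h4
  linarith

theorem inv_le (u v : ℝ) (hu : u ≠ 0) (hv : v ≠ 0) (r : ℝ) (hr : 0 ≤ r)
    (h : r ^ 2 = u ^ 2 + v ^ 2) : r⁻¹ ≤ k u * k v := by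
  unfold k
  have hu' : 0 < |u| := abs_pos.2 hu
  have hv' : 0 < |v| := abs_pos.2 hv
  rw [← mul_inv]
  have hpos : 0 < Real.sqrt |u| * Real.sqrt |v| := by positivity
  apply inv_anti₀ hpos
  rw [← Real.sqrt_mul hu'.le]
  rw [Real.sqrt_le_left hr, h, ← sq_abs u, ← sq_abs v]
  nlinarith [sq_nonneg (|u| - |v|), mul_pos hu' hv']

/-- A point close to no `α i` in the average sense. -/
theorem exists_pt (ι : Type) [Fintype ι] (α : ι → ℂ) (v : ι → ℝ) (hv : ∀ i, 0 ≤ v i) {V L : ℝ}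
    (hL : 0 < L) (hV : ∑ i, v i ≤ V) :
    ∃ z : ℂ, ‖z‖ ≤ 2 * L ∧ (∀ i, z ≠ α i) ∧ ∑ i, v i * ‖z - α i‖⁻¹ ≤ V * (16 / L) := by
  set m : Measure ℝ := volume.restrict (Set.Ioc 0 L) with hm
  have hmf : IsFiniteMeasure m := by
    rw [hm]; infer_instance
  have hmu : m Set.univ = ENNReal.ofReal L := by
    rw [hm]; simp
  set μ : Measure (ℝ × ℝ) := m.prod m with hμ
  have hμu : μ Set.univ = ENNReal.ofReal L * ENNReal.ofReal L := by
    rw [hμ, ← Set.univ_prod_univ, Measure.prod_prod, hmu]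
  have hμ0 : μ ≠ 0 := by
    intro h
    rw [h] at hμu
    simp at hμu
    linarith
  set f : ℝ × ℝ → ℝ := fun p => ∑ i, v i * (k (p.1 - (α i).re) * k (p.2 - (α i).im)) with hf
  have hi : ∀ i, Integrable (fun p : ℝ × ℝ => v i * (k (p.1 - (α i).re) * k (p.2 - (α i).im)))
      μ := fun i =>
    (Integrable.mul_prod (k_int (α i).re L hL.le).1 (k_int (α i).im L hL.le).1).const_mul _
  have hfi : Integrable f μ := integrable_finsetSum _ fun i _ => hi i
  have hint : ∫ p, f p ∂μ ≤ V * (16 * L) := by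
    rw [hf, integral_finsetSum _ fun i _ => hi i]
    have h1 : ∀ i, ∫ p : ℝ × ℝ, v i * (k (p.1 - (α i).re) * k (p.2 - (α i).im)) ∂μ
        ≤ v i * (16 * L) := by
      intro i
      rw [integral_const_mul]
      apply mul_le_mul_of_nonneg_left _ (hv i)
      rw [hμ, integral_prod_mul (fun x => k (x - (α i).re)) (fun x => k (x - (α i).im))]
      have a1 := (k_int (α i).re L hL.le).2
      have a2 := (k_int (α i).im L hL.le).2
      have b1 : 0 ≤ ∫ x in Set.Ioc 0 L, k (x - (α i).re) :=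
        integral_nonneg fun x => by unfold k; positivity
      have b2 : 0 ≤ ∫ x in Set.Ioc 0 L, k (x - (α i).im) :=
        integral_nonneg fun x => by unfold k; positivity
      calc _ ≤ (4 * Real.sqrt L) * (4 * Real.sqrt L) := by
            exact mul_le_mul a1 a2 b2 (by positivity)
        _ = 16 * (Real.sqrt L * Real.sqrt L) := by ring
        _ = 16 * L := by rw [Real.mul_self_sqrt hL.le]
    calc _ ≤ ∑ i, v i * (16 * L) := Finset.sum_le_sum fun i _ => h1 i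
      _ = (∑ i, v i) * (16 * L) := by rw [Finset.sum_mul]
      _ ≤ V * (16 * L) := by gcongr
  -- the bad null set
  have hae : ∀ᵐ p ∂μ, p.1 ∈ Set.Ioc 0 L ∧ p.2 ∈ Set.Ioc 0 L ∧
      ∀ i, p.1 ≠ (α i).re ∧ p.2 ≠ (α i).im := by
    have e1 : ∀ᵐ x ∂m, x ∈ Set.Ioc 0 L := by
      rw [hm]; exact ae_restrict_mem measurableSet_Ioc
    have c1 : ∀ᵐ p ∂μ, p.1 ∈ Set.Ioc 0 L := Measure.quasiMeasurePreserving_fst.ae e1
    have c2 : ∀ᵐ p ∂μ, p.2 ∈ Set.Ioc 0 L := Measure.quasiMeasurePreserving_snd.ae e1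
    have c3 : ∀ᵐ p ∂μ, ∀ i, p.1 ≠ (α i).re := by
      rw [Filter.eventually_all]
      intro i
      exact Measure.quasiMeasurePreserving_fst.ae (Measure.ae_ne m _)
    have c4 : ∀ᵐ p ∂μ, ∀ i, p.2 ≠ (α i).im := by
      rw [Filter.eventually_all]
      intro i
      exact Measure.quasiMeasurePreserving_snd.ae (Measure.ae_ne m _)
    filter_upwards [c1, c2, c3, c4] with p d1 d2 d3 d4
    exact ⟨d1, d2, fun i => ⟨d3 i, d4 i⟩⟩
  rw [ae_iff] at hae
  obtain ⟨p, hpN, hp⟩ := exists_notMem_null_le_average hμ0 hfi hae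
  simp only [Set.mem_ofPred_eq, not_not] at hpN
  obtain ⟨h1, h2, h3⟩ := hpN
  have havg : ⨍ a, f a ∂μ ≤ V * (16 / L) := by
    rw [average_eq]
    have : μ.real Set.univ = L * L := by
      rw [measureReal_def, hμu, ENNReal.toReal_mul, ENNReal.toReal_ofReal hL.le]
    rw [this, smul_eq_mul]
    calc (L * L)⁻¹ * ∫ p, f p ∂μ ≤ (L * L)⁻¹ * (V * (16 * L)) := by gcongr
      _ = V * (16 / L) := by field_simp
  refine ⟨⟨p.1, p.2⟩, ?_, ?_, ?_⟩
  · have := Complex.norm_le_abs_re_add_abs_im (⟨p.1, p.2⟩ : ℂ)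
    simp only at this
    rw [abs_of_pos h1.1, abs_of_pos h2.1] at this
    linarith [h1.2, h2.2]
  · intro i h
    apply (h3 i).1
    rw [← h]
  · refine le_trans ?_ (hp.trans havg)
    rw [hf]
    apply Finset.sum_le_sum
    intro i _
    apply mul_le_mul_of_nonneg_left _ (hv i)
    apply inv_le _ _ (sub_ne_zero.2 (h3 i).1) (sub_ne_zero.2 (h3 i).2) _ (norm_nonneg _)
    rw [Complex.sq_norm, Complex.normSq_apply]
    simp only [Complex.sub_re, Complex.sub_im]
    ring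

end PTaux

open PTaux in
theorem pPT : PT := by
  refine ⟨20000, 20001, by norm_num, by norm_num, ?_⟩
  intro ι _ α w hw hsum
  rcases Nat.eq_zero_or_pos (Fintype.card ι) with h0 | h0
  · have : IsEmpty ι := Fintype.card_eq_zero_iff.1 h0
    refine ⟨0, by simp, fun i => (IsEmpty.false i).elim, ?_, ?_⟩
    · simp; norm_num
    · simp
  have hc : (0 : ℝ) < Fintype.card ι := by exact_mod_cast h0
  set v : ι → ℝ := fun i => 2 * w i + 100 / Fintype.card ι with hv
  have hv0 : ∀ i, 0 ≤ v i := fun i => by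
    have := hw i
    rw [hv]; positivity
  have hvs : ∑ i, v i ≤ 240 := by
    rw [hv, Finset.sum_add_distrib, ← Finset.mul_sum]
    simp only [Finset.sum_const, Finset.card_univ, nsmul_eq_mul]
    have : (Fintype.card ι : ℝ) * (100 / Fintype.card ι) = 100 := by field_simp
    linarith
  obtain ⟨z, hz1, hz2, hz3⟩ := exists_pt ι α v hv0 (L := 10000) (by norm_num) hvs
  have hsplit : ∑ i, v i * ‖z - α i‖⁻¹ = 2 * ∑ i, w i * ‖z - α i‖⁻¹
      + 100 / Fintype.card ι * ∑ i, ‖z - α i‖⁻¹ := by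
    rw [hv, Finset.mul_sum, Finset.mul_sum, ← Finset.sum_add_distrib]
    apply Finset.sum_congr rfl
    intro i _
    ring
  have hA : 0 ≤ ∑ i, w i * ‖z - α i‖⁻¹ :=
    Finset.sum_nonneg fun i _ => mul_nonneg (hw i) (by positivity)
  have hB : 0 ≤ ∑ i, ‖z - α i‖⁻¹ := Finset.sum_nonneg fun i _ => by positivity
  have hB' : 0 ≤ 100 / (Fintype.card ι : ℝ) * ∑ i, ‖z - α i‖⁻¹ := by positivity
  have hA1 : ∑ i, w i * ‖z - α i‖⁻¹ ≤ 1 / 2 := by
    rw [hsplit] at hz3
    norm_num at hz3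
    linarith
  have hB1 : ∑ i, ‖z - α i‖⁻¹ ≤ Fintype.card ι := by
    rw [hsplit] at hz3
    norm_num at hz3
    have h1 : 100 / (Fintype.card ι : ℝ) * ∑ i, ‖z - α i‖⁻¹ ≤ 100 := by linarith
    rw [div_mul_eq_mul_div, div_le_iff₀ hc] at h1
    linarith
  refine ⟨z, by linarith, hz2, ?_, ?_⟩
  · have h1 : ‖∑ i, (w i : ℂ) / (z - α i)‖ ≤ 1 / 2 := by
      refine (norm_sum_le _ _).trans (le_trans (le_of_eq ?_) hA1)
      apply Finset.sum_congr rfl
      intro i _
      rw [norm_div, Complex.norm_real, Real.norm_eq_abs, abs_of_nonneg (hw i), div_eq_mul_inv]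
    have h2 := norm_sub_norm_le (1 : ℂ) (∑ i, (w i : ℂ) / (z - α i))
    rw [norm_one] at h2
    linarith
  · have h1 : ∀ i, -(20001 * ‖z - α i‖⁻¹) ≤ Real.log ‖z - α i‖ - Real.log (1 + ‖α i‖) := by
      intro i
      have hd : 0 < ‖z - α i‖ := norm_pos_iff.2 (sub_ne_zero.2 (hz2 i))
      have h2 : 1 + ‖α i‖ ≤ ‖z - α i‖ * (1 + 20001 * ‖z - α i‖⁻¹) := by
        have : ‖z - α i‖ * (1 + 20001 * ‖z - α i‖⁻¹) = ‖z - α i‖ + 20001 := by
          field_simp
        rw [this]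
        have h3 : ‖α i‖ ≤ ‖z‖ + ‖z - α i‖ := by
          calc ‖α i‖ = ‖z - (z - α i)‖ := by congr 1; ring
            _ ≤ _ := norm_sub_le _ _
        linarith
      have h4 : Real.log (1 + ‖α i‖) ≤ Real.log ‖z - α i‖
          + Real.log (1 + 20001 * ‖z - α i‖⁻¹) := by
        rw [← Real.log_mul hd.ne' (by positivity)]
        exact Real.log_le_log (by positivity) h2
      have h5 := Real.log_le_sub_one_of_pos (x := 1 + 20001 * ‖z - α i‖⁻¹) (by positivity)
      linarith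
    calc -(20001 * (Fintype.card ι : ℝ)) ≤ -(20001 * ∑ i, ‖z - α i‖⁻¹) := by linarith
      _ = ∑ i, -(20001 * ‖z - α i‖⁻¹) := by rw [Finset.sum_neg_distrib, Finset.mul_sum]
      _ ≤ _ := Finset.sum_le_sum fun i _ => h1 i

end Pool.Agent.W401.SSS
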