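import Pool.Agent.W401.SSS.Stm

/-!
# The point of step PT for polynomials (step PTQ)
-/

open MeasureTheory Polynomial

namespace Pool.Agent.W401.SSS

namespace PTQaux

open Classical in
/-- The pairs of a polynomial and a root. -/
noncomputable def pairs (H : Finset ℤ[X]) : Finset (Σ _ : ℤ[X], ℂ) :=
  H.sigma (fun Q => (rts Q).toFinset)

theorem sum_pairs {M : Type*} [AddCommMonoid M] (H : Finset ℤ[X]) (hH : ∀ Q ∈ H, Adm Q)
    (g : ℤ[X] → ℂ → M) :
    ∑ i : ↥(pairs H), g i.1.1 i.1.2 = ∑ Q ∈ H, ((rts Q).map (g Q)).sum := by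
  classical
  rw [Finset.sum_coe_sort (pairs H) (fun i => g i.1 i.2)]
  unfold pairs
  rw [Finset.sum_sigma]
  apply Finset.sum_congr rfl
  intro Q hQ
  rw [Finset.sum_eq_multiset_sum]
  congr 2
  rw [Multiset.toFinset_val]
  exact Multiset.dedup_eq_self.2 (hH Q hQ).nodup

end PTQaux

open PTQaux in
theorem pPTQ : PT → PTQ := by
  classical
  rintro ⟨R, C, hR, hC, h⟩
  refine ⟨R, C, hR, hC, ?_⟩
  intro H a hH hsum
  have hA : ∀ Q ∈ H, Adm Q := fun Q hQ => (hH Q hQ).1
  have e1 : ∑ i : ↥(pairs H), a i.1.1 = ∑ Q ∈ H, a Q * (Q.natDegree : ℝ) := by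
    rw [sum_pairs H hA (fun Q _ => a Q)]
    apply Finset.sum_congr rfl
    intro Q _
    have := rsum_const Q (a Q)
    unfold rsum at this
    rw [this]; ring
  have e2 : (Fintype.card ↥(pairs H) : ℝ) = ∑ Q ∈ H, (Q.natDegree : ℝ) := by
    have h1 : (Fintype.card ↥(pairs H) : ℝ) = ∑ i : ↥(pairs H), (1 : ℝ) := by simp
    rw [h1, sum_pairs H hA (fun _ _ => (1 : ℝ))]
    apply Finset.sum_congr rfl
    intro Q _
    have := rsum_const Q 1
    unfold rsum at this
    rw [this]; ring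
  obtain ⟨z, hz1, hz2, hz3, hz4⟩ := h ↥(pairs H) (fun i => i.1.2) (fun i => a i.1.1)
    (fun i => (hH i.1.1 (Finset.mem_sigma.1 i.2).1).2) (by rw [e1]; exact hsum)
  have hne : ∀ Q ∈ H, aeval z Q ≠ 0 := by
    intro Q hQ h0
    have hz : z ∈ rts Q := (mem_rts (hA Q hQ).ne_zero z).2 h0
    have hm : (⟨Q, z⟩ : Σ _ : ℤ[X], ℂ) ∈ pairs H :=
      Finset.mem_sigma.2 ⟨hQ, Multiset.mem_toFinset.2 hz⟩
    exact hz2 ⟨⟨Q, z⟩, hm⟩ rfl
  refine ⟨z, hz1, hne, ?_, ?_⟩
  · have e3 : ∑ i : ↥(pairs H), (a i.1.1 : ℂ) / (z - i.1.2) =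
        ∑ Q ∈ H, (a Q : ℂ) * (aeval z (derivative Q) / aeval z Q) := by
      rw [sum_pairs H hA (fun Q α => (a Q : ℂ) / (z - α))]
      apply Finset.sum_congr rfl
      intro Q hQ
      have h1 : aeval z Q = (Q.map (Int.castRingHom ℂ)).eval z := by
        rw [Polynomial.eval_map, Polynomial.aeval_def]; rfl
      have h2 : aeval z (derivative Q) = (derivative (Q.map (Int.castRingHom ℂ))).eval z := by
        rw [Polynomial.derivative_map, Polynomial.eval_map, Polynomial.aeval_def]; rfl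
      rw [h1, h2, (IsAlgClosed.splits _).eval_derivative_div_eval_of_ne_zero
        (by rw [← h1]; exact hne Q hQ)]
      unfold rts
      rw [← Multiset.sum_map_mul_left]
      congr 1
      apply Multiset.map_congr rfl
      intro α _
      rw [mul_one_div]
    rw [← e3]
    exact hz3
  · have e4 := sum_pairs H hA (fun _ α => Real.log ‖z - α‖ - Real.log (1 + ‖α‖))
    rw [e2] at hz4
    unfold rsum
    rw [← e4]
    exact hz4

end Pool.Agent.W401.SSS
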