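import Pool.Agent.W401.SSS.Stm

open MeasureTheory Polynomial

namespace Pool.Agent.W401.SSS

namespace RESaux

theorem natDegree_map' (Q : ℤ[X]) : (Q.map (Int.castRingHom ℂ)).natDegree = Q.natDegree :=
  natDegree_map_eq_of_injective (Int.castRingHom ℂ).injective_int Q

theorem aeval_eq_eval (Q : ℤ[X]) (z : ℂ) : aeval z Q = (Q.map (Int.castRingHom ℂ)).eval z := by
  rw [Polynomial.eval_map, Polynomial.aeval_def]; rfl

/-- The resultant is a nonzero integer. -/
theorem key (Q P : ℤ[X]) (hQ : Q ≠ 0) (h : ∀ α ∈ rts Q, aeval α P ≠ 0) :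
    0 ≤ (P.natDegree : ℝ) * Real.log |(Q.leadingCoeff : ℝ)| +
      rsum Q (fun α => Real.log ‖aeval α P‖) := by
  set r : ℤ := resultant Q P with hr
  have h1 : ((r : ℤ) : ℂ) = (Q.leadingCoeff : ℂ) ^ P.natDegree *
      ((rts Q).map (fun α => aeval α P)).prod := by
    have e1 := resultant_map_map Q P Q.natDegree P.natDegree (Int.castRingHom ℂ)
    have e2 := resultant_eq_prod_eval (Q.map (Int.castRingHom ℂ)) (P.map (Int.castRingHom ℂ))
      P.natDegree (by rw [natDegree_map']) (IsAlgClosed.splits _)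
    rw [natDegree_map', e1, leadingCoeff_map'] at e2
    have e3 : (Int.castRingHom ℂ) (resultant Q P Q.natDegree P.natDegree) = ((r : ℤ) : ℂ) := by
      rw [hr]; simp
    rw [← e3, e2]
    congr 2
    refine Multiset.map_congr rfl fun α _ => ?_
    rw [aeval_eq_eval]
  have h2 : ∀ s : Multiset ℂ, ‖(s.map (fun α => aeval α P)).prod‖ =
      (s.map (fun α => ‖aeval α P‖)).prod := by
    intro s
    induction s using Multiset.induction_on with
    | empty => simp
    | cons a s ih => simp [ih]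
  have h3 := log_prod_map (rts Q) (fun α => ‖aeval α P‖) (fun α hα => norm_ne_zero_iff.2 (h α hα))
  have hlc : |(Q.leadingCoeff : ℝ)| ≠ 0 := by
    simpa using hQ
  have h4 : |(r : ℝ)| = |(Q.leadingCoeff : ℝ)| ^ P.natDegree *
      ((rts Q).map (fun α => ‖aeval α P‖)).prod := by
    have e := congrArg norm h1
    rw [norm_mul, norm_pow, h2] at e
    have e1 : ‖((r : ℤ) : ℂ)‖ = |(r : ℝ)| := by
      rw [Complex.norm_intCast]
    have e2 : ‖(Q.leadingCoeff : ℂ)‖ = |(Q.leadingCoeff : ℝ)| := by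
      rw [Complex.norm_intCast]
    rw [e1, e2] at e
    exact e
  have h5 : (r : ℝ) ≠ 0 := by
    intro h0
    rw [h0, abs_zero] at h4
    exact mul_ne_zero (pow_ne_zero _ hlc) h3.2 h4.symm
  have h6 : (1 : ℝ) ≤ |(r : ℝ)| := by
    have : r ≠ 0 := by exact_mod_cast h5
    exact_mod_cast Int.one_le_abs this
  have h7 : 0 ≤ Real.log |(r : ℝ)| := Real.log_nonneg h6
  rw [h4, Real.log_mul (pow_ne_zero _ hlc) h3.2, Real.log_pow, h3.1] at h7
  exact h7

theorem key_ne (Q P : ℤ[X]) (hQ : Adm Q) (hP : Adm P) (hne : Q ≠ P) :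
    -((P.natDegree : ℝ) * Real.log (Q.leadingCoeff : ℝ) +
      (Q.natDegree : ℝ) * Real.log (P.leadingCoeff : ℝ)) ≤
      rsum Q (fun α => rsum P (fun β => Real.log ‖α - β‖)) := by
  have hna : ∀ α ∈ rts Q, aeval α P ≠ 0 := by
    intro α hα h0
    exact Adm.disjoint hQ hP hne hα ((mem_rts hP.ne_zero α).2 h0)
  have h := key Q P hQ.ne_zero hna
  have e1 : rsum Q (fun α => Real.log ‖aeval α P‖) = rsum Q (fun α =>
      Real.log (P.leadingCoeff : ℝ) + rsum P (fun β => Real.log ‖α - β‖)) := by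
    apply rsum_congr
    intro α hα
    rw [log_norm_aeval (hna α hα), abs_of_pos hP.lc_pos]
  rw [e1, rsum_add, rsum_const, abs_of_pos hQ.lc_pos] at h
  linarith

theorem key_self (Q : ℤ[X]) (hQ : Adm Q) :
    -((Q.natDegree : ℝ) * Real.log (Q.leadingCoeff : ℝ) +
      (Q.natDegree : ℝ) * Real.log (Q.leadingCoeff : ℝ)) ≤
      rsum Q (fun α => rsum Q (fun β => Real.log ‖α - β‖)) := by
  classical
  have hlog : ∀ α ∈ rts Q, aeval α (derivative Q) ≠ 0 ∧
      Real.log ‖aeval α (derivative Q)‖ = Real.log (Q.leadingCoeff : ℝ) +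
        rsum Q (fun β => Real.log ‖α - β‖) := by
    intro α hα
    have hs := (IsAlgClosed.splits (Q.map (Int.castRingHom ℂ))).eq_prod_roots
    have h1 : aeval α (derivative Q) = (Q.leadingCoeff : ℂ) *
        (((rts Q).erase α).map (fun β => α - β)).prod := by
      rw [aeval_eq_eval, ← derivative_map]
      conv_lhs => rw [hs]
      rw [derivative_C_mul, eval_mul, eval_C, leadingCoeff_map']
      congr 1
      exact eval_multiset_prod_X_sub_C_derivative hα
    have hne : ∀ β ∈ (rts Q).erase α, ‖α - β‖ ≠ 0 := by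
      intro β hβ h0
      rw [norm_eq_zero, sub_eq_zero] at h0
      subst h0
      exact (hQ.nodup.mem_erase_iff.1 hβ).1 rfl
    have h2 : ∀ s : Multiset ℂ, ‖(s.map (fun β => α - β)).prod‖ =
        (s.map (fun β => ‖α - β‖)).prod := by
      intro s
      induction s using Multiset.induction_on with
      | empty => simp
      | cons a s ih => simp [ih]
    have h3 := log_prod_map ((rts Q).erase α) (fun β => ‖α - β‖) hne
    have hlc : ‖(Q.leadingCoeff : ℂ)‖ = (Q.leadingCoeff : ℝ) := by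
      rw [Complex.norm_intCast, abs_of_pos hQ.lc_pos]
    have h4 : ‖aeval α (derivative Q)‖ = (Q.leadingCoeff : ℝ) *
        (((rts Q).erase α).map (fun β => ‖α - β‖)).prod := by
      rw [h1, norm_mul, h2, hlc]
    constructor
    · rw [← norm_ne_zero_iff, h4]
      exact mul_ne_zero hQ.lc_pos.ne' h3.2
    · rw [h4, Real.log_mul hQ.lc_pos.ne' h3.2, h3.1]
      congr 1
      unfold rsum
      conv_rhs => rw [← Multiset.cons_erase hα]
      simp
  have h := key Q (derivative Q) hQ.ne_zero (fun α hα => (hlog α hα).1)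
  have e1 : rsum Q (fun α => Real.log ‖aeval α (derivative Q)‖) = rsum Q (fun α =>
      Real.log (Q.leadingCoeff : ℝ) + rsum Q (fun β => Real.log ‖α - β‖)) :=
    rsum_congr _ _ _ (fun α hα => (hlog α hα).2)
  rw [e1, rsum_add, rsum_const, abs_of_pos hQ.lc_pos] at h
  have hdeg : ((derivative Q).natDegree : ℝ) ≤ Q.natDegree := by
    have := natDegree_derivative_le Q
    exact_mod_cast this.trans (Nat.sub_le _ _)
  have := mul_le_mul_of_nonneg_right hdeg hQ.log_lc_nonneg
  linarith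

end RESaux

theorem pRES : RES := by
  intro F b hF
  have h1 : ∀ Q ∈ F, ∀ P ∈ F, -(b Q * b P * ((P.natDegree : ℝ) * Real.log (Q.leadingCoeff : ℝ) +
      (Q.natDegree : ℝ) * Real.log (P.leadingCoeff : ℝ))) ≤
      b Q * b P * rsum Q (fun α => rsum P (fun β => Real.log ‖α - β‖)) := by
    intro Q hQ P hP
    have hb : 0 ≤ b Q * b P := mul_nonneg (hF Q hQ).2 (hF P hP).2
    have h2 : -((P.natDegree : ℝ) * Real.log (Q.leadingCoeff : ℝ) +
        (Q.natDegree : ℝ) * Real.log (P.leadingCoeff : ℝ)) ≤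
        rsum Q (fun α => rsum P (fun β => Real.log ‖α - β‖)) := by
      by_cases hne : Q = P
      · subst hne
        exact RESaux.key_self Q (hF Q hQ).1
      · exact RESaux.key_ne Q P (hF Q hQ).1 (hF P hP).1 hne
    have := mul_le_mul_of_nonneg_left h2 hb
    linarith
  have h3 : ∑ Q ∈ F, ∑ P ∈ F, -(b Q * b P * ((P.natDegree : ℝ) * Real.log (Q.leadingCoeff : ℝ) +
      (Q.natDegree : ℝ) * Real.log (P.leadingCoeff : ℝ))) ≤
      ∑ Q ∈ F, ∑ P ∈ F, b Q * b P * rsum Q (fun α => rsum P (fun β => Real.log ‖α - β‖)) :=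
    Finset.sum_le_sum fun Q hQ => Finset.sum_le_sum fun P hP => h1 Q hQ P hP
  refine le_trans (le_of_eq ?_) h3
  have e1 : ∑ Q ∈ F, ∑ P ∈ F, (b Q * b P * ((P.natDegree : ℝ) * Real.log (Q.leadingCoeff : ℝ))) =
      (∑ Q ∈ F, b Q * (Q.natDegree : ℝ)) * (∑ Q ∈ F, b Q * Real.log (Q.leadingCoeff : ℝ)) := by
    rw [mul_comm, Finset.sum_mul_sum]
    refine Finset.sum_congr rfl fun Q _ => Finset.sum_congr rfl fun P _ => ?_
    ring
  have e2 : ∑ Q ∈ F, ∑ P ∈ F, (b Q * b P * ((Q.natDegree : ℝ) * Real.log (P.leadingCoeff : ℝ))) =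
      (∑ Q ∈ F, b Q * (Q.natDegree : ℝ)) * (∑ Q ∈ F, b Q * Real.log (Q.leadingCoeff : ℝ)) := by
    rw [Finset.sum_mul_sum]
    refine Finset.sum_congr rfl fun Q _ => Finset.sum_congr rfl fun P _ => ?_
    ring
  have e3 : ∑ Q ∈ F, ∑ P ∈ F, -(b Q * b P * ((P.natDegree : ℝ) * Real.log (Q.leadingCoeff : ℝ) +
      (Q.natDegree : ℝ) * Real.log (P.leadingCoeff : ℝ))) =
      -(∑ Q ∈ F, ∑ P ∈ F, (b Q * b P * ((P.natDegree : ℝ) * Real.log (Q.leadingCoeff : ℝ))) +
      ∑ Q ∈ F, ∑ P ∈ F, (b Q * b P * ((Q.natDegree : ℝ) * Real.log (P.leadingCoeff : ℝ)))) := by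
    rw [← Finset.sum_add_distrib, ← Finset.sum_neg_distrib]
    refine Finset.sum_congr rfl fun Q _ => ?_
    rw [← Finset.sum_add_distrib, ← Finset.sum_neg_distrib]
    refine Finset.sum_congr rfl fun P _ => ?_
    ring
  rw [e3, e1, e2]
  ring

end Pool.Agent.W401.SSS
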