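import Pool.Agent.W401.SSS.Stm

open MeasureTheory Polynomial

namespace Pool.Agent.W401.SSS

namespace SCALEaux

/-- The weight in the pigeonhole argument. -/
noncomputable def w (a : ℤ[X] → ℝ) (Q : ℤ[X]) : ℝ :=
  (Q.natDegree : ℝ) / (1 + max 0 (Real.log (1 / a Q)))

theorem w_nonneg (a : ℤ[X] → ℝ) (Q : ℤ[X]) : 0 ≤ w a Q := by
  unfold w
  positivity

theorem heavy_mono (F : Finset ℤ[X]) (a : ℤ[X] → ℝ) {e1 e2 : ℝ} (h : e1 ≤ e2) :
    heavy F a e2 ⊆ heavy F a e1 := by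
  intro Q hQ
  rw [mem_heavy] at *
  exact ⟨hQ.1, h.trans hQ.2⟩

theorem core (K κ L : ℝ) (hL : 1 ≤ L) (m s : ℕ)
    (hm : 9 * K ≤ κ / 2 * 2 ^ m)
    (a : ℤ[X] → ℝ) (H : ℕ → Finset ℤ[X]) (hmono : ∀ j, H j ⊆ H (j + m))
    (hw : ∀ j, ∀ Q ∈ H j, (Q.natDegree : ℝ) ≤ w a Q * (9 * 2 ^ j * L))
    (hS : ∀ j ≤ s * m, ∑ Q ∈ H j, w a Q ≤ K)
    (hN : ∀ j ≤ s * m, κ * (2 ^ j * L) < ∑ Q ∈ H j, (Q.natDegree : ℝ)) :
    ∀ k ≤ s, (k : ℝ) * (κ / 18) ≤ ∑ Q ∈ H (k * m), w a Q := by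
  classical
  intro k
  induction k with
  | zero =>
    intro _
    have : 0 ≤ ∑ Q ∈ H (0 * m), w a Q := Finset.sum_nonneg fun Q _ => w_nonneg a Q
    simpa using this
  | succ k ih =>
    intro hk
    have ih' := ih (by omega)
    have e1 : (k + 1) * m = k * m + m := by ring
    have h1 : k * m ≤ s * m := Nat.mul_le_mul_right m (by omega)
    have h2 : (k + 1) * m ≤ s * m := Nat.mul_le_mul_right m hk
    have hsub : H (k * m) ⊆ H ((k + 1) * m) := by
      rw [e1]; exact hmono _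
    have hpos : (0 : ℝ) < 9 * 2 ^ ((k + 1) * m) * L := by positivity
    -- the degree sum over the difference
    have hd := Finset.sum_sdiff (f := fun Q : ℤ[X] => (Q.natDegree : ℝ)) hsub
    have hwd := Finset.sum_sdiff (f := fun Q : ℤ[X] => w a Q) hsub
    have hA : ∑ Q ∈ H (k * m), (Q.natDegree : ℝ) ≤ K * (9 * 2 ^ (k * m) * L) := by
      calc ∑ Q ∈ H (k * m), (Q.natDegree : ℝ)
          ≤ ∑ Q ∈ H (k * m), w a Q * (9 * 2 ^ (k * m) * L) :=
            Finset.sum_le_sum fun Q hQ => hw _ Q hQ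
        _ = (∑ Q ∈ H (k * m), w a Q) * (9 * 2 ^ (k * m) * L) := by rw [Finset.sum_mul]
        _ ≤ K * (9 * 2 ^ (k * m) * L) := by
            apply mul_le_mul_of_nonneg_right (hS _ h1)
            positivity
    have hA2 : K * (9 * 2 ^ (k * m) * L) ≤ κ / 2 * (2 ^ ((k + 1) * m) * L) := by
      rw [e1, pow_add]
      have : (0 : ℝ) ≤ 2 ^ (k * m) * L := by positivity
      nlinarith [mul_le_mul_of_nonneg_right hm this]
    have hB := hN _ h2
    have hC : κ / 2 * (2 ^ ((k + 1) * m) * L)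
        ≤ ∑ Q ∈ H ((k + 1) * m) \ H (k * m), (Q.natDegree : ℝ) := by
      linarith
    have hD : ∑ Q ∈ H ((k + 1) * m) \ H (k * m), (Q.natDegree : ℝ)
        ≤ (∑ Q ∈ H ((k + 1) * m) \ H (k * m), w a Q) * (9 * 2 ^ ((k + 1) * m) * L) := by
      rw [Finset.sum_mul]
      exact Finset.sum_le_sum fun Q hQ => hw _ Q (Finset.mem_sdiff.1 hQ).1
    have hE : κ / 18 ≤ ∑ Q ∈ H ((k + 1) * m) \ H (k * m), w a Q := by
      have h3 : κ / 18 * (9 * 2 ^ ((k + 1) * m) * L)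
          ≤ (∑ Q ∈ H ((k + 1) * m) \ H (k * m), w a Q) * (9 * 2 ^ ((k + 1) * m) * L) := by
        refine le_trans (le_of_eq ?_) (hC.trans hD)
        ring
      exact le_of_mul_le_mul_right h3 hpos
    push_cast
    linarith

end SCALEaux

open SCALEaux in
theorem pSCALE : SCALE := by
  intro K κ δ1 hK hκ hδ1
  classical
  set d : ℝ := min δ1 (1 / 3) with hd
  have hd0 : 0 < d := by
    rw [hd]; exact lt_min hδ1 (by norm_num)
  have hd3 : d ≤ 1 / 3 := min_le_right _ _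
  have hdδ : d ≤ δ1 := min_le_left _ _
  have hd1 : d ≤ 1 := by linarith
  set L : ℝ := Real.log (1 / d) with hLdef
  have hL : 1 ≤ L := by
    rw [hLdef, Real.le_log_iff_exp_le (by positivity)]
    have h1 : Real.exp 1 < 3 := by
      have := Real.exp_one_lt_d9
      linarith
    have h2 : (3 : ℝ) ≤ 1 / d := by
      rw [le_div_iff₀ hd0]; linarith
    linarith
  obtain ⟨m, hm⟩ : ∃ m : ℕ, 9 * K ≤ κ / 2 * 2 ^ m := by
    obtain ⟨m, hm⟩ := pow_unbounded_of_one_lt (9 * K / (κ / 2)) (by norm_num : (1 : ℝ) < 2)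
    refine ⟨m, ?_⟩
    rw [div_lt_iff₀ (by positivity)] at hm
    linarith
  obtain ⟨s, hs⟩ : ∃ s : ℕ, K < s * (κ / 18) := by
    obtain ⟨s, hs⟩ := exists_nat_gt (K / (κ / 18))
    refine ⟨s, ?_⟩
    rwa [div_lt_iff₀ (by positivity)] at hs
  -- the scales
  set dl : ℕ → ℝ := fun j => d ^ (2 ^ j) with hdl
  have hdl0 : ∀ j, 0 < dl j := fun j => by rw [hdl]; positivity
  have hdl1 : ∀ j, dl j ≤ 1 := fun j => pow_le_one₀ hd0.le hd1
  have hdlmono : ∀ i j, i ≤ j → dl j ≤ dl i := by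
    intro i j hij
    exact pow_le_pow_of_le_one hd0.le hd1 (Nat.pow_le_pow_right (by norm_num) hij)
  have hdld : ∀ j, dl j ≤ d := by
    intro j
    have := hdlmono 0 j (Nat.zero_le _)
    simpa [hdl] using this
  have hlog : ∀ j, Real.log (1 / dl j) = 2 ^ j * L := by
    intro j
    rw [hLdef, one_div, one_div, Real.log_inv, Real.log_inv, hdl]
    simp only [Real.log_pow]
    push_cast
    ring
  refine ⟨(dl (s * m)) ^ 64, by positivity, ?_⟩
  intro η hη0 hη F a ha hsum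
  by_contra hcon
  push Not at hcon
  have hle64 : ∀ j ≤ s * m, η ≤ dl j ^ 64 := by
    intro j hj
    exact hη.trans (pow_le_pow_left₀ (hdl0 _).le (hdlmono _ _ hj) 64)
  have hN : ∀ j ≤ s * m, κ * (2 ^ j * L)
      < ∑ Q ∈ heavy F a (dl j ^ 8), (Q.natDegree : ℝ) := by
    intro j hj
    have := hcon (dl j) (hdl0 j) ((hdld j).trans hdδ) (hle64 j hj)
    rwa [hlog] at this
  have hw : ∀ j, ∀ Q ∈ heavy F a (dl j ^ 8),
      (Q.natDegree : ℝ) ≤ w a Q * (9 * 2 ^ j * L) := by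
    intro j Q hQ
    rw [mem_heavy] at hQ
    have ha0 := ha Q hQ.1
    have hlogle : Real.log (1 / a Q) ≤ 8 * (2 ^ j * L) := by
      rw [← hlog j]
      have h1 : Real.log (dl j ^ 8) ≤ Real.log (a Q) :=
        Real.log_le_log (pow_pos (hdl0 j) 8) hQ.2
      rw [Real.log_pow] at h1
      rw [one_div, one_div, Real.log_inv, Real.log_inv]
      push_cast at h1
      linarith
    have h2j : (1 : ℝ) ≤ 2 ^ j * L := by
      have : (1 : ℝ) ≤ 2 ^ j := one_le_pow₀ (by norm_num)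
      nlinarith
    have hmax : 1 + max 0 (Real.log (1 / a Q)) ≤ 9 * 2 ^ j * L := by
      have : max 0 (Real.log (1 / a Q)) ≤ 8 * (2 ^ j * L) := max_le (by linarith) hlogle
      linarith
    have hpos : (0 : ℝ) < 1 + max 0 (Real.log (1 / a Q)) := by positivity
    unfold w
    rw [div_mul_eq_mul_div, le_div_iff₀ hpos]
    exact mul_le_mul_of_nonneg_left hmax (Nat.cast_nonneg _)
  have hsq : ∀ j ≤ s * m, Real.sqrt η ≤ dl j ^ 8 := by
    intro j hj
    have h1 : Real.sqrt η ≤ dl j ^ 32 := by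
      rw [Real.sqrt_le_left (by have := hdl0 j; positivity)]
      refine (hle64 j hj).trans (le_of_eq ?_)
      ring
    refine h1.trans ?_
    exact pow_le_pow_of_le_one (hdl0 j).le (hdl1 j) (by norm_num)
  have hS : ∀ j ≤ s * m, ∑ Q ∈ heavy F a (dl j ^ 8), w a Q ≤ K := by
    intro j hj
    refine le_trans ?_ hsum
    exact Finset.sum_le_sum_of_subset_of_nonneg (heavy_mono F a (hsq j hj))
      fun Q _ _ => w_nonneg a Q
  have hfin := core K κ L hL m s hm a (fun j => heavy F a (dl j ^ 8))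
    (fun j => heavy_mono F a (pow_le_pow_left₀ (hdl0 _).le (hdlmono _ _ (Nat.le_add_right _ _)) 8))
    hw hS hN s le_rfl
  have := hS (s * m) le_rfl
  linarith

end Pool.Agent.W401.SSS
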