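import Pool.Agent.W401.SSS.Stm

/-!
# Finite-dimensional separation (step SEP)
-/

set_option autoImplicit false

open MeasureTheory Polynomial

namespace Pool.Agent.W401.SSS

namespace SEPaux

theorem log_half {B : ℝ} (hB : 12 ≤ B) : 0 < B * (Real.log (B / 2) - 1) := by
  have h1 : 1 < Real.log (B / 2) := by
    rw [Real.lt_log_iff_exp_lt (by linarith)]
    have := Real.exp_one_lt_d9
    linarith
  exact mul_pos (by linarith) (by linarith)

theorem int_multiset (hU : UNI1) {B : ℝ} (hB : 12 ≤ B) (s : Multiset ℂ) :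
    IntervalIntegrable (fun x : ℝ => (s.map (fun α => Real.log ‖(x : ℂ) - α‖)).sum) volume 0 B ∧
    (Multiset.card s : ℝ) * (B * (Real.log (B / 2) - 1)) ≤
      ∫ x in (0 : ℝ)..B, (s.map (fun α => Real.log ‖(x : ℂ) - α‖)).sum := by
  induction s using Multiset.induction_on with
  | empty => simp
  | cons a s ih =>
    obtain ⟨h1, h2⟩ := hU 0 B a (by linarith)
    rw [zero_add] at h1 h2
    simp only [Multiset.map_cons, Multiset.sum_cons, Multiset.card_cons]
    refine ⟨h1.add ih.1, ?_⟩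
    rw [intervalIntegral.integral_add h1 ih.1]
    push_cast
    linarith [ih.2]

theorem ae_ne {Q : ℤ[X]} (hQ : Q ≠ 0) : ∀ᵐ x : ℝ ∂volume, ev Q x ≠ 0 := by
  have h := (finite_roots hQ).measure_zero volume
  rw [ae_iff]
  simpa using h

theorem int_log (hU : UNI1) {B : ℝ} (hB : 12 ≤ B) {Q : ℤ[X]} (hQ : Adm Q) :
    IntervalIntegrable (fun x : ℝ => Real.log |ev Q x|) volume 0 B ∧
    0 < ∫ x in (0 : ℝ)..B, Real.log |ev Q x| := by
  obtain ⟨h1, h2⟩ := int_multiset hU hB (rts Q)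
  have hc : IntervalIntegrable (fun _ : ℝ => Real.log (Q.leadingCoeff : ℝ)) volume 0 B :=
    intervalIntegrable_const
  have h3 : IntervalIntegrable (fun x : ℝ => Real.log (Q.leadingCoeff : ℝ) +
      ((rts Q).map (fun α => Real.log ‖(x : ℂ) - α‖)).sum) volume 0 B := hc.add h1
  have hae : ∀ᵐ x : ℝ ∂volume, Real.log (Q.leadingCoeff : ℝ) +
      ((rts Q).map (fun α => Real.log ‖(x : ℂ) - α‖)).sum = Real.log |ev Q x| := by
    filter_upwards [ae_ne hQ.ne_zero] with x hx
    rw [hQ.log_abs_ev hx]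
    rfl
  refine ⟨h3.congr_ae (ae_restrict_of_ae hae), ?_⟩
  rw [← intervalIntegral.integral_congr_ae (hae.mono fun x hx _ => hx),
    intervalIntegral.integral_add hc h1, intervalIntegral.integral_const]
  rw [rts_card] at h2
  have h4 : 0 < (Q.natDegree : ℝ) * (B * (Real.log (B / 2) - 1)) :=
    mul_pos (by linarith [hQ.one_le_deg]) (log_half hB)
  have h5 : 0 ≤ (B - 0) • Real.log (Q.leadingCoeff : ℝ) := by
    rw [smul_eq_mul]
    exact mul_nonneg (by linarith) hQ.log_lc_nonneg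
  linarith

section dirac

variable {ι : Type} [Fintype ι] (w : ι → ℝ) (x : ι → ℝ)

/-- a finite combination of point masses -/
noncomputable def dm : Measure ℝ := ∑ i, ENNReal.ofReal (w i) • Measure.dirac (x i)

theorem dm_apply (s : Set ℝ) : dm w x s = ∑ i, ENNReal.ofReal (w i) * s.indicator 1 (x i) := by
  unfold dm
  rw [Measure.coe_finsetSum, Finset.sum_apply]
  refine Finset.sum_congr rfl fun i _ => ?_
  rw [Measure.smul_apply, Measure.dirac_apply, smul_eq_mul]

theorem dm_null {s : Set ℝ} (h : ∀ i, x i ∉ s) : dm w x s = 0 := by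
  rw [dm_apply]
  refine Finset.sum_eq_zero fun i _ => ?_
  rw [Set.indicator_of_notMem (h i), mul_zero]

theorem dm_prob (hw : ∀ i, 0 ≤ w i) (h1 : ∑ i, w i = 1) : IsProbabilityMeasure (dm w x) := by
  refine ⟨?_⟩
  rw [dm_apply]
  simp only [Set.indicator_univ, Pi.one_apply, mul_one]
  rw [← ENNReal.ofReal_sum_of_nonneg fun i _ => hw i, h1, ENNReal.ofReal_one]

theorem dm_integrable (f : ℝ → ℝ) : Integrable f (dm w x) := by
  unfold dm
  rw [integrable_finsetSum_measure]
  intro i _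
  exact (integrable_dirac (by simp)).smul_measure ENNReal.ofReal_ne_top

theorem dm_integral (hw : ∀ i, 0 ≤ w i) (f : ℝ → ℝ) : ∫ t, f t ∂(dm w x) = ∑ i, w i * f (x i) := by
  unfold dm
  rw [integral_finsetSum_measure fun i _ =>
    (integrable_dirac (by simp)).smul_measure ENNReal.ofReal_ne_top]
  refine Finset.sum_congr rfl fun i _ => ?_
  rw [integral_smul_measure, integral_dirac, ENNReal.toReal_ofReal (hw i), smul_eq_mul]

end dirac

theorem first_case {B lam η : ℝ} {F : Finset ℤ[X]}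
    (hc : ((convexHull ℝ ((fun x : ℝ => ((x - lam + η, fun Q : {Q // Q ∈ F} =>
      Real.log |ev Q.1 x|) : ℝ × ({Q // Q ∈ F} → ℝ))) ''
        {x | x ∈ Set.Icc (0 : ℝ) B ∧ ∀ Q ∈ F, ev Q x ≠ 0})) ∩
      {p : ℝ × ({Q // Q ∈ F} → ℝ) | p.1 < 0 ∧ ∀ Q, 0 < p.2 Q}).Nonempty) :
    ∃ ν : Measure ℝ, On B ν ∧ mean ν < lam - η ∧ ∀ Q ∈ F, LogNonneg ν Q := by
  obtain ⟨p, hp1, hp2⟩ := hc
  obtain ⟨ι, _, w, z, hw, hw1, hz, rfl⟩ := mem_convexHull_iff_exists_fintype.1 hp1
  choose x hx hxz using hz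
  have e1 : (∑ i, w i • z i).1 = ∑ i, w i * (x i - lam + η) := by
    rw [Prod.fst_sum]
    refine Finset.sum_congr rfl fun i _ => ?_
    rw [← hxz i]
    rfl
  have e2 : ∀ Q : {Q // Q ∈ F}, (∑ i, w i • z i).2 Q = ∑ i, w i * Real.log |ev Q.1 (x i)| := by
    intro Q
    rw [Prod.snd_sum, Finset.sum_apply]
    refine Finset.sum_congr rfl fun i _ => ?_
    rw [← hxz i]
    rfl
  refine ⟨dm w x, ⟨dm_prob w x hw hw1, dm_null w x fun i h => h (hx i).1⟩, ?_, ?_⟩
  · unfold mean
    rw [dm_integral w x hw (fun t => t)]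
    have h1 := hp2.1
    rw [e1] at h1
    have h2 : ∑ i, w i * (x i - lam + η) = ∑ i, w i * x i - (lam - η) := by
      have h3 : ∀ i, w i * (x i - lam + η) = w i * x i - w i * (lam - η) := fun i => by ring
      rw [Finset.sum_congr rfl fun i _ => h3 i, Finset.sum_sub_distrib, ← Finset.sum_mul, hw1,
        one_mul]
    rw [h2] at h1
    linarith
  · intro Q hQ
    refine ⟨dm_null w x fun i h => (hx i).2 Q hQ h, dm_integrable w x _, ?_⟩
    rw [dm_integral w x hw]
    have h1 := hp2.2 ⟨Q, hQ⟩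
    rw [e2] at h1
    exact h1.le

end SEPaux

open SEPaux in
theorem pSEP : UNI1 → SEP := by
  intro hU B lam η F hB hF
  classical
  set Z : Set ℝ := {x | x ∈ Set.Icc (0 : ℝ) B ∧ ∀ Q ∈ F, ev Q x ≠ 0} with hZ
  set v : ℝ → ℝ × ({Q // Q ∈ F} → ℝ) := fun x => (x - lam + η, fun Q => Real.log |ev Q.1 x|)
    with hv
  set O : Set (ℝ × ({Q // Q ∈ F} → ℝ)) := {p | p.1 < 0 ∧ ∀ Q, 0 < p.2 Q} with hO
  by_cases hc : ((convexHull ℝ (v '' Z)) ∩ O).Nonempty
  · exact Or.inr (first_case hc)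
  left
  have hdisj : Disjoint O (convexHull ℝ (v '' Z)) := by
    rw [Set.disjoint_left]
    intro p h1 h2
    exact hc ⟨p, h2, h1⟩
  have hOo : IsOpen O := by
    have h1 : O = {p | p.1 < 0} ∩ ⋂ Q : {Q // Q ∈ F}, {p | 0 < p.2 Q} := by
      ext p
      simp [hO]
    rw [h1]
    refine (isOpen_lt continuous_fst continuous_const).inter (isOpen_iInter_of_finite fun Q => ?_)
    exact isOpen_lt continuous_const ((continuous_apply Q).comp continuous_snd)
  have hOc : Convex ℝ O := by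
    intro p hp q hq a b ha hb hab
    refine ⟨?_, fun Q => ?_⟩
    · change a * p.1 + b * q.1 < 0
      rcases ha.eq_or_lt with h | h
      · have hb1 : b = 1 := by linarith
        rw [← h, hb1]
        linarith [hq.1]
      · have h1 := mul_neg_of_pos_of_neg h hp.1
        have h2 := mul_nonpos_of_nonneg_of_nonpos hb hq.1.le
        linarith
    · change 0 < a * p.2 Q + b * q.2 Q
      rcases ha.eq_or_lt with h | h
      · have hb1 : b = 1 := by linarith
        rw [← h, hb1]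
        linarith [hq.2 Q]
      · have h1 := mul_pos h (hp.2 Q)
        have h2 := mul_nonneg hb (hq.2 Q).le
        linarith
  obtain ⟨f, c, hf1, hf2⟩ := geometric_hahn_banach_open hOc hOo (convex_convexHull ℝ (v '' Z)) hdisj
  -- coordinates
  let p : ℝ := f (1, 0)
  let q : {Q // Q ∈ F} → ℝ := fun Q => f (0, Pi.single Q 1)
  have hfe : ∀ (s : ℝ) (u : {Q // Q ∈ F} → ℝ), f (s, u) = s * p + ∑ Q, u Q * q Q := by
    intro s u
    have h1 : ((s, u) : ℝ × ({Q // Q ∈ F} → ℝ)) =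
        s • ((1 : ℝ), (0 : {Q // Q ∈ F} → ℝ)) + ∑ Q, u Q • ((0 : ℝ), Pi.single Q (1 : ℝ)) := by
      refine Prod.ext ?_ ?_
      · simp [Prod.fst_sum]
      · rw [Prod.snd_add, Prod.snd_sum]
        funext Q
        rw [Pi.add_apply, Finset.sum_apply]
        simp [Pi.single_apply]
    rw [h1, map_add, map_smul, map_sum]
    simp only [map_smul, smul_eq_mul]
    rfl
  have hcone : ∀ o ∈ O, ∀ t : ℝ, 0 < t → t • o ∈ O := by
    intro o ho t ht
    exact ⟨mul_neg_of_pos_of_neg ht ho.1, fun Q => mul_pos ht (ho.2 Q)⟩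
  let o : ℝ × ({Q // Q ∈ F} → ℝ) := (-1, fun _ => 1)
  have hoO : o ∈ O := ⟨by norm_num [o], fun _ => one_pos⟩
  have hfO : ∀ o ∈ O, f o ≤ 0 := by
    intro o ho
    by_contra hpos
    push Not at hpos
    have h1 := hf1 _ (hcone o ho ((|c| + 1) / f o) (by positivity))
    rw [map_smul, smul_eq_mul, div_mul_cancel₀ _ hpos.ne'] at h1
    linarith [le_abs_self c]
  have hc0 : 0 ≤ c := by
    by_contra hneg
    push Not at hneg
    have h0 : f o < 0 := (hf1 o hoO).trans hneg
    have h1 := hf1 _ (hcone o hoO (c / f o) (div_pos_of_neg_of_neg hneg h0))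
    rw [map_smul, smul_eq_mul, div_mul_cancel₀ _ h0.ne] at h1
    exact lt_irrefl _ h1
  have hp0 : 0 ≤ p := by
    by_contra hneg
    push Not at hneg
    -- scale
    have h1 : ∀ t : ℝ, 0 < t → (-t) * p + ∑ Q, (1 : ℝ) * q Q ≤ 0 := by
      intro t ht
      rw [← hfe (-t) (fun _ => 1)]
      exact hfO _ ⟨by simpa using ht, fun _ => one_pos⟩
    set A : ℝ := ∑ Q, (1 : ℝ) * q Q with hA
    have h2 := h1 ((|A| + 1) / (-p)) (div_pos (by positivity) (by linarith))
    have h3 : (-((|A| + 1) / (-p))) * p = |A| + 1 := by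
      rw [div_neg, neg_neg, div_mul_cancel₀ _ hneg.ne]
    rw [h3] at h2
    linarith [neg_abs_le A]
  have hq0 : ∀ Q, q Q ≤ 0 := by
    intro Q
    by_contra hpos
    push Not at hpos
    have h1 : ∀ t : ℝ, 0 < t → (-1) * p + ∑ P, (1 + t * (Pi.single Q (1 : ℝ) : _ → ℝ) P) * q P ≤ 0 := by
      intro t ht
      rw [← hfe (-1) (fun P => 1 + t * (Pi.single Q (1 : ℝ) : _ → ℝ) P)]
      refine hfO _ ⟨by norm_num, fun P => ?_⟩
      have h2 : 0 ≤ (Pi.single Q (1 : ℝ) : {Q // Q ∈ F} → ℝ) P := by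
        rw [Pi.single_apply]
        split_ifs <;> norm_num
      change 0 < 1 + t * (Pi.single Q (1 : ℝ) : {Q // Q ∈ F} → ℝ) P
      positivity
    have h2 : ∀ t : ℝ, ∑ P, (1 + t * (Pi.single Q (1 : ℝ) : {Q // Q ∈ F} → ℝ) P) * q P =
        ∑ P, q P + t * q Q := by
      intro t
      have h3 : ∀ P, (1 + t * (Pi.single Q (1 : ℝ) : {Q // Q ∈ F} → ℝ) P) * q P =
          q P + t * ((Pi.single Q (1 : ℝ) : {Q // Q ∈ F} → ℝ) P * q P) := fun P => by ring
      rw [Finset.sum_congr rfl fun P _ => h3 P, Finset.sum_add_distrib, ← Finset.mul_sum]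
      congr 2
      simp [Pi.single_apply]
    set A : ℝ := (-1) * p + ∑ P, q P with hA
    have h4 := h1 ((|A| + 1) / q Q) (by positivity)
    rw [h2, div_mul_cancel₀ _ hpos.ne'] at h4
    linarith [neg_abs_le A]
  have hZf : ∀ x ∈ Z, c ≤ (x - lam + η) * p + ∑ Q : {Q // Q ∈ F}, Real.log |ev Q.1 x| * q Q := by
    intro x hx
    rw [← hfe]
    exact hf2 _ (subset_convexHull ℝ _ ⟨x, hx, rfl⟩)
  rcases hp0.eq_or_lt with hp | hp
  · -- p = 0
    exfalso
    have hI : ∀ Q : {Q // Q ∈ F}, IntervalIntegrable (fun x : ℝ => Real.log |ev Q.1 x|) volume 0 B ∧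
        0 < ∫ x in (0 : ℝ)..B, Real.log |ev Q.1 x| := fun Q => int_log hU hB (hF Q.1 Q.2)
    have hint : IntervalIntegrable (fun x : ℝ => ∑ Q : {Q // Q ∈ F}, Real.log |ev Q.1 x| * q Q)
        volume 0 B := by
      have e : (fun x : ℝ => ∑ Q : {Q // Q ∈ F}, Real.log |ev Q.1 x| * q Q) =
          ∑ Q : {Q // Q ∈ F}, fun x : ℝ => Real.log |ev Q.1 x| * q Q := by
        funext x
        rw [Finset.sum_apply]
      rw [e]
      exact IntervalIntegrable.sum _ fun Q _ => (hI Q).1.mul_const (q Q)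
    have hae : ∀ᵐ x : ℝ ∂volume, ∀ Q ∈ F, ev Q x ≠ 0 := by
      rw [Filter.eventually_all_finset]
      exact fun Q hQ => ae_ne (hF Q hQ).ne_zero
    have h1 : ∫ _ in (0 : ℝ)..B, c ≤
        ∫ x in (0 : ℝ)..B, ∑ Q : {Q // Q ∈ F}, Real.log |ev Q.1 x| * q Q := by
      refine intervalIntegral.integral_mono_ae_restrict (by linarith) intervalIntegrable_const
        hint ?_
      have h2 := ae_restrict_of_ae (s := Set.Icc (0 : ℝ) B) hae
      filter_upwards [h2, ae_restrict_mem measurableSet_Icc] with x hx hx2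
      have h3 := hZf x ⟨hx2, hx⟩
      rw [← hp] at h3
      simpa using h3
    rw [intervalIntegral.integral_const, intervalIntegral.integral_finsetSum
      (fun Q _ => (hI Q).1.mul_const (q Q))] at h1
    simp only [intervalIntegral.integral_mul_const] at h1
    have h2 : ∀ Q : {Q // Q ∈ F}, (∫ x in (0 : ℝ)..B, Real.log |ev Q.1 x|) * q Q ≤ 0 := fun Q =>
      mul_nonpos_of_nonneg_of_nonpos (hI Q).2.le (hq0 Q)
    have h3 : ∑ Q : {Q // Q ∈ F}, (∫ x in (0 : ℝ)..B, Real.log |ev Q.1 x|) * q Q ≤ 0 :=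
      Finset.sum_nonpos fun Q _ => h2 Q
    have h4 : 0 ≤ (B - 0) • c := by
      rw [smul_eq_mul]
      exact mul_nonneg (by linarith) hc0
    have h5 : (B - 0) • c = 0 := le_antisymm (h1.trans h3) h4
    have h6 : c = 0 := by
      rw [smul_eq_mul] at h5
      rcases mul_eq_zero.1 h5 with h | h
      · linarith
      · exact h
    have h7 : ∑ Q : {Q // Q ∈ F}, (∫ x in (0 : ℝ)..B, Real.log |ev Q.1 x|) * q Q = 0 := by
      rw [h5] at h1
      exact le_antisymm h3 h1
    have h8 : ∀ Q : {Q // Q ∈ F}, q Q = 0 := by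
      intro Q
      have h9 := (Finset.sum_eq_zero_iff_of_nonpos fun Q _ => h2 Q).1 h7 Q (Finset.mem_univ Q)
      rcases mul_eq_zero.1 h9 with h | h
      · exact absurd h (hI Q).2.ne'
      · exact h
    have h9 := hf1 o hoO
    have h10 : f o = 0 := by
      change f (-1, fun _ => 1) = 0
      rw [hfe, ← hp]
      simp [h8]
    rw [h10, h6] at h9
    exact lt_irrefl _ h9
  · -- p > 0
    refine ⟨fun Q => if h : Q ∈ F then -q ⟨Q, h⟩ / p else 0, ?_, ?_⟩
    · intro Q hQ
      simp only [hQ, dif_pos]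
      exact div_nonneg (by linarith [hq0 ⟨Q, hQ⟩]) hp.le
    · intro x hx hx2
      have h1 := hc0.trans (hZf x ⟨hx, hx2⟩)
      have h2 : pot F (fun Q => if h : Q ∈ F then -q ⟨Q, h⟩ / p else 0) x =
          -(∑ Q : {Q // Q ∈ F}, Real.log |ev Q.1 x| * q Q) / p := by
        unfold pot
        rw [← Finset.sum_coe_sort F, ← Finset.sum_neg_distrib, Finset.sum_div]
        refine Finset.sum_congr rfl fun Q _ => ?_
        have hQ : (Q : ℤ[X]) ∈ F := Q.2
        simp only [hQ, dif_pos, Subtype.coe_eta]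
        ring
      rw [h2, div_le_iff₀ hp]
      linarith

end Pool.Agent.W401.SSS
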