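import Pool.Agent.W401.SSS.Stm

open MeasureTheory Polynomial

namespace Pool.Agent.W401.SSS

namespace SER1aux

theorem restrict_eq {B : ℝ} {μ : Measure ℝ} (h : On B μ) : μ.restrict (Set.Icc 0 B) = μ := by
  apply Measure.restrict_eq_self_of_ae_mem
  rw [ae_iff]
  exact h.2

theorem int_cont {B : ℝ} {μ : Measure ℝ} (h : On B μ) {f : ℝ → ℝ} (hf : Continuous f) :
    Integrable f μ := by
  have := h.1
  have h1 : IntegrableOn f (Set.Icc 0 B) μ := hf.continuousOn.integrableOn_compact isCompact_Icc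
  rw [IntegrableOn, restrict_eq h] at h1
  exact h1

theorem int_cont2 {B : ℝ} {μ : Measure ℝ} (h : On B μ) {f : ℝ × ℝ → ℝ} (hf : Continuous f) :
    Integrable f (μ.prod μ) := by
  have := h.1
  have h1 : IntegrableOn f (Set.Icc 0 B ×ˢ Set.Icc 0 B) (μ.prod μ) :=
    hf.continuousOn.integrableOn_compact (isCompact_Icc.prod isCompact_Icc)
  rw [IntegrableOn, ← Measure.prod_restrict, restrict_eq h] at h1
  exact h1

/-- twice the regularised potential -/
noncomputable def psi (μ : Measure ℝ) (r : ℝ) (y : ℝ) : ℝ :=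
  ∫ x, Real.log ((x - y) ^ 2 + r ^ 2) ∂μ

theorem cont_kernel {r : ℝ} (hr : 0 < r) :
    Continuous (fun p : ℝ × ℝ => Real.log ((p.1 - p.2) ^ 2 + r ^ 2)) := by
  apply Continuous.log
  · fun_prop
  · intro p
    positivity

theorem cont_psi {B : ℝ} {μ : Measure ℝ} (h : On B μ) {r : ℝ} (hr : 0 < r) :
    Continuous (psi μ r) := by
  have := h.1
  have h1 : Continuous (Function.uncurry (fun (y x : ℝ) => Real.log ((x - y) ^ 2 + r ^ 2))) := by
    apply Continuous.log
    · fun_prop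
    · intro p
      positivity
  have h2 := continuous_parametric_integral_of_continuous (μ := μ) h1 (isCompact_Icc (a := (0:ℝ)) (b := B))
  rw [restrict_eq h] at h2
  exact h2

theorem int_psi {B : ℝ} {μ : Measure ℝ} (h : On B μ) {r : ℝ} (hr : 0 < r) :
    ∫ y, psi μ r y ∂μ = ∫ p : ℝ × ℝ, Real.log ((p.1 - p.2) ^ 2 + r ^ 2) ∂(μ.prod μ) := by
  have := h.1
  rw [integral_prod_symm _ (int_cont2 h (cont_kernel hr))]
  rfl

/-- the pointwise bound -/
theorem prod_bound (hN : NEGR) {B : ℝ} {μ : Measure ℝ} (h : On B μ) {r : ℝ} (hr : 0 < r)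
    (n : ℕ) (J : ℝ)
    (hJ : J = ∫ p : ℝ × ℝ, Real.log ((p.1 - p.2) ^ 2 + r ^ 2) ∂(μ.prod μ)) (x : Fin n → ℝ) :
    (∏ i, Real.exp (-(n * psi μ r (x i)))) * (∏ i, ∏ j ∈ Finset.Ioi i, (x j - x i)) ^ 2
      ≤ Real.exp (-(n ^ 2 * J / 2) - n * Real.log r) := by
  have hs : (0:ℝ) < r / Real.sqrt 2 := by positivity
  have hs2 : (r / Real.sqrt 2) ^ 2 = r ^ 2 / 2 := by
    rw [div_pow, Real.sq_sqrt (by norm_num)]
  have key := hN B μ h (Fin n) (fun i => (x i : ℂ)) (fun _ => 1) (fun _ => r / Real.sqrt 2)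
    (r / Real.sqrt 2) (fun _ => hs) hs
  have e1 : ∀ i : Fin n, (∫ y : ℝ, Real.log (‖(y : ℂ) - (x i : ℂ)‖ ^ 2 + (r / Real.sqrt 2) ^ 2
      + (r / Real.sqrt 2) ^ 2) ∂μ) = psi μ r (x i) := by
    intro i
    unfold psi
    congr 1
    ext y
    congr 1
    rw [hs2, ← Complex.ofReal_sub, Complex.norm_real, Real.norm_eq_abs, sq_abs]
    ring
  have e2 : ∀ i j : Fin n, Real.log (‖(x i : ℂ) - (x j : ℂ)‖ ^ 2 + (r / Real.sqrt 2) ^ 2
      + (r / Real.sqrt 2) ^ 2) = Real.log ((x j - x i) ^ 2 + r ^ 2) := by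
    intro i j
    congr 1
    rw [hs2, ← Complex.ofReal_sub, Complex.norm_real, Real.norm_eq_abs, sq_abs]
    ring
  have e3 : (∫ p : ℝ × ℝ, Real.log ((p.1 - p.2) ^ 2 + 2 * (r / Real.sqrt 2) ^ 2) ∂(μ.prod μ))
      = J := by
    rw [hJ]
    congr 1
    ext p
    congr 1
    rw [hs2]
    ring
  simp only [e1, e2, e3, Finset.sum_const, Finset.card_univ, Fintype.card_fin, nsmul_eq_mul,
    mul_one, one_mul] at key
  -- the symmetric sum
  have e4 : ∑ i : Fin n, ∑ j : Fin n, Real.log ((x j - x i) ^ 2 + r ^ 2)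
      = n * Real.log (r ^ 2)
        + 2 * ∑ i : Fin n, ∑ j ∈ Finset.Ioi i, Real.log ((x j - x i) ^ 2 + r ^ 2) := by
    have h1 := Finset.sum_sum_Ioi_add_eq_sum_sum_off_diag
      (fun i j : Fin n => Real.log ((x i - x j) ^ 2 + r ^ 2))
    have h2 : ∀ i : Fin n, ∑ j : Fin n, Real.log ((x j - x i) ^ 2 + r ^ 2)
        = Real.log (r ^ 2) + ∑ j ∈ ({i}ᶜ : Finset (Fin n)), Real.log ((x j - x i) ^ 2 + r ^ 2) := by
      intro i
      rw [← Finset.sum_add_sum_compl {i}, Finset.sum_singleton]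
      simp
    simp only [h2]
    rw [Finset.sum_add_distrib, ← h1, Finset.mul_sum]
    congr 1
    · simp
    · apply Finset.sum_congr rfl
      intro i _
      rw [Finset.mul_sum]
      apply Finset.sum_congr rfl
      intro j _
      rw [show (x i - x j) ^ 2 = (x j - x i) ^ 2 by ring]
      ring
  rw [e4] at key
  have e5 : (∏ i, ∏ j ∈ Finset.Ioi i, (x j - x i)) ^ 2
      ≤ Real.exp (∑ i : Fin n, ∑ j ∈ Finset.Ioi i, Real.log ((x j - x i) ^ 2 + r ^ 2)) := by
    rw [Real.exp_sum, ← Finset.prod_pow]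
    apply Finset.prod_le_prod
    · intro i _
      positivity
    · intro i _
      rw [Real.exp_sum, ← Finset.prod_pow]
      apply Finset.prod_le_prod
      · intro j _
        positivity
      · intro j _
        rw [Real.exp_log (by positivity)]
        nlinarith [sq_nonneg r]
  have e6 : (∏ i, Real.exp (-(n * psi μ r (x i)))) = Real.exp (-(n * ∑ i, psi μ r (x i))) := by
    rw [← Real.exp_sum, Finset.sum_neg_distrib, Finset.mul_sum]
  rw [e6]
  calc Real.exp (-(n * ∑ i, psi μ r (x i))) * (∏ i, ∏ j ∈ Finset.Ioi i, (x j - x i)) ^ 2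
      ≤ Real.exp (-(n * ∑ i, psi μ r (x i)))
        * Real.exp (∑ i : Fin n, ∑ j ∈ Finset.Ioi i, Real.log ((x j - x i) ^ 2 + r ^ 2)) :=
        mul_le_mul_of_nonneg_left e5 (Real.exp_nonneg _)
    _ = Real.exp (-(n * ∑ i, psi μ r (x i))
        + ∑ i : Fin n, ∑ j ∈ Finset.Ioi i, Real.log ((x j - x i) ^ 2 + r ^ 2)) := by
        rw [Real.exp_add]
    _ ≤ _ := by
        apply Real.exp_le_exp.2
        have : Real.log (r ^ 2) = 2 * Real.log r := by
          rw [Real.log_pow]; norm_num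
        rw [this] at key
        linarith

/-- the weight -/
noncomputable def wgt (μ : Measure ℝ) (r : ℝ) (n : ℕ) (x : ℝ) : ℝ :=
  Real.exp (-(n * psi μ r x))

theorem cont_wgt {B : ℝ} {μ : Measure ℝ} (h : On B μ) {r : ℝ} (hr : 0 < r) (n : ℕ) :
    Continuous (wgt μ r n) := by
  have := cont_psi h hr
  unfold wgt
  fun_prop

/-- the moment matrix -/
noncomputable def mom (μ : Measure ℝ) (r : ℝ) (n : ℕ) : Matrix (Fin n) (Fin n) ℝ :=
  Matrix.of fun i j : Fin n => ∫ x : ℝ, wgt μ r n x * x ^ ((i : ℕ) + (j : ℕ)) ∂μ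

theorem det_mom (hN : NEGR) (hD : ANDR) {B : ℝ} {μ : Measure ℝ} (h : On B μ) {r : ℝ} (hr : 0 < r)
    (n : ℕ) (J : ℝ)
    (hJ : J = ∫ p : ℝ × ℝ, Real.log ((p.1 - p.2) ^ 2 + r ^ 2) ∂(μ.prod μ)) :
    (mom μ r n).det ≤ Real.exp (-(n ^ 2 * J / 2) - n * Real.log r) := by
  have := h.1
  have h1 := hD B μ h n (wgt μ r n) (cont_wgt h hr n)
  have h2 : (n.factorial : ℝ) * (mom μ r n).det
      = ∫ x : Fin n → ℝ, (∏ i, wgt μ r n (x i)) * (∏ i, ∏ j ∈ Finset.Ioi i, (x j - x i)) ^ 2
      ∂(Measure.pi fun _ => μ) := h1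
  have h3 : 0 ≤ (n.factorial : ℝ) * (mom μ r n).det := by
    rw [h2]
    apply integral_nonneg
    intro x
    have : 0 ≤ ∏ i, wgt μ r n (x i) := Finset.prod_nonneg fun i _ => Real.exp_nonneg _
    positivity
  have hf : (1:ℝ) ≤ (n.factorial : ℝ) := by
    exact_mod_cast Nat.one_le_iff_ne_zero.2 (Nat.factorial_ne_zero n)
  have h4 : 0 ≤ (mom μ r n).det := by
    by_contra hc
    push Not at hc
    nlinarith
  have h5 : (n.factorial : ℝ) * (mom μ r n).det
      ≤ Real.exp (-(n ^ 2 * J / 2) - n * Real.log r) := by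
    rw [h2]
    have h6 : (∫ x : Fin n → ℝ, (∏ i, wgt μ r n (x i)) * (∏ i, ∏ j ∈ Finset.Ioi i, (x j - x i)) ^ 2
      ∂(Measure.pi fun _ => μ))
        ≤ ∫ _x : Fin n → ℝ, Real.exp (-(n ^ 2 * J / 2) - n * Real.log r)
          ∂(Measure.pi fun _ => μ) := by
      apply integral_mono_of_nonneg
      · apply Filter.Eventually.of_forall
        intro x
        have : 0 ≤ ∏ i, wgt μ r n (x i) := Finset.prod_nonneg fun i _ => Real.exp_nonneg _
        show (0:ℝ) ≤ _
        positivity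
      · exact integrable_const _
      · apply Filter.Eventually.of_forall
        intro x
        exact prod_bound hN h hr n J hJ x
    refine h6.trans (le_of_eq ?_)
    simp
  nlinarith

/-- the integer polynomial with given coefficients -/
noncomputable def pol {n : ℕ} (c : Fin n → ℤ) : ℤ[X] := ∑ i, Polynomial.C (c i) * X ^ (i : ℕ)

theorem pol_ne {n : ℕ} {c : Fin n → ℤ} (hc : c ≠ 0) : pol c ≠ 0 := by
  intro h
  apply hc
  ext i
  have h1 : (pol c).coeff i = c i := by
    unfold pol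
    rw [Polynomial.finsetSum_coeff]
    rw [Finset.sum_eq_single i]
    · simp
    · intro j _ hj
      rw [Polynomial.coeff_C_mul, Polynomial.coeff_X_pow, if_neg, mul_zero]
      intro he
      exact hj (Fin.ext he.symm)
    · simp
  rw [← h1, h]
  simp

theorem ev_pol {n : ℕ} (c : Fin n → ℤ) (x : ℝ) : ev (pol c) x = ∑ i, (c i : ℝ) * x ^ (i : ℕ) := by
  unfold ev pol
  rw [map_sum]
  apply Finset.sum_congr rfl
  intro i _
  simp

/-- the quadratic form of the moment matrix -/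
theorem quad {B : ℝ} {μ : Measure ℝ} (h : On B μ) {r : ℝ} (hr : 0 < r) (n : ℕ) (c : Fin n → ℝ) :
    ∑ i, ∑ j, c i * mom μ r n i j * c j
      = ∫ x, wgt μ r n x * (∑ i, c i * x ^ (i : ℕ)) ^ 2 ∂μ := by
  have hw := cont_wgt h hr n
  have h1 : ∀ i j : Fin n, c i * mom μ r n i j * c j
      = ∫ x, wgt μ r n x * (c i * x ^ (i : ℕ)) * (c j * x ^ (j : ℕ)) ∂μ := by
    intro i j
    unfold mom
    rw [Matrix.of_apply, mul_comm (c i), mul_assoc, ← integral_mul_const]
    congr 1
    ext x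
    rw [pow_add]
    ring
  simp only [h1]
  have h2 : ∀ i : Fin n, ∑ j, ∫ x, wgt μ r n x * (c i * x ^ (i : ℕ)) * (c j * x ^ (j : ℕ)) ∂μ
      = ∫ x, ∑ j : Fin n, wgt μ r n x * (c i * x ^ (i : ℕ)) * (c j * x ^ (j : ℕ)) ∂μ := by
    intro i
    rw [integral_finsetSum]
    intro j _
    exact int_cont h (by fun_prop)
  simp only [h2]
  rw [← integral_finsetSum]
  · congr 1
    ext x
    rw [sq, Finset.sum_mul_sum, Finset.mul_sum]
    apply Finset.sum_congr rfl
    intro i _
    rw [Finset.mul_sum]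
    apply Finset.sum_congr rfl
    intro j _
    ring
  · intro i _
    exact int_cont h (by fun_prop)

theorem herm_mom {μ : Measure ℝ} {r : ℝ} (n : ℕ) : (mom μ r n).IsHermitian := by
  unfold Matrix.IsHermitian
  ext i j
  simp only [Matrix.conjTranspose_apply, mom, Matrix.of_apply, star_trivial]
  rw [add_comm]

theorem psd_mom {B : ℝ} {μ : Measure ℝ} (h : On B μ) {r : ℝ} (hr : 0 < r) (n : ℕ) :
    (mom μ r n).PosSemidef := by
  apply Matrix.PosSemidef.of_dotProduct_mulVec_nonneg (herm_mom n)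
  intro x
  have h1 := quad h hr n x
  have h2 : dotProduct (star x) (Matrix.mulVec (mom μ r n) x)
      = ∑ i, ∑ j, x i * mom μ r n i j * x j := by
    unfold dotProduct Matrix.mulVec dotProduct
    apply Finset.sum_congr rfl
    intro i _
    rw [Finset.mul_sum]
    apply Finset.sum_congr rfl
    intro j _
    simp [mul_assoc]
  rw [h2, h1]
  apply integral_nonneg
  intro y
  have : 0 ≤ wgt μ r n y := Real.exp_nonneg _
  show (0:ℝ) ≤ _
  positivity

theorem pd_mom {B : ℝ} {μ : Measure ℝ} (h : On B μ) {r : ℝ} (hr : 0 < r) (n : ℕ) {δ : ℝ}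
    (hδ : 0 < δ) : (mom μ r n + δ • (1 : Matrix (Fin n) (Fin n) ℝ)).PosDef := by
  exact Matrix.PosDef.posSemidef_add (psd_mom h hr n) (Matrix.PosDef.smul Matrix.PosDef.one hδ)

/-- Jensen -/
theorem jensen {B : ℝ} {μ : Measure ℝ} (h : On B μ) (hA : Arith μ) {r : ℝ} (hr : 0 < r)
    (n : ℕ) (J : ℝ)
    (hJ : J = ∫ p : ℝ × ℝ, Real.log ((p.1 - p.2) ^ 2 + r ^ 2) ∂(μ.prod μ))
    {P : ℤ[X]} (hP : P ≠ 0) :
    Real.exp (-(n * J)) ≤ ∫ x, wgt μ r n x * (ev P x) ^ 2 ∂μ := by
  have := h.1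
  obtain ⟨h1, h2, h3⟩ := hA P hP
  have hpsi : Integrable (psi μ r) μ := int_cont h (cont_psi h hr)
  have hw := cont_wgt h hr n
  have hev := continuous_ev P
  have hae : ∀ᵐ x ∂μ, ev P x ≠ 0 := by
    rw [ae_iff]
    simpa using h1
  have hexp : ∀ᵐ x ∂μ, Real.exp (2 * Real.log |ev P x| - n * psi μ r x)
      = wgt μ r n x * (ev P x) ^ 2 := by
    filter_upwards [hae] with x hx
    have : 2 * Real.log |ev P x| = Real.log ((ev P x) ^ 2) := by
      rw [Real.log_pow, Real.log_abs]; norm_num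
    rw [this, sub_eq_add_neg, Real.exp_add, Real.exp_log (by positivity), mul_comm]
    rfl
  have hg : Integrable (fun x => 2 * Real.log |ev P x| - n * psi μ r x) μ :=
    (h2.const_mul 2).sub (hpsi.const_mul _)
  have hge : Integrable (fun x => wgt μ r n x * (ev P x) ^ 2) μ := int_cont h (by fun_prop)
  have key := ConvexOn.map_integral_le (μ := μ) (s := Set.univ) (g := Real.exp)
    (f := fun x => 2 * Real.log |ev P x| - n * psi μ r x) convexOn_exp
    Real.continuous_exp.continuousOn isClosed_univ (by simp) hg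
    (hge.congr (by filter_upwards [hexp] with x hx; exact hx.symm))
  rw [integral_congr_ae hexp] at key
  refine le_trans ?_ key
  apply Real.exp_le_exp.2
  rw [integral_sub (h2.const_mul 2) (hpsi.const_mul _), integral_const_mul, integral_const_mul,
    int_psi h hr, ← hJ]
  linarith

theorem bound_n (hN : NEGR) (hD : ANDR) (hH : HERM) {B : ℝ} {μ : Measure ℝ} (h : On B μ)
    (hA : Arith μ) {r : ℝ} (hr : 0 < r) (n : ℕ) (hn : 0 < n) (J : ℝ)
    (hJ : J = ∫ p : ℝ × ℝ, Real.log ((p.1 - p.2) ^ 2 + r ^ 2) ∂(μ.prod μ)) :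
    -(n * J) ≤ Real.log n - n * J / 2 - Real.log r := by
  have hn' : (0:ℝ) < n := by exact_mod_cast hn
  -- the inequality for every δ
  have h1 : ∀ δ : ℝ, 0 < δ → Real.exp (-(n * J))
      ≤ n * (mom μ r n + δ • (1 : Matrix (Fin n) (Fin n) ℝ)).det ^ ((1 : ℝ) / n) := by
    intro δ hδ
    obtain ⟨c, hc, hle⟩ := hH n hn _ (pd_mom h hr n hδ)
    refine le_trans ?_ hle
    have h2 := jensen h hA hr n J hJ (pol_ne hc)
    refine h2.trans ?_
    have h3 := quad h hr n (fun i => (c i : ℝ))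
    have h4 : (∫ x, wgt μ r n x * (ev (pol c) x) ^ 2 ∂μ)
        = ∑ i, ∑ j, (c i : ℝ) * mom μ r n i j * (c j : ℝ) := by
      rw [h3]
      congr 1
      ext x
      rw [ev_pol]
    rw [h4]
    have h5 : ∑ i, ∑ j, (c i : ℝ) * (mom μ r n + δ • (1 : Matrix (Fin n) (Fin n) ℝ)) i j * (c j : ℝ)
        = ∑ i, ∑ j, (c i : ℝ) * mom μ r n i j * (c j : ℝ) + δ * ∑ i, (c i : ℝ) ^ 2 := by
      rw [Finset.mul_sum, ← Finset.sum_add_distrib]
      apply Finset.sum_congr rfl
      intro i _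
      have : ∀ j, (c i : ℝ) * (mom μ r n + δ • (1 : Matrix (Fin n) (Fin n) ℝ)) i j * (c j : ℝ)
          = (c i : ℝ) * mom μ r n i j * (c j : ℝ)
            + (if i = j then δ * ((c i : ℝ) * (c j : ℝ)) else 0) := by
        intro j
        rw [Matrix.add_apply, Matrix.smul_apply, Matrix.one_apply]
        split_ifs
        · simp
          ring
        · simp
      simp only [this]
      rw [Finset.sum_add_distrib, Finset.sum_ite_eq]
      simp [sq]
    rw [h5]
    have : 0 ≤ δ * ∑ i, (c i : ℝ) ^ 2 := by positivity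
    linarith
  -- limit
  have h2 : Real.exp (-(n * J)) ≤ n * (mom μ r n).det ^ ((1 : ℝ) / n) := by
    have hc : Continuous (fun δ : ℝ =>
        n * (mom μ r n + δ • (1 : Matrix (Fin n) (Fin n) ℝ)).det ^ ((1 : ℝ) / n)) := by
      have hd : Continuous (fun δ : ℝ =>
          (mom μ r n + δ • (1 : Matrix (Fin n) (Fin n) ℝ)).det) := by
        apply Continuous.matrix_det
        fun_prop
      apply Continuous.mul continuous_const
      apply Continuous.rpow_const hd
      intro δ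
      right
      positivity
    have ht : Filter.Tendsto (fun δ : ℝ =>
        n * (mom μ r n + δ • (1 : Matrix (Fin n) (Fin n) ℝ)).det ^ ((1 : ℝ) / n))
        (nhdsWithin 0 (Set.Ioi 0))
        (nhds (n * (mom μ r n + (0:ℝ) • (1 : Matrix (Fin n) (Fin n) ℝ)).det ^ ((1 : ℝ) / n))) :=
      (hc.tendsto 0).mono_left nhdsWithin_le_nhds
    have := ge_of_tendsto ht (b := Real.exp (-(n * J))) (by
      filter_upwards [self_mem_nhdsWithin] with δ hδ
      exact h1 δ hδ)
    simpa using this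
  have h3 : 0 ≤ (mom μ r n).det := (psd_mom h hr n).det_nonneg
  have h4 : (mom μ r n).det ^ ((1 : ℝ) / n)
      ≤ (Real.exp (-(n ^ 2 * J / 2) - n * Real.log r)) ^ ((1 : ℝ) / n) :=
    Real.rpow_le_rpow h3 (det_mom hN hD h hr n J hJ) (by positivity)
  have h5 : (Real.exp (-(n ^ 2 * J / 2) - n * Real.log r)) ^ ((1 : ℝ) / n)
      = Real.exp (-(n * J / 2) - Real.log r) := by
    rw [← Real.exp_mul]
    congr 1
    field_simp
  rw [h5] at h4
  have h6 : Real.exp (-(n * J)) ≤ Real.exp (Real.log n + (-(n * J / 2) - Real.log r)) := by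
    rw [Real.exp_add, Real.exp_log hn']
    exact h2.trans (mul_le_mul_of_nonneg_left h4 hn'.le)
  have h7 := Real.exp_le_exp.1 h6
  linarith

end SER1aux

open SER1aux

theorem pSER1 : NEGR → ANDR → HERM → SER1 := by
  intro hN hD hH B μ h hA r hr
  set J := ∫ p : ℝ × ℝ, Real.log ((p.1 - p.2) ^ 2 + r ^ 2) ∂(μ.prod μ) with hJ
  have key : ∀ n : ℕ, 0 < n → -(n * J) ≤ Real.log n - n * J / 2 - Real.log r :=
    fun n hn => bound_n hN hD hH h hA hr n hn J hJ
  have key2 : ∀ n : ℕ, 0 < n → -J ≤ 2 * (Real.log n / n) - 2 * Real.log r / n := by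
    intro n hn
    have hn' : (0:ℝ) < n := by exact_mod_cast hn
    have := key n hn
    rw [← mul_div_assoc, ← sub_div, le_div_iff₀ hn']
    linarith
  have hlim : Filter.Tendsto (fun n : ℕ => 2 * (Real.log n / n) - 2 * Real.log r / n)
      Filter.atTop (nhds (2 * 0 - 0)) := by
    apply Filter.Tendsto.sub
    · apply Filter.Tendsto.const_mul
      have h1 : Filter.Tendsto (fun x : ℝ => Real.log x / x) Filter.atTop (nhds 0) := by
        have := Real.isLittleO_log_id_atTop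
        exact this.tendsto_div_nhds_zero
      exact h1.comp tendsto_natCast_atTop_atTop
    · exact tendsto_const_div_atTop_nhds_zero_nat _
  have := ge_of_tendsto hlim (b := -J) (by
    filter_upwards [Filter.eventually_gt_atTop 0] with n hn
    exact key2 n hn)
  linarith

end Pool.Agent.W401.SSS
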