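import Pool.Agent.W401.SSS.Stm

set_option autoImplicit false

open MeasureTheory Filter Topology

namespace Pool.Agent.W401.SSS.SER2aux

/-- the approximating functions -/
noncomputable def fk (k : ℕ) (p : ℝ × ℝ) : ℝ :=
  Real.log ((p.1 - p.2) ^ 2 + (1 / ((k : ℝ) + 1)) ^ 2)

theorem arg_pos (k : ℕ) (p : ℝ × ℝ) : 0 < (p.1 - p.2) ^ 2 + (1 / ((k : ℝ) + 1)) ^ 2 := by
  positivity

theorem fk_meas (k : ℕ) : Measurable (fk k) := by
  unfold fk
  fun_prop

theorem fk_lower (k : ℕ) (p : ℝ × ℝ) : Real.log ((1 / ((k : ℝ) + 1)) ^ 2) ≤ fk k p := by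
  unfold fk
  apply Real.log_le_log (by positivity)
  nlinarith [sq_nonneg (p.1 - p.2)]

theorem fk_upper (k : ℕ) (B : ℝ) (p : ℝ × ℝ) (h1 : p.1 ∈ Set.Icc 0 B) (h2 : p.2 ∈ Set.Icc 0 B) :
    fk k p ≤ Real.log (B ^ 2 + 1) := by
  unfold fk
  apply Real.log_le_log (arg_pos k p)
  have h3 : (1 / ((k : ℝ) + 1)) ^ 2 ≤ 1 := by
    have : 1 / ((k : ℝ) + 1) ≤ 1 := by
      rw [div_le_one (by positivity)]
      have : (0 : ℝ) ≤ k := Nat.cast_nonneg k
      linarith
    have h0 : 0 ≤ 1 / ((k : ℝ) + 1) := by positivity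
    nlinarith
  have h4 : (p.1 - p.2) ^ 2 ≤ B ^ 2 := by
    obtain ⟨a1, a2⟩ := h1
    obtain ⟨b1, b2⟩ := h2
    apply sq_le_sq'
    · linarith
    · linarith
  linarith

theorem tend_r : Tendsto (fun k : ℕ => (1 / ((k : ℝ) + 1)) ^ 2) atTop (𝓝 0) := by
  have h : Tendsto (fun k : ℕ => 1 / ((k : ℝ) + 1)) atTop (𝓝 0) :=
    tendsto_one_div_add_atTop_nhds_zero_nat
  have := h.pow 2
  simpa using this

theorem fk_tend (p : ℝ × ℝ) (h : p.1 ≠ p.2) :
    Tendsto (fun k => fk k p) atTop (𝓝 (2 * Real.log |p.1 - p.2|)) := by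
  have h0 : (p.1 - p.2) ^ 2 ≠ 0 := pow_ne_zero _ (sub_ne_zero.2 h)
  have e : 2 * Real.log |p.1 - p.2| = Real.log ((p.1 - p.2) ^ 2 + 0) := by
    rw [add_zero, Real.log_pow, Real.log_abs]
    norm_num
  rw [e]
  have h1 : Tendsto (fun k : ℕ => (p.1 - p.2) ^ 2 + (1 / ((k : ℝ) + 1)) ^ 2) atTop
      (𝓝 ((p.1 - p.2) ^ 2 + 0)) := tendsto_const_nhds.add tend_r
  exact (Real.continuousAt_log (by rwa [add_zero])).tendsto.comp h1

theorem fk_diag (p : ℝ × ℝ) (h : p.1 = p.2) : Tendsto (fun k => fk k p) atTop atBot := by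
  have h1 : Tendsto (fun k : ℕ => (1 / ((k : ℝ) + 1)) ^ 2) atTop (𝓝[>] 0) := by
    rw [tendsto_nhdsWithin_iff]
    refine ⟨tend_r, Eventually.of_forall fun k => ?_⟩
    have : (0 : ℝ) < (1 / ((k : ℝ) + 1)) ^ 2 := by positivity
    exact this
  have h2 := Real.tendsto_log_nhdsGT_zero.comp h1
  refine h2.congr fun k => ?_
  unfold fk
  simp [h]

end Pool.Agent.W401.SSS.SER2aux

namespace Pool.Agent.W401.SSS

open SER2aux

theorem pSER2 : SER2 := by
  intro B μ hμ hr
  obtain ⟨hp, hB⟩ := hμ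
  set ρ := μ.prod μ with hρ
  have hae : ∀ᵐ x ∂μ, x ∈ Set.Icc 0 B := by
    rw [ae_iff]
    exact hB
  have hae2 : ∀ᵐ p ∂ρ, p.1 ∈ Set.Icc 0 B ∧ p.2 ∈ Set.Icc 0 B := by
    filter_upwards [Measure.quasiMeasurePreserving_fst.ae hae,
      Measure.quasiMeasurePreserving_snd.ae hae] with p h1 h2
    exact ⟨h1, h2⟩
  set A := Real.log (B ^ 2 + 1) with hA
  have hA0 : 0 ≤ A := Real.log_nonneg (by nlinarith [sq_nonneg B])
  have hint : ∀ k, Integrable (fk k) ρ := by
    intro k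
    refine Integrable.of_bound (fk_meas k).aestronglyMeasurable
      (max A (-Real.log ((1 / ((k : ℝ) + 1)) ^ 2))) ?_
    filter_upwards [hae2] with p hp2
    rw [Real.norm_eq_abs, abs_le]
    have h1 := fk_lower k p
    have h2 := fk_upper k B p hp2.1 hp2.2
    constructor
    · have := le_max_right A (-Real.log ((1 / ((k : ℝ) + 1)) ^ 2))
      linarith
    · exact h2.trans (le_max_left _ _)
  have hpos : ∀ k, ∀ᵐ p ∂ρ, 0 ≤ A - fk k p := by
    intro k
    filter_upwards [hae2] with p hp2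
    have := fk_upper k B p hp2.1 hp2.2
    linarith
  have hG : ∀ k, ∫⁻ p, ENNReal.ofReal (A - fk k p) ∂ρ ≤ ENNReal.ofReal A := by
    intro k
    have hi : Integrable (fun p => A - fk k p) ρ := (integrable_const A).sub (hint k)
    rw [← ofReal_integral_eq_lintegral_ofReal hi (hpos k)]
    apply ENNReal.ofReal_le_ofReal
    rw [integral_sub (integrable_const A) (hint k)]
    have h1 : 0 ≤ ∫ p, fk k p ∂ρ := hr (1 / ((k : ℝ) + 1)) (by positivity)
    simp
    exact h1
  have hm : ∀ k, Measurable fun p => ENNReal.ofReal (A - fk k p) := fun k =>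
    ENNReal.measurable_ofReal.comp (measurable_const.sub (fk_meas k))
  have hF : ∫⁻ p, liminf (fun k => ENNReal.ofReal (A - fk k p)) atTop ∂ρ ≤ ENNReal.ofReal A := by
    refine (lintegral_liminf_le hm).trans ?_
    refine (liminf_le_liminf (Eventually.of_forall hG)).trans ?_
    simp
  have hlt : ∀ᵐ p ∂ρ, liminf (fun k => ENNReal.ofReal (A - fk k p)) atTop < ⊤ :=
    ae_lt_top (Measurable.liminf hm) (ne_top_of_le_ne_top ENNReal.ofReal_ne_top hF)
  have hoff : ∀ᵐ p ∂ρ, p.1 ≠ p.2 := by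
    filter_upwards [hlt] with p hp2 he
    have h1 : Tendsto (fun k => A - fk k p) atTop atTop := by
      have := (tendsto_neg_atBot_atTop.comp (fk_diag p he))
      exact (tendsto_atTop_add_const_left atTop A this).congr fun k => by simp [sub_eq_add_neg]
    have h2 : Tendsto (fun k => ENNReal.ofReal (A - fk k p)) atTop (𝓝 ⊤) :=
      ENNReal.tendsto_ofReal_atTop.comp h1
    rw [h2.liminf_eq] at hp2
    exact lt_irrefl _ hp2
  have hlim : ∀ᵐ p ∂ρ, liminf (fun k => ENNReal.ofReal (A - fk k p)) atTop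
      = ENNReal.ofReal (A - 2 * Real.log |p.1 - p.2|) := by
    filter_upwards [hoff] with p he
    have h1 : Tendsto (fun k => A - fk k p) atTop (𝓝 (A - 2 * Real.log |p.1 - p.2|)) :=
      tendsto_const_nhds.sub (fk_tend p he)
    exact ((ENNReal.continuous_ofReal.tendsto _).comp h1).liminf_eq
  have hposg : ∀ᵐ p ∂ρ, 0 ≤ A - 2 * Real.log |p.1 - p.2| := by
    filter_upwards [hoff, hae2] with p he hp2
    have h1 : Tendsto (fun k => A - fk k p) atTop (𝓝 (A - 2 * Real.log |p.1 - p.2|)) :=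
      tendsto_const_nhds.sub (fk_tend p he)
    refine ge_of_tendsto' h1 fun k => ?_
    have := fk_upper k B p hp2.1 hp2.2
    linarith
  have hmg : Measurable fun p : ℝ × ℝ => A - 2 * Real.log |p.1 - p.2| := by fun_prop
  rw [lintegral_congr_ae hlim] at hF
  have hig : Integrable (fun p : ℝ × ℝ => A - 2 * Real.log |p.1 - p.2|) ρ :=
    (lintegral_ofReal_ne_top_iff_integrable hmg.aestronglyMeasurable hposg).1
      (ne_top_of_le_ne_top ENNReal.ofReal_ne_top hF)
  have hlog : Integrable (fun p : ℝ × ℝ => Real.log |p.1 - p.2|) ρ := by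
    have h1 : Integrable (fun p : ℝ × ℝ => (1 / 2) * (A - (A - 2 * Real.log |p.1 - p.2|))) ρ :=
      ((integrable_const A).sub hig).const_mul (1 / 2)
    refine h1.congr (Eventually.of_forall fun p => ?_)
    show (1 / 2) * (A - (A - 2 * Real.log |p.1 - p.2|)) = Real.log |p.1 - p.2|
    ring
  refine ⟨⟨?_, hlog⟩, ?_⟩
  · have := hoff
    rw [ae_iff] at this
    simpa using this
  · have h1 : ENNReal.ofReal (∫ p, (A - 2 * Real.log |p.1 - p.2|) ∂ρ) ≤ ENNReal.ofReal A := by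
      rw [ofReal_integral_eq_lintegral_ofReal hig hposg]
      exact hF
    have h2 : ∫ p, (A - 2 * Real.log |p.1 - p.2|) ∂ρ ≤ A :=
      (ENNReal.ofReal_le_ofReal_iff hA0).1 h1
    rw [integral_sub (integrable_const A) (hlog.const_mul 2), integral_const_mul] at h2
    simp only [integral_const, probReal_univ, smul_eq_mul, one_mul] at h2
    unfold En
    linarith

end Pool.Agent.W401.SSS
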