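import Pool.Agent.W401.SSS.Stm

open MeasureTheory Polynomial

namespace Pool.Agent.W401.SSS

namespace SETIaux

theorem ae_good {B : ℝ} {ν : Measure ℝ} (hOn : On B ν) (hAr : Arith ν) (F : Finset ℤ[X])
    (hF : ∀ Q ∈ F, Q ≠ 0) :
    ∀ᵐ x ∂ν, x ∈ Set.Icc (0 : ℝ) B ∧ ∀ Q ∈ F, ev Q x ≠ 0 := by
  have h1 : ∀ᵐ x ∂ν, x ∈ Set.Icc (0 : ℝ) B := hOn.2
  have h2 : ∀ᵐ x ∂ν, ∀ Q ∈ F, ev Q x ≠ 0 := by
    rw [Filter.eventually_all_finset]
    intro Q hQ
    have h3 := (hAr Q (hF Q hQ)).1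
    have : {x | ¬ ev Q x ≠ 0} = {x | ev Q x = 0} := by ext x; simp
    rw [ae_iff, this]
    exact h3
  filter_upwards [h1, h2] with x hx1 hx2 using ⟨hx1, hx2⟩

theorem int_id {B : ℝ} {ν : Measure ℝ} (hOn : On B ν) : Integrable (fun x : ℝ => x) ν := by
  have := hOn.1
  exact Integrable.of_mem_Icc 0 B measurable_id.aemeasurable hOn.2

theorem int_pot {ν : Measure ℝ} (hAr : Arith ν) (F : Finset ℤ[X]) (a : ℤ[X] → ℝ)
    (hF : ∀ Q ∈ F, Q ≠ 0) :
    Integrable (pot F a) ν ∧ ∫ x, pot F a x ∂ν = ∑ Q ∈ F, a Q * ∫ x, Real.log |ev Q x| ∂ν := by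
  have h : ∀ Q ∈ F, Integrable (fun x => a Q * Real.log |ev Q x|) ν :=
    fun Q hQ => ((hAr Q (hF Q hQ)).2.1).const_mul _
  refine ⟨?_, ?_⟩
  · unfold pot
    exact integrable_finsetSum F h
  · unfold pot
    rw [integral_finsetSum F h]
    exact Finset.sum_congr rfl fun Q _ => integral_const_mul _ _

end SETIaux

open SETIaux in
theorem pSETI : BI → INTEG → SETI := by
  rintro ⟨C, hC0, hC⟩ hI
  refine ⟨C, hC0, fun μ lam η F a hS => ?_⟩
  have := hS.on.1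
  have hF : ∀ Q ∈ F, Q ≠ 0 := fun Q hQ => (hS.cert.adm Q hQ).ne_zero
  obtain ⟨hi, he⟩ := int_pot hS.ar F a hF
  have hid := int_id hS.on
  have hae := ae_good hS.on hS.ar F hF
  have hs : Integrable (fun x : ℝ => x - lam) μ := hid.sub (integrable_const _)
  have hs2 : Integrable (fun x : ℝ => x - lam + η) μ := hs.add (integrable_const _)
  have hhi : Integrable (hh lam η F a) μ := by
    unfold hh
    exact hs2.sub hi
  have hint : ∫ x, hh lam η F a x ∂μ = η - ∑ Q ∈ F, a Q * ∫ x, Real.log |ev Q x| ∂μ := by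
    have hmean := hS.mean_eq
    unfold mean at hmean
    unfold hh
    rw [integral_sub hs2 hi, integral_add hs (integrable_const _),
      integral_sub hid (integrable_const _), he, hmean, integral_const, integral_const]
    simp only [probReal_univ, one_smul]
    ring
  have hnn : ∀ᵐ x ∂μ, 0 ≤ hh lam η F a x := by
    filter_upwards [hae] with x hx
    have := hS.cert.le x ⟨hx.1.1, hx.1.2.trans (by norm_num)⟩ hx.2
    unfold hh
    linarith
  have h3 : ∀ Q ∈ F, 0 ≤ ∫ x, Real.log |ev Q x| ∂μ := fun Q hQ => (hS.ar Q (hF Q hQ)).2.2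
  have h4 : 0 ≤ ∑ Q ∈ F, a Q * ∫ x, Real.log |ev Q x| ∂μ :=
    Finset.sum_nonneg fun Q hQ => mul_nonneg (hS.cert.pos Q hQ).le (h3 Q hQ)
  have h5 : 0 ≤ ∫ x, hh lam η F a x ∂μ := integral_nonneg_of_ae hnn
  refine ⟨hhi, hnn, by linarith, h3, by linarith, ?_⟩
  intro r hr hr1
  have hQi : ∀ Q ∈ F, Integrable (fun x : ℝ => a Q * rsum Q
      (fun α => (1 / 2) * Real.log (1 + r ^ 2 / ‖(x : ℂ) - α‖ ^ 2))) μ := fun Q hQ =>
    ((hI 1000 μ Q hS.on (hF Q hQ) (hS.ar Q (hF Q hQ))).2 r).const_mul _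
  have h6 : ∑ Q ∈ F, a Q * ∫ x : ℝ, rsum Q
      (fun α => (1 / 2) * Real.log (1 + r ^ 2 / ‖(x : ℂ) - α‖ ^ 2)) ∂μ =
      ∫ x : ℝ, ∑ Q ∈ F, a Q * rsum Q
      (fun α => (1 / 2) * Real.log (1 + r ^ 2 / ‖(x : ℂ) - α‖ ^ 2)) ∂μ := by
    rw [integral_finsetSum F hQi]
    exact Finset.sum_congr rfl fun Q _ => (integral_const_mul _ _).symm
  rw [h6]
  have h7 : ∫ x : ℝ, ∑ Q ∈ F, a Q * rsum Q
      (fun α => (1 / 2) * Real.log (1 + r ^ 2 / ‖(x : ℂ) - α‖ ^ 2)) ∂μ ≤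
      ∫ x, (C * Real.sqrt r + hh lam η F a x) ∂μ := by
    apply integral_mono_ae (integrable_finsetSum F hQi) ((integrable_const _).add hhi)
    filter_upwards [hae] with x hx
    exact hC lam η F a hS.lam0 hS.lam6 hS.eta0 hS.eta1 hS.cert x hx.1 hx.2 r hr hr1
  rw [integral_add (integrable_const _) hhi, integral_const] at h7
  simp only [probReal_univ, one_smul] at h7
  linarith

end Pool.Agent.W401.SSS
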