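import Pool.Agent.W401.SSS.Stm

/-!
# Task SGN: alternating signs give real roots
-/

set_option autoImplicit false

open MeasureTheory Polynomial Set Filter Topology

namespace Pool.Agent.W401.SSS.SGNaux

theorem z_mono {d : ℕ} {z : ℕ → ℝ} (h : ∀ j < d, z j < z (j + 1)) :
    ∀ j k : ℕ, j ≤ k → k ≤ d → z j ≤ z k := by
  intro j k hjk
  induction k, hjk using Nat.le_induction with
  | base => intro _; exact le_refl _
  | succ k _ ih =>
    intro hk
    exact (ih (by omega)).trans (h k (by omega)).le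

theorem exists_root {d : ℕ} {p : ℤ[X]} {z : ℕ → ℝ} (h : ∀ j < d, z j < z (j + 1))
    (hs : ∀ j ≤ d, 0 < (-1) ^ (d - j) * ev p (z j)) :
    ∀ j : ℕ, j < d → ∃ w : ℝ, z j < w ∧ w < z (j + 1) ∧ ev p w = 0 := by
  intro j hj
  have h1 := hs j hj.le
  have h2 := hs (j + 1) hj
  have e : d - j = (d - (j + 1)) + 1 := by omega
  rw [e, pow_succ] at h1
  have hlt := h j hj
  have hc : ContinuousOn (ev p) (Icc (z j) (z (j + 1))) := (continuous_ev p).continuousOn
  rcases neg_one_pow_eq_or ℝ (d - (j + 1)) with hp | hp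
  · rw [hp] at h1 h2
    have h3 : ev p (z j) < 0 := by linarith
    have h4 : 0 < ev p (z (j + 1)) := by linarith
    obtain ⟨w, hw, hw0⟩ := intermediate_value_Ioo hlt.le hc ⟨h3, h4⟩
    exact ⟨w, hw.1, hw.2, hw0⟩
  · rw [hp] at h1 h2
    have h3 : 0 < ev p (z j) := by linarith
    have h4 : ev p (z (j + 1)) < 0 := by linarith
    obtain ⟨w, hw, hw0⟩ := intermediate_value_Ioo' hlt.le hc ⟨h4, h3⟩
    exact ⟨w, hw.1, hw.2, hw0⟩

end Pool.Agent.W401.SSS.SGNaux

namespace Pool.Agent.W401.SSS
open SGNaux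

theorem pSGN : SGN := by
  intro d p z hmon hdeg hz hs hz0 x hx
  choose! w hw1 hw2 hw3 using exists_root hz hs
  have hlt : ∀ j k : ℕ, j < k → k < d → w j < w k := by
    intro j k hjk hk
    have h1 := hw2 j (by omega)
    have h2 := z_mono hz (j + 1) k hjk hk.le
    have h3 := hw1 k hk
    linarith
  have hinj : Set.InjOn (fun j : ℕ => ((w j : ℝ) : ℂ)) (Finset.range d : Set ℕ) := by
    intro j hj k hk hjk
    simp only [Finset.coe_range, Set.mem_Iio] at hj hk
    have hjk' : w j = w k := Complex.ofReal_injective hjk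
    rcases lt_trichotomy j k with h | h | h
    · exact absurd hjk' (hlt j k h hk).ne
    · exact h
    · exact absurd hjk' (hlt k j h hj).ne'
  have hp0 : p ≠ 0 := hmon.ne_zero
  set T : Finset ℂ := (Finset.range d).image (fun j : ℕ => ((w j : ℝ) : ℂ)) with hT
  have hTcard : T.card = d := by
    rw [hT, Finset.card_image_of_injOn hinj, Finset.card_range]
  have hTsub : T ⊆ (rts p).toFinset := by
    intro y hy
    rw [hT, Finset.mem_image] at hy
    obtain ⟨j, hj, rfl⟩ := hy
    rw [Multiset.mem_toFinset]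
    exact (ev_eq_zero_iff hp0 _).1 (hw3 j (Finset.mem_range.1 hj))
  have hcard : (rts p).toFinset.card ≤ T.card := by
    rw [hTcard, ← hdeg, ← rts_card p]
    exact Multiset.toFinset_card_le _
  have hEq : T = (rts p).toFinset := Finset.eq_of_subset_of_card_le hTsub hcard
  have hxT : x ∈ T := by
    rw [hEq, Multiset.mem_toFinset]
    exact hx
  rw [hT, Finset.mem_image] at hxT
  obtain ⟨j, hj, rfl⟩ := hxT
  have hj' := Finset.mem_range.1 hj
  refine ⟨Complex.ofReal_im _, ?_⟩
  rw [Complex.ofReal_re]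
  have h1 := z_mono hz 0 j (Nat.zero_le j) hj'.le
  have h2 := hw1 j hj'
  linarith

end Pool.Agent.W401.SSS
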