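import Pool.Agent.W401.SSS.Stm

/-!
# Step SMC: construction of totally positive irreducible polynomials from an arithmetic measure
-/

open MeasureTheory Polynomial

namespace Pool.Agent.W401.SSS

namespace SMCaux

theorem num (κ : ℝ) (hκ : 0 < κ) : ∃ n0 : ℕ, 1 ≤ n0 ∧ ∀ n m : ℕ, n0 ≤ n → κ * n ≤ m →
    2 * (n : ℝ) ^ 2 * Real.exp (κ / 2 * n) < 10 ^ m := by
  obtain ⟨N, hN⟩ := exists_nat_ge (16 / κ ^ 3)
  refine ⟨N + 1, by omega, fun n m hn hm => ?_⟩
  have hn1 : (1 : ℝ) ≤ n := by exact_mod_cast (by omega : 1 ≤ n)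
  have hnN : 16 / κ ^ 3 ≤ n := hN.trans (by exact_mod_cast (by omega : N ≤ n))
  have hk3 : 0 < κ ^ 3 := by positivity
  have h16 : 16 ≤ κ ^ 3 * n := by
    rw [div_le_iff₀ hk3] at hnN; linarith
  have hexp : (κ * n / 2) ^ 3 < (Real.exp (κ * n / 2)) ^ 3 := by
    have h0 : 0 ≤ κ * n / 2 := by positivity
    have h1 : κ * n / 2 < Real.exp (κ * n / 2) := by linarith [Real.add_one_le_exp (κ * n / 2)]
    exact pow_lt_pow_left₀ h1 h0 (by norm_num)
  have h2 : 2 * (n : ℝ) ^ 2 ≤ (κ * n / 2) ^ 3 := by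
    have h3 : (κ * n / 2) ^ 3 = (κ ^ 3 * n) * (n : ℝ) ^ 2 / 8 := by ring
    rw [h3]
    have h4 : 16 * (n : ℝ) ^ 2 ≤ (κ ^ 3 * n) * (n : ℝ) ^ 2 :=
      mul_le_mul_of_nonneg_right h16 (by positivity)
    linarith
  have h10 : Real.exp (2 * (κ * n)) ≤ 10 ^ m := by
    calc Real.exp (2 * (κ * n)) ≤ Real.exp (2 * m) := Real.exp_le_exp.2 (by linarith)
      _ = (Real.exp 1) ^ (2 * m) := by rw [← Real.exp_nat_mul]; push_cast; ring_nf
      _ = (Real.exp 1 ^ 2) ^ m := by rw [pow_mul]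
      _ ≤ 10 ^ m := by
        apply pow_le_pow_left₀ (by positivity)
        nlinarith [Real.exp_one_lt_d9, Real.exp_pos 1]
  calc 2 * (n : ℝ) ^ 2 * Real.exp (κ / 2 * n)
      < Real.exp (κ * n / 2) ^ 3 * Real.exp (κ / 2 * n) :=
        mul_lt_mul_of_pos_right (lt_of_le_of_lt h2 hexp) (Real.exp_pos _)
    _ = Real.exp (2 * (κ * n)) := by
        rw [← Real.exp_nat_mul, ← Real.exp_add]; congr 1; push_cast; ring
    _ ≤ 10 ^ m := h10

theorem smono {n : ℕ} {x : ℕ → ℝ} (hx : ∀ j < n, x j < x (j + 1)) :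
    ∀ i j, i < j → j ≤ n → x i < x j := by
  intro i j
  induction j with
  | zero => intro h; omega
  | succ j ih =>
    intro hij hjn
    rcases Nat.lt_succ_iff_lt_or_eq.1 hij with h | h
    · exact (ih h (by omega)).trans (hx j (by omega))
    · subst h; exact hx _ (by omega)

theorem wmono {n : ℕ} {x : ℕ → ℝ} (hx : ∀ j < n, x j < x (j + 1)) :
    ∀ i j, i ≤ j → j ≤ n → x i ≤ x j := by
  intro i j hij hjn
  rcases Nat.lt_or_eq_of_le hij with h | h
  · exact (smono hx i j h hjn).le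
  · subst h; exact le_rfl

theorem prod_abs {n : ℕ} {m : ℕ → ℝ} {t : ℝ} (h : ∀ i < n, t ≠ m i) :
    ∏ i ∈ Finset.range n, |t - m i| = Real.exp (∑ i ∈ Finset.range n, Real.log |t - m i|) := by
  rw [Real.exp_sum]
  refine Finset.prod_congr rfl fun i hi => ?_
  rw [Real.exp_log]
  exact abs_pos.2 (sub_ne_zero.2 (h i (Finset.mem_range.1 hi)))

theorem sgn_prod {n : ℕ} {x m : ℕ → ℝ} (hx : ∀ j < n, x j < m j ∧ m j < x (j + 1)) :
    ∀ j ≤ n, (-1) ^ (n - j) * ∏ i ∈ Finset.range n, (x j - m i)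
      = ∏ i ∈ Finset.range n, |x j - m i| := by
  intro j hj
  have hxx : ∀ j < n, x j < x (j + 1) := fun j hj => (hx j hj).1.trans (hx j hj).2
  obtain ⟨k, rfl⟩ := Nat.exists_eq_add_of_le hj
  rw [Finset.prod_range_add, Finset.prod_range_add]
  have h1 : ∏ i ∈ Finset.range j, (x j - m i) = ∏ i ∈ Finset.range j, |x j - m i| := by
    refine Finset.prod_congr rfl fun i hi => ?_
    have hi := Finset.mem_range.1 hi
    have h2 := (hx i (by omega)).2
    have h3 := wmono hxx (i + 1) j (by omega) (by omega)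
    rw [abs_of_pos (by linarith)]
  have h2 : ∏ i ∈ Finset.range k, (x j - m (j + i))
      = (-1) ^ k * ∏ i ∈ Finset.range k, |x j - m (j + i)| := by
    have h3 : ∀ i ∈ Finset.range k, (x j - m (j + i)) = (-1) * |x j - m (j + i)| := by
      intro i hi
      have hi := Finset.mem_range.1 hi
      have h2 := (hx (j + i) (by omega)).1
      have h3 := wmono hxx j (j + i) (by omega) (by omega)
      rw [abs_of_neg (by linarith)]; ring
    rw [Finset.prod_congr rfl h3, Finset.prod_mul_distrib, Finset.prod_const, Finset.card_range]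
  rw [h1, h2, Nat.add_sub_cancel_left]
  have h4 : ((-1 : ℝ)) ^ k * (-1) ^ k = 1 := by
    rw [← mul_pow]; norm_num
  calc (-1) ^ k * ((∏ i ∈ Finset.range j, |x j - m i|) *
        ((-1) ^ k * ∏ i ∈ Finset.range k, |x j - m (j + i)|))
      = ((-1) ^ k * (-1) ^ k) * ((∏ i ∈ Finset.range j, |x j - m i|) *
        ∏ i ∈ Finset.range k, |x j - m (j + i)|) := by ring
    _ = _ := by rw [h4, one_mul]

theorem mk_poly (d : ℕ) (c : ℕ → ℤ) :
    ∃ p : ℤ[X], p.Monic ∧ p.natDegree = d ∧ (∀ i < d, p.coeff i = c i) := by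
  have hlt : (∑ i ∈ Finset.range d, C (c i) * X ^ i : ℤ[X]).degree < d := by
    refine mem_degreeLT.1 (Submodule.sum_mem _ fun i hi => mem_degreeLT.2 ?_)
    refine lt_of_le_of_lt (degree_C_mul_X_pow_le i (c i)) ?_
    exact_mod_cast Finset.mem_range.1 hi
  refine ⟨X ^ d + ∑ i ∈ Finset.range d, C (c i) * X ^ i, ?_, ?_, ?_⟩
  · exact monic_X_pow_add hlt
  · have h1 : (X ^ d + ∑ i ∈ Finset.range d, C (c i) * X ^ i : ℤ[X]).degree = d := by
      rw [degree_add_eq_left_of_degree_lt, degree_X_pow]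
      rw [degree_X_pow]; exact hlt
    exact natDegree_eq_of_degree_eq_some h1
  · intro i hi
    rw [coeff_add, finsetSum_coeff, coeff_X_pow, if_neg (by omega), zero_add]
    rw [Finset.sum_eq_single i]
    · simp
    · intro j _ hj
      rw [coeff_C_mul_X_pow, if_neg (fun h => hj h.symm)]
    · intro h; exact absurd (Finset.mem_range.2 hi) h

theorem ev_sub {n m : ℕ} {p : ℤ[X]} {F : ℝ[X]} (hp : p.Monic) (hpd : p.natDegree = n + m)
    (hF : F.Monic) (hFd : F.natDegree = n + m)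
    (hco : ∀ i, n ≤ i → i < n + m → (p.coeff i : ℝ) = F.coeff i) (t : ℝ) :
    ev p t - F.eval t = ∑ i : Fin n, ((p.coeff i : ℝ) - F.coeff i) * t ^ (i : ℕ) := by
  have h1 : ev p t = ∑ i ∈ Finset.range (n + m + 1), (p.coeff i : ℝ) * t ^ i := by
    unfold ev
    rw [aeval_eq_sum_range, hpd]
    refine Finset.sum_congr rfl fun i _ => ?_
    rw [zsmul_eq_mul]
  have h2 : F.eval t = ∑ i ∈ Finset.range (n + m + 1), F.coeff i * t ^ i := by
    rw [eval_eq_sum_range, hFd]
  have hp1 : p.coeff (n + m) = 1 := by rw [← hpd]; exact hp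
  have hF1 : F.coeff (n + m) = 1 := by rw [← hFd]; exact hF
  rw [h1, h2, ← Finset.sum_sub_distrib, Finset.sum_range_succ, hp1, hF1, Finset.sum_range_add]
  rw [Finset.sum_eq_zero (s := Finset.range m), Finset.sum_range]
  · simp only [sub_mul]
    push_cast
    ring
  · intro i hi
    have hi := Finset.mem_range.1 hi
    rw [hco (n + i) (by omega) (by omega)]
    ring

/-- The lattice step: combining the lower bound on moment functionals with the lattice
approximation. -/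
theorem approx (hLAT : LAT) {n : ℕ} {T : Finset ℝ} {U : ℝ → ℝ} {s : ℝ} (hn : 1 ≤ n)
    (hT : n ≤ T.card)
    (hc : ∀ (l : ℕ → ℤ) (lm : ℝ → ℝ), (∃ k < n, l k ≠ 0) →
      (∀ k < n, ∑ τ ∈ T, lm τ * τ ^ k = l k) →
      ∃ τ ∈ T, Real.exp (-(s * n)) ≤ |lm τ| * Real.exp (n * U τ)) (x : Fin n → ℝ) :
    ∃ k : Fin n → ℤ, ∀ τ ∈ T, 4 * |∑ j, (x j - k j) * τ ^ (j : ℕ)| ≤
      2 * (n : ℝ) ^ 2 * Real.exp (s * n) * Real.exp (n * U τ) := by
  have hnR : (1 : ℝ) ≤ n := by exact_mod_cast hn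
  obtain ⟨k, hk⟩ := hLAT n T (fun τ => Real.exp (-(n * U τ))) (Real.exp (-(s * n))) hT
    (fun τ _ => Real.exp_pos _) (Real.exp_pos _) (by
      intro l lm hl hmom
      obtain ⟨j, hj⟩ : ∃ j, l j ≠ 0 := by
        by_contra hcon
        push Not at hcon
        exact hl (funext hcon)
      obtain ⟨τ, hτ, hτ2⟩ := hc (fun i => if h : i < n then l ⟨i, h⟩ else 0) lm
        ⟨j, j.2, by simpa using hj⟩ (by
          intro i hi
          rw [dif_pos hi]
          exact hmom ⟨i, hi⟩)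
      have h1 : Real.exp (-(s * n)) ^ 2 ≤ (lm τ / Real.exp (-(n * U τ))) ^ 2 := by
        have h2 : |lm τ / Real.exp (-(n * U τ))| = |lm τ| * Real.exp (n * U τ) := by
          rw [abs_div, abs_of_pos (Real.exp_pos (-(n * U τ))), Real.exp_neg, div_inv_eq_mul]
        rw [← sq_abs (lm τ / Real.exp (-(n * U τ))), h2]
        exact pow_le_pow_left₀ (Real.exp_pos _).le hτ2 2
      exact h1.trans (Finset.single_le_sum (f := fun τ => (lm τ / Real.exp (-(n * U τ))) ^ 2)
        (fun i _ => sq_nonneg _) hτ)) x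
  refine ⟨k, fun τ hτ => ?_⟩
  have h1 := (Finset.single_le_sum (f := fun τ => Real.exp (-(n * U τ)) ^ 2 *
    (∑ j, (x j - k j) * τ ^ (j : ℕ)) ^ 2) (fun i _ => by positivity) hτ).trans hk
  set S := ∑ j, (x j - k j) * τ ^ (j : ℕ) with hS
  have h2 : (Real.exp (-(n * U τ)) * |S|) ^ 2 ≤ ((n : ℝ) ^ 2 * Real.exp (s * n) / 2) ^ 2 := by
    rw [mul_pow, sq_abs]
    refine h1.trans ?_
    have h3 : (Real.exp (-(s * n))) ^ 2 = (Real.exp (s * n) ^ 2)⁻¹ := by
      rw [Real.exp_neg, inv_pow]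
    rw [h3]
    have h4 : (n : ℝ) ^ 3 / (4 * (Real.exp (s * n) ^ 2)⁻¹) = (n : ℝ) ^ 3 * Real.exp (s * n) ^ 2 / 4 := by
      have := Real.exp_pos (s * n)
      field_simp
    rw [h4]
    have h5 : (n : ℝ) ^ 3 ≤ (n : ℝ) ^ 4 := pow_le_pow_right₀ hnR (by norm_num)
    have h6 : (n : ℝ) ^ 3 * Real.exp (s * n) ^ 2 ≤ (n : ℝ) ^ 4 * Real.exp (s * n) ^ 2 :=
      mul_le_mul_of_nonneg_right h5 (by positivity)
    have h7 : ((n : ℝ) ^ 2 * Real.exp (s * n) / 2) ^ 2 = (n : ℝ) ^ 4 * Real.exp (s * n) ^ 2 / 4 := by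
      ring
    rw [h7]
    linarith
  have h3 : Real.exp (-(n * U τ)) * |S| ≤ (n : ℝ) ^ 2 * Real.exp (s * n) / 2 :=
    abs_le_of_sq_le_sq' h2 (by positivity) |>.2
  have h4 : |S| = Real.exp (n * U τ) * (Real.exp (-(n * U τ)) * |S|) := by
    rw [← mul_assoc, ← Real.exp_add]; simp
  calc 4 * |S| = 4 * (Real.exp (n * U τ) * (Real.exp (-(n * U τ)) * |S|)) := by rw [← h4]
    _ ≤ 4 * (Real.exp (n * U τ) * ((n : ℝ) ^ 2 * Real.exp (s * n) / 2)) := by
        have := mul_le_mul_of_nonneg_left h3 (Real.exp_pos (n * U τ)).le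
        linarith
    _ = _ := by ring

/-- Sign at a point where the main term dominates. -/
theorem sgn_dom {a b e v A : ℝ} {σ : ℝ} (hσ : |σ| = 1) (hv : 0 < v) (hA : 0 < A)
    (ha : v ≤ a) (hb : A ≤ b) (hσab : σ * e = a * b) {q : ℝ} (hq : |q - e| < A * v) :
    0 < σ * q := by
  have h1 : σ * q = a * b + σ * (q - e) := by rw [← hσab]; ring
  have h2 : |σ * (q - e)| < A * v := by rw [abs_mul, hσ, one_mul]; exact hq
  have h3 : v * A ≤ a * b := mul_le_mul ha hb hA.le (hv.le.trans ha)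
  have h4 := (abs_lt.1 h2).1
  rw [h1]; nlinarith

end SMCaux

open SMCaux

theorem pSMC : BARY → CHEB → CORE → LAT → EISEN → SGN → SMC := by
  intro hBARY hCHEB hCORE hLAT hEISEN hSGN B c ν hB hc hOn hLip hAr κ hκ
  obtain ⟨n1, hn1, hnum⟩ := SMCaux.num κ hκ
  obtain ⟨n0, hcore⟩ := hCORE B (B + 40) c ν hB hc (by linarith) hOn hLip hAr (κ / 2)
    (by linarith)
  refine ⟨max n0 n1, fun n m hn hκm hm hmn => ?_⟩
  have hn0 : n0 ≤ n := le_trans (le_max_left _ _) hn
  have hn1' : n1 ≤ n := le_trans (le_max_right _ _) hn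
  have hnpos : 0 < n := by omega
  obtain ⟨x, mm, hx0, hxn, hxm, hmean, hU⟩ := hBARY B c ν hB hOn hLip n hnpos
  have hxx : ∀ j < n, x j < x (j + 1) := fun j hj => (hxm j hj).1.trans (hxm j hj).2
  obtain ⟨P, hPdef⟩ : ∃ P : ℝ[X], P = ∏ j ∈ Finset.range n, (X - C (mm j)) := ⟨_, rfl⟩
  have hPm : P.Monic := by rw [hPdef]; exact monic_prod_of_monic _ _ fun j _ => monic_X_sub_C _
  have hPd : P.natDegree = n := by
    rw [hPdef, natDegree_prod_of_monic _ _ fun j _ => monic_X_sub_C _]; simp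
  have hPe : ∀ t, P.eval t = ∏ i ∈ Finset.range n, (t - mm i) := by
    intro t; rw [hPdef, eval_prod]; simp
  obtain ⟨u, y, hum, hud, hz, hy0, hym, hys, hysgn, hut, hucoef⟩ := hCHEB B m P hm hPm
  -- the nodes
  obtain ⟨z, hzdef⟩ : ∃ z : ℕ → ℝ, z = fun i => if i ≤ n then x i else y (i - n) := ⟨_, rfl⟩
  have hzx : ∀ i ≤ n, z i = x i := fun i hi => by rw [hzdef]; simp [hi]
  have hzy : ∀ i, z (n + i) = y i := by
    intro i
    rcases Nat.eq_zero_or_pos i with h | h
    · subst h; rw [add_zero, hzx n le_rfl, hxn, hy0]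
    · rw [hzdef]
      simp only
      rw [if_neg (by omega), Nat.add_sub_cancel_left]
  have hzz : ∀ j < n + m, z j < z (j + 1) := by
    intro j hj
    rcases Nat.lt_or_ge j n with h | h
    · rw [hzx j h.le, hzx (j + 1) h]; exact hxx j h
    · obtain ⟨i, rfl⟩ := Nat.exists_eq_add_of_le h
      rw [hzy, add_assoc, hzy]
      exact hys i (by omega)
  have hz0 : z 0 = 0 := by rw [hzx 0 (by omega), hx0]
  have hzl : z (n + m) = B + 40 := by rw [hzy, hym]
  obtain ⟨T, hTdef⟩ : ∃ T : Finset ℝ, T = (Finset.range (n + m + 1)).image z := ⟨_, rfl⟩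
  have hzT : ∀ i ≤ n + m, z i ∈ T := fun i hi => by
    rw [hTdef]; exact Finset.mem_image_of_mem z (Finset.mem_range.2 (by omega))
  have hTc : T.card = n + m + 1 := by
    rw [hTdef, Finset.card_image_of_injOn, Finset.card_range]
    intro i hi j hj hij
    have hi := Finset.mem_range.1 (Finset.mem_coe.1 hi)
    have hj := Finset.mem_range.1 (Finset.mem_coe.1 hj)
    rcases lt_trichotomy i j with h | h | h
    · exact absurd hij (smono hzz i j h (by omega)).ne
    · exact h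
    · exact absurd hij (smono hzz j i h (by omega)).ne'
  have hTI : ∀ τ ∈ T, τ ∈ Set.Icc (0 : ℝ) (B + 40) := by
    intro τ hτ
    rw [hTdef, Finset.mem_image] at hτ
    obtain ⟨i, hi, rfl⟩ := hτ
    have hi := Finset.mem_range.1 hi
    exact ⟨hz0 ▸ wmono hzz 0 i (by omega) (by omega), hzl ▸ wmono hzz i (n + m) (by omega) le_rfl⟩
  have hTc2 : (T.card : ℝ) ≤ 2 * n + 2 := by
    rw [hTc]; exact_mod_cast (by omega : n + m + 1 ≤ 2 * n + 2)
  -- the polynomial `F = P u`
  obtain ⟨F, hF⟩ : ∃ F : ℝ[X], F = P * u := ⟨_, rfl⟩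
  have hFm : F.Monic := hF ▸ hPm.mul hum
  have hFd : F.natDegree = n + m := by rw [hF, hPm.natDegree_mul hum, hPd, hud]
  obtain ⟨k, hk⟩ := approx hLAT (U := fun τ => Upot ν (τ : ℂ)) (s := κ / 2) (T := T) (n := n)
    hnpos (by omega) (hcore n hn0 T hTI hTc2)
    (fun j => (F.coeff j - (if (j : ℕ) = 0 then 2 else 0)) / 4)
  choose! zc hzc using hz
  obtain ⟨p, hpm, hpd, hpc⟩ := mk_poly (n + m) (fun i => if h : i < n then
    4 * k ⟨i, h⟩ + (if i = 0 then 2 else 0) else 4 * zc (i - n))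
  have hpc1 : ∀ i (h : i < n), p.coeff i = 4 * k ⟨i, h⟩ + (if i = 0 then 2 else 0) := by
    intro i h
    rw [hpc i (by omega), dif_pos h]
  have hpc2 : ∀ i, n ≤ i → i < n + m → p.coeff i = 4 * zc (i - n) := by
    intro i h1 h2
    rw [hpc i h2, dif_neg (by omega)]
  have hpF : ∀ i, n ≤ i → i < n + m → (p.coeff i : ℝ) = F.coeff i := by
    intro i h1 h2
    have h3 := hzc (i - n) (by omega)
    rw [hPd, ← hF, Nat.add_sub_cancel' h1] at h3
    rw [hpc2 i h1 h2, h3]; push_cast; ring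
  have hev : ∀ τ ∈ T, |ev p τ - F.eval τ| < 10 ^ m * Real.exp (n * Upot ν (τ : ℂ)) := by
    intro τ hτ
    rw [ev_sub hpm hpd hFm hFd hpF τ]
    have h1 : ∑ i : Fin n, ((p.coeff i : ℝ) - F.coeff i) * τ ^ (i : ℕ) =
        -(4 * ∑ j : Fin n, ((F.coeff j - (if (j : ℕ) = 0 then 2 else 0)) / 4 - k j) *
          τ ^ (j : ℕ)) := by
      rw [Finset.mul_sum, ← Finset.sum_neg_distrib]
      refine Finset.sum_congr rfl fun i _ => ?_
      rw [hpc1 i i.2]
      push_cast
      ring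
    rw [h1, abs_neg, abs_mul, abs_of_pos (by norm_num : (0 : ℝ) < 4)]
    refine lt_of_le_of_lt (hk τ hτ) ?_
    exact mul_lt_mul_of_pos_right (hnum n m hn1' hκm) (Real.exp_pos _)
  -- signs
  have hsg : ∀ j ≤ n + m, 0 < (-1) ^ (n + m - j) * ev p (z j) := by
    intro j hj
    have h10 : (0 : ℝ) < 10 ^ m := by positivity
    rcases Nat.lt_or_ge n j with h | h
    · obtain ⟨i, rfl⟩ := Nat.exists_eq_add_of_lt h
      have hj' : n + i + 1 = n + (i + 1) := by ring
      rw [hj'] at *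
      rw [hzy]
      have hyB : B < y (i + 1) := by
        rw [← hy0]; exact smono hys 0 (i + 1) (by omega) (by omega)
      have hno : ∀ j < n, ¬ (x j < y (i + 1) ∧ y (i + 1) < x (j + 1)) := by
        rintro j hj ⟨_, h2⟩
        have := wmono hxx (j + 1) n (by omega) le_rfl
        linarith
      have hUy := hU (y (i + 1)) hno
      have hne : ∀ j < n, y (i + 1) ≠ mm j := by
        intro j hj h3
        exact hno j hj (h3 ▸ hxm j hj)
      have hPpos : P.eval (y (i + 1)) = ∏ j ∈ Finset.range n, |y (i + 1) - mm j| := by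
        rw [hPe]
        refine Finset.prod_congr rfl fun j hj => ?_
        have hj := Finset.mem_range.1 hj
        have := wmono hxx (j + 1) n (by omega) le_rfl
        have := (hxm j hj).2
        rw [abs_of_pos (by linarith)]
      refine sgn_dom (a := P.eval (y (i + 1)))
        (b := (-1) ^ (m - (i + 1)) * u.eval (y (i + 1))) (e := F.eval (y (i + 1)))
        (v := Real.exp (n * Upot ν (y (i + 1) : ℂ))) (A := 10 ^ m) ?_ (Real.exp_pos _) h10 ?_ ?_ ?_ ?_
      · rw [abs_pow, abs_neg, abs_one, one_pow]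
      · rw [hPpos, prod_abs hne]; exact Real.exp_le_exp.2 hUy
      · exact hysgn (i + 1) (by omega)
      · rw [hF, eval_mul, Nat.add_sub_add_left]; ring
      · have := hev (y (i + 1)) (hzy (i + 1) ▸ hzT (n + (i + 1)) (by omega))
        exact this
    · rw [hzx j h]
      have hno : ∀ i < n, ¬ (x i < x j ∧ x j < x (i + 1)) := by
        rintro i hi ⟨h1, h2⟩
        rcases Nat.lt_or_ge i j with h3 | h3
        · have := wmono hxx (i + 1) j (by omega) (by omega)
          linarith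
        · have := wmono hxx j i (by omega) (by omega)
          linarith
      have hUy := hU (x j) hno
      have hne : ∀ i < n, x j ≠ mm i := by
        intro i hi h3
        exact hno i hi (h3 ▸ hxm i hi)
      have hxB : x j ≤ B := by rw [← hxn]; exact wmono hxx j n h le_rfl
      refine sgn_dom (a := (-1) ^ (n - j) * P.eval (x j))
        (b := (-1) ^ m * u.eval (x j)) (e := F.eval (x j))
        (v := Real.exp (n * Upot ν (x j : ℂ))) (A := 10 ^ m) ?_ (Real.exp_pos _) h10 ?_ ?_ ?_ ?_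
      · rw [abs_pow, abs_neg, abs_one, one_pow]
      · rw [hPe, sgn_prod hxm j h, prod_abs hne]; exact Real.exp_le_exp.2 hUy
      · exact hut (x j) hxB
      · have h3 : n + m - j = (n - j) + m := by omega
        rw [hF, eval_mul, h3, pow_add]; ring
      · exact hev (x j) (hzx j h ▸ hzT j (by omega))
  refine ⟨p, hpm, ?_, hpd, ?_, ?_⟩
  · refine hEISEN p hpm (by omega) ?_ ?_
    · intro i hi
      rw [hpd] at hi
      rcases Nat.lt_or_ge i n with h | h
      · rw [hpc1 i h]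
        refine dvd_add ⟨2 * k ⟨i, h⟩, by ring⟩ ?_
        split_ifs <;> norm_num
      · rw [hpc2 i h hi]
        exact ⟨2 * zc (i - n), by ring⟩
    · rw [hpc1 0 hnpos, if_pos rfl]
      omega
  · exact hSGN (n + m) p z hpm hpd hzz hsg hz0.ge
  · have h1 : (p.coeff (n + m - 1) : ℝ) = F.coeff (n + m - 1) := hpF _ (by omega) (by omega)
    have h2 : F.coeff (n + m - 1) = F.nextCoeff := by
      rw [nextCoeff_of_natDegree_pos (by omega), hFd]
    have h3 : F.nextCoeff = P.nextCoeff + u.nextCoeff := by rw [hF, hPm.nextCoeff_mul hum]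
    have h4 : P.nextCoeff = -∑ j ∈ Finset.range n, mm j := by
      rw [hPdef, prod_X_sub_C_nextCoeff]
    have h5 : u.nextCoeff = u.coeff (m - 1) := by
      rw [nextCoeff_of_natDegree_pos (by omega), hud]
    rw [h1, h2, h3, h4, h5, hmean]
    have h6 : -(n * mean ν) + u.coeff (m - 1) + (n * mean ν + m * (B + 20)) =
        u.coeff (m - 1) + m * (B + 20) := by ring
    rw [h6]
    exact hucoef

end Pool.Agent.W401.SSS
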