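import Pool.Agent.W401.SSS.Stm

open MeasureTheory Polynomial

namespace Pool.Agent.W401.SSS

namespace SMITHaux

theorem mean_nonneg {B : ℝ} {ν : Measure ℝ} (h : On B ν) : 0 ≤ mean ν := by
  unfold mean
  apply integral_nonneg_of_ae
  have h2 : ∀ᵐ x ∂ν, x ∈ Set.Icc (0 : ℝ) B := by
    rw [ae_iff]
    exact h.2
  filter_upwards [h2] with x hx
  exact hx.1

theorem sum_re (s : Multiset ℂ) : (s.map (fun z => z.re)).sum = s.sum.re := by
  induction s using Multiset.induction_on with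
  | empty => simp
  | cons a s ih => simp [ih]

theorem rsum_re (p : ℤ[X]) (hp : p.Monic) (hd : 0 < p.natDegree) :
    rsum p (fun z => z.re) = - (p.coeff (p.natDegree - 1) : ℝ) := by
  unfold rsum rts
  rw [sum_re]
  have hm : (p.map (Int.castRingHom ℂ)).Monic := hp.map _
  have hnd : (p.map (Int.castRingHom ℂ)).natDegree = p.natDegree := hp.natDegree_map _
  have h1 := (IsAlgClosed.splits (p.map (Int.castRingHom ℂ))).nextCoeff_eq_neg_sum_roots_of_monic hm
  rw [nextCoeff_of_natDegree_pos (by rw [hnd]; exact hd), hnd, coeff_map] at h1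
  have h2 : (p.map (Int.castRingHom ℂ)).roots.sum = -((p.coeff (p.natDegree - 1) : ℤ) : ℂ) := by
    rw [← neg_eq_iff_eq_neg.2 h1.symm.symm]
    simp
  rw [h2]
  simp

end SMITHaux

theorem pSMITH : SMC → SMITH := by
  intro hSMC B c ν hB hc hon hlip har t N ht
  have hmean := SMITHaux.mean_nonneg hon
  set e : ℝ := t - mean ν with he
  have he0 : 0 < e := by rw [he]; linarith
  have hB20 : 0 < B + 20 := by linarith
  set κ : ℝ := min (1 / 2) (e / (4 * (B + 20))) with hκ
  have hκ0 : 0 < κ := lt_min (by norm_num) (by positivity)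
  have hκ1 : κ ≤ 1 / 2 := min_le_left _ _
  have hκ2 : κ * (B + 20) ≤ e / 4 := by
    have h1 : κ ≤ e / (4 * (B + 20)) := min_le_right _ _
    calc κ * (B + 20) ≤ e / (4 * (B + 20)) * (B + 20) := by
          exact mul_le_mul_of_nonneg_right h1 hB20.le
      _ = e / 4 := by field_simp
  obtain ⟨n0, hn0⟩ := hSMC B c ν hB hc hon hlip har κ hκ0
  obtain ⟨n1, hn1⟩ := exists_nat_ge (2 * (B + 22) / e)
  set n : ℕ := max (max n0 n1) (N + 1) with hn
  have hnn0 : n0 ≤ n := le_trans (le_max_left _ _) (le_max_left _ _)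
  have hnn1 : n1 ≤ n := le_trans (le_max_right _ _) (le_max_left _ _)
  have hnN : N + 1 ≤ n := le_max_right _ _
  have hnpos : (0 : ℝ) < n := by
    have : 0 < n := by omega
    exact_mod_cast this
  have hn1' : 2 * (B + 22) / e ≤ n := hn1.trans (by exact_mod_cast hnn1)
  rw [div_le_iff₀ he0] at hn1'
  set m : ℕ := ⌈κ * n⌉₊ with hm
  have hm1 : κ * n ≤ m := Nat.le_ceil _
  have hm2 : (m : ℝ) < κ * n + 1 := Nat.ceil_lt_add_one (by positivity)
  have hm3 : 0 < m := Nat.ceil_pos.2 (by positivity)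
  have hm4 : m ≤ n + 1 := by
    have : (m : ℝ) ≤ (n + 1 : ℕ) := by
      push_cast
      nlinarith
    exact_mod_cast this
  obtain ⟨p, hp1, hp2, hp3, hp4, hp5⟩ := hn0 n m hnn0 hm1 hm3 hm4
  refine ⟨p, hp1, hp2, by omega, hp4, ?_⟩
  unfold mtr
  rw [SMITHaux.rsum_re p hp1 (by omega), hp3]
  have hm0 : (0 : ℝ) < m := by exact_mod_cast hm3
  rw [div_le_iff₀ (by push_cast; positivity)]
  rw [abs_le] at hp5
  push_cast
  have h7 := hp5.1
  have ht' : t = mean ν + e := by rw [he]; ring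
  have h8 : (m : ℝ) * (B + 20) ≤ (κ * n + 1) * (B + 20) :=
    mul_le_mul_of_nonneg_right hm2.le hB20.le
  have h9 : κ * (B + 20) * n ≤ e / 4 * n := mul_le_mul_of_nonneg_right hκ2 hnpos.le
  have h10 : 0 ≤ t * m := mul_nonneg (by linarith) hm0.le
  have h11 : t * n = mean ν * n + e * n := by rw [ht']; ring
  nlinarith

end Pool.Agent.W401.SSS
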