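import Pool.Agent.W401.SSS.Stm

/-!
# Smoothing of a measure of finite energy
-/

open MeasureTheory Polynomial Set Filter Topology

namespace Pool.Agent.W401.SSS

namespace SMOOaux

/-- uniform smallness of the mass of small discs -/
theorem small {μ : Measure ℝ} [IsProbabilityMeasure μ]
    (h0 : (μ.prod μ) {p : ℝ × ℝ | p.1 = p.2} = 0) {η : ℝ} (hη : 0 < η) :
    ∃ ρ : ℝ, 0 < ρ ∧ ∀ α : ℂ, μ.real {x : ℝ | ‖(x : ℂ) - α‖ ≤ ρ} ≤ η := by
  set s : ℕ → Set (ℝ × ℝ) := fun n => {p | |p.1 - p.2| ≤ 2 * (1 / ((n : ℝ) + 1))} with hs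
  have hsm : ∀ n, MeasurableSet (s n) := fun n =>
    measurableSet_le ((measurable_fst.sub measurable_snd).abs) measurable_const
  have hanti : Antitone s := by
    intro m n hmn p hp
    have h1 : 1 / ((n : ℝ) + 1) ≤ 1 / ((m : ℝ) + 1) := by
      have : (m : ℝ) ≤ n := by exact_mod_cast hmn
      gcongr
    have hp' : |p.1 - p.2| ≤ 2 * (1 / ((n : ℝ) + 1)) := hp
    show |p.1 - p.2| ≤ 2 * (1 / ((m : ℝ) + 1))
    linarith
  have hint : ⋂ n, s n = {p : ℝ × ℝ | p.1 = p.2} := by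
    ext p
    simp only [mem_iInter, hs, mem_setOf_eq]
    constructor
    · intro h
      have h1 : Tendsto (fun n : ℕ => 2 * (1 / ((n : ℝ) + 1))) atTop (𝓝 (2 * 0)) :=
        tendsto_one_div_add_atTop_nhds_zero_nat.const_mul 2
      have h2 := ge_of_tendsto' h1 h
      rw [mul_zero] at h2
      have h3 := abs_eq_zero.1 (le_antisymm h2 (abs_nonneg _))
      linarith
    · intro h n
      rw [h, sub_self, abs_zero]
      positivity
  have hlim := tendsto_measure_iInter_atTop (μ := μ.prod μ)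
    (fun n => (hsm n).nullMeasurableSet) hanti ⟨0, measure_ne_top _ _⟩
  rw [hint, h0] at hlim
  have hη2 : (0 : ENNReal) < ENNReal.ofReal (η ^ 2) := by
    rw [ENNReal.ofReal_pos]; positivity
  obtain ⟨n, hn⟩ := (hlim.eventually (gt_mem_nhds hη2)).exists
  refine ⟨1 / ((n : ℝ) + 1), by positivity, fun α => ?_⟩
  set V : Set ℝ := {x : ℝ | ‖(x : ℂ) - α‖ ≤ 1 / ((n : ℝ) + 1)} with hV
  have hsub : V ×ˢ V ⊆ s n := by
    rintro ⟨x, y⟩ ⟨hx, hy⟩
    have hx' : ‖(x : ℂ) - α‖ ≤ 1 / ((n : ℝ) + 1) := hx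
    have hy' : ‖(y : ℂ) - α‖ ≤ 1 / ((n : ℝ) + 1) := hy
    show |x - y| ≤ 2 * (1 / ((n : ℝ) + 1))
    have h1 : ((x - y : ℝ) : ℂ) = ((x : ℂ) - α) - ((y : ℂ) - α) := by push_cast; ring
    have h2 : |x - y| = ‖((x : ℂ) - α) - ((y : ℂ) - α)‖ := by
      rw [← h1, Complex.norm_real, Real.norm_eq_abs]
    rw [h2]
    refine (norm_sub_le _ _).trans ?_
    linarith
  have h1 : μ V * μ V ≤ ENNReal.ofReal (η ^ 2) := by
    rw [← Measure.prod_prod]
    exact (measure_mono hsub).trans hn.le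
  have h2 : μ.real V * μ.real V ≤ η ^ 2 := by
    rw [Measure.real, ← ENNReal.toReal_mul]
    exact ENNReal.toReal_le_of_le_ofReal (by positivity) h1
  have h3 : 0 ≤ μ.real V := measureReal_nonneg
  nlinarith

/-- the uniform measure on `[0,θ]` -/
noncomputable def lam (θ : ℝ) : Measure ℝ :=
  ENNReal.ofReal (1 / θ) • volume.restrict (Ioc 0 θ)

theorem lam_prob {θ : ℝ} (hθ : 0 < θ) : IsProbabilityMeasure (lam θ) := by
  refine ⟨?_⟩
  unfold lam
  rw [Measure.smul_apply, Measure.restrict_apply_univ, Real.volume_Ioc, sub_zero, smul_eq_mul,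
    ← ENNReal.ofReal_mul (by positivity), one_div_mul_cancel hθ.ne', ENNReal.ofReal_one]

theorem lam_int {θ : ℝ} (hθ : 0 < θ) (f : ℝ → ℝ) :
    ∫ u, f u ∂(lam θ) = (1 / θ) * ∫ u in (0 : ℝ)..θ, f u := by
  unfold lam
  rw [integral_smul_measure, intervalIntegral.integral_of_le hθ.le,
    ENNReal.toReal_ofReal (by positivity), smul_eq_mul]

theorem lam_ae {θ : ℝ} : ∀ᵐ u ∂(lam θ), 0 ≤ u ∧ u ≤ θ := by
  unfold lam
  refine Measure.ae_smul_measure ?_ _
  filter_upwards [ae_restrict_mem measurableSet_Ioc] with u hu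
  exact ⟨hu.1.le, hu.2⟩

theorem log_one_sub {t : ℝ} (h0 : 0 ≤ t) (h1 : t ≤ 1 / 2) : -(2 * t) ≤ Real.log (1 - t) := by
  have h2 : 0 < 1 - t := by linarith
  have h3 := Real.one_sub_inv_le_log_of_pos h2
  have h4 : 1 - (1 - t)⁻¹ = -(t / (1 - t)) := by
    field_simp
    ring
  have h5 : t / (1 - t) ≤ 2 * t := by
    rw [div_le_iff₀ h2]
    nlinarith
  linarith

/-- lower bound for the average of the logarithm -/
theorem avg_lower (hU : UNI1) {θ ρ : ℝ} (hθ : 0 < θ) (hρ : 2 * θ ≤ ρ) (α : ℂ) {y : ℝ}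
    (hy : (y : ℂ) - α ≠ 0) :
    Real.log ‖(y : ℂ) - α‖ - 3 * ({x : ℝ | ‖(x : ℂ) - α‖ ≤ ρ}.indicator (fun _ => (1 : ℝ)) y)
      - 2 * θ / ρ ≤ (1 / θ) * ∫ u in (0 : ℝ)..θ, Real.log ‖((y + u : ℝ) : ℂ) - α‖ := by
  obtain ⟨hi, hl⟩ := hU y θ α hθ
  have hρ0 : 0 < ρ := by linarith
  have hpos : 0 < ‖(y : ℂ) - α‖ := norm_pos_iff.2 hy
  have e1 : ∫ u in (0 : ℝ)..θ, Real.log ‖((y + u : ℝ) : ℂ) - α‖ =
      ∫ x in y..(y + θ), Real.log ‖(x : ℂ) - α‖ := by
    have := intervalIntegral.integral_comp_add_left (a := 0) (b := θ)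
      (fun x : ℝ => Real.log ‖(x : ℂ) - α‖) y
    rw [add_zero] at this
    exact this
  rw [e1]
  have hθρ : 0 ≤ 2 * θ / ρ := by positivity
  rcases lt_or_ge (‖(y : ℂ) - α‖) (2 * θ) with h | h
  · have h1 : y ∈ {x : ℝ | ‖(x : ℂ) - α‖ ≤ ρ} := (h.trans_le hρ).le
    rw [indicator_of_mem h1]
    have h2 : Real.log (θ / 2) - 1 ≤ (1 / θ) * ∫ x in y..(y + θ), Real.log ‖(x : ℂ) - α‖ := by
      rw [one_div_mul_eq_div, le_div_iff₀ hθ]
      linarith
    have h3 : Real.log ‖(y : ℂ) - α‖ ≤ Real.log (2 * θ) := Real.log_le_log hpos h.le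
    have h4 : Real.log (2 * θ) = Real.log (θ / 2) + Real.log 4 := by
      rw [← Real.log_mul (by positivity) (by norm_num)]
      congr 1
      ring
    have h5 : Real.log 4 ≤ 2 := by
      have : Real.log 4 = 2 * Real.log 2 := by
        rw [show (4 : ℝ) = 2 ^ 2 by norm_num, Real.log_pow]; norm_num
      rw [this]
      have := Real.log_two_lt_d9
      linarith
    linarith
  · have hd : 0 < ‖(y : ℂ) - α‖ - θ := by linarith
    have h2 : Real.log (‖(y : ℂ) - α‖ - θ) ≤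
        (1 / θ) * ∫ x in y..(y + θ), Real.log ‖(x : ℂ) - α‖ := by
      rw [one_div_mul_eq_div, le_div_iff₀ hθ]
      have h3 : ∫ _ in y..(y + θ), Real.log (‖(y : ℂ) - α‖ - θ) ≤
          ∫ x in y..(y + θ), Real.log ‖(x : ℂ) - α‖ := by
        refine intervalIntegral.integral_mono_on (by linarith) (by simp) hi fun x hx => ?_
        refine Real.log_le_log hd ?_
        have h4 : (y : ℂ) - α = ((x : ℂ) - α) - ((x - y : ℝ) : ℂ) := by push_cast; ring
        have h5 : ‖(y : ℂ) - α‖ ≤ ‖(x : ℂ) - α‖ + ‖((x - y : ℝ) : ℂ)‖ := by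
          rw [h4]
          exact norm_sub_le _ _
        rw [Complex.norm_real, Real.norm_eq_abs, abs_of_nonneg (by linarith [hx.1])] at h5
        linarith [hx.2]
      rw [intervalIntegral.integral_const, smul_eq_mul] at h3
      linarith
    have h6 : Real.log (‖(y : ℂ) - α‖ - θ) =
        Real.log ‖(y : ℂ) - α‖ + Real.log (1 - θ / ‖(y : ℂ) - α‖) := by
      rw [← Real.log_mul hpos.ne']
      · congr 1
        field_simp
      · have : θ / ‖(y : ℂ) - α‖ < 1 := by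
          rw [div_lt_one hpos]; linarith
        linarith
    have h7 : θ / ‖(y : ℂ) - α‖ ≤ 1 / 2 := by
      rw [div_le_iff₀ hpos]; linarith
    have h8 := log_one_sub (t := θ / ‖(y : ℂ) - α‖) (by positivity) h7
    by_cases h9 : ‖(y : ℂ) - α‖ ≤ ρ
    · have h1 : y ∈ {x : ℝ | ‖(x : ℂ) - α‖ ≤ ρ} := h9
      rw [indicator_of_mem h1]
      linarith
    · have h1 : y ∉ {x : ℝ | ‖(x : ℂ) - α‖ ≤ ρ} := h9
      rw [indicator_of_notMem h1]
      have h10 : 2 * (θ / ‖(y : ℂ) - α‖) ≤ 2 * θ / ρ := by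
        rw [← mul_div_assoc]
        exact div_le_div_of_nonneg_left (by positivity) hρ0 (not_le.1 h9).le
      linarith

end SMOOaux

open SMOOaux in
theorem pSMOO : UNI1 → LIPL → SMOO := by
  intro hU hL B ε μ hB hOn hE hε
  obtain ⟨hprob, hcar⟩ := hOn
  obtain ⟨hdiag, -⟩ := hE
  obtain ⟨ρ, hρ, hsm⟩ := small hdiag (η := ε / 6) (by positivity)
  -- the width
  obtain ⟨θ, hθ, hθ1, hθε, hθρ, hθr⟩ : ∃ θ : ℝ, 0 < θ ∧ θ ≤ 1 ∧ θ ≤ ε ∧ 2 * θ ≤ ρ ∧
      2 * θ / ρ ≤ ε / 2 := by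
    refine ⟨min (min 1 ε) (min (ρ / 2) (ε * ρ / 4)), by positivity, ?_, ?_, ?_, ?_⟩
    · exact (min_le_left _ _).trans (min_le_left _ _)
    · exact (min_le_left _ _).trans (min_le_right _ _)
    · have : min (min 1 ε) (min (ρ / 2) (ε * ρ / 4)) ≤ ρ / 2 :=
        (min_le_right _ _).trans (min_le_left _ _)
      linarith
    · have : min (min 1 ε) (min (ρ / 2) (ε * ρ / 4)) ≤ ε * ρ / 4 :=
        (min_le_right _ _).trans (min_le_right _ _)
      rw [div_le_iff₀ hρ]
      linarith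
  haveI := lam_prob hθ
  set κ : Measure (ℝ × ℝ) := μ.prod (lam θ) with hκ
  have hmeas : Measurable (fun p : ℝ × ℝ => p.1 + p.2) := measurable_fst.add measurable_snd
  set ν : Measure ℝ := κ.map (fun p => p.1 + p.2) with hν
  haveI : IsProbabilityMeasure ν := Measure.isProbabilityMeasure_map hmeas.aemeasurable
  have a1 : ∀ᵐ p ∂κ, p.1 ∈ Icc 0 B := by
    have : ∀ᵐ x ∂μ, x ∈ Icc 0 B := by
      rw [ae_iff]
      exact hcar
    exact Measure.quasiMeasurePreserving_fst.ae this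
  have a2 : ∀ᵐ p ∂κ, 0 ≤ p.2 ∧ p.2 ≤ θ := Measure.quasiMeasurePreserving_snd.ae lam_ae
  have hsupp : ν (Icc 0 (B + 1))ᶜ = 0 := by
    rw [hν, Measure.map_apply hmeas measurableSet_Icc.compl]
    have h1 : ∀ᵐ p ∂κ, p.1 + p.2 ∈ Icc 0 (B + 1) := by
      filter_upwards [a1, a2] with p h1 h2
      exact ⟨by linarith [h1.1, h2.1], by linarith [h1.2, h2.2]⟩
    rw [ae_iff] at h1
    exact h1
  have hLip : Lip (1 / θ) ν := by
    intro x δ hδ
    rw [hν, Measure.map_apply hmeas measurableSet_Icc, hκ,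
      Measure.prod_apply (hmeas measurableSet_Icc)]
    have h1 : ∀ y : ℝ, lam θ (Prod.mk y ⁻¹' ((fun p : ℝ × ℝ => p.1 + p.2) ⁻¹' Icc x (x + δ))) ≤
        ENNReal.ofReal (1 / θ * δ) := by
      intro y
      have h2 : Prod.mk y ⁻¹' ((fun p : ℝ × ℝ => p.1 + p.2) ⁻¹' Icc x (x + δ)) =
          Icc (x - y) (x + δ - y) := by
        ext u
        simp only [mem_preimage, mem_Icc]
        constructor <;> rintro ⟨h3, h4⟩ <;> constructor <;> linarith
      rw [h2]
      unfold lam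
      rw [Measure.smul_apply, smul_eq_mul, ENNReal.ofReal_mul (by positivity)]
      gcongr
      refine (Measure.restrict_apply_le _ _).trans ?_
      rw [Real.volume_Icc]
      refine ENNReal.ofReal_le_ofReal ?_
      linarith
    have h3 : ∫⁻ y, lam θ (Prod.mk y ⁻¹' ((fun p : ℝ × ℝ => p.1 + p.2) ⁻¹' Icc x (x + δ))) ∂μ ≤
        ENNReal.ofReal (1 / θ * δ) := by
      refine (lintegral_mono h1).trans ?_
      rw [lintegral_const, measure_univ, mul_one]
    exact ENNReal.toReal_le_of_le_ofReal (by positivity) h3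
  have hmean : mean ν ≤ mean μ + ε := by
    unfold mean
    have e0 : ∫ x, x ∂ν = ∫ p, (p.1 + p.2) ∂κ := by
      rw [hν]
      exact integral_map (f := fun x : ℝ => x) hmeas.aemeasurable measurable_id.aestronglyMeasurable
    rw [e0]
    have i1 : Integrable (fun p : ℝ × ℝ => p.1) κ := by
      refine Integrable.of_bound measurable_fst.aestronglyMeasurable B ?_
      filter_upwards [a1] with p h1
      rw [Real.norm_eq_abs, abs_of_nonneg h1.1]
      exact h1.2
    have i2 : Integrable (fun p : ℝ × ℝ => p.2) κ := by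
      refine Integrable.of_bound measurable_snd.aestronglyMeasurable θ ?_
      filter_upwards [a2] with p h1
      rw [Real.norm_eq_abs, abs_of_nonneg h1.1]
      exact h1.2
    have h1 : ∫ p, (p.1 + p.2) ∂κ ≤ ∫ p, (p.1 + θ) ∂κ := by
      refine integral_mono_ae (i1.add i2) (i1.add (integrable_const θ)) ?_
      filter_upwards [a2] with p h1
      linarith [h1.2]
    have h2 : ∫ p, (p.1 + θ) ∂κ = (∫ p, p.1 ∂κ) + θ := by
      rw [integral_add i1 (integrable_const θ)]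
      simp
    have h3 : ∫ p, p.1 ∂κ = ∫ x, x ∂μ := by
      rw [hκ]
      have := integral_fun_fst (μ := μ) (ν := lam θ) (fun x : ℝ => x)
      rw [this]
      simp
    linarith
  refine ⟨ν, 1 / θ, by positivity, ⟨inferInstance, hsupp⟩, hLip, hmean, fun α => ?_⟩
  have hmlog : Measurable (fun x : ℝ => Real.log ‖(x : ℂ) - α‖) := by
    refine Real.measurable_log.comp ?_
    exact ((Complex.measurable_ofReal).sub measurable_const).norm
  -- no atoms
  have hνatom : ∀ x : ℝ, ν {x} = 0 := by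
    intro x
    have h1 := hLip x 0 le_rfl
    rw [add_zero, mul_zero, Icc_self] at h1
    have h2 : (ν {x}).toReal = 0 := le_antisymm h1 ENNReal.toReal_nonneg
    rcases (ENNReal.toReal_eq_zero_iff _).1 h2 with h3 | h3
    · exact h3
    · exact absurd h3 (measure_ne_top _ _)
  have hμatom : ∀ x : ℝ, μ {x} = 0 := by
    intro x
    have h1 : ({x} : Set ℝ) ×ˢ ({x} : Set ℝ) ⊆ {p : ℝ × ℝ | p.1 = p.2} := by
      rintro ⟨a, b⟩ ⟨ha, hb⟩
      rw [mem_singleton_iff] at ha hb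
      show a = b
      simp only at ha hb
      rw [ha, hb]
    have h2 := measure_mono_null h1 hdiag
    rw [Measure.prod_prod] at h2
    simpa using h2
  have hae : ∀ {τ : Measure ℝ}, (∀ x : ℝ, τ {x} = 0) → ∀ᵐ x ∂τ, ((x : ℝ) : ℂ) - α ≠ 0 := by
    intro τ hτ
    rw [ae_iff]
    refine measure_mono_null (t := {α.re}) ?_ (hτ _)
    intro x hx
    simp only [ne_eq, not_not, mem_setOf_eq] at hx
    rw [mem_singleton_iff]
    have := congrArg Complex.re (sub_eq_zero.1 hx)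
    simpa using this
  have hνint : Integrable (fun x : ℝ => Real.log ‖(x : ℂ) - α‖) ν := by
    set R := B + 1 + ‖α‖ with hR
    have hR0 : 0 < R := by positivity
    obtain ⟨h1, -⟩ := hL (1 / θ) ν inferInstance (by positivity) hLip α R hR0
    have h2 : (fun x : ℝ => Real.log ‖(x : ℂ) - α‖) =ᵐ[ν]
        fun x => Real.log R - max 0 (Real.log (R / ‖(x : ℂ) - α‖)) := by
      have h3 : ∀ᵐ x ∂ν, x ∈ Icc 0 (B + 1) := by
        rw [ae_iff]
        exact hsupp
      filter_upwards [h3, hae hνatom] with x hx hx0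
      have h4 : 0 < ‖(x : ℂ) - α‖ := norm_pos_iff.2 hx0
      have h5 : ‖(x : ℂ) - α‖ ≤ R := by
        refine (norm_sub_le _ _).trans ?_
        rw [Complex.norm_real, Real.norm_eq_abs, abs_of_nonneg hx.1]
        linarith [hx.2]
      rw [max_eq_right (Real.log_nonneg ((one_le_div h4).2 h5)), Real.log_div hR0.ne' h4.ne']
      ring
    exact ((integrable_const _).sub h1).congr h2.symm
  refine ⟨hνint, fun hμint => ?_⟩
  -- Fubini
  have hκint : Integrable (fun p : ℝ × ℝ => Real.log ‖((p.1 + p.2 : ℝ) : ℂ) - α‖) κ := by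
    have := (integrable_map_measure (f := fun p : ℝ × ℝ => p.1 + p.2)
      (g := fun x : ℝ => Real.log ‖(x : ℂ) - α‖) hmlog.aestronglyMeasurable
      hmeas.aemeasurable).1 hνint
    exact this
  have e1 : Upot ν α = ∫ y, ((1 / θ) * ∫ u in (0 : ℝ)..θ, Real.log ‖((y + u : ℝ) : ℂ) - α‖) ∂μ := by
    unfold Upot
    rw [hν, integral_map hmeas.aemeasurable hmlog.aestronglyMeasurable, hκ, integral_prod _ hκint]
    refine integral_congr_ae (Eventually.of_forall fun y => ?_)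
    exact lam_int hθ _
  have i3 : Integrable (fun y => (1 / θ) * ∫ u in (0 : ℝ)..θ, Real.log ‖((y + u : ℝ) : ℂ) - α‖)
      μ := by
    have := hκint.integral_prod_left
    refine this.congr (Eventually.of_forall fun y => ?_)
    exact lam_int hθ _
  set V : Set ℝ := {x : ℝ | ‖(x : ℂ) - α‖ ≤ ρ} with hV
  have hVm : MeasurableSet V :=
    measurableSet_le (((Complex.measurable_ofReal).sub measurable_const).norm) measurable_const
  have i4 : Integrable (V.indicator (fun _ => (1 : ℝ))) μ :=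
    (integrable_const 1).indicator hVm
  have h5 : ∫ y, (Real.log ‖(y : ℂ) - α‖ - 3 * (V.indicator (fun _ => (1 : ℝ)) y)
      - 2 * θ / ρ) ∂μ ≤
      ∫ y, ((1 / θ) * ∫ u in (0 : ℝ)..θ, Real.log ‖((y + u : ℝ) : ℂ) - α‖) ∂μ := by
    refine integral_mono_ae ((hμint.sub (i4.const_mul 3)).sub (integrable_const _)) i3 ?_
    filter_upwards [hae hμatom] with y hy
    exact avg_lower hU hθ hθρ α hy
  have e2 : ∫ y, (Real.log ‖(y : ℂ) - α‖ - 3 * (V.indicator (fun _ => (1 : ℝ)) y)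
      - 2 * θ / ρ) ∂μ = Upot μ α - 3 * μ.real V - 2 * θ / ρ := by
    have f1 : ∫ y, (Real.log ‖(y : ℂ) - α‖ - 3 * (V.indicator (fun _ => (1 : ℝ)) y)
        - 2 * θ / ρ) ∂μ = (∫ y, (Real.log ‖(y : ℂ) - α‖ -
          3 * (V.indicator (fun _ => (1 : ℝ)) y)) ∂μ) - ∫ _, 2 * θ / ρ ∂μ :=
      integral_sub (hμint.sub (i4.const_mul 3)) (integrable_const _)
    have f2 : ∫ y, (Real.log ‖(y : ℂ) - α‖ - 3 * (V.indicator (fun _ => (1 : ℝ)) y)) ∂μ =
        (∫ y, Real.log ‖(y : ℂ) - α‖ ∂μ) - ∫ y, 3 * (V.indicator (fun _ => (1 : ℝ)) y) ∂μ :=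
      integral_sub hμint (i4.const_mul 3)
    rw [f1, f2, integral_const_mul, integral_indicator_const _ hVm]
    simp [Upot]
  have h6 := hsm α
  rw [e1]
  rw [e2] at h5
  have h7 : μ.real V ≤ ε / 6 := h6
  linarith

end Pool.Agent.W401.SSS
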