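import Pool.Agent.W401.SSS.Stm

/-!
# Smyth's lower bound for the mean trace from certificates
-/

open MeasureTheory Polynomial

namespace Pool.Agent.W401.SSS

namespace SMYTHaux

theorem prod_norm (Q : ℤ[X]) (s : Multiset ℂ) :
    ‖(s.map (fun β => (Q.map (Int.castRingHom ℂ)).eval β)).prod‖ =
      (s.map (fun β => ‖Polynomial.aeval β Q‖)).prod := by
  induction s using Multiset.induction_on with
  | empty => simp
  | cons a s ih =>
    have h1 : (Q.map (Int.castRingHom ℂ)).eval a = Polynomial.aeval a Q := by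
      rw [Polynomial.eval_map, Polynomial.aeval_def]; rfl
    simp only [Multiset.map_cons, Multiset.prod_cons, norm_mul, ih, h1]

/-- The product of the values of `Q` at the roots of a monic `p` is an integer. -/
theorem prod_int (p Q : ℤ[X]) (hp : p.Monic) :
    ∃ r : ℤ, ((rts p).map (fun β => (Q.map (Int.castRingHom ℂ)).eval β)).prod = (r : ℂ) := by
  refine ⟨resultant p Q p.natDegree Q.natDegree, ?_⟩
  have hpm : (p.map (Int.castRingHom ℂ)).Monic := hp.map _
  have hnd : (p.map (Int.castRingHom ℂ)).natDegree = p.natDegree := hp.natDegree_map _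
  have h1 := resultant_eq_prod_eval (p.map (Int.castRingHom ℂ)) (Q.map (Int.castRingHom ℂ))
    Q.natDegree (Polynomial.natDegree_map_le) (IsAlgClosed.splits _)
  rw [hpm.leadingCoeff, one_pow, one_mul, hnd, resultant_map_map] at h1
  unfold rts
  rw [← h1]
  rfl

theorem log_sum_nonneg (p Q : ℤ[X]) (hp : p.Monic)
    (hne : ∀ β ∈ rts p, Polynomial.aeval β Q ≠ 0) :
    0 ≤ rsum p (fun β => Real.log ‖Polynomial.aeval β Q‖) := by
  obtain ⟨r, hr⟩ := prod_int p Q hp
  have h1 := log_prod_map (rts p) (fun β => ‖Polynomial.aeval β Q‖)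
    (fun β hβ => norm_ne_zero_iff.2 (hne β hβ))
  have h2 := prod_norm Q (rts p)
  rw [hr] at h2
  unfold rsum
  rw [← h1.1, ← h2]
  have h3 : ‖(r : ℂ)‖ ≠ 0 := by rw [h2]; exact h1.2
  have h4 : r ≠ 0 := by
    rintro rfl
    simp at h3
  have h5 : ‖(r : ℂ)‖ = ((|r| : ℤ) : ℝ) := by
    simp
  rw [h5]
  apply Real.log_nonneg
  have : 1 ≤ |r| := Int.one_le_abs h4
  exact_mod_cast this

theorem rsum_finset_sum (p : ℤ[X]) (F : Finset ℤ[X]) (g : ℤ[X] → ℂ → ℝ) :
    rsum p (fun β => ∑ Q ∈ F, g Q β) = ∑ Q ∈ F, rsum p (g Q) := by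
  classical
  induction F using Finset.induction_on with
  | empty =>
    simp only [Finset.sum_empty]
    rw [rsum_const]; simp
  | insert Q s hQ ih =>
    simp only [Finset.sum_insert hQ]
    rw [rsum_add, ih]

end SMYTHaux

theorem pSMYTH : GROW → SMYTH := by
  intro hG lam h0 h6 hcert η hη
  obtain ⟨F, a, hC⟩ := hcert (min η 1) (lt_min hη one_pos)
  refine ⟨F, ?_⟩
  intro p hpm hpi hpd hpt hpF
  have hpA : Adm p := ⟨hpi, hpd, by rw [hpm.leadingCoeff]; exact one_pos⟩
  have hre : ∀ β ∈ rts p, β = ((β.re : ℝ) : ℂ) := by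
    intro β hβ
    apply Complex.ext
    · simp
    · simp [(hpt β hβ).1]
  have hne : ∀ β ∈ rts p, ∀ Q ∈ F, Polynomial.aeval β Q ≠ 0 := by
    intro β hβ Q hQ h
    have hQA := hC.adm Q hQ
    have hne' : p ≠ Q := by
      rintro rfl
      exact hpF hQ
    exact Adm.disjoint hpA hQA hne' hβ ((mem_rts hQA.ne_zero β).2 h)
  have hev : ∀ β ∈ rts p, ∀ Q ∈ F, ev Q β.re ≠ 0 := by
    intro β hβ Q hQ h
    apply hne β hβ Q hQ
    rw [hre β hβ, ← ev_cast, h]
    simp
  have habs : ∀ β ∈ rts p, ∀ Q : ℤ[X], |ev Q β.re| = ‖Polynomial.aeval β Q‖ := by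
    intro β hβ Q
    conv_rhs => rw [hre β hβ, ← ev_cast]
    simp
  have hη1 : min η 1 ≤ 1 := min_le_right _ _
  have hpt2 : ∀ β ∈ rts p, pot F a β.re ≤ β.re - (lam - min η 1) := by
    intro β hβ
    rcases le_or_gt β.re 2000 with hle | hgt
    · have := hC.le β.re ⟨(hpt β hβ).2, hle⟩ (hev β hβ)
      linarith
    · have h1 := hG lam (min η 1) 2000 F a (by norm_num) h0 hη1 hC β.re (by linarith) (hev β hβ)
      have h2 : 0 < min η 1 := lt_min hη one_pos
      linarith
  have hsum1 : rsum p (fun β => pot F a β.re) ≤ rsum p (fun β => β.re - (lam - min η 1)) :=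
    rsum_le p _ _ hpt2
  have hsum2 : rsum p (fun β => pot F a β.re) =
      ∑ Q ∈ F, a Q * rsum p (fun β => Real.log ‖Polynomial.aeval β Q‖) := by
    have e1 : rsum p (fun β => pot F a β.re) =
        rsum p (fun β => ∑ Q ∈ F, a Q * Real.log ‖Polynomial.aeval β Q‖) := by
      apply rsum_congr
      intro β hβ
      unfold pot
      refine Finset.sum_congr rfl fun Q _ => ?_
      rw [habs β hβ Q]
    rw [e1, SMYTHaux.rsum_finset_sum p F (fun Q β => a Q * Real.log ‖Polynomial.aeval β Q‖)]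
    refine Finset.sum_congr rfl fun Q _ => ?_
    rw [rsum_mul_left]
  have hsum3 : 0 ≤ rsum p (fun β => pot F a β.re) := by
    rw [hsum2]
    refine Finset.sum_nonneg fun Q hQ => ?_
    exact mul_nonneg (hC.pos Q hQ).le
      (SMYTHaux.log_sum_nonneg p Q hpm (fun β hβ => hne β hβ Q hQ))
  rw [rsum_sub p (fun β => β.re) (fun _ => lam - min η 1), rsum_const] at hsum1
  have hnpos : (0 : ℝ) < p.natDegree := by exact_mod_cast hpd
  unfold mtr
  rw [le_div_iff₀ hnpos]
  have h3 : min η 1 ≤ η := min_le_left _ _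
  have h4 : (p.natDegree : ℝ) * (lam - η) ≤ (p.natDegree : ℝ) * (lam - min η 1) :=
    mul_le_mul_of_nonneg_left (by linarith) hnpos.le
  linarith

end Pool.Agent.W401.SSS
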