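import Pool.Agent.W401.SSS.Stm

open MeasureTheory Polynomial

namespace Pool.Agent.W401.SSS

namespace SUPPBaux

theorem ae_good {B : ℝ} {ν : Measure ℝ} (hOn : On B ν) (hAr : Arith ν) (F : Finset ℤ[X])
    (hF : ∀ Q ∈ F, Q ≠ 0) :
    ∀ᵐ x ∂ν, x ∈ Set.Icc (0 : ℝ) B ∧ ∀ Q ∈ F, ev Q x ≠ 0 := by
  have h1 : ∀ᵐ x ∂ν, x ∈ Set.Icc (0 : ℝ) B := hOn.2
  have h2 : ∀ᵐ x ∂ν, ∀ Q ∈ F, ev Q x ≠ 0 := by
    rw [Filter.eventually_all_finset]
    intro Q hQ
    have h3 := (hAr Q (hF Q hQ)).1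
    have : {x | ¬ ev Q x ≠ 0} = {x | ev Q x = 0} := by ext x; simp
    rw [ae_iff, this]
    exact h3
  filter_upwards [h1, h2] with x hx1 hx2 using ⟨hx1, hx2⟩

theorem int_id {B : ℝ} {ν : Measure ℝ} (hOn : On B ν) : Integrable (fun x : ℝ => x) ν := by
  have := hOn.1
  exact Integrable.of_mem_Icc 0 B measurable_id.aemeasurable hOn.2

theorem int_pot {ν : Measure ℝ} (hAr : Arith ν) (F : Finset ℤ[X]) (a : ℤ[X] → ℝ)
    (hF : ∀ Q ∈ F, Q ≠ 0) :
    Integrable (pot F a) ν ∧ ∫ x, pot F a x ∂ν = ∑ Q ∈ F, a Q * ∫ x, Real.log |ev Q x| ∂ν := by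
  have h : ∀ Q ∈ F, Integrable (fun x => a Q * Real.log |ev Q x|) ν :=
    fun Q hQ => ((hAr Q (hF Q hQ)).2.1).const_mul _
  refine ⟨?_, ?_⟩
  · unfold pot
    exact integrable_finsetSum F h
  · unfold pot
    rw [integral_finsetSum F h]
    exact Finset.sum_congr rfl fun Q _ => integral_const_mul _ _

/-- the tail is at most `η` -/
theorem tail_le (hG : GROW) {B lam η : ℝ} {μ : Measure ℝ} (hB : 12 ≤ B) (hη : 0 < η) (hη1 : η ≤ 1)
    (hOn : On B μ) (hAr : Arith μ) (hmean : mean μ = lam) (h0 : 0 ≤ lam) (h6 : lam ≤ 6)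
    {F : Finset ℤ[X]} {a : ℤ[X] → ℝ} (hC : Cert lam η B F a) : μ.real (Set.Ioi 1000) ≤ η := by
  have := hOn.1
  have hF : ∀ Q ∈ F, Q ≠ 0 := fun Q hQ => (hC.adm Q hQ).ne_zero
  obtain ⟨hi, he⟩ := int_pot hAr F a hF
  have hid := int_id hOn
  have hae := ae_good hOn hAr F hF
  have hs : Integrable (fun x : ℝ => x - lam) μ := hid.sub (integrable_const _)
  have hs2 : Integrable (fun x : ℝ => x - lam + η) μ := hs.add (integrable_const _)
  have hhi : Integrable (hh lam η F a) μ := by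
    unfold hh
    exact hs2.sub hi
  have hint : ∫ x, hh lam η F a x ∂μ ≤ η := by
    unfold hh
    rw [integral_sub hs2 hi, integral_add hs (integrable_const _),
      integral_sub hid (integrable_const _), he]
    unfold mean at hmean
    rw [hmean]
    have h3 : 0 ≤ ∑ Q ∈ F, a Q * ∫ x, Real.log |ev Q x| ∂μ :=
      Finset.sum_nonneg fun Q hQ => mul_nonneg (hC.pos Q hQ).le (hAr Q (hF Q hQ)).2.2
    rw [integral_const, integral_const]
    simp only [probReal_univ, one_smul]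
    linarith
  have hle : ∫ x, (Set.Ioi (1000 : ℝ)).indicator (fun _ => (1 : ℝ)) x ∂μ ≤
      ∫ x, hh lam η F a x ∂μ := by
    apply integral_mono_ae ((integrable_const _).indicator measurableSet_Ioi) hhi
    filter_upwards [hae] with x hx
    by_cases hx1 : x ∈ Set.Ioi (1000 : ℝ)
    · rw [Set.indicator_of_mem hx1]
      have := hG lam η B F a hB h0 hη1 hC x (le_of_lt hx1) hx.2
      unfold hh
      linarith
    · rw [Set.indicator_of_notMem hx1]
      have := hC.le x hx.1 hx.2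
      unfold hh
      linarith
  rw [integral_indicator measurableSet_Ioi, integral_const, smul_eq_mul, mul_one,
    measureReal_restrict_apply_univ] at hle
  linarith

end SUPPBaux

open SUPPBaux in
theorem pSUPPB : DUAL → GROW → UNIF → SUPPB := by
  rintro hD hG ⟨ν, hνOn, hνmean, -, hνAr, -⟩ B lam μ hB hlow hOn hAr hmean
  have := hOn.1
  have h6 : lam ≤ 6 := by
    rw [← hνmean]
    refine hlow ν ⟨hνOn.1, ?_⟩ hνAr
    exact measure_mono_null (Set.compl_subset_compl.2 (Set.Icc_subset_Icc_right hB)) hνOn.2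
  have h0 : 0 ≤ lam := by
    rw [← hmean]
    have h1 : ∀ᵐ x ∂μ, x ∈ Set.Icc (0 : ℝ) B := hOn.2
    exact integral_nonneg_of_ae (by filter_upwards [h1] with x hx using hx.1)
  refine ⟨hOn.1, ?_⟩
  rcases le_or_gt B 1000 with hB1 | hB1
  · exact measure_mono_null (Set.compl_subset_compl.2 (Set.Icc_subset_Icc_right hB1)) hOn.2
  have htail : ∀ η : ℝ, 0 < η → η ≤ 1 → μ.real (Set.Ioi 1000) ≤ η := by
    intro η hη hη1
    obtain ⟨F, a, hC⟩ := hD B lam η hB hη hlow
    exact tail_le hG hB hη hη1 hOn hAr hmean h0 h6 hC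
  have hzero : μ.real (Set.Ioi 1000) = 0 := by
    apply le_antisymm _ measureReal_nonneg
    apply le_of_forall_pos_le_add
    intro ε hε
    have := htail (min ε 1) (lt_min hε one_pos) (min_le_right _ _)
    have h2 := min_le_left ε 1
    linarith
  have hz : μ (Set.Ioi 1000) = 0 := by
    rwa [measureReal_eq_zero_iff] at hzero
  refine measure_mono_null ?_ (measure_union_null hOn.2 hz)
  intro x hx
  by_cases hxB : x ∈ Set.Icc (0 : ℝ) B
  · right
    rw [Set.mem_compl_iff, Set.mem_Icc, not_and_or] at hx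
    rcases hx with hx | hx
    · exact absurd hxB.1 hx
    · exact not_le.1 hx
  · left; exact hxB

end Pool.Agent.W401.SSS
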