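import Pool.Agent.W401.SSS.Stm

set_option autoImplicit false

namespace Pool.Agent.W401.SSS

namespace TRANSaux

open Matrix Finset

/-- the quadratic form -/
noncomputable def Q {n : ℕ} (G : Matrix (Fin n) (Fin n) ℝ) (z : Fin n → ℝ) : ℝ :=
  ∑ i, ∑ j, z i * G i j * z j

lemma Q_eq {n : ℕ} (G : Matrix (Fin n) (Fin n) ℝ) (z : Fin n → ℝ) :
    Q G z = z ⬝ᵥ (G *ᵥ z) := by
  simp [Q, dotProduct, mulVec, Finset.mul_sum, mul_assoc]

lemma pd_iff {n : ℕ} (G : Matrix (Fin n) (Fin n) ℝ) :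
    G.PosDef ↔ (∀ i j, G i j = G j i) ∧ ∀ z, z ≠ 0 → 0 < Q G z := by
  rw [posDef_iff_dotProduct_mulVec]
  constructor
  · rintro ⟨h1, h2⟩
    refine ⟨fun i j => ?_, fun z hz => ?_⟩
    · have := h1.apply i j
      simpa using this.symm
    · rw [Q_eq]
      simpa using h2 hz
  · rintro ⟨h1, h2⟩
    refine ⟨?_, fun z hz => ?_⟩
    · ext i j
      simpa using h1 j i
    · have := h2 z hz
      rw [Q_eq] at this
      simpa using this

/-- the hypothesis in a form without inverses -/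
def Hy {n : ℕ} (G : Matrix (Fin n) (Fin n) ℝ) (δ : ℝ) : Prop :=
  ∀ (z : Fin n → ℝ) (l : Fin n → ℤ), l ≠ 0 → G *ᵥ z = (fun i => (l i : ℝ)) → δ ^ 2 ≤ Q G z

/-- the conclusion -/
def Cn (n : ℕ) : Prop := ∀ (G : Matrix (Fin n) (Fin n) ℝ) (δ : ℝ), G.PosDef → 0 < δ → Hy G δ →
  ∀ x : Fin n → ℝ, ∃ k : Fin n → ℤ, Q G (fun i => x i - k i) ≤ (n : ℝ) ^ 3 / (4 * δ ^ 2)

/-- the Schur complement -/
noncomputable def Sc {n : ℕ} (G : Matrix (Fin (n + 1)) (Fin (n + 1)) ℝ) :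
    Matrix (Fin n) (Fin n) ℝ :=
  fun i j => G i.succ j.succ - G 0 i.succ * G 0 j.succ / G 0 0

lemma Sc_Q {n : ℕ} (G : Matrix (Fin (n + 1)) (Fin (n + 1)) ℝ) (y : Fin n → ℝ) :
    Q (Sc G) y = ∑ i, ∑ j, y i * G i.succ j.succ * y j - (∑ j, G 0 j.succ * y j) ^ 2 / G 0 0 := by
  have e1 : ∀ i j : Fin n, y i * Sc G i j * y j
      = y i * G i.succ j.succ * y j - (G 0 i.succ * y i) * (G 0 j.succ * y j) / G 0 0 := by
    intro i j
    unfold Sc
    ring
  unfold Q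
  simp only [e1, sum_sub_distrib]
  congr 1
  rw [pow_two, sum_mul_sum, sum_div]
  refine sum_congr rfl fun i _ => ?_
  rw [sum_div]

lemma decomp {n : ℕ} (G : Matrix (Fin (n + 1)) (Fin (n + 1)) ℝ) (hs : ∀ i j, G i j = G j i)
    (hg : G 0 0 ≠ 0) (z : Fin (n + 1) → ℝ) :
    Q G z = G 0 0 * (z 0 + (∑ j : Fin n, G 0 j.succ * z j.succ) / G 0 0) ^ 2
      + Q (Sc G) (fun j => z j.succ) := by
  rw [Sc_Q]
  unfold Q
  rw [Fin.sum_univ_succ, Fin.sum_univ_succ]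
  simp only [Fin.sum_univ_succ (fun j => z (Fin.succ _) * G (Fin.succ _) j * z j)]
  rw [sum_add_distrib]
  have e1 : ∑ i : Fin n, z 0 * G 0 i.succ * z i.succ
      = z 0 * ∑ j : Fin n, G 0 j.succ * z j.succ := by
    rw [mul_sum]
    exact sum_congr rfl fun i _ => by ring
  have e2 : ∑ i : Fin n, z i.succ * G i.succ 0 * z 0
      = z 0 * ∑ j : Fin n, G 0 j.succ * z j.succ := by
    rw [mul_sum]
    exact sum_congr rfl fun i _ => by rw [hs i.succ 0]; ring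
  rw [e1, e2]
  field_simp
  ring

lemma Sc_pd {n : ℕ} (G : Matrix (Fin (n + 1)) (Fin (n + 1)) ℝ) (hG : G.PosDef) :
    (Sc G).PosDef := by
  obtain ⟨h1, h2⟩ := (pd_iff G).1 hG
  have hg : 0 < G 0 0 := hG.diag_pos
  rw [pd_iff]
  refine ⟨fun i j => ?_, fun y hy => ?_⟩
  · unfold Sc
    rw [h1 i.succ j.succ]
    ring
  · have h3 := h2 (Fin.cons (-(∑ j : Fin n, G 0 j.succ * y j) / G 0 0) y) (fun h => hy (by
      ext i
      have := congrFun h i.succ
      simpa using this))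
    rw [decomp G h1 hg.ne'] at h3
    simp only [Fin.cons_zero, Fin.cons_succ] at h3
    have e : -(∑ j : Fin n, G 0 j.succ * y j) / G 0 0 + (∑ j : Fin n, G 0 j.succ * y j) / G 0 0
        = 0 := by ring
    rw [e] at h3
    simpa using h3

lemma Sc_Hy {n : ℕ} (G : Matrix (Fin (n + 1)) (Fin (n + 1)) ℝ) (hG : G.PosDef) (δ : ℝ)
    (h : Hy G δ) : Hy (Sc G) δ := by
  obtain ⟨h1, h2⟩ := (pd_iff G).1 hG
  have hg : 0 < G 0 0 := hG.diag_pos
  intro y l hl hyl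
  set s : ℝ := ∑ j : Fin n, G 0 j.succ * y j with hs
  have h3 := h (Fin.cons (-s / G 0 0) y) (Fin.cons 0 l) (fun h' => hl (by
      ext i
      have := congrFun h' i.succ
      simpa using this)) (by
    ext i
    refine Fin.cases ?_ (fun i => ?_) i
    · simp only [mulVec, dotProduct, Fin.cons_zero]
      rw [Fin.sum_univ_succ]
      simp only [Fin.cons_zero, Fin.cons_succ]
      rw [← hs]
      field_simp
      simp
    · have h4 := congrFun hyl i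
      simp only [mulVec, dotProduct] at h4 ⊢
      rw [Fin.sum_univ_succ]
      simp only [Fin.cons_zero, Fin.cons_succ]
      rw [← h4]
      have e1 : ∑ x, Sc G i x * y x = ∑ x : Fin n, G i.succ x.succ * y x
          - G 0 i.succ * s / G 0 0 := by
        unfold Sc
        rw [hs, mul_sum, sum_div, ← sum_sub_distrib]
        refine sum_congr rfl fun x _ => ?_
        ring
      rw [e1, h1 i.succ 0]
      ring)
  rw [decomp G h1 hg.ne'] at h3
  simp only [Fin.cons_zero, Fin.cons_succ] at h3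
  rw [← hs] at h3
  have e : -s / G 0 0 + s / G 0 0 = 0 := by ring
  rw [e] at h3
  simpa using h3

lemma step {n : ℕ} (ih : Cn n) (G : Matrix (Fin (n + 1)) (Fin (n + 1)) ℝ) (δ : ℝ)
    (hG : G.PosDef) (hδ : 0 < δ) (h : Hy G δ) (hb : G 0 0 * δ ^ 2 ≤ ((n : ℝ) + 1) ^ 2)
    (x : Fin (n + 1) → ℝ) : ∃ k : Fin (n + 1) → ℤ,
      Q G (fun i => x i - k i) ≤ ((n : ℝ) + 1) ^ 3 / (4 * δ ^ 2) := by
  obtain ⟨h1, h2⟩ := (pd_iff G).1 hG
  have hg : 0 < G 0 0 := hG.diag_pos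
  obtain ⟨k', hk'⟩ := ih (Sc G) δ (Sc_pd G hG) hδ (Sc_Hy G hG δ h) (fun j => x j.succ)
  set y : ℝ := x 0 + (∑ j : Fin n, G 0 j.succ * (x j.succ - k' j)) / G 0 0 with hy
  refine ⟨Fin.cons (round y) k', ?_⟩
  rw [decomp G h1 hg.ne']
  simp only [Fin.cons_zero, Fin.cons_succ]
  have e1 : x 0 - (round y : ℝ) + (∑ j : Fin n, G 0 j.succ * (x j.succ - k' j)) / G 0 0
      = y - round y := by rw [hy]; ring
  rw [e1]
  have h3 : (y - round y) ^ 2 ≤ 1 / 4 := by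
    have h4 := abs_sub_round y
    have h5 : (y - round y) ^ 2 = |y - round y| ^ 2 := (sq_abs _).symm
    rw [h5]
    have h6 := abs_nonneg (y - round y)
    nlinarith
  have h4 : G 0 0 * (y - round y) ^ 2 ≤ G 0 0 * (1 / 4) := mul_le_mul_of_nonneg_left h3 hg.le
  have hd : 0 < 4 * δ ^ 2 := by positivity
  have h5 : G 0 0 * (1 / 4) ≤ ((n : ℝ) + 1) ^ 2 / (4 * δ ^ 2) := by
    rw [le_div_iff₀ hd]
    nlinarith
  have h6 : ((n : ℝ) + 1) ^ 2 / (4 * δ ^ 2) + (n : ℝ) ^ 3 / (4 * δ ^ 2)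
      ≤ ((n : ℝ) + 1) ^ 3 / (4 * δ ^ 2) := by
    rw [← add_div]
    refine div_le_div_of_nonneg_right ?_ hd.le
    have hn : (0 : ℝ) ≤ n := Nat.cast_nonneg n
    nlinarith [mul_nonneg hn hn]
  linarith

/-- primitive multiples -/
lemma prim {n : ℕ} (G : Matrix (Fin (n + 1)) (Fin (n + 1)) ℝ) (hG : G.PosDef)
    (c : Fin (n + 1) → ℤ) (hc : c ≠ 0) : ∃ v : Fin (n + 1) → ℤ,
      (∀ d : ℤ, (∀ i, d ∣ v i) → IsUnit d) ∧
      Q G (fun i => (v i : ℝ)) ≤ Q G (fun i => (c i : ℝ)) := by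
  obtain ⟨h1, h2⟩ := (pd_iff G).1 hG
  obtain ⟨v, hv1, hv2⟩ := Finset.extract_gcd c (Finset.univ_nonempty (α := Fin (n + 1)))
  refine ⟨v, ?_, ?_⟩
  · intro d hd
    have : d ∣ Finset.univ.gcd v := Finset.dvd_gcd fun i _ => hd i
    rw [hv2] at this
    exact isUnit_of_dvd_one this
  · set D : ℤ := Finset.univ.gcd c with hD
    have hD0 : D ≠ 0 := by
      intro h0
      apply hc
      ext i
      rw [hv1 i (mem_univ i), h0, zero_mul]
      rfl
    have hv0 : 0 ≤ Q G (fun i => (v i : ℝ)) := by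
      by_cases h0 : (fun i => (v i : ℝ)) = 0
      · rw [h0]
        simp [Q]
      · exact (h2 _ h0).le
    have e1 : Q G (fun i => (c i : ℝ)) = (D : ℝ) ^ 2 * Q G (fun i => (v i : ℝ)) := by
      unfold Q
      rw [mul_sum]
      refine sum_congr rfl fun i _ => ?_
      rw [mul_sum]
      refine sum_congr rfl fun j _ => ?_
      change (c i : ℝ) * G i j * (c j : ℝ) = (D : ℝ) ^ 2 * ((v i : ℝ) * G i j * (v j : ℝ))
      rw [hv1 i (mem_univ i), hv1 j (mem_univ j)]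
      push_cast
      ring
    have hD1 : (1 : ℝ) ≤ (D : ℝ) ^ 2 := by
      have : (1 : ℤ) ≤ D ^ 2 := by
        have := sq_nonneg D
        have h3 : D ^ 2 ≠ 0 := pow_ne_zero 2 hD0
        omega
      exact_mod_cast this
    rw [e1]
    nlinarith

lemma Q_inv {n : ℕ} (G : Matrix (Fin n) (Fin n) ℝ) (hG : G.PosDef) (y : Fin n → ℝ) :
    G *ᵥ (G⁻¹ *ᵥ y) = y ∧ Q G (G⁻¹ *ᵥ y) = Q G⁻¹ y := by
  have h1 : G *ᵥ (G⁻¹ *ᵥ y) = y := by
    rw [mulVec_mulVec, mul_nonsing_inv _ ((isUnit_iff_isUnit_det G).1 hG.isUnit), one_mulVec]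
  refine ⟨h1, ?_⟩
  rw [Q_eq, h1, Q_eq, dotProduct_comm]

/-- change of the basis -/
lemma Q_conj {n : ℕ} (G U : Matrix (Fin n) (Fin n) ℝ) (z : Fin n → ℝ) :
    Q (Uᵀ * G * U) z = Q G (U *ᵥ z) := by
  rw [Q_eq, Q_eq, mul_assoc, ← mulVec_mulVec, ← mulVec_mulVec, dotProduct_mulVec,
    vecMul_transpose]

theorem all (hH : HERM) (hU : UNIM) : ∀ n, Cn n := by
  intro n
  induction n with
  | zero =>
    intro G δ _ hδ _ x
    refine ⟨fun i => i.elim0, ?_⟩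
    unfold Q
    simp
  | succ n ih =>
    intro G δ hG hδ h x
    have hdet : 0 < G.det := hG.det_pos
    obtain ⟨c, hc0, hc⟩ := hH (n + 1) (Nat.succ_pos n) G hG
    obtain ⟨c', hc0', hc'⟩ := hH (n + 1) (Nat.succ_pos n) G⁻¹ hG.inv
    obtain ⟨v, hv1, hv2⟩ := prim G hG c hc0
    have hc1 : Q G (fun i => (c i : ℝ)) ≤ ((n + 1 : ℕ) : ℝ) * G.det ^ ((1 : ℝ) / ((n + 1 : ℕ) : ℝ)) :=
      hc
    have hc2 : Q G⁻¹ (fun i => (c' i : ℝ)) ≤
        ((n + 1 : ℕ) : ℝ) * G⁻¹.det ^ ((1 : ℝ) / ((n + 1 : ℕ) : ℝ)) := hc'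
    have hδ2 : δ ^ 2 ≤ Q G⁻¹ (fun i => (c' i : ℝ)) := by
      obtain ⟨k1, k2⟩ := Q_inv G hG (fun i => (c' i : ℝ))
      rw [← k2]
      exact h _ c' hc0' k1
    have hgv : Q G (fun i => (v i : ℝ)) * δ ^ 2 ≤ ((n : ℝ) + 1) ^ 2 := by
      set e : ℝ := (1 : ℝ) / ((n + 1 : ℕ) : ℝ) with he
      have hdi : G⁻¹.det = (G.det)⁻¹ := by
        rw [det_nonsing_inv, Ring.inverse_eq_inv']
      have h3 : G.det ^ e * G⁻¹.det ^ e = 1 := by
        rw [hdi, ← Real.mul_rpow hdet.le (inv_nonneg.2 hdet.le), mul_inv_cancel₀ hdet.ne',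
          Real.one_rpow]
      have h4 : 0 ≤ G.det ^ e := Real.rpow_nonneg hdet.le e
      have h5 : Q G (fun i => (v i : ℝ)) * δ ^ 2 ≤ (((n + 1 : ℕ) : ℝ) * G.det ^ e) *
          (((n + 1 : ℕ) : ℝ) * G⁻¹.det ^ e) :=
        mul_le_mul (hv2.trans hc1) (hδ2.trans hc2) (by positivity) (by positivity)
      have h6 : (((n + 1 : ℕ) : ℝ) * G.det ^ e) * (((n + 1 : ℕ) : ℝ) * G⁻¹.det ^ e)
          = ((n : ℝ) + 1) ^ 2 * (G.det ^ e * G⁻¹.det ^ e) := by
        push_cast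
        ring
      rw [h6, h3, mul_one] at h5
      exact h5
    obtain ⟨U, hU1, hU2⟩ := hU n v hv1
    set V : Matrix (Fin (n + 1)) (Fin (n + 1)) ℤ := U⁻¹ with hV
    have hUV : U * V = 1 := mul_nonsing_inv U hU1
    have hVU : V * U = 1 := nonsing_inv_mul U hU1
    set UR : Matrix (Fin (n + 1)) (Fin (n + 1)) ℝ := U.map (Int.castRingHom ℝ) with hUR
    set VR : Matrix (Fin (n + 1)) (Fin (n + 1)) ℝ := V.map (Int.castRingHom ℝ) with hVR
    have hUVR : UR * VR = 1 := by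
      rw [hUR, hVR, ← Matrix.map_mul, hUV]
      simp
    have hVUR : VR * UR = 1 := by
      rw [hUR, hVR, ← Matrix.map_mul, hVU]
      simp
    have hcast : ∀ (A : Matrix (Fin (n + 1)) (Fin (n + 1)) ℤ) (l : Fin (n + 1) → ℤ),
        (fun i => ((A *ᵥ l) i : ℝ)) = A.map (Int.castRingHom ℝ) *ᵥ (fun i => (l i : ℝ)) := by
      intro A l
      ext i
      simp [mulVec, dotProduct]
    -- the new matrix
    have hG' : (URᵀ * G * UR).PosDef := by
      have := hG.conjTranspose_mul_mul_same (B := UR) (by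
        intro a b hab
        have h7 := congrArg (fun w => VR *ᵥ w) hab
        simpa [mulVec_mulVec, hVUR] using h7)
      simpa using this
    have h00 : (URᵀ * G * UR) 0 0 = Q G (fun i => (v i : ℝ)) := by
      have e1 : (URᵀ * G * UR) 0 0 = Q (URᵀ * G * UR) (Pi.single 0 1) := by
        rw [Q_eq]
        simp
      rw [e1, Q_conj]
      congr 1
      ext i
      simp [hUR, hU2 i]
    have hHy : Hy (URᵀ * G * UR) δ := by
      intro z l hl hz
      rw [Q_conj]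
      refine h (UR *ᵥ z) (Vᵀ *ᵥ l) ?_ ?_
      · intro h0
        apply hl
        have h8 := congrArg (fun w => Uᵀ *ᵥ w) h0
        simp only [mulVec_mulVec, ← transpose_mul, hVU, transpose_one, one_mulVec,
          mulVec_zero] at h8
        exact h8
      · have eT : Vᵀ.map (Int.castRingHom ℝ) = VRᵀ := rfl
        rw [hcast, eT, ← hz, mulVec_mulVec, mulVec_mulVec, mul_assoc, ← mul_assoc VRᵀ,
          ← transpose_mul, hUVR, transpose_one, one_mul]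
    obtain ⟨k', hk'⟩ := step ih (URᵀ * G * UR) δ hG' hδ hHy (by rw [h00]; exact hgv) (VR *ᵥ x)
    refine ⟨U *ᵥ k', ?_⟩
    rw [Q_conj] at hk'
    have e2 : UR *ᵥ (fun i => (VR *ᵥ x) i - k' i) = fun i => x i - ((U *ᵥ k') i : ℝ) := by
      have e3 : (fun i => (VR *ᵥ x) i - (k' i : ℝ)) = VR *ᵥ x - fun i => (k' i : ℝ) := rfl
      rw [e3, mulVec_sub, mulVec_mulVec, hUVR, one_mulVec, ← hcast U k']
      rfl
    rw [e2] at hk'
    push_cast
    exact hk'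

end TRANSaux

theorem pTRANS : HERM → UNIM → TRANS := by
  intro hH hU n G δ hG hδ h x
  refine TRANSaux.all hH hU n G δ hG hδ ?_ x
  intro z l hl hz
  have h1 := h l hl
  have h2 : TRANSaux.Q G⁻¹ (fun i => (l i : ℝ)) = TRANSaux.Q G z := by
    rw [← (TRANSaux.Q_inv G hG (fun i => (l i : ℝ))).2]
    congr 1
    rw [← hz, Matrix.mulVec_mulVec,
      Matrix.nonsing_inv_mul _ ((Matrix.isUnit_iff_isUnit_det G).1 hG.isUnit), Matrix.one_mulVec]
  rw [← h2]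
  exact h1

end Pool.Agent.W401.SSS
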