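import Pool.Agent.W401.SSS.Stm

open MeasureTheory Polynomial

namespace Pool.Agent.W401.SSS

namespace TRUNCaux

theorem ev_cont (Q : ℤ[X]) : Continuous (ev Q) := by
  unfold ev
  exact Polynomial.continuous_aeval Q

theorem trunc_cont (Q : ℤ[X]) (M : ℕ) : Continuous (trunc Q M) := by
  unfold trunc
  refine Continuous.log ?_ ?_
  · exact (ev_cont Q).abs.max continuous_const
  · intro x
    exact (lt_of_lt_of_le (Real.exp_pos _) (le_max_right _ _)).ne'

theorem trunc_ge (Q : ℤ[X]) (M : ℕ) (x : ℝ) : -(M : ℝ) ≤ trunc Q M x := by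
  unfold trunc
  have := Real.log_le_log (Real.exp_pos (-(M : ℝ))) (le_max_right |ev Q x| (Real.exp (-(M : ℝ))))
  rwa [Real.log_exp] at this

theorem trunc_le {Q : ℤ[X]} {M : ℕ} {x C : ℝ} (h : |ev Q x| ≤ C) (hC : 1 ≤ C) :
    trunc Q M x ≤ Real.log C := by
  unfold trunc
  apply Real.log_le_log (lt_of_lt_of_le (Real.exp_pos _) (le_max_right _ _))
  refine max_le h (le_trans ?_ hC)
  rw [Real.exp_le_one_iff]
  simp

theorem trunc_root {Q : ℤ[X]} {x : ℝ} (h : ev Q x = 0) (M : ℕ) : trunc Q M x = -(M : ℝ) := by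
  unfold trunc
  rw [h, abs_zero, max_eq_right (Real.exp_pos _).le, Real.log_exp]

theorem trunc_ev {Q : ℤ[X]} {x : ℝ} (h : ev Q x ≠ 0) :
    ∀ᶠ M : ℕ in Filter.atTop, trunc Q M x = Real.log |ev Q x| := by
  have h1 : Filter.Tendsto (fun M : ℕ => Real.exp (-(M : ℝ))) Filter.atTop (nhds 0) :=
    (Real.tendsto_exp_neg_atTop_nhds_zero).comp tendsto_natCast_atTop_atTop
  have h2 : 0 < |ev Q x| := abs_pos.2 h
  filter_upwards [h1.eventually (gt_mem_nhds h2)] with M hM
  unfold trunc
  rw [max_eq_left hM.le]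

end TRUNCaux

open TRUNCaux in
theorem pTRUNC : TRUNC := by
  intro B ν Q _ hon hpos
  obtain ⟨hprob, hB⟩ := hon
  have hae : ∀ᵐ x ∂ν, x ∈ Set.Icc (0 : ℝ) B := by
    rw [ae_iff]
    exact hB
  obtain ⟨C0, hC0⟩ : ∃ C : ℝ, ∀ x ∈ Set.Icc (0 : ℝ) B, |ev Q x| ≤ C := by
    obtain ⟨C, hC⟩ := (isCompact_Icc (a := (0 : ℝ)) (b := B)).exists_bound_of_continuousOn
      (ev_cont Q).continuousOn
    exact ⟨C, fun x hx => by simpa using hC x hx⟩
  set C : ℝ := max C0 1 with hCdef
  have hC1 : 1 ≤ C := le_max_right _ _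
  have hC : ∀ x ∈ Set.Icc (0 : ℝ) B, |ev Q x| ≤ C := fun x hx =>
    (hC0 x hx).trans (le_max_left _ _)
  set A : ℝ := Real.log C with hA
  have hA0 : 0 ≤ A := Real.log_nonneg hC1
  -- integrability of the truncations
  have hint : ∀ M : ℕ, Integrable (trunc Q M) ν := by
    intro M
    refine Integrable.of_bound (trunc_cont Q M).aestronglyMeasurable (max A M) ?_
    filter_upwards [hae] with x hx
    rw [Real.norm_eq_abs, abs_le]
    constructor
    · have h1 := trunc_ge Q M x
      have h2 := le_max_right A (M : ℝ)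
      linarith
    · exact (trunc_le (hC x hx) hC1).trans (le_max_left _ _)
  set g : ℕ → ℝ → ENNReal := fun M x => ENNReal.ofReal (A - trunc Q M x) with hg
  have hgm : ∀ M, Measurable (g M) := fun M =>
    (measurable_const.sub (trunc_cont Q M).measurable).ennreal_ofReal
  have hgi : ∀ M, ∫⁻ x, g M x ∂ν ≤ ENNReal.ofReal A := by
    intro M
    have h1 : Integrable (fun x => A - trunc Q M x) ν := (integrable_const A).sub (hint M)
    have h2 : 0 ≤ᵐ[ν] fun x => A - trunc Q M x := by
      filter_upwards [hae] with x hx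
      have := trunc_le (M := M) (hC x hx) hC1
      simp only [Pi.zero_apply]
      linarith
    rw [hg]
    simp only
    rw [← ofReal_integral_eq_lintegral_ofReal h1 h2]
    apply ENNReal.ofReal_le_ofReal
    rw [integral_sub (integrable_const A) (hint M)]
    have := hpos M
    simp only [integral_const, probReal_univ, smul_eq_mul, one_mul]
    linarith
  set G : ℝ → ENNReal := fun x => Filter.liminf (fun M => g M x) Filter.atTop with hG
  have hGm : Measurable G := Measurable.liminf hgm
  have hGi : ∫⁻ x, G x ∂ν ≤ ENNReal.ofReal A := by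
    refine (lintegral_liminf_le hgm).trans ?_
    refine (Filter.liminf_le_liminf (Filter.Eventually.of_forall hgi)).trans ?_
    simp
  have hGfin : ∀ᵐ x ∂ν, G x < ⊤ :=
    ae_lt_top hGm (lt_of_le_of_lt hGi ENNReal.ofReal_lt_top).ne
  have hroot : ∀ x, ev Q x = 0 → G x = ⊤ := by
    intro x hx
    have h1 : Filter.Tendsto (fun M : ℕ => g M x) Filter.atTop (nhds ⊤) := by
      have h2 : Filter.Tendsto (fun M : ℕ => A + (M : ℝ)) Filter.atTop Filter.atTop :=
        Filter.tendsto_atTop_add_const_left _ A tendsto_natCast_atTop_atTop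
      refine (ENNReal.tendsto_ofReal_nhds_top.2 h2).congr ?_
      intro M
      simp only [hg, trunc_root hx]
      congr 1
      ring
    exact h1.liminf_eq
  have hnon : ∀ x, ev Q x ≠ 0 → G x = ENNReal.ofReal (A - Real.log |ev Q x|) := by
    intro x hx
    have h1 : Filter.Tendsto (fun M : ℕ => g M x) Filter.atTop
        (nhds (ENNReal.ofReal (A - Real.log |ev Q x|))) := by
      refine Filter.Tendsto.congr' ?_ tendsto_const_nhds
      filter_upwards [trunc_ev hx] with M hM
      simp only [hg, hM]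
    exact h1.liminf_eq
  have hnull : ∀ᵐ x ∂ν, ev Q x ≠ 0 := by
    filter_upwards [hGfin] with x hx h
    rw [hroot x h] at hx
    exact lt_irrefl _ hx
  have hmeas : Measurable (fun x => A - Real.log |ev Q x|) :=
    measurable_const.sub (Real.measurable_log.comp (ev_cont Q).abs.measurable)
  have hnn : 0 ≤ᵐ[ν] fun x => A - Real.log |ev Q x| := by
    filter_upwards [hae, hnull] with x hx hx0
    have := Real.log_le_log (abs_pos.2 hx0) (hC x hx)
    simp only [Pi.zero_apply]
    linarith
  have hli : ∫⁻ x, ENNReal.ofReal (A - Real.log |ev Q x|) ∂ν ≤ ENNReal.ofReal A := by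
    refine le_trans (le_of_eq ?_) hGi
    apply lintegral_congr_ae
    filter_upwards [hnull] with x hx
    exact (hnon x hx).symm
  have hI : Integrable (fun x => A - Real.log |ev Q x|) ν := by
    refine ⟨hmeas.aestronglyMeasurable, ?_⟩
    rw [hasFiniteIntegral_iff_ofReal hnn]
    exact lt_of_le_of_lt hli ENNReal.ofReal_lt_top
  have hIle : ∫ x, (A - Real.log |ev Q x|) ∂ν ≤ A := by
    rw [integral_eq_lintegral_of_nonneg_ae hnn hmeas.aestronglyMeasurable]
    exact ENNReal.toReal_le_of_le_ofReal hA0 hli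
  have hIlog : Integrable (fun x => Real.log |ev Q x|) ν := by
    have := (integrable_const A).sub hI
    refine this.congr (Filter.Eventually.of_forall fun x => ?_)
    simp
  refine ⟨?_, hIlog, ?_⟩
  · rw [ae_iff] at hnull
    simpa using hnull
  · rw [integral_sub (integrable_const A) hIlog] at hIle
    simp only [integral_const, probReal_univ, smul_eq_mul, one_mul] at hIle
    linarith

end Pool.Agent.W401.SSS
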