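import Pool.Agent.W401.SSS.Stm

set_option autoImplicit false

open MeasureTheory

namespace Pool.Agent.W401.SSS.UNI1aux

theorem one (x c : ℝ) (hx : 0 ≤ x) (hc : 0 < c) : x * Real.log c + (x - c) ≤ x * Real.log x := by
  rcases hx.eq_or_lt with h | h
  · rw [← h]; simp; exact hc.le
  · have h1 := Real.log_le_sub_one_of_pos (div_pos hc h)
    rw [Real.log_div hc.ne' h.ne'] at h1
    have h2 : x * (Real.log c - Real.log x) ≤ x * (c / x - 1) :=
      mul_le_mul_of_nonneg_left h1 h.le
    have h3 : x * (c / x - 1) = c - x := by field_simp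
    linarith

theorem neg (v w B : ℝ) (hB : 0 < B) (h : v + w = B) (hw : w < 0) :
    B * Real.log (B / 2) ≤ v * Real.log v + w * Real.log w := by
  have hv : v = B + -w := by linarith
  have h1 : Real.log w = Real.log (-w) := (Real.log_neg_eq_log w).symm
  have h2 : Real.log (-w) ≤ Real.log v := Real.log_le_log (by linarith) (by linarith)
  have h3 : Real.log (B / 2) ≤ Real.log v := Real.log_le_log (by linarith) (by linarith)
  have h4 : v * Real.log v + w * Real.log w =
      B * Real.log v + (-w) * (Real.log v - Real.log (-w)) := by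
    rw [h1, hv]; ring
  rw [h4]
  have h5 : 0 ≤ (-w) * (Real.log v - Real.log (-w)) :=
    mul_nonneg (by linarith) (by linarith)
  have h6 : B * Real.log (B / 2) ≤ B * Real.log v := mul_le_mul_of_nonneg_left h3 hB.le
  linarith

theorem ineq (v w B : ℝ) (hB : 0 < B) (h : v + w = B) :
    B * Real.log (B / 2) ≤ v * Real.log v + w * Real.log w := by
  rcases lt_or_ge w 0 with hw | hw
  · exact neg v w B hB h hw
  · rcases lt_or_ge v 0 with hv | hv
    · have := neg w v B hB (by linarith) hv
      linarith
    · have h1 := one v (B / 2) hv (by linarith)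
      have h2 := one w (B / 2) hw (by linarith)
      have h3 : (v + w) * Real.log (B / 2) + (v + w - B) ≤ v * Real.log v + w * Real.log w := by
        linarith
      rw [h] at h3
      linarith

theorem intg (p B : ℝ) (α : ℂ) :
    IntervalIntegrable (fun x : ℝ => Real.log ‖(x : ℂ) - α‖) volume p (p + B) := by
  apply MeromorphicOn.intervalIntegrable_log_norm (f := fun x : ℝ => (x : ℂ) - α)
  intro x _
  apply AnalyticAt.meromorphicAt
  exact (Complex.ofRealCLM.analyticAt x).sub analyticAt_const

theorem intg' (p B s : ℝ) :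
    IntervalIntegrable (fun x : ℝ => Real.log (x - s)) volume p (p + B) := by
  apply MeromorphicOn.intervalIntegrable_log (f := fun x : ℝ => x - s)
  intro x _
  apply AnalyticAt.meromorphicAt
  exact analyticAt_id.sub analyticAt_const

end Pool.Agent.W401.SSS.UNI1aux

namespace Pool.Agent.W401.SSS

open UNI1aux

theorem pUNI1 : UNI1 := by
  intro p B α hB
  refine ⟨intg p B α, ?_⟩
  have h1 : ∫ x in p..(p + B), Real.log (x - α.re) ≤
      ∫ x in p..(p + B), Real.log ‖(x : ℂ) - α‖ := by
    apply intervalIntegral.integral_mono_ae (by linarith) (intg' p B α.re) (intg p B α)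
    have h2 : ∀ᵐ x : ℝ ∂volume, x ≠ α.re := by
      rw [ae_iff]
      simp
    filter_upwards [h2] with x hx
    have h3 : 0 < |x - α.re| := abs_pos.mpr (sub_ne_zero.mpr hx)
    rw [← Real.log_abs]
    apply Real.log_le_log h3
    have h4 := Complex.abs_re_le_norm ((x : ℂ) - α)
    simpa using h4
  refine le_trans ?_ h1
  rw [intervalIntegral.integral_comp_sub_right (fun u => Real.log u), integral_log]
  have h2 := ineq (p + B - α.re) (α.re - p) B hB (by ring)
  have h3 : Real.log (α.re - p) = Real.log (p - α.re) := by
    rw [← Real.log_neg_eq_log]; congr 1; ring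
  rw [h3] at h2
  linarith

end Pool.Agent.W401.SSS
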