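import Pool.Agent.W401.SSS.Stm

set_option autoImplicit false

open MeasureTheory Polynomial

namespace Pool.Agent.W401.SSS

namespace UNI2aux

theorem log31_le : Real.log 31 ≤ 5 * Real.log 2 := by
  have h : (5 : ℝ) * Real.log 2 = Real.log 32 := by
    rw [show (32 : ℝ) = 2 ^ 5 by norm_num, Real.log_pow]
    norm_num
  rw [h]
  exact Real.log_le_log (by norm_num) (by norm_num)

theorem log31_ge : 4 * Real.log 2 ≤ Real.log 31 := by
  have h : (4 : ℝ) * Real.log 2 = Real.log 16 := by
    rw [show (16 : ℝ) = 2 ^ 4 by norm_num, Real.log_pow]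
    norm_num
  rw [h]
  exact Real.log_le_log (by norm_num) (by norm_num)

theorem log6_ge : 5 * Real.log 2 ≤ 2 * Real.log 6 := by
  have h : (5 : ℝ) * Real.log 2 = Real.log 32 := by
    rw [show (32 : ℝ) = 2 ^ 5 by norm_num, Real.log_pow]
    norm_num
  have h2 : (2 : ℝ) * Real.log 6 = Real.log 36 := by
    rw [show (36 : ℝ) = 6 ^ 2 by norm_num, Real.log_pow]
    norm_num
  rw [h, h2]
  exact Real.log_le_log (by norm_num) (by norm_num)

end UNI2aux

theorem pUNI2 : UNI1 → UNI2 := by
  intro hU α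
  obtain ⟨h1, h2⟩ := hU 0 12 α (by norm_num)
  rw [zero_add] at h1 h2
  have hl1 := Real.log_two_gt_d9
  have hl2 := Real.log_two_lt_d9
  have e1 := UNI2aux.log31_le
  have e2 := UNI2aux.log31_ge
  have e3 := UNI2aux.log6_ge
  have hα := norm_nonneg α
  rcases le_or_gt ‖α‖ 30 with h | h
  · have h3 : Real.log (1 + ‖α‖) ≤ Real.log 31 :=
      Real.log_le_log (by positivity) (by linarith)
    have h4 : (12 : ℝ) / 2 = 6 := by norm_num
    rw [h4] at h2
    linarith
  · have h3 : Real.log 31 ≤ Real.log (1 + ‖α‖) :=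
      Real.log_le_log (by norm_num) (by linarith)
    have h4 : ∀ x ∈ Set.Icc (0 : ℝ) 12, Real.log (1 + ‖α‖) - Real.log 2 ≤
        Real.log ‖(x : ℂ) - α‖ := by
      intro x hx
      rw [← Real.log_div (by positivity) (by norm_num)]
      apply Real.log_le_log (by positivity)
      have h5 : ‖α‖ - ‖(x : ℂ)‖ ≤ ‖(x : ℂ) - α‖ := by
        have := norm_sub_norm_le α (x : ℂ)
        rw [norm_sub_rev] at this
        exact this
      have h6 : ‖(x : ℂ)‖ ≤ 12 := by
        rw [Complex.norm_real, Real.norm_eq_abs, abs_of_nonneg hx.1]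
        exact hx.2
      linarith
    have h5 := intervalIntegral.integral_mono_on (by norm_num : (0 : ℝ) ≤ 12)
      (intervalIntegrable_const (c := Real.log (1 + ‖α‖) - Real.log 2)) h1 h4
    rw [intervalIntegral.integral_const, smul_eq_mul] at h5
    linarith

end Pool.Agent.W401.SSS
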