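import Pool.Agent.W401.SSS.Stm

/-!
# The uniform measure on `[0,12]`
-/

set_option autoImplicit false

open MeasureTheory Polynomial

namespace Pool.Agent.W401.SSS

namespace UNIFaux

/-- The uniform measure. -/
noncomputable def nu : Measure ℝ :=
  ENNReal.ofReal (1 / 12) • volume.restrict (Set.Icc (0 : ℝ) 12)

theorem int_nu (f : ℝ → ℝ) : ∫ x, f x ∂nu = (1 / 12) * ∫ x in (0 : ℝ)..12, f x := by
  unfold nu
  rw [integral_smul_measure, intervalIntegral.integral_of_le (by norm_num),
    integral_Icc_eq_integral_Ioc, ENNReal.toReal_ofReal (by norm_num), smul_eq_mul]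

theorem nu_univ : nu Set.univ = 1 := by
  unfold nu
  rw [Measure.smul_apply, Measure.restrict_apply MeasurableSet.univ, Set.univ_inter,
    Real.volume_Icc, smul_eq_mul, ← ENNReal.ofReal_mul (by norm_num)]
  norm_num

theorem on_nu : On 12 nu := by
  refine ⟨⟨nu_univ⟩, ?_⟩
  unfold nu
  rw [Measure.smul_apply, Measure.restrict_apply measurableSet_Icc.compl, Set.compl_inter_self,
    measure_empty, smul_zero]

theorem mean_nu : mean nu = 6 := by
  unfold mean
  rw [int_nu, integral_id]
  norm_num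

theorem le_vol (s : Set ℝ) : nu s ≤ ENNReal.ofReal (1 / 12) * volume s := by
  unfold nu
  rw [Measure.smul_apply, smul_eq_mul]
  exact mul_le_mul_right (Measure.restrict_apply_le _ _) _

theorem lip_nu : Lip (1 / 12) nu := by
  intro x δ hδ
  have h1 := le_vol (Set.Icc x (x + δ))
  rw [Real.volume_Icc, ← ENNReal.ofReal_mul (by norm_num), add_sub_cancel_left] at h1
  have h2 := ENNReal.toReal_mono ENNReal.ofReal_ne_top h1
  rwa [ENNReal.toReal_ofReal (by positivity)] at h2

theorem null_of_finite {s : Set ℝ} (hs : s.Finite) : nu s = 0 := by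
  have h1 := le_vol s
  rw [hs.measure_zero volume, mul_zero] at h1
  exact le_antisymm h1 bot_le

theorem integrable_nu (h1 : UNI1) (α : ℂ) :
    Integrable (fun x : ℝ => Real.log ‖(x : ℂ) - α‖) nu := by
  have h2 := (h1 0 12 α (by norm_num)).1
  rw [zero_add, intervalIntegrable_iff_integrableOn_Icc_of_le (by norm_num)] at h2
  unfold nu
  exact Integrable.smul_measure h2 ENNReal.ofReal_ne_top

theorem sum_int (h1 : UNI1) (s : Multiset ℂ) :
    Integrable (fun x : ℝ => (s.map (fun α : ℂ => Real.log ‖(x : ℂ) - α‖)).sum) nu ∧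
      ∫ x, (s.map (fun α : ℂ => Real.log ‖(x : ℂ) - α‖)).sum ∂nu = (s.map (Upot nu)).sum := by
  induction s using Multiset.induction_on with
  | empty => simp
  | cons a s ih =>
    have h2 := integrable_nu h1 a
    simp only [Multiset.map_cons, Multiset.sum_cons]
    refine ⟨h2.add ih.1, ?_⟩
    rw [integral_add h2 ih.1, ih.2]
    rfl

theorem adm_int (h1 : UNI1) (h2 : UNI2) {Q : ℤ[X]} (hQ : Adm Q) :
    Integrable (fun x => Real.log |ev Q x|) nu ∧ wt Q / 10 ≤ ∫ x, Real.log |ev Q x| ∂nu := by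
  have : IsProbabilityMeasure nu := on_nu.1
  have h3 := sum_int h1 (rts Q)
  have hae : (fun x => Real.log |ev Q x|) =ᵐ[nu] fun x : ℝ => Real.log (Q.leadingCoeff : ℝ) +
      ((rts Q).map (fun α : ℂ => Real.log ‖(x : ℂ) - α‖)).sum := by
    have h4 : nu {x | ev Q x = 0} = 0 := null_of_finite (finite_roots hQ.ne_zero)
    have h5 : ∀ᵐ x ∂nu, ev Q x ≠ 0 := by
      rw [ae_iff]
      simpa using h4
    filter_upwards [h5] with x hx
    exact hQ.log_abs_ev hx
  have h6 : Integrable (fun x : ℝ => Real.log (Q.leadingCoeff : ℝ) +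
      ((rts Q).map (fun α : ℂ => Real.log ‖(x : ℂ) - α‖)).sum) nu :=
    (integrable_const _).add h3.1
  refine ⟨h6.congr hae.symm, ?_⟩
  rw [integral_congr_ae hae, integral_add (integrable_const _) h3.1, h3.2, integral_const]
  simp only [probReal_univ, one_smul]
  have h7 : rsum Q (fun α => (1 / 10) * (1 + Real.log (1 + ‖α‖))) ≤ rsum Q (Upot nu) := by
    apply rsum_le
    intro α _
    have h8 := h2 α
    have h9 : Upot nu α = (1 / 12) * ∫ x in (0 : ℝ)..12, Real.log ‖(x : ℂ) - α‖ := by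
      unfold Upot
      rw [int_nu]
    rw [h9]
    linarith
  rw [rsum_mul_left] at h7
  have h10 := hQ.log_lc_nonneg
  have h11 : ((rts Q).map (Upot nu)).sum = rsum Q (Upot nu) := rfl
  rw [h11]
  unfold wt
  linarith

end UNIFaux

open UNIFaux in
theorem pUNIF : UNI1 → UNI2 → FACT → UNIF := by
  intro h1 h2 hF
  refine ⟨nu, on_nu, mean_nu, lip_nu, ?_, fun α => ⟨integrable_nu h1 α, ?_⟩,
    fun Q hQ => (adm_int h1 h2 hQ).2⟩
  · refine hF 12 nu on_nu fun Q hQ => ?_
    obtain ⟨h3, h4⟩ := adm_int h1 h2 hQ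
    refine ⟨null_of_finite (finite_roots hQ.ne_zero), h3, ?_⟩
    have h5 := hQ.one_le_wt
    linarith
  · have h8 := h2 α
    unfold Upot
    rw [int_nu]
    exact h8

end Pool.Agent.W401.SSS
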