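import Pool.Agent.W401.SSS.Stm

set_option autoImplicit false

namespace Pool.Agent.W401.SSS.UNIMaux

open Module

theorem bezout {n : ℕ} (v : Fin (n + 1) → ℤ) (h : ∀ d : ℤ, (∀ i, d ∣ v i) → IsUnit d) :
    ∃ c : Fin (n + 1) → ℤ, ∑ i, c i * v i = 1 := by
  have h1 : Ideal.span (Set.range v) = ⊤ := by
    obtain ⟨d, hd⟩ := IsPrincipalIdealRing.principal (Ideal.span (Set.range v))
    have hd' : Ideal.span (Set.range v) = Ideal.span {d} := hd
    have h2 : IsUnit d := by
      refine h d fun i => ?_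
      have h3 : v i ∈ Ideal.span (Set.range v) := Ideal.subset_span ⟨i, rfl⟩
      rw [hd', Ideal.mem_span_singleton] at h3
      exact h3
    rw [hd']
    exact Ideal.span_singleton_eq_top.2 h2
  have h2 : (1 : ℤ) ∈ Ideal.span (Set.range v) := by
    rw [h1]
    trivial
  obtain ⟨c, hc⟩ := (Ideal.mem_span_range_iff_exists_fun).1 h2
  exact ⟨c, hc⟩

end Pool.Agent.W401.SSS.UNIMaux

namespace Pool.Agent.W401.SSS

open Module

theorem pUNIM : UNIM := by
  intro n v hv
  obtain ⟨c, hc⟩ := UNIMaux.bezout v hv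
  let f : (Fin (n + 1) → ℤ) →ₗ[ℤ] ℤ := Fintype.linearCombination ℤ c
  have hf : ∀ x, f x = ∑ i, x i * c i := by
    intro x
    simp [f, Fintype.linearCombination_apply]
  have hfv : f v = 1 := by
    rw [hf, ← hc]
    exact Finset.sum_congr rfl fun i _ => mul_comm _ _
  obtain ⟨m, b⟩ := Submodule.basisOfPid (Pi.basisFun ℤ (Fin (n + 1))) (LinearMap.ker f)
  let B : Basis (Fin (m + 1)) ℤ (Fin (n + 1) → ℤ) := Basis.mkFinCons v b
    (by
      intro a x hx h
      have h1 := congrArg f h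
      rw [map_add, map_smul, hfv, LinearMap.mem_ker.1 hx, map_zero, smul_eq_mul, mul_one,
        add_zero] at h1
      exact h1)
    (by
      intro z
      refine ⟨-f z, ?_⟩
      rw [LinearMap.mem_ker, map_add, map_smul, hfv, smul_eq_mul, mul_one, add_neg_cancel])
  have hB : (B : Fin (m + 1) → Fin (n + 1) → ℤ) = Fin.cons v (fun i => (b i : Fin (n + 1) → ℤ)) :=
    Basis.coe_mkFinCons _ _ _ _
  have hm : m = n := by
    have h1 := Module.finrank_eq_card_basis B
    have h2 := Module.finrank_eq_card_basis (Pi.basisFun ℤ (Fin (n + 1)))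
    rw [h1] at h2
    simpa using h2
  subst hm
  refine ⟨(Pi.basisFun ℤ (Fin (m + 1))).toMatrix B, ?_, ?_⟩
  · exact Basis.isUnit_det (Pi.basisFun ℤ (Fin (m + 1))) B
  · intro i
    rw [Basis.toMatrix_apply, hB]
    simp

end Pool.Agent.W401.SSS
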