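import Pool.Agent.W401.SSS.Stm

/-!
# SSS-UNIQ: uniqueness from strict concavity of the energy
-/

open MeasureTheory Polynomial

namespace Pool.Agent.W401.SSS

namespace UNIQaux

/-- The kernel. -/
noncomputable def ker (p : ℝ × ℝ) : ℝ := Real.log |p.1 - p.2|

theorem ker_swap (p : ℝ × ℝ) : ker p.swap = ker p := by
  unfold ker
  rw [Prod.fst_swap, Prod.snd_swap, abs_sub_comm]

theorem mix_eq (μ ν : Measure ℝ) :
    mix (1 / 2) μ ν = ENNReal.ofReal (1 / 2) • (μ + ν) := by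
  unfold mix
  have : (1 : ℝ) - 1 / 2 = 1 / 2 := by norm_num
  rw [this, smul_add]

theorem prod_mix (μ ν : Measure ℝ) [IsProbabilityMeasure μ] [IsProbabilityMeasure ν] :
    (mix (1 / 2) μ ν).prod (mix (1 / 2) μ ν) =
      ENNReal.ofReal (1 / 4) • ((μ.prod μ + μ.prod ν) + (ν.prod μ + ν.prod ν)) := by
  rw [mix_eq]
  have h1 : ENNReal.ofReal (1 / 4) = ENNReal.ofReal (1 / 2) * ENNReal.ofReal (1 / 2) := by
    rw [← ENNReal.ofReal_mul (by norm_num)]
    norm_num
  rw [Measure.prod_smul_left, Measure.prod_smul_right, smul_smul, ← h1, Measure.add_prod,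
    Measure.prod_add, Measure.prod_add]

end UNIQaux

open UNIQaux

theorem pUNIQ : STRICT → UNIQ := by
  intro hS B μ ν hμ hν eμ enμ eν enν eρ enρ
  have i1 : IsProbabilityMeasure μ := hμ.1
  have i2 : IsProbabilityMeasure ν := hν.1
  have hc0 : ENNReal.ofReal (1 / 4) ≠ 0 := by
    rw [Ne, ENNReal.ofReal_eq_zero]; norm_num
  have hct : ENNReal.ofReal (1 / 4) ≠ ⊤ := ENNReal.ofReal_ne_top
  have e1 := eρ.1
  have e2 : Integrable ker ((mix (1 / 2) μ ν).prod (mix (1 / 2) μ ν)) := eρ.2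
  have e3 : ∫ p, ker p ∂((mix (1 / 2) μ ν).prod (mix (1 / 2) μ ν)) = 0 := enρ
  rw [prod_mix] at e1 e2 e3
  rw [integrable_smul_measure hc0 hct] at e2
  obtain ⟨a1, a2⟩ := integrable_add_measure.1 e2
  obtain ⟨b1, b2⟩ := integrable_add_measure.1 a1
  obtain ⟨b3, b4⟩ := integrable_add_measure.1 a2
  have hd : (μ.prod ν) {p : ℝ × ℝ | p.1 = p.2} = 0 := by
    rw [Measure.smul_apply, smul_eq_mul, mul_eq_zero] at e1
    rcases e1 with h | h
    · exact absurd h hc0
    · rw [Measure.add_apply, Measure.add_apply] at h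
      have h1 := (add_eq_zero.1 h).1
      exact (add_eq_zero.1 h1).2
  rw [integral_smul_measure, integral_add_measure a1 a2, integral_add_measure b1 b2,
    integral_add_measure b3 b4] at e3
  have hμμ : ∫ p, ker p ∂(μ.prod μ) = 0 := enμ
  have hνν : ∫ p, ker p ∂(ν.prod ν) = 0 := enν
  have hsw : ∫ p, ker p ∂(ν.prod μ) = ∫ p, ker p ∂(μ.prod ν) := by
    rw [← integral_prod_swap]
    exact integral_congr_ae (Filter.Eventually.of_forall fun p => ker_swap p)
  rw [hμμ, hνν, hsw, ENNReal.toReal_ofReal (by norm_num), smul_eq_mul] at e3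
  have hI : ∫ p, ker p ∂(μ.prod ν) = 0 := by linarith
  refine hS B μ ν hμ hν eμ eν hd b2 ?_
  rw [enμ, enν]
  have : ∫ p : ℝ × ℝ, Real.log |p.1 - p.2| ∂(μ.prod ν) = 0 := hI
  rw [this]
  norm_num

end Pool.Agent.W401.SSS
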