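import Pool.Agent.W401.SSS.Stm

/-!
# Upper bound for the Vandermonde product (step VUB)
-/

open MeasureTheory Polynomial

namespace Pool.Agent.W401.SSS

namespace VUBaux

theorem norm_cast_sub (x t : ℝ) : ‖(x : ℂ) - (t : ℂ)‖ = |x - t| := by
  rw [← Complex.ofReal_sub, Complex.norm_real, Real.norm_eq_abs]

theorem ae_mem {B : ℝ} {ν : Measure ℝ} (h : On B ν) : ∀ᵐ x ∂ν, x ∈ Set.Icc (0 : ℝ) B := by
  rw [ae_iff]; exact h.2

theorem int_cont {B : ℝ} {ν : Measure ℝ} (h : On B ν) {f : ℝ → ℝ} (hf : Continuous f) :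
    Integrable f ν := by
  have := h.1
  have e : ν.restrict (Set.Icc (0 : ℝ) B) = ν := Measure.restrict_eq_self_of_ae_mem (ae_mem h)
  have := (hf.continuousOn (s := Set.Icc (0 : ℝ) B)).integrableOn_compact (μ := ν) isCompact_Icc
  unfold IntegrableOn at this
  rwa [e] at this

theorem ae_mem_prod {B : ℝ} {ν : Measure ℝ} (h : On B ν) :
    ∀ᵐ p ∂(ν.prod ν), p ∈ Set.Icc (0 : ℝ) B ×ˢ Set.Icc (0 : ℝ) B := by
  have := h.1
  have h1 : ∀ᵐ p ∂(ν.prod ν), p.1 ∈ Set.Icc (0 : ℝ) B :=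
    Measure.quasiMeasurePreserving_fst.ae (ae_mem h)
  have h2 : ∀ᵐ p ∂(ν.prod ν), p.2 ∈ Set.Icc (0 : ℝ) B :=
    Measure.quasiMeasurePreserving_snd.ae (ae_mem h)
  filter_upwards [h1, h2] with p a b
  exact ⟨a, b⟩

theorem int_cont_prod {B : ℝ} {ν : Measure ℝ} (h : On B ν) {f : ℝ × ℝ → ℝ} (hf : Continuous f) :
    Integrable f (ν.prod ν) := by
  have := h.1
  have e : (ν.prod ν).restrict (Set.Icc (0 : ℝ) B ×ˢ Set.Icc (0 : ℝ) B) = ν.prod ν :=
    Measure.restrict_eq_self_of_ae_mem (ae_mem_prod h)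
  have := (hf.continuousOn (s := Set.Icc (0 : ℝ) B ×ˢ Set.Icc (0 : ℝ) B)).integrableOn_compact
    (μ := ν.prod ν) (isCompact_Icc.prod isCompact_Icc)
  unfold IntegrableOn at this
  rwa [e] at this

theorem pw (s v : ℝ) (hs : 0 < s) (hs1 : s ≤ 1) (hv : 0 ≤ v) :
    Real.log (v ^ 2 + s ^ 4) ≤ 2 * Real.log v + (s + 2 * max 0 (Real.log (2 * s / v))) := by
  rcases hv.eq_or_lt with rfl | hv
  · have h1 : Real.log (s ^ 4) ≤ 0 := Real.log_nonpos (by positivity) (pow_le_one₀ hs.le hs1)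
    simp
    simp at h1
    linarith
  · have hv2 : 0 < v ^ 2 := by positivity
    have h1 : Real.log (v ^ 2 + s ^ 4) = 2 * Real.log v + Real.log (1 + s ^ 4 / v ^ 2) := by
      have : v ^ 2 + s ^ 4 = v ^ 2 * (1 + s ^ 4 / v ^ 2) := by field_simp
      rw [this, Real.log_mul (by positivity) (by positivity), Real.log_pow]
      norm_num
    rw [h1]
    have h2 : Real.log (1 + s ^ 4 / v ^ 2) ≤ s + 2 * max 0 (Real.log (2 * s / v)) := by
      rcases le_or_gt s v with hsv | hsv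
      · have h3 : Real.log (1 + s ^ 4 / v ^ 2) ≤ s ^ 4 / v ^ 2 := by
          have := Real.log_le_sub_one_of_pos (x := 1 + s ^ 4 / v ^ 2) (by positivity)
          linarith
        have h4 : s ^ 4 / v ^ 2 ≤ s := by
          rw [div_le_iff₀ hv2]
          have h5 : s ^ 2 ≤ v ^ 2 := by nlinarith
          have h6 : s ^ 2 ≤ s := by nlinarith
          calc s ^ 4 = s ^ 2 * s ^ 2 := by ring
            _ ≤ s * v ^ 2 := by gcongr
        have h7 := le_max_left 0 (Real.log (2 * s / v))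
        linarith
      · have h3 : 1 + s ^ 4 / v ^ 2 ≤ (2 * s / v) ^ 2 := by
          rw [div_pow, ← sub_nonneg]
          have : (2 * s) ^ 2 / v ^ 2 - (1 + s ^ 4 / v ^ 2) = (4 * s ^ 2 - v ^ 2 - s ^ 4) / v ^ 2 := by
            field_simp; ring
          rw [this]
          apply div_nonneg _ hv2.le
          have h5 : v ^ 2 ≤ s ^ 2 := by nlinarith
          have h6 : s ^ 4 ≤ s ^ 2 := by
            have : s ^ 2 ≤ 1 := by nlinarith
            nlinarith [sq_nonneg s]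
          nlinarith [sq_nonneg s]
        have h4 : Real.log (1 + s ^ 4 / v ^ 2) ≤ 2 * Real.log (2 * s / v) := by
          have := Real.log_le_log (by positivity) h3
          rw [Real.log_pow] at this
          exact_mod_cast this
        have h7 := le_max_right 0 (Real.log (2 * s / v))
        linarith
    linarith

/-- Integrability of the potential kernel of a measure with bounded density. -/
theorem int_log {B B' c : ℝ} {ν : Measure ℝ} (hL : LIPL) (hB : 0 < B) (hc : 0 < c) (hBB : B ≤ B')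
    (h : On B ν) (hl : Lip c ν) {t : ℝ} (ht : t ∈ Set.Icc (0 : ℝ) B') :
    Integrable (fun x : ℝ => Real.log ‖(x : ℂ) - (t : ℂ)‖) ν := by
  have := h.1
  have hρ : (0 : ℝ) < B' + 1 := by linarith
  have h1 := (hL c ν inferInstance hc.le hl (t : ℂ) (B' + 1) hρ).1
  have h2 : Integrable (fun x : ℝ => Real.log (B' + 1)
      - max 0 (Real.log ((B' + 1) / ‖(x : ℂ) - (t : ℂ)‖))) ν := (integrable_const _).sub h1
  refine h2.congr ?_
  have h0 : ν {t} = 0 := by
    have := hl t 0 le_rfl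
    simp only [add_zero, Set.Icc_self, mul_zero] at this
    have h3 : (ν {t}).toReal = 0 := le_antisymm this ENNReal.toReal_nonneg
    rcases (ENNReal.toReal_eq_zero_iff _).1 h3 with h4 | h4
    · exact h4
    · exact absurd h4 (measure_ne_top ν _)
  have h0' : ∀ᵐ x ∂ν, x ≠ t := by
    rw [ae_iff]
    simpa using h0
  filter_upwards [ae_mem h, h0'] with x hx hxt
  rw [norm_cast_sub]
  have hpos : 0 < |x - t| := abs_pos.2 (sub_ne_zero.2 hxt)
  have hle : |x - t| ≤ B' + 1 := by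
    rw [abs_le]
    constructor <;> linarith [hx.1, hx.2, ht.1, ht.2]
  have h3 : 0 ≤ Real.log ((B' + 1) / |x - t|) := by
    apply Real.log_nonneg
    rw [le_div_iff₀ hpos]; linarith
  rw [max_eq_right h3, Real.log_div hρ.ne' hpos.ne']
  ring

/-- The regularised potential against the potential. -/
theorem pot_le {B B' c : ℝ} {ν : Measure ℝ} (hL : LIPL) (hB : 0 < B) (hc : 0 < c) (hBB : B ≤ B')
    (h : On B ν) (hl : Lip c ν) {t : ℝ} (ht : t ∈ Set.Icc (0 : ℝ) B') {s : ℝ} (hs : 0 < s)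
    (hs1 : s ≤ 1) :
    ∫ x : ℝ, Real.log (‖(x : ℂ) - (t : ℂ)‖ ^ 2 + s ^ 4) ∂ν ≤
      2 * Upot ν (t : ℂ) + (1 + 8 * c) * s := by
  have := h.1
  have i1 : Integrable (fun x : ℝ => Real.log (‖(x : ℂ) - (t : ℂ)‖ ^ 2 + s ^ 4)) ν := by
    apply int_cont h
    apply Continuous.log
    · fun_prop
    · intro x; positivity
  have i2 := int_log hL hB hc hBB h hl ht
  have h3 := hL c ν inferInstance hc.le hl (t : ℂ) (2 * s) (by linarith)
  have i4 : Integrable (fun x : ℝ => s + 2 * max 0 (Real.log (2 * s / ‖(x : ℂ) - (t : ℂ)‖))) ν :=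
    (integrable_const s).add (h3.1.const_mul 2)
  have i3 : Integrable (fun x : ℝ => 2 * Real.log ‖(x : ℂ) - (t : ℂ)‖
      + (s + 2 * max 0 (Real.log (2 * s / ‖(x : ℂ) - (t : ℂ)‖)))) ν :=
    (i2.const_mul 2).add i4
  have h4 : ∫ x : ℝ, Real.log (‖(x : ℂ) - (t : ℂ)‖ ^ 2 + s ^ 4) ∂ν ≤
      ∫ x : ℝ, (2 * Real.log ‖(x : ℂ) - (t : ℂ)‖
      + (s + 2 * max 0 (Real.log (2 * s / ‖(x : ℂ) - (t : ℂ)‖)))) ∂ν :=
    integral_mono i1 i3 (fun x => pw s _ hs hs1 (norm_nonneg _))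
  rw [integral_add (i2.const_mul 2) i4,
    integral_add (integrable_const s) (h3.1.const_mul 2), integral_const_mul, integral_const_mul,
    integral_const] at h4
  simp only [probReal_univ, smul_eq_mul, one_mul] at h4
  unfold Upot
  nlinarith [h3.2]

/-- The regularised energy is nonnegative. -/
theorem en_nonneg {B : ℝ} {ν : Measure ℝ} (h : On B ν) (he : Eint ν) (h0 : 0 ≤ En ν) {ρ : ℝ}
    (hρ : 0 < ρ) :
    0 ≤ ∫ p : ℝ × ℝ, Real.log ((p.1 - p.2) ^ 2 + 2 * ρ ^ 2) ∂(ν.prod ν) := by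
  have := h.1
  have i1 : Integrable (fun p : ℝ × ℝ => Real.log ((p.1 - p.2) ^ 2 + 2 * ρ ^ 2)) (ν.prod ν) := by
    apply int_cont_prod h
    apply Continuous.log
    · fun_prop
    · intro x; positivity
  have h1 : ∀ᵐ p ∂(ν.prod ν), p.1 ≠ p.2 := by
    rw [ae_iff]
    simpa using he.1
  have h2 : ∫ p : ℝ × ℝ, 2 * Real.log |p.1 - p.2| ∂(ν.prod ν) ≤
      ∫ p : ℝ × ℝ, Real.log ((p.1 - p.2) ^ 2 + 2 * ρ ^ 2) ∂(ν.prod ν) := by
    apply integral_mono_ae (he.2.const_mul 2) i1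
    filter_upwards [h1] with p hp
    have hpos : 0 < |p.1 - p.2| := abs_pos.2 (sub_ne_zero.2 hp)
    have e : 2 * Real.log |p.1 - p.2| = Real.log ((p.1 - p.2) ^ 2) := by
      rw [← sq_abs, Real.log_pow]; norm_num
    simp only [e]
    apply Real.log_le_log
    · rw [← sq_abs]; positivity
    · nlinarith [sq_nonneg ρ]
  rw [integral_const_mul] at h2
  unfold En at h0
  linarith

/-- Splitting a symmetric double sum. -/
theorem sum_split {q : ℕ} (L : Fin q → Fin q → ℝ) (hL : ∀ i j, L i j = L j i) :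
    ∑ i, ∑ j, L i j = ∑ i, L i i + 2 * ∑ i, ∑ j ∈ Finset.Ioi i, L i j := by
  have h1 : ∀ i : Fin q, ∑ j, L i j = L i i + ∑ j ∈ Finset.Ioi i, L i j
      + ∑ j ∈ Finset.Iio i, L i j := by
    intro i
    have hu : (Finset.univ : Finset (Fin q)) = ({i} ∪ Finset.Ioi i) ∪ Finset.Iio i := by
      ext j
      simp only [Finset.mem_univ, Finset.mem_union, Finset.mem_singleton, Finset.mem_Ioi,
        Finset.mem_Iio, true_iff]
      rcases lt_trichotomy j i with h | h | h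
      · right; exact h
      · left; left; exact h
      · left; right; exact h
    rw [hu, Finset.sum_union, Finset.sum_union, Finset.sum_singleton]
    · rw [Finset.disjoint_singleton_left]; simp
    · rw [Finset.disjoint_left]
      intro j hj hj2
      simp only [Finset.mem_union, Finset.mem_singleton, Finset.mem_Ioi, Finset.mem_Iio] at hj hj2
      rcases hj with rfl | hj
      · exact lt_irrefl _ hj2
      · exact lt_asymm hj hj2
  have h2 : ∑ i : Fin q, ∑ j ∈ Finset.Iio i, L i j = ∑ i : Fin q, ∑ j ∈ Finset.Ioi i, L i j := by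
    rw [Finset.sum_comm' (t' := Finset.univ) (s' := fun j => Finset.Ioi j)]
    · apply Finset.sum_congr rfl
      intro i _
      apply Finset.sum_congr rfl
      intro j _
      exact hL j i
    · intro i j
      simp
  rw [Finset.sum_congr rfl (fun i _ => h1 i), Finset.sum_add_distrib, Finset.sum_add_distrib, h2]
  ring

end VUBaux

open VUBaux in
theorem pVUB : NEGR → LIPL → VUB := by
  intro hN hL B B' c ν hB hc hBB hon hlip he hen
  refine ⟨2 + (1 + 8 * c), by positivity, ?_⟩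
  intro q t ht
  have := hon.1
  set V : ℝ := ∏ i, ∏ j ∈ Finset.Ioi i, (t j - t i) with hV
  by_cases hV0 : V = 0
  · rw [hV0]; simp only [ne_eq, OfNat.ofNat_ne_zero, not_false_eq_true, zero_pow]
    exact (Real.exp_pos _).le
  have hq : (0 : ℝ) ≤ q := Nat.cast_nonneg q
  set s : ℝ := 1 / ((q : ℝ) + 1) with hs
  have hs0 : 0 < s := by rw [hs]; positivity
  have hs1 : s ≤ 1 := by
    rw [hs, div_le_one (by positivity)]; linarith
  have hqs : (q : ℝ) * s ≤ 1 := by
    rw [hs, mul_one_div, div_le_one (by positivity)]; linarith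
  set ρ : ℝ := s ^ 2 / Real.sqrt 2 with hρ
  have hρ0 : 0 < ρ := by rw [hρ]; positivity
  have hρ2 : ρ ^ 2 + ρ ^ 2 = s ^ 4 := by
    rw [hρ, div_pow, Real.sq_sqrt (by norm_num)]; ring
  have hlogs : Real.log (s ^ 4) = -4 * Real.log ((q : ℝ) + 1) := by
    rw [Real.log_pow, hs, one_div, Real.log_inv]; push_cast; ring
  have key := hN B ν hon (Fin q) (fun i => (t i : ℂ)) (fun _ => 1) (fun _ => ρ) ρ
    (fun _ => hρ0) hρ0
  simp only [Finset.sum_const, Finset.card_univ, Fintype.card_fin, nsmul_eq_mul, mul_one,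
    one_mul] at key
  have hE := en_nonneg hon he hen hρ0
  have hE2 : 0 ≤ (q : ℝ) ^ 2 * ∫ p : ℝ × ℝ, Real.log ((p.1 - p.2) ^ 2 + 2 * ρ ^ 2) ∂(ν.prod ν) :=
    mul_nonneg (by positivity) hE
  -- potentials
  have hP : ∑ i : Fin q, ∫ x : ℝ, Real.log (‖(x : ℂ) - (t i : ℂ)‖ ^ 2 + ρ ^ 2 + ρ ^ 2) ∂ν ≤
      2 * ∑ i, Upot ν (t i : ℂ) + (1 + 8 * c) := by
    have h1 : ∀ i : Fin q, ∫ x : ℝ, Real.log (‖(x : ℂ) - (t i : ℂ)‖ ^ 2 + ρ ^ 2 + ρ ^ 2) ∂ν ≤
        2 * Upot ν (t i : ℂ) + (1 + 8 * c) * s := by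
      intro i
      have := pot_le hL hB hc hBB hon hlip (ht i) hs0 hs1
      simp only [add_assoc, hρ2]
      exact this
    calc _ ≤ ∑ i : Fin q, (2 * Upot ν (t i : ℂ) + (1 + 8 * c) * s) :=
          Finset.sum_le_sum fun i _ => h1 i
      _ = 2 * ∑ i, Upot ν (t i : ℂ) + (1 + 8 * c) * (q * s) := by
          rw [Finset.sum_add_distrib, ← Finset.mul_sum]
          simp only [Finset.sum_const, Finset.card_univ, Fintype.card_fin, nsmul_eq_mul]
          ring
      _ ≤ _ := by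
          have : (1 + 8 * c) * (q * s) ≤ (1 + 8 * c) * 1 := by gcongr
          linarith
  -- the double sum
  have hS : -4 * (q : ℝ) * Real.log ((q : ℝ) + 1) + 2 * Real.log (V ^ 2) ≤
      ∑ i : Fin q, ∑ j : Fin q, Real.log (‖(t i : ℂ) - (t j : ℂ)‖ ^ 2 + ρ ^ 2 + ρ ^ 2) := by
    rw [sum_split (fun i j => Real.log (‖(t i : ℂ) - (t j : ℂ)‖ ^ 2 + ρ ^ 2 + ρ ^ 2))
      (fun i j => by rw [norm_sub_rev])]
    have h1 : ∑ i : Fin q, Real.log (‖(t i : ℂ) - (t i : ℂ)‖ ^ 2 + ρ ^ 2 + ρ ^ 2) =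
        -4 * (q : ℝ) * Real.log ((q : ℝ) + 1) := by
      simp only [sub_self, norm_zero, ne_eq, OfNat.ofNat_ne_zero, not_false_eq_true, zero_pow,
        zero_add, hρ2, hlogs, Finset.sum_const, Finset.card_univ, Fintype.card_fin, nsmul_eq_mul]
      ring
    have hne : ∀ i : Fin q, ∀ j ∈ Finset.Ioi i, t j - t i ≠ 0 := by
      intro i j hj h0
      apply hV0
      rw [hV]
      exact Finset.prod_eq_zero (Finset.mem_univ i) (Finset.prod_eq_zero hj h0)
    have h2 : Real.log (V ^ 2) = ∑ i : Fin q, ∑ j ∈ Finset.Ioi i, Real.log ((t j - t i) ^ 2) := by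
      rw [hV, ← Finset.prod_pow, Real.log_prod]
      · apply Finset.sum_congr rfl
        intro i _
        rw [← Finset.prod_pow, Real.log_prod]
        intro j hj
        exact pow_ne_zero 2 (hne i j hj)
      · intro i _
        exact pow_ne_zero 2 (Finset.prod_ne_zero_iff.2 (hne i))
    have h3 : ∑ i : Fin q, ∑ j ∈ Finset.Ioi i, Real.log ((t j - t i) ^ 2) ≤
        ∑ i : Fin q, ∑ j ∈ Finset.Ioi i,
          Real.log (‖(t i : ℂ) - (t j : ℂ)‖ ^ 2 + ρ ^ 2 + ρ ^ 2) := by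
      apply Finset.sum_le_sum
      intro i _
      apply Finset.sum_le_sum
      intro j hj
      apply Real.log_le_log
      · have := hne i j hj
        positivity
      · rw [norm_cast_sub, sq_abs]
        nlinarith [sq_nonneg ρ]
    rw [h1, h2]
    linarith
  have hfin : Real.log (V ^ 2) ≤ 2 * q * ∑ i, Upot ν (t i : ℂ)
      + (2 + (1 + 8 * c)) * q * (1 + Real.log (q + 1)) := by
    have h4 : 2 * (q : ℝ) * ∑ i : Fin q, ∫ x : ℝ,
        Real.log (‖(x : ℂ) - (t i : ℂ)‖ ^ 2 + ρ ^ 2 + ρ ^ 2) ∂ν ≤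
        2 * (q : ℝ) * (2 * ∑ i, Upot ν (t i : ℂ) + (1 + 8 * c)) := by gcongr
    have hlog : 0 ≤ Real.log ((q : ℝ) + 1) := Real.log_nonneg (by linarith)
    have h5 : 0 ≤ c * q := by positivity
    have h6 : 0 ≤ c * q * Real.log ((q : ℝ) + 1) := by positivity
    have h7 : 0 ≤ q * Real.log ((q : ℝ) + 1) := by positivity
    nlinarith
  have hV2 : 0 < V ^ 2 := by positivity
  calc V ^ 2 = Real.exp (Real.log (V ^ 2)) := (Real.exp_log hV2).symm
    _ ≤ _ := Real.exp_le_exp.2 hfin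

end Pool.Agent.W401.SSS
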