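import Pool.Agent.W401.SSS.Stm

/-!
# Zero energy: the end of the argument
-/

open MeasureTheory Polynomial

namespace Pool.Agent.W401.SSS.ZENDaux

theorem noAtom (μ : Measure ℝ) [SFinite μ] (h : Eint μ) (x : ℝ) : μ {x} = 0 := by
  have h1 : (μ.prod μ) (({x} : Set ℝ) ×ˢ ({x} : Set ℝ)) = 0 := by
    refine measure_mono_null ?_ h.1
    rintro ⟨p, q⟩ ⟨h1, h2⟩
    simp only [Set.mem_singleton_iff] at h1 h2
    simp only [Set.mem_ofPred_eq, h1, h2]
  rw [Measure.prod_prod] at h1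
  exact mul_self_eq_zero.1 h1

open Classical in
/-- The auxiliary polynomial. -/
noncomputable def PP (H : Finset ℤ[X]) (a : ℤ[X] → ℝ) : ℂ[X] :=
  ∏ Q ∈ H, Q.map (Int.castRingHom ℂ) -
    ∑ Q ∈ H, C (a Q : ℂ) * (derivative Q).map (Int.castRingHom ℂ) *
      ∏ P ∈ H.erase Q, P.map (Int.castRingHom ℂ)

theorem evm (Q : ℤ[X]) (z : ℂ) : (Q.map (Int.castRingHom ℂ)).eval z = aeval z Q := by
  rw [Polynomial.eval_map, Polynomial.aeval_def]; rfl

theorem PP_eval (H : Finset ℤ[X]) (a : ℤ[X] → ℝ) (z : ℂ) (hz : ∀ Q ∈ H, aeval z Q ≠ 0) :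
    (PP H a).eval z = (∏ Q ∈ H, aeval z Q) *
      (1 - ∑ Q ∈ H, (a Q : ℂ) * (aeval z (derivative Q) / aeval z Q)) := by
  classical
  unfold PP
  rw [eval_sub, eval_prod, eval_finsetSum, mul_sub, mul_one, Finset.mul_sum]
  congr 1
  · exact Finset.prod_congr rfl fun Q _ => evm Q z
  · refine Finset.sum_congr rfl fun Q hQ => ?_
    rw [eval_mul, eval_mul, eval_C, eval_prod, evm]
    have h2 : ∏ P ∈ H, aeval z P = aeval z Q * ∏ P ∈ H.erase Q, aeval z P :=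
      (Finset.mul_prod_erase H (fun P => aeval z P) hQ).symm
    have h3 := hz Q hQ
    rw [h2]
    simp only [evm]
    field_simp

theorem PP_deg (H : Finset ℤ[X]) (a : ℤ[X] → ℝ) :
    (PP H a).natDegree ≤ ∑ Q ∈ H, Q.natDegree := by
  classical
  unfold PP
  refine (natDegree_sub_le _ _).trans (max_le ?_ ?_)
  · refine (natDegree_prod_le _ _).trans (Finset.sum_le_sum fun Q _ => natDegree_map_le)
  · refine natDegree_sum_le_of_forall_le _ _ fun Q hQ => ?_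
    refine natDegree_mul_le.trans ?_
    have h1 : (C (a Q : ℂ) * (derivative Q).map (Int.castRingHom ℂ)).natDegree ≤ Q.natDegree := by
      refine (natDegree_C_mul_le _ _).trans (natDegree_map_le.trans ?_)
      exact (natDegree_derivative_le Q).trans (Nat.sub_le _ _)
    have h2 : (∏ P ∈ H.erase Q, P.map (Int.castRingHom ℂ)).natDegree ≤
        ∑ P ∈ H.erase Q, P.natDegree :=
      (natDegree_prod_le _ _).trans (Finset.sum_le_sum fun Q _ => natDegree_map_le)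
    have h3 : ∑ P ∈ H, P.natDegree = Q.natDegree + ∑ P ∈ H.erase Q, P.natDegree :=
      (Finset.add_sum_erase H (fun P => P.natDegree) hQ).symm
    rw [h3]
    exact Nat.add_le_add h1 h2

/-- The height sum. -/
noncomputable def AA (H : Finset ℤ[X]) : ℝ :=
  ∑ Q ∈ H, (Real.log (Q.leadingCoeff : ℝ) + rsum Q (fun α => Real.log (1 + ‖α‖)))

theorem log_prod (H : Finset ℤ[X]) (hH : ∀ Q ∈ H, Adm Q) (z : ℂ)
    (hz : ∀ Q ∈ H, aeval z Q ≠ 0) :
    Real.log ‖∏ Q ∈ H, aeval z Q‖ =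
      ∑ Q ∈ H, (Real.log (Q.leadingCoeff : ℝ) + rsum Q (fun α => Real.log ‖z - α‖)) := by
  rw [norm_prod, Real.log_prod fun Q hQ => norm_ne_zero_iff.2 (hz Q hQ)]
  refine Finset.sum_congr rfl fun Q hQ => ?_
  rw [log_norm_aeval (hz Q hQ), abs_of_pos (hH Q hQ).lc_pos]

/-- Lower bound at `z0`. -/
theorem lower (H : Finset ℤ[X]) (a : ℤ[X] → ℝ) (hH : ∀ Q ∈ H, Adm Q) (z : ℂ) (M : ℝ)
    (hz : ∀ Q ∈ H, aeval z Q ≠ 0)
    (h2 : 1 / 2 ≤ ‖1 - ∑ Q ∈ H, (a Q : ℂ) * (aeval z (derivative Q) / aeval z Q)‖)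
    (h3 : -M ≤ ∑ Q ∈ H, rsum Q (fun α => Real.log ‖z - α‖ - Real.log (1 + ‖α‖))) :
    (PP H a).eval z ≠ 0 ∧ AA H - M - Real.log 2 ≤ Real.log ‖(PP H a).eval z‖ := by
  have hp : ∏ Q ∈ H, aeval z Q ≠ 0 := Finset.prod_ne_zero_iff.2 hz
  have hq : (1 - ∑ Q ∈ H, (a Q : ℂ) * (aeval z (derivative Q) / aeval z Q)) ≠ 0 := by
    intro h0
    rw [h0, norm_zero] at h2
    norm_num at h2
  rw [PP_eval H a z hz]
  refine ⟨mul_ne_zero hp hq, ?_⟩
  rw [norm_mul, Real.log_mul (norm_ne_zero_iff.2 hp) (norm_ne_zero_iff.2 hq), log_prod H hH z hz]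
  have e1 : Real.log (1 / 2) ≤
      Real.log ‖1 - ∑ Q ∈ H, (a Q : ℂ) * (aeval z (derivative Q) / aeval z Q)‖ :=
    Real.log_le_log (by norm_num) h2
  have e2 : Real.log (1 / 2) = - Real.log 2 := by
    rw [one_div, Real.log_inv]
  have e3 : ∑ Q ∈ H, rsum Q (fun α => Real.log ‖z - α‖ - Real.log (1 + ‖α‖)) =
      ∑ Q ∈ H, (Real.log (Q.leadingCoeff : ℝ) + rsum Q (fun α => Real.log ‖z - α‖)) - AA H := by
    unfold AA
    rw [← Finset.sum_sub_distrib]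
    refine Finset.sum_congr rfl fun Q _ => ?_
    rw [rsum_sub]; ring
  rw [e3] at h3
  linarith

/-- Upper bound at a real point of `[0,1000]`. -/
theorem upper (H : Finset ℤ[X]) (a : ℤ[X] → ℝ) (hH : ∀ Q ∈ H, Adm Q) (x δ : ℝ)
    (hx0 : 0 ≤ x) (hx1 : x ≤ 1000) (hz : ∀ Q ∈ H, ev Q x ≠ 0)
    (hP : (PP H a).eval (x : ℂ) ≠ 0)
    (h2 : |1 - ∑ Q ∈ H, a Q * (ev (derivative Q) x / ev Q x)| ≤ δ) :
    Real.log ‖(PP H a).eval (x : ℂ)‖ ≤
      AA H + (∑ Q ∈ H, (Q.natDegree : ℝ)) * Real.log 1001 + Real.log δ := by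
  have hz' : ∀ Q ∈ H, aeval (x : ℂ) Q ≠ 0 := by
    intro Q hQ
    rw [← ev_cast]
    exact_mod_cast hz Q hQ
  rw [PP_eval H a _ hz'] at hP ⊢
  have hp := left_ne_zero_of_mul hP
  have hq := right_ne_zero_of_mul hP
  rw [norm_mul, Real.log_mul (norm_ne_zero_iff.2 hp) (norm_ne_zero_iff.2 hq),
    log_prod H hH _ hz']
  have e0 : (1 - ∑ Q ∈ H, (a Q : ℂ) * (aeval (x : ℂ) (derivative Q) / aeval (x : ℂ) Q)) =
      ((1 - ∑ Q ∈ H, a Q * (ev (derivative Q) x / ev Q x) : ℝ) : ℂ) := by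
    push_cast
    congr 1
    refine Finset.sum_congr rfl fun Q _ => ?_
    rw [← ev_cast, ← ev_cast]
  have e1 : ‖1 - ∑ Q ∈ H, (a Q : ℂ) * (aeval (x : ℂ) (derivative Q) / aeval (x : ℂ) Q)‖ =
      |1 - ∑ Q ∈ H, a Q * (ev (derivative Q) x / ev Q x)| := by
    rw [e0, Complex.norm_real, Real.norm_eq_abs]
  have e2 : Real.log ‖1 - ∑ Q ∈ H, (a Q : ℂ) *
      (aeval (x : ℂ) (derivative Q) / aeval (x : ℂ) Q)‖ ≤ Real.log δ := by
    refine Real.log_le_log (norm_pos_iff.2 hq) ?_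
    rw [e1]; exact h2
  have e3 : ∑ Q ∈ H, (Real.log (Q.leadingCoeff : ℝ) + rsum Q (fun α => Real.log ‖(x : ℂ) - α‖)) ≤
      AA H + (∑ Q ∈ H, (Q.natDegree : ℝ)) * Real.log 1001 := by
    unfold AA
    rw [Finset.sum_mul, ← Finset.sum_add_distrib]
    refine Finset.sum_le_sum fun Q hQ => ?_
    have e4 : rsum Q (fun α => Real.log ‖(x : ℂ) - α‖) ≤
        rsum Q (fun α => Real.log (1 + ‖α‖) + Real.log 1001) := by
      refine rsum_le Q _ _ fun α hα => ?_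
      have hne : (x : ℂ) - α ≠ 0 := by
        intro h0
        rw [sub_eq_zero] at h0
        exact hz' Q hQ ((mem_rts (hH Q hQ).ne_zero _).1 (h0 ▸ hα))
      have n1 := norm_nonneg α
      rw [← Real.log_mul (by positivity) (by norm_num)]
      refine Real.log_le_log (norm_pos_iff.2 hne) ?_
      have n2 : ‖(x : ℂ) - α‖ ≤ ‖(x : ℂ)‖ + ‖α‖ := norm_sub_le _ _
      have n3 : ‖(x : ℂ)‖ ≤ 1000 := by
        rw [Complex.norm_real, Real.norm_eq_abs, abs_of_nonneg hx0]; exact hx1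
      nlinarith
    rw [rsum_add, rsum_const] at e4
    linarith
  linarith

theorem meas_hh (lam η : ℝ) (F : Finset ℤ[X]) (a : ℤ[X] → ℝ) : Measurable (hh lam η F a) := by
  have h1 : Measurable (pot F a) := by
    unfold pot
    exact Finset.measurable_sum F fun Q _ => (measurable_log_ev Q).const_mul _
  unfold hh
  exact ((measurable_id.sub_const lam).add_const η).sub h1

/-- The good set. -/
def E0 (lam η : ℝ) (F : Finset ℤ[X]) (a : ℤ[X] → ℝ) (t : ℝ) : Set ℝ :=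
  {x | x ∈ Set.Icc (0 : ℝ) 1000 ∧ (∀ Q ∈ F, ev Q x ≠ 0) ∧ hh lam η F a x ≤ t}

theorem meas_E0 (lam η : ℝ) (F : Finset ℤ[X]) (a : ℤ[X] → ℝ) (t : ℝ) :
    MeasurableSet (E0 lam η F a t) := by
  have h1 : E0 lam η F a t = Set.Icc (0 : ℝ) 1000 ∩ ((⋂ Q ∈ F, {x | ev Q x ≠ 0}) ∩
      {x | hh lam η F a x ≤ t}) := by
    ext x
    simp only [E0, Set.mem_ofPred_eq, Set.mem_inter_iff, Set.mem_iInter]
  rw [h1]
  refine measurableSet_Icc.inter (MeasurableSet.inter ?_ ?_)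
  · refine Finset.measurableSet_biInter F fun Q _ => ?_
    exact (measurableSet_eq_fun (continuous_ev Q).measurable measurable_const).compl
  · exact measurableSet_le (meas_hh lam η F a) measurable_const

theorem compl_E0 (μ : Measure ℝ) (lam η : ℝ) (F : Finset ℤ[X]) (a : ℤ[X] → ℝ) (t : ℝ)
    (hon : On 1000 μ) (har : Arith μ) (hF : ∀ Q ∈ F, Adm Q) (ht : 0 < t)
    (hi : Integrable (hh lam η F a) μ) (h0 : ∀ᵐ x ∂μ, 0 ≤ hh lam η F a x)
    (h1 : ∫ x, hh lam η F a x ∂μ ≤ η) :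
    (μ (E0 lam η F a t)ᶜ).toReal ≤ η / t := by
  have := hon.1
  have hs : (E0 lam η F a t)ᶜ ⊆ ((Set.Icc (0 : ℝ) 1000)ᶜ ∪ ⋃ Q ∈ F, {x | ev Q x = 0}) ∪
      {x | t ≤ hh lam η F a x} := by
    intro x hx
    by_contra hcon
    apply hx
    simp only [Set.mem_union, Set.mem_compl_iff, Set.mem_iUnion, Set.mem_ofPred_eq, not_or,
      not_not, not_exists] at hcon
    refine ⟨hcon.1.1, fun Q hQ => ?_, ?_⟩
    · exact hcon.1.2 Q hQ
    · exact (not_le.1 hcon.2).le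
  have hn : μ ((Set.Icc (0 : ℝ) 1000)ᶜ ∪ ⋃ Q ∈ F, {x | ev Q x = 0}) = 0 := by
    refine measure_union_null hon.2 ?_
    refine (measure_biUnion_null_iff F.countable_toSet).2 fun Q hQ => ?_
    exact (har Q (hF Q hQ).ne_zero).1
  have hle : μ (E0 lam η F a t)ᶜ ≤ μ {x | t ≤ hh lam η F a x} := by
    refine (measure_mono hs).trans ((measure_union_le _ _).trans ?_)
    rw [hn, zero_add]
  have hmk : t * (μ {x | t ≤ hh lam η F a x}).toReal ≤ ∫ x, hh lam η F a x ∂μ :=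
    mul_meas_ge_le_integral_of_nonneg h0 hi t
  have h3 : (μ (E0 lam η F a t)ᶜ).toReal ≤ (μ {x | t ≤ hh lam η F a x}).toReal :=
    ENNReal.toReal_mono (measure_ne_top _ _) hle
  rw [le_div_iff₀ ht]
  have h4 : t * (μ (E0 lam η F a t)ᶜ).toReal ≤ t * (μ {x | t ≤ hh lam η F a x}).toReal :=
    mul_le_mul_of_nonneg_left h3 ht.le
  linarith

open Classical in
/-- All the roots. -/
noncomputable def SS (H : Finset ℤ[X]) : Finset ℂ := H.biUnion fun Q => (rts Q).toFinset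

theorem mem_SS {H : Finset ℤ[X]} {Q : ℤ[X]} {α : ℂ} (hQ : Q ∈ H) (hα : α ∈ rts Q) :
    α ∈ SS H := by
  unfold SS
  exact Finset.mem_biUnion.2 ⟨Q, hQ, Multiset.mem_toFinset.2 hα⟩

theorem card_SS (H : Finset ℤ[X]) : ((SS H).card : ℝ) ≤ ∑ Q ∈ H, (Q.natDegree : ℝ) := by
  have h1 : (SS H).card ≤ ∑ Q ∈ H, Q.natDegree := by
    unfold SS
    refine Finset.card_biUnion_le.trans (Finset.sum_le_sum fun Q _ => ?_)
    rw [← rts_card Q]
    exact Multiset.toFinset_card_le _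
  exact_mod_cast h1

/-- Finitely many points are null. -/
theorem ae_ne_root (μ : Measure ℝ) (hat : ∀ x, μ {x} = 0) (P : ℂ[X]) (hP : P ≠ 0) :
    ∀ᵐ x : ℝ ∂μ, P.eval (x : ℂ) ≠ 0 := by
  have hfin : {x : ℝ | P.eval (x : ℂ) = 0}.Finite := by
    have h1 : {x : ℝ | P.eval (x : ℂ) = 0} ⊆
        (fun x : ℝ => (x : ℂ)) ⁻¹' (P.roots.toFinset : Set ℂ) := by
      intro x hx
      simp only [Set.mem_preimage, Finset.mem_coe, Multiset.mem_toFinset]
      exact (mem_roots hP).2 hx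
    refine Set.Finite.subset ?_ h1
    exact (P.roots.toFinset.finite_toSet).preimage (Complex.ofReal_injective.injOn)
  have h2 : μ {x : ℝ | P.eval (x : ℂ) = 0} = 0 := by
    have h3 : {x : ℝ | P.eval (x : ℂ) = 0} =
        ⋃ y ∈ {x : ℝ | P.eval (x : ℂ) = 0}, ({y} : Set ℝ) := by
      ext x; simp
    rw [h3]
    exact (measure_biUnion_null_iff hfin.countable).2 fun x _ => hat x
  rw [ae_iff]
  simpa using h2

end Pool.Agent.W401.SSS.ZENDaux

namespace Pool.Agent.W401.SSS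

open ZENDaux

theorem pZEND : SETI → COUNT → SCALE → TAIL → DER → CB → MU → PTQ → POLY → ZEND := by
  intro hSETI hCOUNT hSCALE hTAIL hDER hCB hMU hPTQ hPOLY μ lam hon har hei hmean hl0 hl6 hcert
  by_contra hcon
  have hc : 0 < En μ := not_le.1 hcon
  have hprob := hon.1
  obtain ⟨CS, -, hS⟩ := hSETI
  obtain ⟨K, ηc, hK, hηc, hcount⟩ := hCOUNT (En μ) hc
  obtain ⟨Kt, δt, hKt, hδt, htail⟩ := hTAIL (En μ) hc
  obtain ⟨δD, hδD, hder⟩ := hDER Kt hKt
  obtain ⟨C1, κ0, δM, hC1, hκ0, hδM, hmu⟩ := hMU μ hon hei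
  obtain ⟨R, Cp, hR, hCp, hptq⟩ := hPTQ
  have hlR : 0 ≤ Real.log (1 + R) := Real.log_nonneg (by linarith)
  have hl1001 : 0 ≤ Real.log 1001 := Real.log_nonneg (by norm_num)
  obtain ⟨C5, hC5⟩ : ∃ C5, C5 = Cp + Real.log 1001 + C1 + Real.log (1 + R) + 1 := ⟨_, rfl⟩
  have hC5p : 0 < C5 := by rw [hC5]; linarith
  have hκp : 0 < min κ0 (1 / (2 * C5)) := lt_min hκ0 (by positivity)
  have hδ1p : 0 < min (min δt δD) (min δM (1 / 5)) :=
    lt_min (lt_min hδt hδD) (lt_min hδM (by norm_num))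
  obtain ⟨ηs, hηs, hscale⟩ := hSCALE K (min κ0 (1 / (2 * C5))) (min (min δt δD) (min δM (1 / 5)))
    hK hκp hδ1p
  have hηp : 0 < min (min ηc ηs) 1 := lt_min (lt_min hηc hηs) one_pos
  obtain ⟨F, a, hFa⟩ := hcert (min (min ηc ηs) 1) hηp
  generalize hη : min (min ηc ηs) 1 = η at hηp hFa
  have hη1 : η ≤ 1 := by rw [← hη]; exact min_le_right _ _
  have hηc' : η ≤ ηc := by rw [← hη]; exact (min_le_left _ _).trans (min_le_left _ _)
  have hηs' : η ≤ ηs := by rw [← hη]; exact (min_le_left _ _).trans (min_le_right _ _)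
  have hsetup : Setup μ lam η F a :=
    { on := hon, ar := har, eint := hei, mean_eq := hmean, lam0 := hl0, lam6 := hl6, eta0 := hηp,
      eta1 := hη1, cert := hFa }
  obtain ⟨hi1, hi2, hi3, -, -, -⟩ := hS μ lam η F a hsetup
  obtain ⟨δ, hδ0, hδle, hηδ, hN⟩ := hscale η hηp hηs' F a hFa.pos
    (hcount μ lam η F a hsetup le_rfl hηc')
  have hδt' : δ ≤ δt := hδle.trans ((min_le_left _ _).trans (min_le_left _ _))
  have hδD' : δ ≤ δD := hδle.trans ((min_le_left _ _).trans (min_le_right _ _))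
  have hδM' : δ ≤ δM := hδle.trans ((min_le_right _ _).trans (min_le_left _ _))
  have hδ5 : δ ≤ 1 / 5 := hδle.trans ((min_le_right _ _).trans (min_le_right _ _))
  have hδ1 : δ ≤ 1 := by linarith
  have hη8 : η ≤ δ ^ 8 := hηδ.trans (pow_le_pow_of_le_one hδ0.le hδ1 (by norm_num))
  have htl := htail μ lam η F a hsetup le_rfl δ hδ0 hδt' hη8
  have hlogp : 0 < Real.log (1 / δ) := Real.log_pos (by rw [lt_div_iff₀ hδ0]; linarith)
  obtain ⟨H, hH⟩ : ∃ H, H = heavy F a (δ ^ 8) := ⟨_, rfl⟩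
  rw [← hH] at hN
  have hHF : ∀ Q ∈ H, Q ∈ F := fun Q hQ => (mem_heavy.1 (hH ▸ hQ)).1
  have hHadm : ∀ Q ∈ H, Adm Q := fun Q hQ => hFa.adm Q (hHF Q hQ)
  have hHpos : ∀ Q ∈ H, 0 < a Q := fun Q hQ => hFa.pos Q (hHF Q hQ)
  have hδ8 : 0 < δ ^ 8 := by positivity
  -- the good set
  have hE0 : (μ (E0 lam η F a (δ ^ 8))ᶜ).toReal ≤ δ ^ 8 := by
    refine (compl_E0 μ lam η F a (δ ^ 8) hon har hFa.adm hδ8 hi1 hi2 hi3).trans ?_
    rw [div_le_iff₀ hδ8, ← pow_add]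
    exact hηδ.trans (pow_le_pow_of_le_one hδ0.le hδ1 (by norm_num))
  have hcard : ((SS H).card : ℝ) ≤ κ0 * Real.log (1 / δ) := by
    refine (card_SS H).trans (hN.trans ?_)
    exact mul_le_mul_of_nonneg_right (min_le_left _ _) hlogp.le
  obtain ⟨G, hGc, hGE, hGI, hGd, hG4, hGβ⟩ := hmu δ hδ0 hδM' (SS H) hcard
    (E0 lam η F a (δ ^ 8)) (meas_E0 lam η F a (δ ^ 8)) hE0
  have hGm : MeasurableSet G := hGc.isClosed.measurableSet
  -- the point
  have h70 : ∑ Q ∈ H, a Q * (Q.natDegree : ℝ) ≤ 70 := by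
    have h1 : ∑ Q ∈ H, a Q * (Q.natDegree : ℝ) ≤ ∑ Q ∈ H, a Q * wt Q :=
      Finset.sum_le_sum fun Q hQ =>
        mul_le_mul_of_nonneg_left (hHadm Q hQ).deg_le_wt (hHpos Q hQ).le
    have h2 : ∑ Q ∈ H, a Q * wt Q ≤ ∑ Q ∈ F, a Q * wt Q := by
      refine Finset.sum_le_sum_of_subset_of_nonneg (fun Q hQ => hHF Q hQ) fun Q hQ _ => ?_
      exact mul_nonneg (hFa.pos Q hQ).le (zero_le_one.trans (hFa.adm Q hQ).one_le_wt)
    exact h1.trans (h2.trans (hCB lam η 2000 F a (by norm_num) hl0 hη1 hFa))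
  obtain ⟨z0, hz0R, hz0, hz2, hz3⟩ := hptq H a (fun Q hQ => ⟨hHadm Q hQ, (hHpos Q hQ).le⟩) h70
  obtain ⟨hPz, hlow⟩ := lower H a hHadm z0 _ hz0 hz2 hz3
  have hat : ∀ x, μ {x} = 0 := noAtom μ hei
  obtain ⟨hPint, hPle⟩ := hPOLY μ G C1 hprob hat hGm hC1 hGβ (PP H a) z0 hPz
  have hP0 : PP H a ≠ 0 := by
    intro h0
    rw [h0] at hPz
    simp at hPz
  -- upper bound on the integral
  obtain ⟨N, hNd⟩ : ∃ N : ℝ, N = ∑ Q ∈ H, (Q.natDegree : ℝ) := ⟨_, rfl⟩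
  rw [← hNd] at hN hlow hz3
  have hup : ∫ x in G, Real.log ‖(PP H a).eval (x : ℂ)‖ ∂μ ≤
      (μ G).toReal * (AA H + N * Real.log 1001 + Real.log δ) := by
    have h1 : ∫ x in G, Real.log ‖(PP H a).eval (x : ℂ)‖ ∂μ ≤
        ∫ x in G, (AA H + N * Real.log 1001 + Real.log δ) ∂μ := by
      refine setIntegral_mono_on_ae hPint ?_ hGm ?_
      · exact integrableOn_const (measure_ne_top _ _)
      · filter_upwards [ae_ne_root μ hat _ hP0] with x hx hxG
        have hxE := hGE hxG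
        have hxI := hGI hxG
        have hzF : ∀ Q ∈ F, ev Q x ≠ 0 := hxE.2.1
        rw [hNd]
        refine upper H a hHadm x δ hxE.1.1 hxE.1.2 (fun Q hQ => hzF Q (hHF Q hQ)) hx ?_
        rw [hH]
        refine hder lam η F a hl0 hl6 hηp hη1 hFa δ hδ0 hδD' htl x hxI.1 hxI.2 hzF hxE.2.2 ?_
        intro Q hQ α hα
        rw [← hH] at hQ
        exact hGd x hxG α (mem_SS hQ hα)
    rw [setIntegral_const, smul_eq_mul] at h1
    exact h1
  have hdeg : ((PP H a).natDegree : ℝ) ≤ N := by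
    rw [hNd]
    exact_mod_cast PP_deg H a
  have hz0' : Real.log (1 + ‖z0‖) ≤ Real.log (1 + R) :=
    Real.log_le_log (by positivity) (by linarith)
  have hz0'' : 0 ≤ Real.log (1 + ‖z0‖) := Real.log_nonneg (by linarith [norm_nonneg z0])
  have hN0 : 0 ≤ N := by rw [hNd]; exact Finset.sum_nonneg fun Q _ => Nat.cast_nonneg _
  have hm : 0 < (μ G).toReal := by linarith
  have hfin : AA H - Cp * N - Real.log 2 ≤
      AA H + N * Real.log 1001 + Real.log δ + N * (C1 + Real.log (1 + R)) := by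
    have h1 : ((PP H a).natDegree : ℝ) * (C1 + Real.log (1 + ‖z0‖)) ≤
        N * (C1 + Real.log (1 + R)) := by
      refine mul_le_mul hdeg (by linarith) (by linarith) hN0
    have h2 : (μ G).toReal * (AA H - Cp * N - Real.log 2) ≤
        (μ G).toReal * (AA H + N * Real.log 1001 + Real.log δ + N * (C1 + Real.log (1 + R))) := by
      have h3 := mul_le_mul_of_nonneg_left hlow hm.le
      have h4 := mul_le_mul_of_nonneg_left h1 hm.le
      have h5 : (μ G).toReal * ((PP H a).natDegree : ℝ) * (C1 + Real.log (1 + ‖z0‖)) =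
        (μ G).toReal * (((PP H a).natDegree : ℝ) * (C1 + Real.log (1 + ‖z0‖))) := by ring
      rw [h5] at hPle
      linarith
    exact le_of_mul_le_mul_left h2 hm
  have hlogδ : Real.log (1 / δ) = - Real.log δ := by rw [one_div, Real.log_inv]
  have hκ2 : N * C5 ≤ 1 / 2 * Real.log (1 / δ) := by
    have h1 : N ≤ 1 / (2 * C5) * Real.log (1 / δ) :=
      hN.trans (mul_le_mul_of_nonneg_right (min_le_right _ _) hlogp.le)
    have h2 := mul_le_mul_of_nonneg_right h1 hC5p.le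
    have h3 : 1 / (2 * C5) * Real.log (1 / δ) * C5 = 1 / 2 * Real.log (1 / δ) := by
      field_simp
    rw [h3] at h2
    exact h2
  have hNC : N * C5 = N * (Cp + Real.log 1001 + C1 + Real.log (1 + R)) + N := by
    rw [hC5]; ring
  have h5 : Real.log (1 / δ) ≤ 2 * Real.log 2 := by
    have h6 : N * (Cp + Real.log 1001 + C1 + Real.log (1 + R)) =
      Cp * N + N * Real.log 1001 + N * (C1 + Real.log (1 + R)) := by ring
    linarith
  have h7 : Real.log 5 ≤ Real.log (1 / δ) :=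
    Real.log_le_log (by norm_num) (by rw [le_div_iff₀ hδ0]; linarith)
  have h8 : Real.log 5 ≤ Real.log 4 := by
    have h9 : (2 : ℝ) * Real.log 2 = Real.log 4 := by
      rw [show (4 : ℝ) = 2 ^ 2 by norm_num, Real.log_pow]; norm_num
    linarith
  have h10 := (Real.log_le_log_iff (by norm_num) (by norm_num)).1 h8
  norm_num at h10

end Pool.Agent.W401.SSS
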