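import Pool.Agent.W401.SSS.Stm

open MeasureTheory Polynomial

namespace Pool.Agent.W401.SSS

namespace ANDRaux

open Equiv

theorem det_sq_expand {n : ℕ} (x : Fin n → ℝ) (w : ℝ → ℝ) :
    (∏ i, w (x i)) * (∏ i, ∏ j ∈ Finset.Ioi i, (x j - x i)) ^ 2
      = ∑ σ : Perm (Fin n), ∑ τ : Perm (Fin n),
          (((Perm.sign σ : ℤ) : ℝ) * ((Perm.sign τ : ℤ) : ℝ)) *
            ∏ i, (w (x i) * x i ^ (((σ i : Fin n) : ℕ) + ((τ i : Fin n) : ℕ))) := by
  have hdet : (∏ i, ∏ j ∈ Finset.Ioi i, (x j - x i))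
      = ∑ σ : Perm (Fin n), ((Perm.sign σ : ℤ) : ℝ) * ∏ i, x i ^ ((σ i : Fin n) : ℕ) := by
    rw [← Matrix.det_vandermonde, ← Matrix.det_transpose, Matrix.det_apply']
    simp [Matrix.vandermonde_apply]
  rw [hdet, sq, Finset.sum_mul_sum, Finset.mul_sum]
  refine Finset.sum_congr rfl fun σ _ => ?_
  rw [Finset.mul_sum]
  refine Finset.sum_congr rfl fun τ _ => ?_
  have h : ∏ i, (w (x i) * x i ^ (((σ i : Fin n) : ℕ) + ((τ i : Fin n) : ℕ)))
      = (∏ i, w (x i)) * ((∏ i, x i ^ ((σ i : Fin n) : ℕ)) * ∏ i, x i ^ ((τ i : Fin n) : ℕ)) := by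
    rw [← Finset.prod_mul_distrib, ← Finset.prod_mul_distrib]
    refine Finset.prod_congr rfl fun i _ => ?_
    rw [pow_add]
  rw [h]
  ring

theorem perm_sum {n : ℕ} (M : Matrix (Fin n) (Fin n) ℝ) :
    ∑ σ : Perm (Fin n), ∑ τ : Perm (Fin n),
          (((Perm.sign σ : ℤ) : ℝ) * ((Perm.sign τ : ℤ) : ℝ)) * ∏ i, M (σ i) (τ i)
      = (n.factorial : ℝ) * M.det := by
  have h1 : ∀ σ : Perm (Fin n), ∑ τ : Perm (Fin n),
          (((Perm.sign σ : ℤ) : ℝ) * ((Perm.sign τ : ℤ) : ℝ)) * ∏ i, M (σ i) (τ i) = M.det := by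
    intro σ
    have h2 : ∑ τ : Perm (Fin n), ((Perm.sign τ : ℤ) : ℝ) * ∏ i, M (σ i) (τ i)
        = ((Perm.sign σ : ℤ) : ℝ) * M.det := by
      rw [← Matrix.det_permute, ← Matrix.det_transpose, Matrix.det_apply']
      simp
    have h3 : ∑ τ : Perm (Fin n),
          (((Perm.sign σ : ℤ) : ℝ) * ((Perm.sign τ : ℤ) : ℝ)) * ∏ i, M (σ i) (τ i)
        = ((Perm.sign σ : ℤ) : ℝ) *
          ∑ τ : Perm (Fin n), ((Perm.sign τ : ℤ) : ℝ) * ∏ i, M (σ i) (τ i) := by
      rw [Finset.mul_sum]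
      refine Finset.sum_congr rfl fun τ _ => ?_
      ring
    rw [h3, h2, ← mul_assoc]
    have h4 : ((Perm.sign σ : ℤ) : ℝ) * ((Perm.sign σ : ℤ) : ℝ) = 1 := by
      rcases Int.units_eq_one_or (Perm.sign σ) with h | h <;> simp [h]
    rw [h4, one_mul]
  rw [Finset.sum_congr rfl (fun σ _ => h1 σ), Finset.sum_const, Finset.card_univ, Fintype.card_perm,
    Fintype.card_fin, nsmul_eq_mul]

theorem integrable_of_on {B : ℝ} {μ : Measure ℝ} (h : On B μ) {g : ℝ → ℝ} (hg : Continuous g) :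
    Integrable g μ := by
  have := h.1
  have h1 : IntegrableOn g (Set.Icc 0 B) μ := hg.integrableOn_Icc
  have h2 : μ.restrict (Set.Icc 0 B) = μ :=
    Measure.restrict_eq_self_of_ae_mem (by
      rw [ae_iff]
      exact h.2)
  unfold IntegrableOn at h1
  rwa [h2] at h1

end ANDRaux

open ANDRaux Equiv in
theorem pANDR : ANDR := by
  intro B μ hOn n w hw
  have := hOn.1
  simp_rw [det_sq_expand]
  have hint : ∀ k : Fin n → ℕ, ∀ i, Integrable (fun x : ℝ => w x * x ^ (k i)) μ := fun k i =>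
    integrable_of_on hOn (hw.mul (continuous_pow _))
  have hintp : ∀ k : Fin n → ℕ, Integrable (fun x : Fin n → ℝ => ∏ i, (w (x i) * x i ^ (k i)))
      (Measure.pi fun _ => μ) := fun k =>
    Integrable.fintype_prod (f := fun i x => w x * x ^ (k i)) (hint k)
  have hval : ∀ k : Fin n → ℕ, ∫ x : Fin n → ℝ, ∏ i, (w (x i) * x i ^ (k i))
      ∂(Measure.pi fun _ => μ) = ∏ i, ∫ x : ℝ, w x * x ^ (k i) ∂μ := fun k =>
    integral_fintype_prod_eq_prod (fun i x => w x * x ^ (k i))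
  rw [← perm_sum, integral_finsetSum]
  · refine Finset.sum_congr rfl fun σ _ => ?_
    rw [integral_finsetSum]
    · refine Finset.sum_congr rfl fun τ _ => ?_
      rw [integral_const_mul]
      congr 1
      rw [hval (fun i => ((σ i : Fin n) : ℕ) + ((τ i : Fin n) : ℕ))]
      rfl
    · intro τ _
      exact (hintp (fun i => ((σ i : Fin n) : ℕ) + ((τ i : Fin n) : ℕ))).const_mul _
  · intro σ _
    refine integrable_finsetSum _ fun τ _ => ?_
    exact (hintp (fun i => ((σ i : Fin n) : ℕ) + ((τ i : Fin n) : ℕ))).const_mul _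

end Pool.Agent.W401.SSS
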