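import Pool.Agent.W401.SSS.Stm

/-!
# Duality: existence of certificates
-/

open MeasureTheory Polynomial

namespace Pool.Agent.W401.SSS.DUALaux

theorem integrable_cont {B : ℝ} {ν : Measure ℝ} (hν : On B ν) {g : ℝ → ℝ} (hg : Continuous g) :
    Integrable g ν := by
  obtain ⟨hp, h0⟩ := hν
  obtain ⟨C, hC⟩ := (isCompact_Icc (a := (0 : ℝ)) (b := B)).exists_bound_of_continuousOn
    hg.continuousOn
  refine Integrable.mono' (integrable_const C) hg.aestronglyMeasurable ?_
  have h1 : ∀ᵐ x ∂ν, x ∈ Set.Icc (0 : ℝ) B := by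
    rw [ae_iff]
    exact h0
  filter_upwards [h1] with x hx
  exact hC x hx

theorem integrable_x {B : ℝ} {ν : Measure ℝ} (hν : On B ν) : Integrable (fun x : ℝ => x) ν :=
  integrable_cont hν continuous_id

theorem continuous_trunc (Q : ℤ[X]) (M : ℕ) : Continuous (trunc Q M) := by
  unfold trunc
  refine Continuous.log ((continuous_ev Q).abs.max continuous_const) fun x => ?_
  exact (lt_of_lt_of_le (Real.exp_pos _) (le_max_right _ _)).ne'

theorem log_le_trunc (Q : ℤ[X]) (M : ℕ) (x : ℝ) (hx : ev Q x ≠ 0) :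
    Real.log |ev Q x| ≤ trunc Q M x :=
  Real.log_le_log (abs_pos.2 hx) (le_max_left _ _)

theorem mem_closure {B : ℝ} (hB : 0 < B) {Z : Set ℝ} (hZ : Z.Finite) {x : ℝ}
    (hx : x ∈ Set.Icc 0 B) : x ∈ closure (Set.Icc 0 B \ Z) := by
  have h1 : Dense Zᶜ := hZ.countable.dense_compl ℝ
  have h2 : Set.Ioo 0 B ⊆ closure (Set.Ioo 0 B ∩ Zᶜ) := h1.open_subset_closure_inter isOpen_Ioo
  have h3 : x ∈ closure (Set.Ioo 0 B) := by
    rw [closure_Ioo hB.ne]
    exact hx
  have h4 : closure (Set.Ioo 0 B) ⊆ closure (Set.Ioo 0 B ∩ Zᶜ) :=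
    closure_minimal h2 isClosed_closure
  have h5 : Set.Ioo 0 B ∩ Zᶜ ⊆ Set.Icc 0 B \ Z := fun y hy =>
    ⟨⟨hy.1.1.le, hy.1.2.le⟩, hy.2⟩
  exact closure_mono h5 (h4 h3)

theorem pot_cont {F : Finset ℤ[X]} {a : ℤ[X] → ℝ} {x : ℝ} (hx : ∀ Q ∈ F, ev Q x ≠ 0) :
    ContinuousAt (pot F a) x := by
  unfold pot
  refine tendsto_finsetSum F fun Q hQ => ?_
  refine Filter.Tendsto.mul tendsto_const_nhds ?_
  exact ((continuous_ev Q).abs.continuousAt (x := x)).log (abs_ne_zero.2 (hx Q hQ))

end Pool.Agent.W401.SSS.DUALaux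

namespace Pool.Agent.W401.SSS

open DUALaux

theorem pDUAL : CPT → TRUNC → FACT → SEP → DUAL := by
  classical
  intro hC hT hF hS B lam η hB hη hmean
  by_contra hno
  have hno' : ∀ F a, ¬ Cert lam η B F a := fun F a h => hno ⟨F, a, h⟩
  have hB0 : 0 < B := by linarith
  have hsec : ∀ F : Finset ℤ[X], (∀ Q ∈ F, Adm Q) → ∃ ν : Measure ℝ, On B ν ∧
      mean ν < lam - η ∧ ∀ Q ∈ F, LogNonneg ν Q := by
    intro F hFadm
    rcases hS B lam η F hB hFadm with ⟨a, ha, hle⟩ | h
    · exfalso
      refine hno' (F.filter fun Q => 0 < a Q) a ⟨?_, ?_, ?_⟩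
      · intro Q hQ
        exact hFadm Q (Finset.mem_filter.1 hQ).1
      · intro Q hQ
        exact (Finset.mem_filter.1 hQ).2
      · intro x hx hx0
        have hpot : ∀ y, pot F a y = pot (F.filter fun Q => 0 < a Q) a y := by
          intro y
          unfold pot
          symm
          refine Finset.sum_filter_of_ne fun Q hQ hne => ?_
          rcases (ha Q hQ).eq_or_lt with h | h
          · rw [← h, zero_mul] at hne
            exact absurd rfl hne
          · exact h
        have hZ : (⋃ Q ∈ F, {y : ℝ | ev Q y = 0}).Finite :=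
          F.finite_toSet.biUnion fun Q hQ => finite_roots (hFadm Q hQ).ne_zero
        have hcl := mem_closure hB0 hZ hx
        refine ContinuousWithinAt.closure_le (g := fun y => y - lam + η) hcl
          (pot_cont hx0).continuousWithinAt (by fun_prop) fun y hy => ?_
        rw [← hpot]
        refine hle y hy.1 fun Q hQ h0 => hy.2 ?_
        exact Set.mem_biUnion hQ h0
    · exact h
  let f : Option ({Q : ℤ[X] // Adm Q} × ℕ) → ℝ → ℝ := fun i x =>
    match i with
    | none => lam - η - x
    | some q => trunc q.1.1 q.2 x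
  have hf : ∀ i, Continuous (f i) := by
    intro i
    rcases i with _ | q
    · change Continuous fun x : ℝ => lam - η - x
      fun_prop
    · exact continuous_trunc _ _
  obtain ⟨ν, hν, hνf⟩ := hC B hB0.le _ f hf (by
    intro S
    let g : Option ({Q : ℤ[X] // Adm Q} × ℕ) → Finset ℤ[X] := fun i =>
      match i with
      | none => ∅
      | some q => {q.1.1}
    obtain ⟨ν, hν, hm, hl⟩ := hsec (S.biUnion g) (by
      intro Q hQ
      obtain ⟨i, -, hi⟩ := Finset.mem_biUnion.1 hQ
      rcases i with _ | q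
      · simp [g] at hi
      · have h1 : Q = q.1.1 := Finset.mem_singleton.1 hi
        rw [h1]
        exact q.1.2)
    have : IsProbabilityMeasure ν := hν.1
    refine ⟨ν, hν, fun i hi => ?_⟩
    rcases i with _ | q
    · change 0 ≤ ∫ x, (lam - η - x) ∂ν
      rw [integral_sub (integrable_const _) (integrable_x hν)]
      unfold mean at hm
      simp only [integral_const, probReal_univ, one_smul]
      linarith
    · have hq : q.1.1 ∈ S.biUnion g := Finset.mem_biUnion.2 ⟨some q, hi, Finset.mem_singleton.2 rfl⟩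
      obtain ⟨h1, h2, h3⟩ := hl _ hq
      refine h3.trans ?_
      refine integral_mono_ae h2 (integrable_cont hν (continuous_trunc _ _)) ?_
      have h4 : ∀ᵐ x ∂ν, ev q.1.1 x ≠ 0 := by
        rw [ae_iff]
        simpa using h1
      filter_upwards [h4] with x hx
      exact log_le_trunc _ _ _ hx)
  have : IsProbabilityMeasure ν := hν.1
  have h1 : mean ν ≤ lam - η := by
    have h2 := hνf none
    change 0 ≤ ∫ x, (lam - η - x) ∂ν at h2
    rw [integral_sub (integrable_const _) (integrable_x hν)] at h2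
    unfold mean
    simp only [integral_const, probReal_univ, one_smul] at h2
    linarith
  have h2 : Arith ν := hF B ν hν fun Q hQ => hT B ν Q hQ.ne_zero hν fun M =>
    hνf (some (⟨Q, hQ⟩, M))
  have h3 := hmean ν hν h2
  linarith

end Pool.Agent.W401.SSS
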