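import Pool.Agent.W401.SSS.Stm

set_option autoImplicit false
open Polynomial Filter

namespace Pool.Agent.W401.SSS
namespace LIMIaux

theorem tp_props (α : TP) : (minpoly ℤ α.1).Monic ∧ Irreducible (minpoly ℤ α.1) ∧
    0 < (minpoly ℤ α.1).natDegree ∧ TotPos (minpoly ℤ α.1) := by
  have h1 := minpoly.monic α.2.1
  refine ⟨h1, minpoly.irreducible α.2.1, minpoly.natDegree_pos α.2.1, ?_⟩
  intro z hz
  exact α.2.2 z ((mem_rts h1.ne_zero z).1 hz)

theorem finite_F (F : Finset ℤ[X]) : {α : TP | minpoly ℤ α.1 ∈ F}.Finite := by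
  classical
  have h1 : (⋃ Q ∈ F, {z : ℂ | z ∈ rts Q}).Finite := by
    apply Set.Finite.biUnion F.finite_toSet
    intro Q _
    exact (rts Q).toFinset.finite_toSet.subset (fun z hz => by simpa using hz)
  have hinj : Function.Injective (fun α : TP => α.1) := fun a b h => Subtype.ext h
  refine (h1.preimage (f := fun α : TP => α.1) hinj.injOn).subset ?_
  intro α hα
  have h3 : minpoly ℤ α.1 ∈ F := hα
  show α.1 ∈ (⋃ Q ∈ F, {z : ℂ | z ∈ rts Q})
  refine Set.mem_iUnion₂.2 ⟨minpoly ℤ α.1, h3, ?_⟩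
  show α.1 ∈ rts (minpoly ℤ α.1)
  rw [mem_rts (minpoly.monic α.2.1).ne_zero]
  exact minpoly.aeval ℤ α.1

theorem exists_tp (p : ℤ[X]) (hm : p.Monic) (hi : Irreducible p) (hd : 1 ≤ p.natDegree)
    (ht : TotPos p) : ∃ α : TP, minpoly ℤ α.1 = p := by
  have hc : 0 < Multiset.card (rts p) := by rw [rts_card]; omega
  obtain ⟨z, hz⟩ := Multiset.card_pos_iff_exists_mem.1 hc
  have hz0 := (mem_rts hm.ne_zero z).1 hz
  have hint : IsIntegral ℤ z := ⟨p, hm, by rw [Polynomial.aeval_def] at hz0; exact hz0⟩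
  have hdvd : minpoly ℤ z ∣ p := minpoly.isIntegrallyClosed_dvd hint hz0
  have hmin : minpoly ℤ z = p := by
    apply Polynomial.eq_of_monic_of_associated (minpoly.monic hint) hm
    exact (minpoly.irreducible hint).associated_of_dvd hi hdvd
  refine ⟨⟨z, hint, ?_⟩, hmin⟩
  intro β hβ
  rw [hmin] at hβ
  exact ht β ((mem_rts hm.ne_zero β).2 hβ)

end LIMIaux

theorem pLIMI : LIMI := by
  intro lam h1 h2
  set f : TP → ℝ := fun α => mtr (minpoly ℤ α.1) with hf
  have hA : ∀ η : ℝ, 0 < η → ∀ᶠ α in cofinite, lam - η ≤ f α := by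
    intro η hη
    obtain ⟨F, hF⟩ := h1 η hη
    have h3 := LIMIaux.finite_F F
    rw [Filter.eventually_cofinite]
    refine h3.subset ?_
    intro α hα
    by_contra hcon
    obtain ⟨a1, a2, a3, a4⟩ := LIMIaux.tp_props α
    exact hα (hF _ a1 a2 a3 a4 hcon)
  have hB : ∀ t : ℝ, lam < t → ∃ᶠ α in cofinite, f α ≤ t := by
    intro t ht
    rw [Filter.frequently_cofinite_iff_infinite]
    intro hfin
    obtain ⟨N, hN⟩ := (hfin.image (fun α : TP => (minpoly ℤ α.1).natDegree)).bddAbove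
    obtain ⟨p, b1, b2, b3, b4, b5⟩ := h2 t (N + 1) ht
    obtain ⟨α, hα⟩ := LIMIaux.exists_tp p b1 b2 (by omega) b4
    have h5 : (minpoly ℤ α.1).natDegree ≤ N := by
      apply hN
      refine ⟨α, ?_, rfl⟩
      show mtr (minpoly ℤ α.1) ≤ t
      rw [hα]; exact b5
    rw [hα] at h5
    omega
  have hbdd : ∀ a : ℝ, (∀ᶠ α in cofinite, a ≤ f α) → a ≤ lam := by
    intro a ha
    by_contra hcon
    push Not at hcon
    have h6 := hB ((a + lam) / 2) (by linarith)
    obtain ⟨α, h7, h8⟩ := (h6.and_eventually ha).exists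
    linarith
  unfold lamSSS
  rw [Filter.liminf_eq]
  apply le_antisymm
  · apply csSup_le
    · exact ⟨lam - 1, hA 1 one_pos⟩
    · intro a ha
      exact hbdd a ha
  · apply le_of_forall_pos_sub_le
    intro η hη
    apply le_csSup
    · exact ⟨lam, fun a ha => hbdd a ha⟩
    · exact hA η hη

end Pool.Agent.W401.SSS
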