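import Pool.Agent.W401.SSS.Stm

set_option autoImplicit false

open MeasureTheory Polynomial

namespace Pool.Agent.W401.SSS

namespace QUANTaux

variable {c : ℝ} {ν : Measure ℝ}

/-- the distribution function -/
noncomputable def F (ν : Measure ℝ) (t : ℝ) : ℝ := (ν (Set.Icc 0 t)).toReal

theorem F_mono [IsProbabilityMeasure ν] : Monotone (F ν) := fun _ _ h =>
  ENNReal.toReal_mono (measure_ne_top _ _) (measure_mono (Set.Icc_subset_Icc le_rfl h))

theorem c_nonneg (h : Lip c ν) : 0 ≤ c := by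
  have := h 0 1 zero_le_one
  have h2 : 0 ≤ (ν (Set.Icc 0 (0 + 1))).toReal := ENNReal.toReal_nonneg
  linarith

theorem F_le [IsProbabilityMeasure ν] (h : Lip c ν) (s t : ℝ) (hst : s ≤ t) :
    F ν t ≤ F ν s + c * (t - s) := by
  have h1 : Set.Icc 0 t ⊆ Set.Icc 0 s ∪ Set.Icc s (s + (t - s)) := by
    intro x hx
    rcases le_total x s with h | h
    · exact Or.inl ⟨hx.1, h⟩
    · exact Or.inr ⟨h, by linarith [hx.2]⟩
  have h2 : F ν t ≤ (ν (Set.Icc 0 s) + ν (Set.Icc s (s + (t - s)))).toReal :=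
    ENNReal.toReal_mono (by finiteness) ((measure_mono h1).trans (measure_union_le _ _))
  rw [ENNReal.toReal_add (measure_ne_top _ _) (measure_ne_top _ _)] at h2
  have h3 := h s (t - s) (by linarith)
  unfold F at h2 ⊢
  linarith

theorem F_cont [IsProbabilityMeasure ν] (h : Lip c ν) : Continuous (F ν) := by
  have hc := c_nonneg h
  have : LipschitzWith c.toNNReal (F ν) := by
    refine LipschitzWith.of_dist_le_mul fun x y => ?_
    rw [Real.dist_eq, Real.dist_eq, Real.coe_toNNReal c hc]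
    rcases le_total x y with hxy | hxy
    · have h1 := F_le h x y hxy
      have h2 := F_mono (ν := ν) hxy
      rw [abs_sub_comm, abs_sub_comm x y, abs_of_nonneg (by linarith), abs_of_nonneg (by linarith)]
      linarith
    · have h1 := F_le h y x hxy
      have h2 := F_mono (ν := ν) hxy
      rw [abs_of_nonneg (by linarith), abs_of_nonneg (by linarith)]
      linarith
  exact this.continuous

theorem noAtoms [IsProbabilityMeasure ν] (h : Lip c ν) : NullSingletonClass ν := by
  refine ⟨fun x => ?_⟩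
  have h1 := h x 0 le_rfl
  rw [add_zero, mul_zero, Set.Icc_self] at h1
  have h2 : (ν {x}).toReal = 0 := le_antisymm h1 ENNReal.toReal_nonneg
  rcases (ENNReal.toReal_eq_zero_iff _).1 h2 with h3 | h3
  · exact h3
  · exact absurd h3 (measure_ne_top _ _)

theorem F_diff [IsProbabilityMeasure ν] (h : Lip c ν) (s t : ℝ) (hs : 0 ≤ s) (hst : s ≤ t) :
    (ν (Set.Icc s t)).toReal = F ν t - F ν s := by
  have := noAtoms h
  have h1 : ν (Set.Icc 0 t) = ν (Set.Icc 0 s) + ν (Set.Icc s t) := by
    rw [← Set.Icc_union_Ioc_eq_Icc hs hst, measure_union _ measurableSet_Ioc,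
      measure_congr (Ioc_ae_eq_Icc (a := s) (b := t) (μ := ν))]
    rw [Set.disjoint_left]
    intro x hx hx'
    exact absurd hx'.1 (not_lt.2 hx.2)
  unfold F
  rw [h1, ENNReal.toReal_add (measure_ne_top _ _) (measure_ne_top _ _)]
  ring

end QUANTaux

open QUANTaux in
theorem pQUANT : QUANT := by
  intro B c ν hB hOn hLip D hD
  obtain ⟨hprob, hnull⟩ := hOn
  have hDr : (0 : ℝ) < D := by exact_mod_cast hD
  have hF0 : F ν 0 = 0 := by
    have h1 := hLip 0 0 le_rfl
    rw [mul_zero, add_zero] at h1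
    exact le_antisymm h1 ENNReal.toReal_nonneg
  have hFB : F ν B = 1 := by
    have h1 : ν (Set.Icc 0 B) = 1 := (prob_compl_eq_zero_iff measurableSet_Icc).1 hnull
    unfold F
    rw [h1]
    rfl
  have hex : ∀ j : ℕ, ∃ x ∈ Set.Icc 0 B, j ≤ D → F ν x = j / D := by
    intro j
    by_cases hj : j ≤ D
    · have h1 := intermediate_value_Icc hB.le (F_cont hLip).continuousOn
      have h2 : (j : ℝ) / D ∈ Set.Icc (F ν 0) (F ν B) := by
        rw [hF0, hFB]
        refine ⟨by positivity, ?_⟩
        rw [div_le_one hDr]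
        exact_mod_cast hj
      obtain ⟨x, hx, hx'⟩ := h1 h2
      exact ⟨x, hx, fun _ => hx'⟩
    · exact ⟨0, ⟨le_rfl, hB.le⟩, fun h => absurd h hj⟩
  choose y hy hy' using hex
  let x : ℕ → ℝ := fun j => if j = 0 then 0 else if D ≤ j then B else y j
  have hx0 : x 0 = 0 := rfl
  have hxD : x D = B := by
    simp only [x]
    rw [if_neg hD.ne', if_pos le_rfl]
  have hxF : ∀ j, j ≤ D → 0 ≤ x j ∧ F ν (x j) = j / D := by
    intro j hj
    simp only [x]
    by_cases h0 : j = 0
    · subst h0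
      rw [if_pos rfl]
      exact ⟨le_rfl, by rw [hF0]; simp⟩
    · rw [if_neg h0]
      by_cases h1 : D ≤ j
      · rw [if_pos h1]
        have h2 : j = D := le_antisymm hj h1
        subst h2
        exact ⟨hB.le, by rw [hFB, div_self hDr.ne']⟩
      · rw [if_neg h1]
        exact ⟨(hy j).1, hy' j hj⟩
  refine ⟨x, hx0, hxD, fun j hj => ?_⟩
  obtain ⟨h1, h2⟩ := hxF j hj.le
  obtain ⟨h3, h4⟩ := hxF (j + 1) hj
  have h5 : F ν (x (j + 1)) - F ν (x j) = 1 / D := by
    rw [h2, h4]
    push_cast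
    ring
  have hlt : x j < x (j + 1) := by
    by_contra hcon
    have h6 := F_mono (ν := ν) (not_lt.1 hcon)
    have h7 : (0 : ℝ) < 1 / D := by positivity
    linarith
  exact ⟨hlt, by rw [F_diff hLip _ _ h1 hlt.le, h5]⟩

end Pool.Agent.W401.SSS
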