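import Pool.Agent.W401.SSS.Stm

/-!
# The light part of a certificate
-/

open MeasureTheory Polynomial

namespace Pool.Agent.W401.SSS

theorem pTAIL : SETI → EI → TAIL := by
  rintro ⟨C, hC, hS⟩ hEI c hc
  refine ⟨(4 * C + 24) / c, 1 / 2, by positivity, by norm_num, ?_⟩
  intro μ lam η F a hset hE δ hδ hδ2 hη
  obtain ⟨-, -, -, hpos, hsum, hbox⟩ := hS μ lam η F a hset
  obtain ⟨ε, hεd⟩ : ∃ ε, ε = δ ^ 8 := ⟨_, rfl⟩
  rw [← hεd] at hη ⊢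
  have hε : 0 < ε := by rw [hεd]; positivity
  have hε1 : ε ≤ 1 := by
    rw [hεd]
    exact pow_le_one₀ hδ.le (by linarith)
  have hsub : light F a ε ⊆ F := fun Q hQ => (mem_light.1 hQ).1
  have hε2 : 0 < ε ^ 2 := by positivity
  have hε3 : ε ^ 2 ≤ 1 := pow_le_one₀ hε.le hε1
  have hap : ∀ Q ∈ F, 0 < a Q := hset.cert.pos
  have hJ : ∀ Q : ℤ[X], 0 ≤ ∫ x : ℝ, rsum Q
      (fun α => (1 / 2) * Real.log (1 + (ε ^ 2) ^ 2 / ‖(x : ℂ) - α‖ ^ 2)) ∂μ := by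
    intro Q
    refine integral_nonneg fun x => rsum_nonneg Q _ fun α _ => ?_
    have : 0 ≤ Real.log (1 + (ε ^ 2) ^ 2 / ‖(x : ℂ) - α‖ ^ 2) :=
      Real.log_nonneg (by
        have : 0 ≤ (ε ^ 2) ^ 2 / ‖(x : ℂ) - α‖ ^ 2 := by positivity
        linarith)
    linarith
  have h1 := hEI μ hset.on hset.ar hset.eint (light F a ε) a (fun _ => ε ^ 2) (fun Q hQ =>
    ⟨hset.cert.adm Q (hsub hQ), (hap Q (hsub hQ)).le, hε2, hε3⟩)
  have h2 : ∑ Q ∈ light F a ε, a Q * ∫ x, Real.log |ev Q x| ∂μ ≤ η :=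
    (Finset.sum_le_sum_of_subset_of_nonneg hsub fun Q hQ _ =>
      mul_nonneg (hap Q hQ).le (hpos Q hQ)).trans hsum
  have h3 : ∑ Q ∈ light F a ε, a Q * ∫ x : ℝ, rsum Q
      (fun α => (1 / 2) * Real.log (1 + (ε ^ 2) ^ 2 / ‖(x : ℂ) - α‖ ^ 2)) ∂μ ≤ C * ε + η := by
    refine (Finset.sum_le_sum_of_subset_of_nonneg hsub fun Q hQ _ =>
      mul_nonneg (hap Q hQ).le (hJ Q)).trans ?_
    have := hbox (ε ^ 2) hε2 hε3
    rwa [Real.sqrt_sq hε.le] at this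
  obtain ⟨T, hT⟩ : ∃ T, T = ∑ Q ∈ light F a ε, a Q * (Q.natDegree : ℝ) := ⟨_, rfl⟩
  have hlog : 0 ≤ Real.log (1 / ε ^ 2) :=
    Real.log_nonneg (by rw [le_div_iff₀ hε2]; linarith)
  have h4 : ∑ Q ∈ light F a ε, a Q ^ 2 * (Q.natDegree : ℝ) * Real.log (1 / ε ^ 2) ≤
      ε * Real.log (1 / ε ^ 2) * T := by
    rw [hT, Finset.mul_sum]
    refine Finset.sum_le_sum fun Q hQ => ?_
    have ha := hap Q (hsub hQ)
    have ha2 := (mem_light.1 hQ).2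
    have hd : (0 : ℝ) ≤ Q.natDegree := Nat.cast_nonneg _
    have h5 : a Q ^ 2 ≤ ε * a Q := by nlinarith
    calc a Q ^ 2 * (Q.natDegree : ℝ) * Real.log (1 / ε ^ 2)
        ≤ ε * a Q * (Q.natDegree : ℝ) * Real.log (1 / ε ^ 2) := by gcongr
      _ = ε * Real.log (1 / ε ^ 2) * (a Q * (Q.natDegree : ℝ)) := by ring
  have hT0 : 0 ≤ T := by
    rw [hT]
    exact Finset.sum_nonneg fun Q hQ => mul_nonneg (hap Q (hsub hQ)).le (Nat.cast_nonneg _)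
  rw [← hT] at h1 ⊢
  have hL : Real.log (1 / ε ^ 2) = 16 * Real.log (1 / δ) := by
    rw [hεd, ← pow_mul, one_div, one_div, Real.log_inv, Real.log_inv, Real.log_pow]
    push_cast
    ring
  have hL2 : 1 ≤ 2 * Real.log (1 / δ) := by
    have h6 : Real.log 2 ≤ Real.log (1 / δ) := by
      refine Real.log_le_log (by norm_num) ?_
      rw [le_div_iff₀ hδ]
      linarith
    have := Real.log_two_gt_d9
    linarith
  rw [hL] at h1 h4
  obtain ⟨L, hLd⟩ : ∃ L, L = Real.log (1 / δ) := ⟨_, rfl⟩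
  rw [← hLd] at h1 h4 hL2 ⊢
  have hcT : T ^ 2 * c ≤ T ^ 2 * En μ := mul_le_mul_of_nonneg_left hE (sq_nonneg T)
  have h5 : T * (T * c) ≤ T * (ε * L * (4 * C + 24)) := by
    have e1 : 2 * T * (∑ Q ∈ light F a ε, a Q * ∫ x, Real.log |ev Q x| ∂μ +
        ∑ Q ∈ light F a ε, a Q * ∫ x : ℝ, rsum Q
          (fun α => (1 / 2) * Real.log (1 + (ε ^ 2) ^ 2 / ‖(x : ℂ) - α‖ ^ 2)) ∂μ) ≤
        2 * T * (η + (C * ε + η)) := by gcongr
    have e2 : 2 * T * (η + (C * ε + η)) ≤ 2 * T * (ε + (C * ε + ε)) := by gcongr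
    have e3 : 2 * T * (ε + (C * ε + ε)) ≤ T * (ε * L * (4 * C + 8)) := by
      have : (0 : ℝ) ≤ T * (ε * (2 * (C + 2))) := by positivity
      nlinarith
    nlinarith
  rcases hT0.eq_or_lt with h0 | h0
  · rw [← h0]
    have : 0 ≤ L := by linarith
    positivity
  · have h6 := le_of_mul_le_mul_left h5 h0
    rw [div_mul_eq_mul_div, div_mul_eq_mul_div, le_div_iff₀ hc]
    linarith

end Pool.Agent.W401.SSS
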